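import Mathlib

/-!
# Labelled Ulam-Harris trees: the branching property of the product measure

The index set is `List ℕ`; the child number `i` of `u` is `i :: u`, and the subtree of the child
number `i` of the root consists of the lists `v ++ [i]`.
-/

set_option autoImplicit false

open MeasureTheory ProbabilityTheory

namespace Pool.Agent.R953.Branch

/-- In an infinite product, one coordinate is independent of the others. -/
lemma map_option {α Y : Type*} [MeasurableSpace Y] (ν : Measure Y) [IsProbabilityMeasure ν] :
    (Measure.infinitePi (fun _ : Option α => ν)).map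
      (fun ω : Option α → Y => (ω none, fun a => ω (some a))) =
    ν.prod (Measure.infinitePi (fun _ : α => ν)) := by
  have hind : iIndepFun (fun (i : Option α) (ω : Option α → Y) => ω i)
      (Measure.infinitePi (fun _ : Option α => ν)) :=
    iIndepFun_infinitePi (P := fun _ : Option α => ν) (X := fun _ y => y) fun _ => measurable_id
  have h1 : IndepFun (fun ω : Option α → Y => ω none) (fun (ω : Option α → Y) (a : α) => ω (some a))
      (Measure.infinitePi (fun _ : Option α => ν)) := by
    have h2 := indep_iSup_of_disjoint (fun i => (measurable_pi_apply i).comap_le) hind.iIndep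
      (S := {none}) (T := Set.range some) (by
        rw [Set.disjoint_left]
        rintro _ rfl ⟨a, ha⟩
        exact absurd ha (by simp))
    rw [iSup_singleton, iSup_range] at h2
    rw [IndepFun_iff_Indep]
    have h3 : MeasurableSpace.comap (fun (ω : Option α → Y) (a : α) => ω (some a))
        MeasurableSpace.pi = ⨆ a : α, MeasurableSpace.comap (fun ω : Option α → Y => ω (some a))
          inferInstance := by
      unfold MeasurableSpace.pi
      rw [MeasurableSpace.comap_iSup]
      simp only [MeasurableSpace.comap_comp]
      rfl
    rw [h3]
    exact h2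
  rw [(indepFun_iff_map_prod_eq_prod_map_map (measurable_pi_apply none).aemeasurable
    (measurable_pi_lambda _ fun a => measurable_pi_apply _).aemeasurable).1 h1]
  congr 1
  · exact Measure.infinitePi_map_eval _ _
  · exact Measure.map_infinitePi_infinitePi_of_inj (P := fun _ : Option α => ν)
      (f := fun a : α => some a) (Option.some_injective α)

/-- the labels of the subtree of the child number `i` of the root -/
def sub {Y : Type*} (i : ℕ) (ω : List ℕ → Y) : List ℕ → Y := fun v => ω (v ++ [i])

/-- the product measure on the labellings of the Ulam-Harris tree -/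
noncomputable def tm {Y : Type*} [MeasurableSpace Y] (ν : Measure Y) : Measure (List ℕ → Y) :=
  Measure.infinitePi (fun _ : List ℕ => ν)

instance {Y : Type*} [MeasurableSpace Y] (ν : Measure Y) [IsProbabilityMeasure ν] :
    IsProbabilityMeasure (tm ν) := by
  unfold tm
  infer_instance

/-- **Branching property.** -/
theorem split {Y : Type*} [MeasurableSpace Y] (ν : Measure Y) [IsProbabilityMeasure ν] :
    MeasurePreserving (fun ω : List ℕ → Y => (ω [], fun i => sub i ω)) (tm ν)
      (ν.prod (Measure.infinitePi (fun _ : ℕ => tm ν))) := by
  have hm1 : Measurable (fun ω : List ℕ → Y => (ω [], fun i : ℕ => sub i ω)) := by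
    apply Measurable.prodMk (measurable_pi_apply _)
    exact measurable_pi_lambda _ fun i => measurable_pi_lambda _ fun v => measurable_pi_apply _
  refine ⟨hm1, ?_⟩
  let e : Option (ℕ × List ℕ) → List ℕ := fun o => o.elim [] (fun p => p.2 ++ [p.1])
  have he : Function.Injective e := by
    intro a b h
    rcases a with _ | ⟨i, v⟩ <;> rcases b with _ | ⟨j, w⟩
    · rfl
    · simp [e] at h
    · simp [e] at h
    · simp only [e, Option.elim] at h
      have := List.append_inj' h rfl
      simp only [List.cons.injEq, and_true] at this
      rw [this.1, this.2]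
  have h1 : (tm ν).map (fun (ω : List ℕ → Y) (o : Option (ℕ × List ℕ)) => ω (e o)) =
      Measure.infinitePi (fun _ : Option (ℕ × List ℕ) => ν) :=
    Measure.map_infinitePi_infinitePi_of_inj (P := fun _ : List ℕ => ν) he
  have hme : Measurable (fun (ω : List ℕ → Y) (o : Option (ℕ × List ℕ)) => ω (e o)) :=
    measurable_pi_lambda _ fun o => measurable_pi_apply _
  have hmo : Measurable (fun ω : Option (ℕ × List ℕ) → Y => (ω none, fun a => ω (some a))) :=
    Measurable.prodMk (measurable_pi_apply _) (measurable_pi_lambda _ fun a =>
      measurable_pi_apply _)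
  have h2 := map_option (α := ℕ × List ℕ) ν
  rw [← h1, Measure.map_map hmo hme] at h2
  have h3 : (Measure.infinitePi (fun _ : ℕ × List ℕ => ν)).map
      (MeasurableEquiv.curry ℕ (List ℕ) Y) = Measure.infinitePi (fun _ : ℕ => tm ν) :=
    Measure.infinitePi_map_curry (fun (_ : ℕ) (_ : List ℕ) => ν)
  rw [← h3]
  have h4 : ν.prod ((Measure.infinitePi (fun _ : ℕ × List ℕ => ν)).map
      (MeasurableEquiv.curry ℕ (List ℕ) Y)) =
      (ν.prod (Measure.infinitePi (fun _ : ℕ × List ℕ => ν))).map
        (Prod.map id (MeasurableEquiv.curry ℕ (List ℕ) Y)) := by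
    rw [← Measure.map_prod_map _ _ measurable_id (MeasurableEquiv.measurable _), Measure.map_id]
  rw [h4, ← h2, Measure.map_map]
  · rfl
  · exact Measurable.prodMap measurable_id (MeasurableEquiv.measurable _)
  · exact hmo.comp hme

end Pool.Agent.R953.Branch
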