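import Mathlib
import Pool.Agent.R953.Branch

/-!
# Percolation on Galton-Watson trees

`T u` is the number of children of the individual `u`; its children are `i :: u` for `i < T u`.
`ω (i :: u)` says whether the edge between `u` and `i :: u` is open.
-/

set_option autoImplicit false

open MeasureTheory ProbabilityTheory Filter
open scoped ENNReal NNReal Topology

namespace Pool.Agent.R953.GW

open Pool.Agent.R953.Branch

/-- The open cluster of the root. -/
def cluster (T : List ℕ → ℕ) (ω : List ℕ → Bool) : List ℕ → Prop
  | [] => True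
  | i :: u => cluster T ω u ∧ i < T u ∧ ω (i :: u) = true

/-- Bernoulli percolation with parameter `p ∈ [0, 1]`. -/
noncomputable def perc (p : unitInterval) : Measure (List ℕ → Bool) :=
  Measure.infinitePi (fun _ : List ℕ => bernoulliMeasure true false p)

/-- The quenched survival function `g(T, p)`, for `p ∈ [0, 1]`. -/
noncomputable def quenched (T : List ℕ → ℕ) (p : ℝ) : ℝ :=
  (perc (Set.projIcc 0 1 zero_le_one p)).real {ω | {v | cluster T ω v}.Infinite}

/-- The law of the Galton-Watson tree with offspring distribution `μ`. -/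
noncomputable def gw (μ : PMF ℕ) : Measure (List ℕ → ℕ) :=
  Measure.infinitePi (fun _ : List ℕ => μ.toMeasure)

/-- The annealed survival function `g(p) = E[g(T, p)]`, for `p ∈ [0, 1]`. -/
noncomputable def annealed (μ : PMF ℕ) (p : ℝ) : ℝ := ∫ T, quenched T p ∂(gw μ)

instance (p : unitInterval) : IsProbabilityMeasure (perc p) := by
  unfold perc; infer_instance

instance (μ : PMF ℕ) : IsProbabilityMeasure (gw μ) := by
  unfold gw; infer_instance

/-- the cluster reaches generation `n` -/
def reach (n : ℕ) (T : List ℕ → ℕ) (ω : List ℕ → Bool) : Prop :=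
  ∃ v : List ℕ, v.length = n ∧ cluster T ω v

lemma cluster_append (T : List ℕ → ℕ) (ω : List ℕ → Bool) (i : ℕ) (v : List ℕ) :
    cluster T ω (v ++ [i]) ↔ i < T [] ∧ ω [i] = true ∧ cluster (sub i T) (sub i ω) v := by
  induction v with
  | nil => simp [cluster]
  | cons j v ih =>
    rw [List.cons_append]
    unfold cluster
    rw [ih]
    change (_ ∧ j < T (v ++ [i]) ∧ ω (j :: (v ++ [i])) = true) ↔
      (_ ∧ _ ∧ _ ∧ j < T (v ++ [i]) ∧ ω ((j :: v) ++ [i]) = true)
    rw [List.cons_append]
    tauto

lemma reach_zero (T : List ℕ → ℕ) (ω : List ℕ → Bool) : reach 0 T ω := ⟨[], rfl, trivial⟩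

lemma reach_succ (n : ℕ) (T : List ℕ → ℕ) (ω : List ℕ → Bool) :
    reach (n + 1) T ω ↔ ∃ i < T [], sub i ω [] = true ∧ reach n (sub i T) (sub i ω) := by
  constructor
  · rintro ⟨v, hv, hc⟩
    have hne : v ≠ [] := by
      rintro rfl
      simp at hv
    obtain ⟨w, i, rfl⟩ : ∃ w i, v = w ++ [i] :=
      ⟨v.dropLast, v.getLast hne, (List.dropLast_append_getLast hne).symm⟩
    rw [cluster_append] at hc
    refine ⟨i, hc.1, hc.2.1, w, ?_, hc.2.2⟩
    simpa using hv
  · rintro ⟨i, hi, hω, v, hv, hc⟩
    exact ⟨v ++ [i], by simp [hv], (cluster_append _ _ _ _).2 ⟨hi, hω, hc⟩⟩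

/-- the event that the edge to the root is open and generation `n` is reached -/
def EE (n : ℕ) (T : List ℕ → ℕ) : Set (List ℕ → Bool) := {ω | ω [] = true ∧ reach n T ω}

lemma measurable_sub {Y : Type*} [MeasurableSpace Y] (i : ℕ) :
    Measurable (sub (Y := Y) i) :=
  measurable_pi_lambda _ fun _ => measurable_pi_apply _

lemma measurableSet_root : MeasurableSet {ω : List ℕ → Bool | ω [] = true} := by
  have h : Measurable (fun ω : List ℕ → Bool => ω []) := measurable_pi_apply []
  exact h (MeasurableSet.singleton true)

lemma measurableSet_reach (n : ℕ) : ∀ T : List ℕ → ℕ, MeasurableSet {ω | reach n T ω} := by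
  induction n with
  | zero =>
    intro T
    have : {ω | reach 0 T ω} = Set.univ := by
      ext ω; simp [reach_zero]
    rw [this]
    exact MeasurableSet.univ
  | succ n ih =>
    intro T
    have : {ω | reach (n + 1) T ω} = ⋃ i : ℕ, ⋃ _ : i < T [],
        (sub i ⁻¹' ({ω | ω [] = true} ∩ {ω | reach n (sub i T) ω})) := by
      ext ω
      simp only [Set.mem_ofPred_eq, reach_succ, Set.mem_iUnion, Set.mem_preimage,
        Set.mem_inter_iff, exists_prop]
    rw [this]
    exact MeasurableSet.iUnion fun i => MeasurableSet.iUnion fun _ =>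
      measurable_sub i (measurableSet_root.inter (ih _))

lemma measurableSet_EE (n : ℕ) (T : List ℕ → ℕ) : MeasurableSet (EE n T) :=
  measurableSet_root.inter (measurableSet_reach n T)

/-- the probability of reaching generation `n` -/
noncomputable def A (p : ℝ) : ℕ → (List ℕ → ℕ) → ℝ
  | 0, _ => 1
  | n + 1, T => 1 - ∏ i ∈ Finset.range (T []), (1 - p * A p n (sub i T))

lemma A_mem {p : ℝ} (hp0 : 0 ≤ p) (hp1 : p ≤ 1) (n : ℕ) :
    ∀ T, 0 ≤ A p n T ∧ A p n T ≤ 1 := by
  induction n with
  | zero => intro T; exact ⟨zero_le_one, le_rfl⟩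
  | succ n ih =>
    intro T
    have h1 : 0 ≤ ∏ i ∈ Finset.range (T []), (1 - p * A p n (sub i T)) := by
      apply Finset.prod_nonneg
      intro i _
      have := ih (sub i T)
      nlinarith
    have h2 : ∏ i ∈ Finset.range (T []), (1 - p * A p n (sub i T)) ≤ 1 := by
      apply Finset.prod_le_one
      · intro i _
        have := ih (sub i T)
        nlinarith
      · intro i _
        have := ih (sub i T)
        nlinarith [mul_nonneg hp0 this.1]
    constructor
    · change 0 ≤ 1 - _
      linarith
    · change 1 - _ ≤ 1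
      linarith

lemma perc_split (p : unitInterval) :
    MeasurePreserving (fun ω : List ℕ → Bool => (ω [], fun i => sub i ω)) (perc p)
      ((bernoulliMeasure true false p).prod (Measure.infinitePi (fun _ : ℕ => perc p))) :=
  split (bernoulliMeasure true false p)

/-- the set of the sequences of configurations of the subtrees for which generation `n + 1` is
reached -/
def SS (n : ℕ) (T : List ℕ → ℕ) : Set (ℕ → List ℕ → Bool) :=
  (Set.pi (Finset.range (T [])) (fun i => (EE n (sub i T))ᶜ))ᶜ

lemma measurableSet_SS (n : ℕ) (T : List ℕ → ℕ) : MeasurableSet (SS n T) :=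
  (MeasurableSet.pi (Finset.countable_toSet _) fun i _ => (measurableSet_EE n (sub i T)).compl).compl

lemma reach_eq (n : ℕ) (T : List ℕ → ℕ) : {ω | reach (n + 1) T ω} =
    (fun ω : List ℕ → Bool => (ω [], fun i => sub i ω)) ⁻¹' (Set.univ ×ˢ SS n T) := by
  ext ω
  simp [reach_succ, SS, EE, Set.mem_pi]

lemma EE_eq (n : ℕ) (T : List ℕ → ℕ) : EE (n + 1) T =
    (fun ω : List ℕ → Bool => (ω [], fun i => sub i ω)) ⁻¹' ({true} ×ˢ SS n T) := by
  ext ω
  simp [EE, reach_succ, SS, Set.mem_pi]

lemma ber_true (p : unitInterval) : (bernoulliMeasure true false p).real {true} = p := by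
  classical
  rw [bernoulliMeasure_real_apply p (MeasurableSet.singleton true)]
  simp

lemma SS_measure (p : unitInterval) (n : ℕ) (T : List ℕ → ℕ)
    (h : ∀ i, (perc p).real (EE n (sub i T)) = p * A p n (sub i T)) :
    (Measure.infinitePi (fun _ : ℕ => perc p)).real (SS n T) = A p (n + 1) T := by
  have h1 : (Measure.infinitePi (fun _ : ℕ => perc p)).real
      (Set.pi (Finset.range (T [])) (fun i => (EE n (sub i T))ᶜ)) =
      ∏ i ∈ Finset.range (T []), (1 - p * A p n (sub i T)) := by
    unfold Measure.real
    rw [Measure.infinitePi_pi _ fun i _ => (measurableSet_EE n (sub i T)).compl,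
      ENNReal.toReal_prod]
    refine Finset.prod_congr rfl fun i _ => ?_
    have := probReal_compl_eq_one_sub (μ := perc p) (measurableSet_EE n (sub i T))
    unfold Measure.real at this
    rw [this]
    have h2 := h i
    unfold Measure.real at h2
    rw [h2]
  unfold SS
  rw [probReal_compl_eq_one_sub (MeasurableSet.pi (Finset.countable_toSet _) fun i _ =>
    (measurableSet_EE n (sub i T)).compl), h1]
  rfl

lemma EE_measure (p : unitInterval) (n : ℕ) :
    ∀ T, (perc p).real (EE n T) = p * A p n T := by
  induction n with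
  | zero =>
    intro T
    have h1 : EE 0 T = (fun ω : List ℕ → Bool => ω []) ⁻¹' {true} := by
      ext ω
      simp [EE, reach_zero]
    rw [h1]
    unfold Measure.real
    rw [← Measure.map_apply (measurable_pi_apply []) (MeasurableSet.singleton _)]
    unfold perc
    rw [Measure.infinitePi_map_eval]
    have := ber_true p
    unfold Measure.real at this
    rw [this]
    simp [A]
  | succ n ih =>
    intro T
    rw [EE_eq]
    unfold Measure.real
    rw [(perc_split p).measure_preimage
      ((MeasurableSet.singleton true).prod (measurableSet_SS n T)).nullMeasurableSet,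
      Measure.prod_prod, ENNReal.toReal_mul]
    have h1 := ber_true p
    have h2 := SS_measure p n T fun i => ih (sub i T)
    unfold Measure.real at h1 h2
    rw [h1, h2]

lemma reach_measure (p : unitInterval) (n : ℕ) (T : List ℕ → ℕ) :
    (perc p).real {ω | reach n T ω} = A p n T := by
  cases n with
  | zero =>
    have : {ω | reach 0 T ω} = Set.univ := by
      ext ω; simp [reach_zero]
    rw [this]
    simp [A]
  | succ n =>
    rw [reach_eq]
    unfold Measure.real
    rw [(perc_split p).measure_preimage
      (MeasurableSet.univ.prod (measurableSet_SS n T)).nullMeasurableSet,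
      Measure.prod_prod, ENNReal.toReal_mul, measure_univ, ENNReal.toReal_one, one_mul]
    exact SS_measure p n T fun i => EE_measure p n (sub i T)

lemma cluster_tail {T : List ℕ → ℕ} {ω : List ℕ → Bool} {v : List ℕ} :
    ∀ w : List ℕ, cluster T ω (w ++ v) → cluster T ω v := by
  intro w
  induction w with
  | nil => intro h; exact h
  | cons i w ih =>
    intro h
    rw [List.cons_append] at h
    exact ih h.1

lemma finite_generation (T : List ℕ → ℕ) (ω : List ℕ → Bool) (n : ℕ) :
    {v : List ℕ | v.length = n ∧ cluster T ω v}.Finite := by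
  induction n with
  | zero =>
    apply (Set.finite_singleton []).subset
    rintro v ⟨hv, -⟩
    rw [Set.mem_singleton_iff]
    exact List.length_eq_zero_iff.1 hv
  | succ n ih =>
    have h : {v : List ℕ | v.length = n + 1 ∧ cluster T ω v} ⊆
        ⋃ u ∈ {v : List ℕ | v.length = n ∧ cluster T ω v}, (fun i => i :: u) '' Set.Iio (T u) := by
      rintro v ⟨hv, hc⟩
      cases v with
      | nil => simp at hv
      | cons i u =>
        simp only [Set.mem_iUnion, Set.mem_image]
        exact ⟨u, ⟨by simpa using hv, hc.1⟩, i, hc.2.1, rfl⟩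
    exact (ih.biUnion fun u _ => (Set.finite_Iio _).image _).subset h

lemma reach_anti {T : List ℕ → ℕ} {ω : List ℕ → Bool} {n m : ℕ} (hnm : n ≤ m)
    (h : reach m T ω) : reach n T ω := by
  obtain ⟨v, hv, hc⟩ := h
  refine ⟨v.drop (m - n), by rw [List.length_drop]; omega, ?_⟩
  apply cluster_tail (v.take (m - n))
  rw [List.take_append_drop]
  exact hc

lemma infinite_iff (T : List ℕ → ℕ) (ω : List ℕ → Bool) :
    {v | cluster T ω v}.Infinite ↔ ∀ n, reach n T ω := by
  constructor
  · intro h n
    by_contra hn
    apply h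
    have : {v | cluster T ω v} ⊆ ⋃ k ∈ Set.Iio n, {v : List ℕ | v.length = k ∧ cluster T ω v} := by
      intro v hv
      simp only [Set.mem_iUnion]
      refine ⟨v.length, ?_, rfl, hv⟩
      rw [Set.mem_Iio]
      by_contra hlen
      exact hn (reach_anti (not_lt.1 hlen) ⟨v, rfl, hv⟩)
    exact ((Set.finite_Iio n).biUnion fun k _ => finite_generation T ω k).subset this
  · intro h hfin
    have himg : (List.length '' {v | cluster T ω v}).Finite := hfin.image _
    obtain ⟨b, hb⟩ := himg.bddAbove
    obtain ⟨v, hv, hc⟩ := h (b + 1)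
    have := hb ⟨v, hc, rfl⟩
    omega

/-- the quenched survival probability is the limit of the probabilities of reaching generation
`n` -/
lemma tendsto_A (p : unitInterval) (T : List ℕ → ℕ) :
    Tendsto (fun n => A p n T) atTop (𝓝 (quenched T p)) := by
  have h1 : {ω : List ℕ → Bool | {v | cluster T ω v}.Infinite} = ⋂ n, {ω | reach n T ω} := by
    ext ω
    simp [infinite_iff]
  have h2 : quenched T p = (perc p).real (⋂ n, {ω | reach n T ω}) := by
    unfold quenched
    rw [h1]
    congr 2
    exact Set.projIcc_val zero_le_one p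
  rw [h2]
  have hanti : Antitone (fun n => {ω : List ℕ → Bool | reach n T ω}) := by
    intro n m hnm ω h
    exact reach_anti hnm h
  have h3 := tendsto_measure_iInter_atTop (μ := perc p)
    (fun n => (measurableSet_reach n T).nullMeasurableSet) hanti ⟨0, measure_ne_top _ _⟩
  have h4 := (ENNReal.tendsto_toReal (measure_ne_top (perc p) (⋂ n, {ω | reach n T ω}))).comp h3
  refine h4.congr fun n => ?_
  exact reach_measure p n T

/-! ### The annealed recursion -/

lemma gw_split (μ : PMF ℕ) :
    MeasurePreserving (fun T : List ℕ → ℕ => (T [], fun i => sub i T)) (gw μ)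
      (μ.toMeasure.prod (Measure.infinitePi (fun _ : ℕ => gw μ))) :=
  split μ.toMeasure

/-- A function of the root label and of finitely many functions of the subtrees is measurable. -/
lemma measurable_prod_range {Z : Type*} [MeasurableSpace Z] {M : Type*} [CommMonoid M]
    [MeasurableSpace M] [MeasurableMul₂ M] {f : Z → M} (hf : Measurable f) :
    Measurable (fun x : ℕ × (ℕ → Z) => ∏ i ∈ Finset.range x.1, f (x.2 i)) := by
  apply measurable_from_prod_countable_right
  intro k
  have h := Finset.measurable_fun_prod (f := fun (i : ℕ) (z : ℕ → Z) => f (z i)) (Finset.range k)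
    fun i _ => hf.comp (measurable_pi_apply i)
  exact h

lemma measurable_A (p : ℝ) (n : ℕ) : Measurable (A p n) := by
  induction n with
  | zero => exact measurable_const
  | succ n ih =>
    have h1 : Measurable (fun T : List ℕ → ℕ => 1 - p * A p n T) :=
      measurable_const.sub (measurable_const.mul ih)
    have h2 : Measurable (fun T : List ℕ → ℕ => (T [], fun i => sub i T)) :=
      Measurable.prodMk (measurable_pi_apply _) (measurable_pi_lambda _ fun i => measurable_sub i)
    have h3 := (measurable_prod_range h1).comp h2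
    exact measurable_const.sub h3

/-- integral of a product over independent coordinates -/
lemma integral_prod_range {Z : Type*} [MeasurableSpace Z] (P : Measure Z) [IsProbabilityMeasure P]
    {𝕜 : Type*} [RCLike 𝕜] {f : Z → 𝕜} (hf : AEStronglyMeasurable f P) (k : ℕ) :
    ∫ z : ℕ → Z, ∏ i ∈ Finset.range k, f (z i) ∂(Measure.infinitePi (fun _ : ℕ => P)) =
      (∫ z, f z ∂P) ^ k := by
  have h1 : ∀ z : ℕ → Z, ∏ i ∈ Finset.range k, f (z i) =
      (fun y : (Finset.range k) → Z => ∏ i, f (y i)) ((Finset.range k).restrict z) := by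
    intro z
    simp only [Finset.restrict]
    rw [← Finset.prod_coe_sort]
  have hmeas : AEStronglyMeasurable (fun y : (Finset.range k) → Z => ∏ i, f (y i))
      (Measure.pi (fun _ : (Finset.range k) => P)) := by
    apply Finset.aestronglyMeasurable_fun_prod
    intro i _
    exact hf.comp_quasiMeasurePreserving (Measure.quasiMeasurePreserving_eval _ i)
  have h2 := MeasureTheory.integral_restrict_infinitePi (μ := fun _ : ℕ => P)
    (s := Finset.range k) (f := fun y : (Finset.range k) → Z => ∏ i, f (y i)) hmeas
  rw [integral_congr_ae (Eventually.of_forall h1), h2,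
    integral_fintype_prod_eq_prod (μ := fun _ : (Finset.range k) => P) (fun _ => f),
    Finset.prod_const, Finset.card_univ, Fintype.card_coe, Finset.card_range]

/-- the generating function -/
noncomputable def gf (μ : PMF ℕ) (z : ℝ) : ℝ := ∑' k, (μ k).toReal * z ^ k

/-- the annealed probability of reaching generation `n` -/
noncomputable def th (μ : PMF ℕ) (p : ℝ) (n : ℕ) : ℝ := ∫ T, A p n T ∂(gw μ)

lemma th_zero (μ : PMF ℕ) (p : ℝ) : th μ p 0 = 1 := by
  unfold th
  simp [A]

lemma integrable_of_mem {Ω : Type*} [MeasurableSpace Ω] {P : Measure Ω} [IsProbabilityMeasure P]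
    {f : Ω → ℝ} (hf : Measurable f) {b : ℝ} (h0 : ∀ x, |f x| ≤ b) : Integrable f P :=
  Integrable.of_bound hf.aestronglyMeasurable b (Eventually.of_forall h0)

lemma th_mem (μ : PMF ℕ) {p : ℝ} (hp0 : 0 ≤ p) (hp1 : p ≤ 1) (n : ℕ) :
    0 ≤ th μ p n ∧ th μ p n ≤ 1 := by
  have hint : Integrable (A p n) (gw μ) := integrable_of_mem (measurable_A p n) (b := 1) fun T => by
    rw [abs_le]
    have := A_mem hp0 hp1 n T
    constructor <;> linarith
  constructor
  · exact integral_nonneg fun T => (A_mem hp0 hp1 n T).1
  · have h1 : th μ p n ≤ ∫ _T, (1 : ℝ) ∂(gw μ) :=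
      integral_mono hint (integrable_const _) fun T => (A_mem hp0 hp1 n T).2
    simpa using h1

lemma integral_pmf (μ : PMF ℕ) {f : ℕ → ℝ} {b : ℝ} (hb : ∀ k, |f k| ≤ b) :
    ∫ k, f k ∂μ.toMeasure = ∑' k, (μ k).toReal * f k := by
  rw [PMF.integral_eq_tsum]
  · simp
  · exact integrable_of_mem (measurable_of_countable f) hb

lemma th_succ (μ : PMF ℕ) {p : ℝ} (hp0 : 0 ≤ p) (hp1 : p ≤ 1) (n : ℕ) :
    th μ p (n + 1) = 1 - gf μ (1 - p * th μ p n) := by
  set f : (List ℕ → ℕ) → ℝ := fun T => 1 - p * A p n T with hf
  have hfm : Measurable f := measurable_const.sub (measurable_const.mul (measurable_A p n))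
  have hf01 : ∀ T, 0 ≤ f T ∧ f T ≤ 1 := by
    intro T
    have := A_mem hp0 hp1 n T
    simp only [hf]
    constructor
    · nlinarith
    · nlinarith [mul_nonneg hp0 this.1]
  have hint : Integrable (A p n) (gw μ) := integrable_of_mem (measurable_A p n) (b := 1) fun T => by
    rw [abs_le]
    have := A_mem hp0 hp1 n T
    constructor <;> linarith
  have h0 : ∫ T, f T ∂(gw μ) = 1 - p * th μ p n := by
    simp only [hf]
    rw [integral_sub (integrable_const _) (hint.const_mul p), integral_const_mul]
    simp [th]
  set F : ℕ × (ℕ → List ℕ → ℕ) → ℝ := fun x => ∏ i ∈ Finset.range x.1, f (x.2 i) with hF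
  have hFm : Measurable F := measurable_prod_range hfm
  have hF01 : ∀ x, 0 ≤ F x ∧ F x ≤ 1 := fun x =>
    ⟨Finset.prod_nonneg fun i _ => (hf01 _).1, Finset.prod_le_one (fun i _ => (hf01 _).1)
      fun i _ => (hf01 _).2⟩
  have h1 : th μ p (n + 1) = ∫ x, (1 - F x) ∂(μ.toMeasure.prod
      (Measure.infinitePi (fun _ : ℕ => gw μ))) := by
    rw [← (gw_split μ).map_eq, integral_map (gw_split μ).measurable.aemeasurable]
    · rfl
    · exact (measurable_const.sub hFm).aestronglyMeasurable
  have hFi : Integrable F (μ.toMeasure.prod (Measure.infinitePi (fun _ : ℕ => gw μ))) :=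
    integrable_of_mem hFm (b := 1) fun x => by
      rw [abs_le]
      have := hF01 x
      constructor <;> linarith
  rw [h1, integral_sub (integrable_const _) hFi, integral_prod _ hFi]
  simp only [integral_const, probReal_univ, smul_eq_mul, mul_one]
  congr 1
  have h2 : ∀ k : ℕ, ∫ z, F (k, z) ∂(Measure.infinitePi (fun _ : ℕ => gw μ)) =
      (1 - p * th μ p n) ^ k := by
    intro k
    simp only [hF]
    rw [integral_prod_range (gw μ) hfm.aestronglyMeasurable k, h0]
  simp only [h2]
  have hth := th_mem μ hp0 hp1 n
  rw [integral_pmf μ (b := 1)]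
  · rfl
  · intro k
    have h3 : 0 ≤ 1 - p * th μ p n := by nlinarith
    have h4 : 1 - p * th μ p n ≤ 1 := by nlinarith [mul_nonneg hp0 hth.1]
    rw [abs_le]
    constructor
    · have := pow_nonneg h3 k
      linarith
    · exact pow_le_one₀ h3 h4

lemma measurable_quenched (p : unitInterval) :
    Measurable (fun T : List ℕ → ℕ => quenched T p) :=
  measurable_of_tendsto_metrizable (fun n => measurable_A p n)
    (tendsto_pi_nhds.2 fun T => tendsto_A p T)

/-- the annealed survival probability is the limit of the annealed probabilities of reaching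
generation `n` -/
lemma tendsto_th (μ : PMF ℕ) (p : unitInterval) :
    Tendsto (fun n => th μ p n) atTop (𝓝 (annealed μ p)) := by
  unfold annealed th
  apply tendsto_integral_of_dominated_convergence (fun _ => (1 : ℝ))
  · intro n
    exact (measurable_A p n).aestronglyMeasurable
  · exact integrable_const _
  · intro n
    refine Eventually.of_forall fun T => ?_
    rw [Real.norm_eq_abs, abs_le]
    have := A_mem p.2.1 p.2.2 n T
    constructor <;> linarith
  · exact Eventually.of_forall fun T => tendsto_A p T

end Pool.Agent.R953.GW
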