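import Mathlib
import Pool.Agent.R953.GW

/-!
# Bootstrap percolation: definitions, and monotonicity in the density
-/

set_option autoImplicit false

open MeasureTheory ProbabilityTheory Filter
open scoped ENNReal NNReal Topology

namespace Pool.Agent.R953.Boot

open Pool.Agent.R953.Branch Pool.Agent.R953.GW

/-- One step of `r`-neighbour bootstrap percolation on the graph `G`: every vertex with at least
`r` infected neighbours becomes infected, and infected vertices stay infected. -/
def step {V : Type*} (G : SimpleGraph V) (r : ℕ) (A : Set V) : Set V :=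
  A ∪ {v | (r : ℕ∞) ≤ (G.neighborSet v ∩ A).encard}

/-- Every vertex is eventually infected if initially the vertices of `A` are infected. -/
def Percolates {V : Type*} (G : SimpleGraph V) (r : ℕ) (A : Set V) : Prop :=
  ∀ v : V, ∃ n : ℕ, v ∈ (step G r)^[n] A

/-- The law of the initial configuration: every vertex is infected (`true`) with probability `p`,
independently of the other ones. -/
noncomputable def initial (V : Type*) (p : unitInterval) : Measure (V → Bool) :=
  Measure.infinitePi (fun _ : V => bernoulliMeasure true false p)

/-- The probability that `G` percolates in `r`-neighbour bootstrap percolation with parameter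
`p`. -/
noncomputable def percProb {V : Type*} (G : SimpleGraph V) (r : ℕ) (p : unitInterval) : ℝ≥0∞ :=
  initial V p {ω | Percolates G r {v | ω v = true}}

/-- The critical probability of `r`-neighbour bootstrap percolation on `G`. -/
noncomputable def pcrit {V : Type*} (G : SimpleGraph V) (r : ℕ) : ℝ :=
  sInf {x : ℝ | ∃ p : unitInterval, (p : ℝ) = x ∧ 0 < percProb G r p}

instance (V : Type*) (p : unitInterval) : IsProbabilityMeasure (initial V p) := by
  unfold initial; infer_instance

lemma step_mono {V : Type*} (G : SimpleGraph V) (r : ℕ) : Monotone (step G r) := by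
  intro A B h v hv
  rcases hv with hv | hv
  · exact Or.inl (h hv)
  · exact Or.inr (le_trans hv (Set.encard_le_encard (Set.inter_subset_inter_right _ h)))

lemma iter_mono {V : Type*} (G : SimpleGraph V) (r n : ℕ) : Monotone ((step G r)^[n]) :=
  (step_mono G r).iterate n

lemma percolates_mono {V : Type*} (G : SimpleGraph V) (r : ℕ) {A B : Set V} (h : A ⊆ B)
    (hA : Percolates G r A) : Percolates G r B := fun v => by
  obtain ⟨n, hn⟩ := hA v
  exact ⟨n, iter_mono G r n h hn⟩

lemma subset_step {V : Type*} (G : SimpleGraph V) (r : ℕ) (A : Set V) : A ⊆ step G r A :=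
  Set.subset_union_left

lemma le_encard_iff {V : Type*} (S : Set V) (r : ℕ) :
    (r : ℕ∞) ≤ S.encard ↔ ∃ s : Finset V, s.card = r ∧ (s : Set V) ⊆ S := by
  constructor
  · intro h
    obtain ⟨t, hts, ht⟩ := Set.exists_subset_encard_eq h
    have hfin : t.Finite := Set.finite_of_encard_eq_coe ht
    refine ⟨hfin.toFinset, ?_, by simpa using hts⟩
    have := hfin.encard_eq_coe_toFinset_card
    rw [ht] at this
    exact_mod_cast this.symm
  · rintro ⟨s, hs, hsub⟩
    calc (r : ℕ∞) = (s : Set V).encard := by rw [Set.encard_coe_eq_coe_finsetCard, hs]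
      _ ≤ S.encard := Set.encard_le_encard hsub

lemma measurableSet_iter {V : Type*} [Countable V] (G : SimpleGraph V) (r n : ℕ) :
    ∀ v, MeasurableSet {ω : V → Bool | v ∈ (step G r)^[n] {v | ω v = true}} := by
  induction n with
  | zero =>
    intro v
    have h : Measurable (fun ω : V → Bool => ω v) := measurable_pi_apply v
    exact h (MeasurableSet.singleton true)
  | succ n ih =>
    intro v
    have : {ω : V → Bool | v ∈ (step G r)^[n + 1] {v | ω v = true}} =
        {ω : V → Bool | v ∈ (step G r)^[n] {v | ω v = true}} ∪
        ⋃ s ∈ {s : Finset V | s.card = r ∧ (s : Set V) ⊆ G.neighborSet v},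
          ⋂ w ∈ (s : Set V), {ω : V → Bool | w ∈ (step G r)^[n] {v | ω v = true}} := by
      ext ω
      rw [Set.mem_ofPred_eq, Function.iterate_succ_apply']
      simp only [step, Set.mem_union, Set.mem_ofPred_eq, le_encard_iff, Set.mem_iUnion,
        Set.mem_iInter, exists_prop]
      constructor
      · rintro (h | ⟨s, hs, hsub⟩)
        · exact Or.inl h
        · exact Or.inr ⟨s, ⟨hs, fun x hx => (hsub hx).1⟩, fun w hw => (hsub hw).2⟩
      · rintro (h | ⟨s, ⟨hs, hsub⟩, h⟩)
        · exact Or.inl h
        · exact Or.inr ⟨s, hs, fun x hx => ⟨hsub hx, h x hx⟩⟩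
    rw [this]
    refine (ih v).union ?_
    refine MeasurableSet.biUnion (Set.to_countable _) fun s _ => ?_
    exact MeasurableSet.biInter (Set.to_countable _) fun w _ => ih w

lemma measurableSet_percolates {V : Type*} [Countable V] (G : SimpleGraph V) (r : ℕ) :
    MeasurableSet {ω : V → Bool | Percolates G r {v | ω v = true}} := by
  have : {ω : V → Bool | Percolates G r {v | ω v = true}} =
      ⋂ v, ⋃ n, {ω : V → Bool | v ∈ (step G r)^[n] {v | ω v = true}} := by
    ext ω
    simp [Percolates]
  rw [this]
  exact MeasurableSet.iInter fun v => MeasurableSet.iUnion fun n => measurableSet_iter G r n v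

/-- threshold function -/
noncomputable def thr (p u : unitInterval) : Bool := by
  classical exact decide (u ≤ p)

lemma thr_eq_true {p u : unitInterval} : thr p u = true ↔ u ≤ p := by
  classical
  simp [thr]

lemma measurable_thr (p : unitInterval) : Measurable (thr p) := by
  apply measurable_to_bool
  have : thr p ⁻¹' {true} = Set.Iic p := by
    ext u
    simp [thr_eq_true]
  rw [this]
  exact measurableSet_Iic

lemma map_thr (p : unitInterval) :
    (volume : Measure unitInterval).map (thr p) = bernoulliMeasure true false p := by
  classical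
  have : IsProbabilityMeasure ((volume : Measure unitInterval).map (thr p)) :=
    Measure.isProbabilityMeasure_map (measurable_thr p).aemeasurable
  have htrue : (volume : Measure unitInterval).map (thr p) {true} =
      bernoulliMeasure true false p {true} := by
    rw [Measure.map_apply (measurable_thr p) (MeasurableSet.singleton true)]
    have : thr p ⁻¹' {true} = Set.Iic p := by
      ext u
      simp [thr_eq_true]
    rw [this, unitInterval.volume_Iic]
    have h := ber_true p
    unfold Measure.real at h
    rw [← h, ENNReal.ofReal_toReal (measure_ne_top _ _)]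
  have hfalse : ∀ ν : Measure Bool, IsProbabilityMeasure ν → ν {false} = 1 - ν {true} := by
    intro ν hν
    have : ({false} : Set Bool) = {true}ᶜ := by
      ext b; cases b <;> simp
    rw [this, prob_compl_eq_one_sub (MeasurableSet.singleton true)]
  refine Measure.ext_of_singleton fun b => ?_
  cases b
  · rw [hfalse _ inferInstance, hfalse _ inferInstance, htrue]
  · exact htrue

lemma map_thr_pi (V : Type*) (p : unitInterval) :
    (Measure.infinitePi (fun _ : V => (volume : Measure unitInterval))).map
      (fun u v => thr p (u v)) = initial V p := by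
  rw [Measure.infinitePi_map_pi _ fun _ => measurable_thr p]
  unfold initial
  simp_rw [map_thr]

lemma percProb_mono {V : Type*} [Countable V] (G : SimpleGraph V) (r : ℕ) :
    Monotone (percProb G r) := by
  intro p q hpq
  unfold percProb
  have hm : ∀ p : unitInterval, Measurable (fun (u : V → unitInterval) v => thr p (u v)) :=
    fun p => measurable_pi_lambda _ fun v => (measurable_thr p).comp (measurable_pi_apply v)
  rw [← map_thr_pi, ← map_thr_pi, Measure.map_apply (hm p) (measurableSet_percolates G r),
    Measure.map_apply (hm q) (measurableSet_percolates G r)]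
  apply measure_mono
  intro u hu
  refine percolates_mono G r ?_ hu
  intro v hv
  rw [Set.mem_ofPred_eq, thr_eq_true] at hv ⊢
  exact hv.trans hpq

lemma percProb_one {V : Type*} [Countable V] (G : SimpleGraph V) (r : ℕ) :
    percProb G r 1 = 1 := by
  have h1 : initial V 1 = Measure.dirac (fun _ => true) := by
    unfold initial
    simp_rw [bernoulliMeasure_one]
    exact Measure.infinitePi_dirac _
  unfold percProb
  rw [h1, Measure.dirac_apply' _ (measurableSet_percolates G r)]
  rw [Set.indicator_of_mem]
  · rfl
  · intro v
    exact ⟨0, rfl⟩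

/-- Lower bound of the critical probability. -/
lemma le_pcrit {V : Type*} [Countable V] (G : SimpleGraph V) (r : ℕ) {c : ℝ}
    (u : ℕ → unitInterval) (hu : ∀ x : ℝ, 0 ≤ x → x < c → ∃ n, x ≤ u n)
    (h : ∀ n, percProb G r (u n) = 0) : c ≤ pcrit G r := by
  apply le_csInf
  · exact ⟨1, 1, rfl, by rw [percProb_one]; exact one_pos⟩
  · rintro x ⟨p, rfl, hp⟩
    by_contra hlt
    obtain ⟨n, hn⟩ := hu p p.2.1 (not_le.1 hlt)
    have h1 : percProb G r p ≤ percProb G r (u n) := percProb_mono G r hn
    rw [h n] at h1
    exact absurd (le_antisymm h1 bot_le) hp.ne'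

end Pool.Agent.R953.Boot
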