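import Mathlib
import Pool.Agent.R953.Boot

/-!
# Bootstrap percolation on Galton-Watson trees

The tree of `T : List ℕ → ℕ` has root `[]`, and the children of its vertex `u` are `i :: u` for
`i < T u`.
-/

set_option autoImplicit false

open MeasureTheory ProbabilityTheory Filter
open scoped ENNReal NNReal Topology

namespace Pool.Agent.R953.Boot

open Pool.Agent.R953.Branch Pool.Agent.R953.GW

/-- `u` is a vertex of the tree in which every vertex `u` has the `T u` children `i :: u`,
`i < T u`; the root is `[]` -/
def InT (T : List ℕ → ℕ) : List ℕ → Prop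
  | [] => True
  | i :: u => InT T u ∧ i < T u

/-- The tree of `T`, as a graph. -/
def treeG (T : List ℕ → ℕ) : SimpleGraph {v : List ℕ // InT T v} where
  Adj v w := (∃ i : ℕ, v.1 = i :: w.1) ∨ (∃ i : ℕ, w.1 = i :: v.1)
  symm := ⟨fun _ _ h => h.symm⟩
  loopless := ⟨fun v h => by
    rcases h with ⟨i, h⟩ | ⟨i, h⟩ <;> exact absurd h (by simp)⟩

/-- the root gets infected from below within `n` steps -/
def Bel (r : ℕ) : ℕ → (List ℕ → ℕ × Bool) → Prop
  | 0, X => (X []).2 = true
  | n + 1, X => (X []).2 = true ∨
      ∃ s : Finset ℕ, s.card = r ∧ ∀ i ∈ s, i < (X []).1 ∧ Bel r n (sub i X)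

/-- the labels of the subtree of `u` -/
def at' {Y : Type*} (u : List ℕ) (X : List ℕ → Y) : List ℕ → Y := fun v => X (v ++ u)

lemma at_nil {Y : Type*} (X : List ℕ → Y) : at' [] X = X := by
  funext v
  simp [at']

lemma at_cons {Y : Type*} (i : ℕ) (u : List ℕ) (X : List ℕ → Y) :
    at' (i :: u) X = sub i (at' u X) := by
  funext v
  simp [at', sub]

lemma at_append {Y : Type*} (i : ℕ) (u : List ℕ) (X : List ℕ → Y) :
    at' (u ++ [i]) X = at' u (sub i X) := by
  funext v
  simp [at', sub]

lemma Bel_succ_of {r n : ℕ} : ∀ {X : List ℕ → ℕ × Bool}, Bel r n X → Bel r (n + 1) X := by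
  induction n with
  | zero => intro X h; exact Or.inl h
  | succ n ih =>
    intro X h
    rcases h with h | ⟨s, hs, h⟩
    · exact Or.inl h
    · exact Or.inr ⟨s, hs, fun i hi => ⟨(h i hi).1, ih (h i hi).2⟩⟩

/-- the bad event: the root is healthy, and none of its children gets infected from below -/
def Hev (r : ℕ) (X : List ℕ → ℕ × Bool) : Prop :=
  (X []).2 = false ∧ ∀ i < (X []).1, ∀ n, ¬ Bel r n (sub i X)

/-- the infected set at time `n` -/
def inf (r : ℕ) (X : List ℕ → ℕ × Bool) (n : ℕ) : Set {v : List ℕ // InT (fun u => (X u).1) v} :=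
  (step (treeG fun u => (X u).1) r)^[n] {v | (X v.1).2 = true}

lemma inf_succ (r : ℕ) (X : List ℕ → ℕ × Bool) (n : ℕ) :
    inf r X (n + 1) = step (treeG fun u => (X u).1) r (inf r X n) := by
  unfold inf
  rw [Function.iterate_succ_apply']

lemma inf_mono (r : ℕ) (X : List ℕ → ℕ × Bool) : Monotone (inf r X) := by
  apply monotone_nat_of_le_succ
  intro n
  rw [inf_succ]
  exact subset_step _ _ _

/-- A vertex whose parent is healthy up to time `n` is infected at time `n` only if it is infected
from below. -/
lemma bel_of_inf (r : ℕ) (X : List ℕ → ℕ × Bool) (n : ℕ) :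
    ∀ v : {v : List ℕ // InT (fun u => (X u).1) v},
      (∀ w : {v : List ℕ // InT (fun u => (X u).1) v}, ∀ i : ℕ, v.1 = i :: w.1 →
        ∀ m < n, w ∉ inf r X m) →
      v ∈ inf r X n → Bel r n (at' v.1 X) := by
  induction n with
  | zero =>
    intro v _ hv
    change (X ([] ++ v.1)).2 = true
    rw [List.nil_append]
    exact hv
  | succ n ih =>
    intro v hpar hv
    rw [inf_succ] at hv
    by_cases hvn : v ∈ inf r X n
    · exact Bel_succ_of (ih v (fun w i h m hm => hpar w i h m (by omega)) hvn)
    rcases hv with hv | hv
    · exact absurd hv hvn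
    · rw [Set.mem_ofPred_eq, le_encard_iff] at hv
      obtain ⟨s, hs, hsub⟩ := hv
      -- the infected neighbours are children
      have hchild : ∀ w ∈ s, ∃ i : ℕ, w.1 = i :: v.1 := by
        intro w hw
        have h1 := hsub hw
        rcases h1.1 with ⟨i, hi⟩ | ⟨i, hi⟩
        · exact absurd h1.2 (hpar w i hi n (by omega))
        · exact ⟨i, hi⟩
      right
      refine ⟨s.image fun w => w.1.headD 0, ?_, ?_⟩
      · rw [Finset.card_image_of_injOn, hs]
        intro w hw w' hw' heq
        obtain ⟨i, hi⟩ := hchild w hw
        obtain ⟨j, hj⟩ := hchild w' hw'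
        apply Subtype.ext
        simp only [hi, hj, List.headD_cons] at heq
        rw [hi, hj, heq]
      · intro i hi
        rw [Finset.mem_image] at hi
        obtain ⟨w, hw, rfl⟩ := hi
        obtain ⟨i, hi⟩ := hchild w hw
        have hi' : w.1.headD 0 = i := by rw [hi]; rfl
        rw [hi']
        have hwT := w.2
        rw [hi] at hwT
        refine ⟨?_, ?_⟩
        · change i < (X ([] ++ v.1)).1
          rw [List.nil_append]
          exact hwT.2
        · rw [← at_cons, ← hi]
          apply ih w
          · intro w' j hj m hm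
            have h1 : w' = v := by
              apply Subtype.ext
              rw [hi] at hj
              exact (List.cons.inj hj).2.symm
            rw [h1]
            intro h2
            exact hvn (inf_mono r X (by omega) h2)
          · exact (hsub hw).2

/-- A vertex for which the bad event happens is never infected. -/
lemma not_inf_of_Hev {r : ℕ} (hr : 2 ≤ r) (X : List ℕ → ℕ × Bool)
    (v : {v : List ℕ // InT (fun u => (X u).1) v}) (h : Hev r (at' v.1 X)) (n : ℕ) :
    v ∉ inf r X n := by
  induction n with
  | zero =>
    intro hv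
    have h1 : (X ([] ++ v.1)).2 = false := h.1
    rw [List.nil_append] at h1
    have h2 : (X v.1).2 = true := hv
    rw [h1] at h2
    exact Bool.noConfusion h2
  | succ n ih =>
    intro hv
    rw [inf_succ] at hv
    rcases hv with hv | hv
    · exact ih hv
    rw [Set.mem_ofPred_eq, le_encard_iff] at hv
    obtain ⟨s, hs, hsub⟩ := hv
    -- no child is infected
    have hpar : ∀ w ∈ s, ∃ i : ℕ, v.1 = i :: w.1 := by
      intro w hw
      rcases (hsub hw).1 with ⟨i, hi⟩ | ⟨i, hi⟩
      · exact ⟨i, hi⟩
      · exfalso
        have hwT := w.2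
        rw [hi] at hwT
        have h1 : Bel r n (at' w.1 X) := by
          apply bel_of_inf r X n w _ (hsub hw).2
          intro w' j hj m hm
          have h1 : w' = v := by
            apply Subtype.ext
            rw [hi] at hj
            exact (List.cons.inj hj).2.symm
          rw [h1]
          intro h2
          exact ih (inf_mono r X (by omega) h2)
        rw [hi, at_cons] at h1
        refine h.2 i ?_ n h1
        change i < (X ([] ++ v.1)).1
        rw [List.nil_append]
        exact hwT.2
    have hcard : s.card ≤ 1 := by
      rw [Finset.card_le_one]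
      intro a ha b hb
      obtain ⟨i, hi⟩ := hpar a ha
      obtain ⟨j, hj⟩ := hpar b hb
      apply Subtype.ext
      rw [hi] at hj
      exact (List.cons.inj hj).2
    omega

/-- A healthy vertex with at most `r - 2` children is never infected. -/
lemma not_inf_of_few {r : ℕ} (X : List ℕ → ℕ × Bool)
    (v : {v : List ℕ // InT (fun u => (X u).1) v}) (h : (X v.1).2 = false)
    (hk : (X v.1).1 + 2 ≤ r) (n : ℕ) : v ∉ inf r X n := by
  induction n with
  | zero =>
    intro hv
    have h2 : (X v.1).2 = true := hv
    rw [h] at h2
    exact Bool.noConfusion h2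
  | succ n ih =>
    intro hv
    rw [inf_succ] at hv
    rcases hv with hv | hv
    · exact ih hv
    rw [Set.mem_ofPred_eq, le_encard_iff] at hv
    obtain ⟨s, hs, hsub⟩ := hv
    have hcard : s.card ≤ (X v.1).1 + 1 := by
      have h1 : (s.image fun w => w.1) ⊆
          insert v.1.tail ((Finset.range (X v.1).1).image fun i => i :: v.1) := by
        intro w hw
        rw [Finset.mem_image] at hw
        obtain ⟨w, hw, rfl⟩ := hw
        rcases (hsub hw).1 with ⟨i, hi⟩ | ⟨i, hi⟩
        · apply Finset.mem_insert.2
          left
          rw [hi]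
          rfl
        · apply Finset.mem_insert.2
          right
          rw [Finset.mem_image]
          have hwT := w.2
          rw [hi] at hwT
          exact ⟨i, Finset.mem_range.2 hwT.2, hi.symm⟩
      have h2 : (s.image fun w => w.1).card = s.card :=
        Finset.card_image_of_injective _ Subtype.val_injective
      calc s.card = (s.image fun w => w.1).card := h2.symm
        _ ≤ _ := Finset.card_le_card h1
        _ ≤ ((Finset.range (X v.1).1).image fun i => i :: v.1).card + 1 :=
          Finset.card_insert_le _ _
        _ ≤ (Finset.range (X v.1).1).card + 1 := by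
          gcongr
          exact Finset.card_image_le
        _ = (X v.1).1 + 1 := by rw [Finset.card_range]
    omega

end Pool.Agent.R953.Boot
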