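import Mathlib
import Pool.Agent.R953.BootTree

/-!
# Bootstrap percolation on Galton-Watson trees: the probabilistic part
-/

set_option autoImplicit false

open MeasureTheory ProbabilityTheory Filter
open scoped ENNReal NNReal Topology

namespace Pool.Agent.R953.Boot

open Pool.Agent.R953.Branch Pool.Agent.R953.GW

/-- the law of one label -/
noncomputable def lab (μ : PMF ℕ) (p : unitInterval) : Measure (ℕ × Bool) :=
  μ.toMeasure.prod (bernoulliMeasure true false p)

instance (μ : PMF ℕ) (p : unitInterval) : IsProbabilityMeasure (lab μ p) := by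
  unfold lab; infer_instance

/-- put the two labels together -/
def zip (x : (List ℕ → ℕ) × (List ℕ → Bool)) : List ℕ → ℕ × Bool := fun v => (x.1 v, x.2 v)

lemma measurable_zip : Measurable zip := by
  apply measurable_pi_lambda
  intro v
  exact ((measurable_pi_apply v).comp measurable_fst).prodMk
    ((measurable_pi_apply v).comp measurable_snd)

lemma map_zip (μ : PMF ℕ) (p : unitInterval) :
    ((gw μ).prod (perc p)).map zip = tm (lab μ p) := by
  unfold tm
  apply Measure.eq_infinitePi
  intro s t ht
  have hS : MeasurableSet (Set.pi (s : Set (List ℕ)) t) :=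
    MeasurableSet.pi s.countable_toSet fun i _ => ht i
  rw [Measure.map_apply measurable_zip hS, Measure.prod_apply (measurable_zip hS)]
  have h1 : ∀ T : List ℕ → ℕ, perc p (Prod.mk T ⁻¹' (zip ⁻¹' (Set.pi (s : Set (List ℕ)) t))) =
      ∏ i ∈ s, bernoulliMeasure true false p (Prod.mk (T i) ⁻¹' t i) := by
    intro T
    have h2 : (Prod.mk T ⁻¹' (zip ⁻¹' (Set.pi (s : Set (List ℕ)) t))) =
        Set.pi (s : Set (List ℕ)) (fun i => Prod.mk (T i) ⁻¹' t i) := by
      ext ω
      simp [zip, Set.mem_pi]
    rw [h2]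
    unfold perc
    exact Measure.infinitePi_pi _ fun i _ => measurable_prodMk_left (ht i)
  simp only [h1]
  have hm : ∀ i : List ℕ, Measurable
      (fun k : ℕ => bernoulliMeasure true false p (Prod.mk k ⁻¹' t i)) :=
    fun i => measurable_of_countable _
  have hind : iIndepFun (fun (i : List ℕ) (T : List ℕ → ℕ) =>
      bernoulliMeasure true false p (Prod.mk (T i) ⁻¹' t i)) (gw μ) :=
    iIndepFun_infinitePi (P := fun _ : List ℕ => μ.toMeasure)
      (X := fun i k => bernoulliMeasure true false p (Prod.mk k ⁻¹' t i)) hm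
  rw [lintegral_prod_eq_prod_lintegral_of_indepFun s _ hind
    fun i => (hm i).comp (measurable_pi_apply i)]
  refine Finset.prod_congr rfl fun i _ => ?_
  unfold lab
  rw [Measure.prod_apply (ht i)]
  have h3 : (gw μ).map (fun T => T i) = μ.toMeasure := Measure.infinitePi_map_eval _ _
  rw [← h3, lintegral_map (hm i) (measurable_pi_apply i)]

/-! ### The binomial tails -/

/-- `hh r k y` is the probability that a binomial variable with parameters `k` and `y` is at
least `r` -/
def hh : ℕ → ℕ → ℝ → ℝ
  | 0, _, _ => 1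
  | _ + 1, 0, _ => 0
  | r + 1, k + 1, y => y * hh r k y + (1 - y) * hh (r + 1) k y

lemma hh_zero (k : ℕ) (y : ℝ) : hh 0 k y = 1 := by
  cases k <;> rfl

lemma hh_succ_zero (r : ℕ) (y : ℝ) : hh (r + 1) 0 y = 0 := rfl

lemma hh_succ (r k : ℕ) (y : ℝ) :
    hh (r + 1) (k + 1) y = y * hh r k y + (1 - y) * hh (r + 1) k y := rfl

lemma hh_nonneg {y : ℝ} (h0 : 0 ≤ y) (h1 : y ≤ 1) (k : ℕ) : ∀ r, 0 ≤ hh r k y := by
  induction k with
  | zero =>
    intro r
    cases r
    · rw [hh_zero]; exact zero_le_one
    · rw [hh_succ_zero]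
  | succ k ih =>
    intro r
    cases r with
    | zero => rw [hh_zero]; exact zero_le_one
    | succ r =>
      rw [hh_succ]
      have := ih r
      have := ih (r + 1)
      have : 0 ≤ 1 - y := by linarith
      positivity

lemma hh_anti {y : ℝ} (h0 : 0 ≤ y) (h1 : y ≤ 1) (k : ℕ) : ∀ r, hh (r + 1) k y ≤ hh r k y := by
  induction k with
  | zero =>
    intro r
    rw [hh_succ_zero]
    exact hh_nonneg h0 h1 0 r
  | succ k ih =>
    intro r
    cases r with
    | zero =>
      rw [hh_succ, hh_zero, hh_zero]
      have := ih 0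
      rw [hh_zero] at this
      nlinarith
    | succ r =>
      rw [hh_succ, hh_succ]
      have h2 := ih r
      have h3 := ih (r + 1)
      have : 0 ≤ 1 - y := by linarith
      gcongr

lemma hh_le_one {y : ℝ} (h0 : 0 ≤ y) (h1 : y ≤ 1) (k : ℕ) : ∀ r, hh r k y ≤ 1 := by
  intro r
  induction r with
  | zero => rw [hh_zero]
  | succ r ih => exact (hh_anti h0 h1 k r).trans ih

lemma hh_mono {y z : ℝ} (h0 : 0 ≤ y) (h1 : z ≤ 1) (hyz : y ≤ z) (k : ℕ) :
    ∀ r, hh r k y ≤ hh r k z := by
  induction k with
  | zero =>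
    intro r
    cases r
    · rw [hh_zero, hh_zero]
    · rw [hh_succ_zero, hh_succ_zero]
  | succ k ih =>
    intro r
    cases r with
    | zero => rw [hh_zero, hh_zero]
    | succ r =>
      rw [hh_succ, hh_succ]
      have h2 := ih r
      have h3 := ih (r + 1)
      have h4 := hh_anti (h0.trans hyz) h1 k r
      have h5 : y * hh r k y + (1 - y) * hh (r + 1) k y ≤
          y * hh r k z + (1 - y) * hh (r + 1) k z := by
        have : 0 ≤ 1 - y := by linarith
        gcongr
      nlinarith

/-- the sum over the subsets -/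
lemma hh_eq_sum (y : ℝ) (k : ℕ) : ∀ r, hh r k y = ∑ S ∈ (Finset.range k).powerset,
    if r ≤ S.card then ∏ i ∈ Finset.range k, (if i ∈ S then y else 1 - y) else 0 := by
  induction k with
  | zero =>
    intro r
    cases r
    · simp [hh_zero]
    · rw [hh_succ_zero, Finset.range_zero, Finset.powerset_empty, Finset.sum_singleton,
        Finset.card_empty, if_neg (by omega)]
  | succ k ih =>
    intro r
    have hk : k ∉ Finset.range k := Finset.notMem_range_self
    have key : (∑ S ∈ (Finset.range (k + 1)).powerset,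
        if r ≤ S.card then ∏ i ∈ Finset.range (k + 1), (if i ∈ S then y else 1 - y) else 0) =
        (1 - y) * hh r k y + y * hh (r - 1) k y := by
      rw [Finset.range_add_one, Finset.sum_powerset_insert hk, ih, ih, Finset.mul_sum,
        Finset.mul_sum]
      congr 1
      · refine Finset.sum_congr rfl fun S hS => ?_
        have hkS : k ∉ S := fun h => hk (Finset.mem_powerset.1 hS h)
        rw [mul_ite, mul_zero]
        congr 1
        rw [Finset.prod_insert hk, if_neg hkS]
      · refine Finset.sum_congr rfl fun S hS => ?_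
        have hkS : k ∉ S := fun h => hk (Finset.mem_powerset.1 hS h)
        rw [mul_ite, mul_zero, Finset.card_insert_of_notMem hkS]
        have h1 : r ≤ S.card + 1 ↔ r - 1 ≤ S.card := by omega
        simp only [h1]
        congr 1
        rw [Finset.prod_insert hk, if_pos (Finset.mem_insert_self k S)]
        congr 1
        refine Finset.prod_congr rfl fun i hi => ?_
        have hik : i ≠ k := by
          rintro rfl
          exact hk hi
        simp [Finset.mem_insert, hik]
    rw [key]
    cases r with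
    | zero =>
      rw [hh_zero, hh_zero]
      simp
    | succ r =>
      rw [hh_succ]
      simp only [Nat.add_sub_cancel]
      ring

/-- at least `r` of the first `k` coordinates are in `B` -/
def CC {Z : Type*} (k r : ℕ) (B : Set Z) : Set (ℕ → Z) :=
  {Y | ∃ s : Finset ℕ, s.card = r ∧ ∀ i ∈ s, i < k ∧ Y i ∈ B}

/-- the coordinate `i` is in `B` if and only if `i ∈ S` -/
def cell {Z : Type*} (S : Finset ℕ) (B : Set Z) (i : ℕ) : Set Z := {z | i ∈ S ↔ z ∈ B}

lemma cell_pos {Z : Type*} {S : Finset ℕ} (B : Set Z) {i : ℕ} (h : i ∈ S) : cell S B i = B := by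
  ext z
  simp [cell, h]

lemma cell_neg {Z : Type*} {S : Finset ℕ} (B : Set Z) {i : ℕ} (h : i ∉ S) : cell S B i = Bᶜ := by
  ext z
  simp [cell, h]

lemma CC_eq {Z : Type*} (k r : ℕ) (B : Set Z) :
    CC k r B = ⋃ S ∈ (Finset.range k).powerset.filter (fun S => r ≤ S.card),
      Set.pi (Finset.range k : Set ℕ) (cell S B) := by
  classical
  ext Y
  simp only [CC, Set.mem_ofPred_eq, Set.mem_iUnion, exists_prop, Finset.mem_filter,
    Finset.mem_powerset]
  constructor
  · rintro ⟨s, hs, h⟩
    refine ⟨(Finset.range k).filter (fun i => Y i ∈ B), ⟨Finset.filter_subset _ _, ?_⟩, ?_⟩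
    · rw [← hs]
      apply Finset.card_le_card
      intro i hi
      exact Finset.mem_filter.2 ⟨Finset.mem_range.2 (h i hi).1, (h i hi).2⟩
    · intro i hi
      change i ∈ (Finset.range k).filter (fun i => Y i ∈ B) ↔ Y i ∈ B
      rw [Finset.mem_filter]
      exact ⟨fun h => h.2, fun h => ⟨hi, h⟩⟩
  · rintro ⟨S, ⟨hS, hr⟩, h⟩
    obtain ⟨s, hsS, hs⟩ := Finset.exists_subset_card_eq hr
    refine ⟨s, hs, fun i hi => ⟨Finset.mem_range.1 (hS (hsS hi)), ?_⟩⟩
    have h1 : i ∈ S ↔ Y i ∈ B := h i (by exact_mod_cast hS (hsS hi))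
    exact h1.1 (hsS hi)

lemma measurableSet_cell {Z : Type*} [MeasurableSpace Z] (S : Finset ℕ) {B : Set Z}
    (hB : MeasurableSet B) (i : ℕ) : MeasurableSet (cell S B i) := by
  by_cases h : i ∈ S
  · rw [cell_pos B h]; exact hB
  · rw [cell_neg B h]; exact hB.compl

lemma measurableSet_CC {Z : Type*} [MeasurableSpace Z] (k r : ℕ) {B : Set Z}
    (hB : MeasurableSet B) : MeasurableSet (CC k r B) := by
  rw [CC_eq]
  refine Finset.measurableSet_biUnion _ fun S _ => ?_
  exact MeasurableSet.pi (Finset.countable_toSet _) fun i _ => measurableSet_cell S hB i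

lemma CC_prob {Z : Type*} [MeasurableSpace Z] (P : Measure Z) [IsProbabilityMeasure P] (k r : ℕ)
    {B : Set Z} (hB : MeasurableSet B) :
    (Measure.infinitePi (fun _ : ℕ => P)).real (CC k r B) = hh r k (P.real B) := by
  classical
  rw [CC_eq, measureReal_biUnion_finset, hh_eq_sum, Finset.sum_filter]
  · refine Finset.sum_congr rfl fun S _ => ?_
    congr 1
    unfold Measure.real
    rw [Measure.infinitePi_pi _ fun i _ => measurableSet_cell S hB i, ENNReal.toReal_prod]
    refine Finset.prod_congr rfl fun i _ => ?_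
    by_cases h : i ∈ S
    · rw [cell_pos B h, if_pos h]
    · rw [cell_neg B h, if_neg h]
      exact probReal_compl_eq_one_sub hB
  · intro S hS S' hS' hne
    rw [Function.onFun, Set.disjoint_left]
    intro Y h h'
    apply hne
    have hSr := Finset.mem_powerset.1 (Finset.mem_filter.1 hS).1
    have hSr' := Finset.mem_powerset.1 (Finset.mem_filter.1 hS').1
    ext i
    by_cases hi : i ∈ Finset.range k
    · have h1 : i ∈ S ↔ Y i ∈ B := h i (by exact_mod_cast hi)
      have h2 : i ∈ S' ↔ Y i ∈ B := h' i (by exact_mod_cast hi)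
      rw [h1, h2]
    · exact ⟨fun h => absurd (hSr h) hi, fun h => absurd (hSr' h) hi⟩
  · intro S _
    exact MeasurableSet.pi (Finset.countable_toSet _) fun i _ => measurableSet_cell S hB i

end Pool.Agent.R953.Boot
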