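import Mathlib
import Pool.Agent.R953.BootProb

/-!
# Bootstrap percolation on Galton-Watson trees: the annealed recursion
-/

set_option autoImplicit false

open MeasureTheory ProbabilityTheory Filter
open scoped ENNReal NNReal Topology

namespace Pool.Agent.R953.Boot

open Pool.Agent.R953.Branch Pool.Agent.R953.GW

/-- probability of a set of the form `{x | D (x [], (sub i x)_i)}` -/
lemma tm_real {Y : Type*} [MeasurableSpace Y] (ν : Measure Y) [IsProbabilityMeasure ν]
    {D : Set (Y × (ℕ → List ℕ → Y))} (hD : MeasurableSet D) :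
    (tm ν).real {X | (X [], fun i => sub i X) ∈ D} =
      ∫ x, (Measure.infinitePi (fun _ : ℕ => tm ν)).real (Prod.mk x ⁻¹' D) ∂ν := by
  have h1 : tm ν {X | (X [], fun i => sub i X) ∈ D} =
      ∫⁻ x, (Measure.infinitePi (fun _ : ℕ => tm ν)) (Prod.mk x ⁻¹' D) ∂ν := by
    rw [← Measure.prod_apply hD, ← (split ν).map_eq, Measure.map_apply (split ν).measurable hD]
    rfl
  unfold Measure.real
  rw [h1, integral_toReal (measurable_measure_prodMk_left hD).aemeasurable]
  exact Eventually.of_forall fun x => measure_lt_top _ _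

/-- integral with respect to the law of one label -/
lemma integral_lab (μ : PMF ℕ) (p : unitInterval) {f : ℕ × Bool → ℝ} {b : ℝ}
    (hb : ∀ x, |f x| ≤ b) :
    ∫ x, f x ∂(lab μ p) = ∑' k, (μ k).toReal * (p * f (k, true) + (1 - p) * f (k, false)) := by
  have hint : Integrable f (lab μ p) := integrable_of_mem (measurable_of_countable f) hb
  unfold lab at hint ⊢
  rw [integral_prod _ hint, ← integral_pmf μ (b := 2 * b)]
  · refine integral_congr_ae (Eventually.of_forall fun k => ?_)
    change ∫ y, f (k, y) ∂(bernoulliMeasure true false p) = _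
    rw [integral_bernoulliMeasure]
    simp
  · intro k
    have h1 := hb (k, true)
    have h2 := hb (k, false)
    have hp0 := p.2.1
    have hp1 := p.2.2
    rw [abs_le] at h1 h2 ⊢
    constructor <;> nlinarith

lemma measurableSet_Bel (r n : ℕ) : MeasurableSet {X | Bel r n X} := by
  induction n with
  | zero =>
    have h : Measurable (fun X : List ℕ → ℕ × Bool => (X []).2) :=
      measurable_snd.comp (measurable_pi_apply [])
    exact h (MeasurableSet.singleton true)
  | succ n ih =>
    have h : Measurable (fun X : List ℕ → ℕ × Bool => X []) := measurable_pi_apply []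
    have : {X | Bel r (n + 1) X} = (fun X : List ℕ → ℕ × Bool => X []) ⁻¹' {x | x.2 = true} ∪
        ⋃ s ∈ {s : Finset ℕ | s.card = r}, ⋂ i ∈ (s : Set ℕ),
          ((fun X : List ℕ → ℕ × Bool => X []) ⁻¹' {x | i < x.1} ∩ sub i ⁻¹' {X | Bel r n X}) := by
      ext X
      simp [Bel]
    rw [this]
    refine (h (Set.to_countable _).measurableSet).union ?_
    refine MeasurableSet.biUnion (Set.to_countable _) fun s _ => ?_
    refine MeasurableSet.biInter (Set.to_countable _) fun i _ => ?_
    exact (h (Set.to_countable _).measurableSet).inter (measurable_sub i ih)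

/-- The set of the sequences used for `Bel r (n + 1)`. -/
def DB (r n : ℕ) : Set ((ℕ × Bool) × (ℕ → List ℕ → ℕ × Bool)) :=
  {z | z.1.2 = true ∨ z.2 ∈ CC z.1.1 r {X | Bel r n X}}

lemma measurableSet_DB (r n : ℕ) : MeasurableSet (DB r n) := by
  have : DB r n = ⋃ x : ℕ × Bool, ({x} : Set (ℕ × Bool)) ×ˢ
      {Y | x.2 = true ∨ Y ∈ CC x.1 r {X | Bel r n X}} := by
    ext z
    simp [DB]
  rw [this]
  refine MeasurableSet.iUnion fun x => (MeasurableSet.singleton x).prod ?_
  by_cases h : x.2 = true
  · simp [h]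
  · have h1 : {Y : ℕ → List ℕ → ℕ × Bool | x.2 = true ∨ Y ∈ CC x.1 r {X | Bel r n X}} =
        CC x.1 r {X | Bel r n X} := by
      ext Y
      simp [h]
    rw [h1]
    exact measurableSet_CC _ _ (measurableSet_Bel r n)

lemma Bel_eq (r n : ℕ) : {X | Bel r (n + 1) X} = {X | (X [], fun i => sub i X) ∈ DB r n} := by
  ext X
  simp [Bel, DB, CC]

/-- the recursion for the probability of being infected from below -/
lemma Bel_prob (μ : PMF ℕ) (p : unitInterval) (r n : ℕ) :
    (tm (lab μ p)).real {X | Bel r (n + 1) X} = ∑' k, (μ k).toReal *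
      (p + (1 - p) * hh r k ((tm (lab μ p)).real {X | Bel r n X})) := by
  rw [Bel_eq, tm_real _ (measurableSet_DB r n)]
  have h1 : ∀ x : ℕ × Bool, (Measure.infinitePi (fun _ : ℕ => tm (lab μ p))).real
      (Prod.mk x ⁻¹' DB r n) =
      if x.2 = true then 1 else hh r x.1 ((tm (lab μ p)).real {X | Bel r n X}) := by
    intro x
    split_ifs with h
    · have : Prod.mk x ⁻¹' DB r n = Set.univ := by
        ext Y
        simp [DB, h]
      rw [this]
      exact probReal_univ
    · have : Prod.mk x ⁻¹' DB r n = CC x.1 r {X | Bel r n X} := by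
        ext Y
        simp [DB, h]
      rw [this, CC_prob _ _ _ (measurableSet_Bel r n)]
  simp only [h1]
  rw [integral_lab μ p (b := 1)]
  · simp
  · intro x
    split_ifs
    · simp
    · rw [abs_of_nonneg (hh_nonneg measureReal_nonneg measureReal_le_one _ _)]
      exact hh_le_one measureReal_nonneg measureReal_le_one _ _

lemma summable_pmf (μ : PMF ℕ) : Summable fun k => (μ k).toReal :=
  ENNReal.summable_toReal μ.tsum_coe_ne_top

lemma summable_pmf_mul (μ : PMF ℕ) {f : ℕ → ℝ} {b : ℝ} (hb : ∀ k, |f k| ≤ b) :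
    Summable fun k => (μ k).toReal * f k := by
  refine Summable.of_norm_bounded (g := fun k => (μ k).toReal * b) ((summable_pmf μ).mul_right b)
    fun k => ?_
  rw [norm_mul, Real.norm_eq_abs, Real.norm_eq_abs, abs_of_nonneg ENNReal.toReal_nonneg]
  exact mul_le_mul_of_nonneg_left (hb k) ENNReal.toReal_nonneg

lemma tsum_pmf (μ : PMF ℕ) : ∑' k, (μ k).toReal = 1 := by
  rw [← ENNReal.tsum_toReal_eq fun k => μ.apply_ne_top k, μ.tsum_coe, ENNReal.toReal_one]

/-- If `p + (1 - p) E h_ξ(y) ≤ y`, the probability of being infected from below is at most `y`. -/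
lemma Bel_le (μ : PMF ℕ) (p : unitInterval) (r : ℕ) {y : ℝ} (hy0 : 0 ≤ y) (hy1 : y ≤ 1)
    (h : p + (1 - p) * ∑' k, (μ k).toReal * hh r k y ≤ y) (n : ℕ) :
    (tm (lab μ p)).real {X | Bel r n X} ≤ y := by
  have hp0 := p.2.1
  have hp1 := p.2.2
  have hh1 : ∀ (z : ℝ), 0 ≤ z → z ≤ 1 → ∀ k, |hh r k z| ≤ 1 := by
    intro z h0 h1 k
    rw [abs_of_nonneg (hh_nonneg h0 h1 _ _)]
    exact hh_le_one h0 h1 _ _
  have hF : ∀ (z : ℝ), 0 ≤ z → z ≤ 1 → ∑' k, (μ k).toReal * (p + (1 - p) * hh r k z) =
      p + (1 - p) * ∑' k, (μ k).toReal * hh r k z := by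
    intro z h0 h1
    have h2 : ∑' k, (μ k).toReal * (p : ℝ) = p := by rw [tsum_mul_right, tsum_pmf, one_mul]
    have h3 : ∑' k, (μ k).toReal * (p + (1 - p) * hh r k z) =
        ∑' k, ((μ k).toReal * (p : ℝ) + (1 - p) * ((μ k).toReal * hh r k z)) :=
      tsum_congr fun k => by ring
    rw [h3, Summable.tsum_add ((summable_pmf μ).mul_right _)
      ((summable_pmf_mul μ (hh1 z h0 h1)).mul_left _), h2, tsum_mul_left]
  have hS : 0 ≤ ∑' k, (μ k).toReal * hh r k y :=
    tsum_nonneg fun k => mul_nonneg ENNReal.toReal_nonneg (hh_nonneg hy0 hy1 _ _)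
  have hpy : (p : ℝ) ≤ y := by nlinarith
  induction n with
  | zero =>
    have h1 : {X : List ℕ → ℕ × Bool | Bel r 0 X} =
        (fun X : List ℕ → ℕ × Bool => X []) ⁻¹' (Set.univ ×ˢ {true}) := by
      ext X
      simp [Bel]
    rw [h1]
    have h2 : (tm (lab μ p)).real
        ((fun X : List ℕ → ℕ × Bool => X []) ⁻¹' (Set.univ ×ˢ {true})) = p := by
      unfold Measure.real
      rw [← Measure.map_apply (measurable_pi_apply [])
        (MeasurableSet.univ.prod (MeasurableSet.singleton true))]
      unfold tm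
      rw [Measure.infinitePi_map_eval]
      unfold lab
      rw [Measure.prod_prod, measure_univ, one_mul]
      exact ber_true p
    rw [h2]
    exact hpy
  | succ n ih =>
    rw [Bel_prob, hF _ measureReal_nonneg measureReal_le_one]
    refine le_trans ?_ h
    have h1 : (0 : ℝ) ≤ 1 - p := by linarith
    have h2 : ∑' k, (μ k).toReal * hh r k ((tm (lab μ p)).real {X | Bel r n X}) ≤
        ∑' k, (μ k).toReal * hh r k y := by
      refine Summable.tsum_le_tsum (fun k => ?_)
        (summable_pmf_mul μ (hh1 _ measureReal_nonneg measureReal_le_one))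
        (summable_pmf_mul μ (hh1 _ hy0 hy1))
      exact mul_le_mul_of_nonneg_left (hh_mono measureReal_nonneg hy1 ih k r)
        ENNReal.toReal_nonneg
    have h3 := mul_le_mul_of_nonneg_left h2 h1
    linarith

/-- all the children of the root are in `B` -/
def AB (B : Set (List ℕ → ℕ × Bool)) : Set ((ℕ × Bool) × (ℕ → List ℕ → ℕ × Bool)) :=
  {z | ∀ i < z.1.1, z.2 i ∈ B}

lemma AB_section (B : Set (List ℕ → ℕ × Bool)) (x : ℕ × Bool) :
    Prod.mk x ⁻¹' AB B = Set.pi (Finset.range x.1 : Set ℕ) (fun _ => B) := by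
  ext Y
  simp [AB, Set.mem_pi]

lemma measurableSet_AB {B : Set (List ℕ → ℕ × Bool)} (hB : MeasurableSet B) :
    MeasurableSet (AB B) := by
  have : AB B = ⋃ x : ℕ × Bool, ({x} : Set (ℕ × Bool)) ×ˢ
      Set.pi (Finset.range x.1 : Set ℕ) (fun _ => B) := by
    ext z
    simp [AB, Set.mem_pi]
  rw [this]
  exact MeasurableSet.iUnion fun x => (MeasurableSet.singleton x).prod
    (MeasurableSet.pi (Finset.countable_toSet _) fun i _ => hB)

lemma AB_prob_section (μ : PMF ℕ) (p : unitInterval) {B : Set (List ℕ → ℕ × Bool)}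
    (hB : MeasurableSet B) (x : ℕ × Bool) :
    (Measure.infinitePi (fun _ : ℕ => tm (lab μ p))).real (Prod.mk x ⁻¹' AB B) =
      ((tm (lab μ p)).real B) ^ x.1 := by
  rw [AB_section]
  unfold Measure.real
  rw [Measure.infinitePi_pi _ fun i _ => hB]
  simp

/-- the probability that all the subtrees of the children of the root are in `B` -/
lemma AB_prob (μ : PMF ℕ) (p : unitInterval) {B : Set (List ℕ → ℕ × Bool)}
    (hB : MeasurableSet B) :
    (tm (lab μ p)).real {X | ∀ i < (X []).1, sub i X ∈ B} = gf μ ((tm (lab μ p)).real B) := by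
  have h0 : {X : List ℕ → ℕ × Bool | ∀ i < (X []).1, sub i X ∈ B} =
      {X | (X [], fun i => sub i X) ∈ AB B} := rfl
  rw [h0, tm_real _ (measurableSet_AB hB)]
  simp only [AB_prob_section μ p hB]
  rw [integral_lab μ p (b := 1)]
  · unfold gf
    refine tsum_congr fun k => ?_
    ring
  · intro x
    rw [abs_of_nonneg (pow_nonneg measureReal_nonneg _)]
    exact pow_le_one₀ measureReal_nonneg measureReal_le_one

/-- infected from below at some time -/
def BelInf (r : ℕ) : Set (List ℕ → ℕ × Bool) := {X | ∃ n, Bel r n X}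

lemma measurableSet_BelInf (r : ℕ) : MeasurableSet (BelInf r) := by
  have : BelInf r = ⋃ n, {X | Bel r n X} := by
    ext X
    simp [BelInf]
  rw [this]
  exact MeasurableSet.iUnion fun n => measurableSet_Bel r n

lemma Bel_monotone (r : ℕ) : Monotone fun n => {X | Bel r n X} :=
  monotone_nat_of_le_succ fun _ _ h => Bel_succ_of h

lemma BelInf_le (μ : PMF ℕ) (p : unitInterval) (r : ℕ) {y : ℝ}
    (h : ∀ n, (tm (lab μ p)).real {X | Bel r n X} ≤ y) :
    (tm (lab μ p)).real (BelInf r) ≤ y := by
  have h1 : BelInf r = ⋃ n, {X | Bel r n X} := by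
    ext X
    simp [BelInf]
  have h2 := tendsto_measure_iUnion_atTop (μ := tm (lab μ p)) (Bel_monotone r)
  have h3 := (ENNReal.tendsto_toReal (measure_ne_top (tm (lab μ p))
    (⋃ n, {X | Bel r n X}))).comp h2
  rw [h1]
  exact le_of_tendsto' h3 h

lemma measurableSet_Hev (r : ℕ) : MeasurableSet {X | Hev r X} := by
  have h : Measurable (fun X : List ℕ → ℕ × Bool => X []) := measurable_pi_apply []
  have : {X | Hev r X} = (fun X : List ℕ → ℕ × Bool => X []) ⁻¹' {x | x.2 = false} ∩
      {X | (X [], fun i => sub i X) ∈ AB (BelInf r)ᶜ} := by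
    ext X
    simp [Hev, AB, BelInf]
  rw [this]
  refine (h (Set.to_countable _).measurableSet).inter ?_
  exact (split (lab (PMF.pure 0) 0)).measurable (measurableSet_AB (measurableSet_BelInf r).compl)

/-- The bad event has positive probability. -/
lemma Hev_pos (μ : PMF ℕ) (p : unitInterval) (hp : (p : ℝ) < 1) (r : ℕ) {y : ℝ} (hy0 : 0 ≤ y)
    (hy1 : y < 1) (h : p + (1 - p) * ∑' k, (μ k).toReal * hh r k y ≤ y) :
    0 < (tm (lab μ p)).real {X | Hev r X} := by
  set D : Set ((ℕ × Bool) × (ℕ → List ℕ → ℕ × Bool)) :=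
    {z | z.1.2 = false} ∩ AB (BelInf r)ᶜ with hDdef
  have hD : MeasurableSet D := by
    refine MeasurableSet.inter ?_ (measurableSet_AB (measurableSet_BelInf r).compl)
    exact measurable_fst (Set.to_countable {x : ℕ × Bool | x.2 = false}).measurableSet
  have h0 : {X | Hev r X} = {X | (X [], fun i => sub i X) ∈ D} := by
    ext X
    simp [Hev, AB, BelInf, hDdef]
  set b := (tm (lab μ p)).real (BelInf r)ᶜ with hbdef
  have hb : 0 < b := by
    rw [hbdef, probReal_compl_eq_one_sub (measurableSet_BelInf r)]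
    have := BelInf_le μ p r (Bel_le μ p r hy0 hy1.le h)
    linarith
  have hb1 : b ≤ 1 := measureReal_le_one
  rw [h0, tm_real _ hD]
  have h1 : ∀ x : ℕ × Bool, (Measure.infinitePi (fun _ : ℕ => tm (lab μ p))).real
      (Prod.mk x ⁻¹' D) = if x.2 = true then 0 else b ^ x.1 := by
    intro x
    split_ifs with hx
    · have : Prod.mk x ⁻¹' D = ∅ := by
        ext Y
        simp [hDdef, hx]
      rw [this]
      exact measureReal_empty
    · have : Prod.mk x ⁻¹' D = Prod.mk x ⁻¹' AB (BelInf r)ᶜ := by
        ext Y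
        simp [hDdef, hx]
      rw [this, AB_prob_section μ p (measurableSet_BelInf r).compl]
  simp only [h1]
  rw [integral_lab μ p (b := 1)]
  · obtain ⟨k, hk⟩ := μ.support_nonempty
    have hk' : 0 < (μ k).toReal := ENNReal.toReal_pos hk (μ.apply_ne_top k)
    have hp' : (0 : ℝ) < 1 - p := by linarith
    have hsum : Summable fun k => (μ k).toReal * (p * (if (k, true).2 = true then (0 : ℝ) else b ^ (k, true).1) +
        (1 - p) * (if (k, false).2 = true then (0 : ℝ) else b ^ (k, false).1)) := by
      apply summable_pmf_mul μ (b := 1)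
      intro k
      have hbk : b ^ k ≤ 1 := pow_le_one₀ hb.le hb1
      have hbk0 : 0 ≤ b ^ k := pow_nonneg hb.le k
      have hp0 := p.2.1
      simp only [if_true, Bool.false_eq_true, if_false, mul_zero, zero_add]
      rw [abs_of_nonneg (by positivity)]
      nlinarith
    refine hsum.tsum_pos (fun k => ?_) k ?_
    · have hbk0 : 0 ≤ b ^ k := pow_nonneg hb.le k
      simp only [if_true, Bool.false_eq_true, if_false, mul_zero, zero_add]
      positivity
    · simp only [if_true, Bool.false_eq_true, if_false, mul_zero, zero_add]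
      positivity
  · intro x
    split_ifs
    · simp
    · rw [abs_of_nonneg (pow_nonneg hb.le _)]
      exact pow_le_one₀ hb.le hb1

end Pool.Agent.R953.Boot
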