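import Mathlib
import Pool.Agent.R953.BootLaw

/-!
# Bootstrap percolation on Galton-Watson trees: criteria for no percolation
-/

set_option autoImplicit false

open MeasureTheory ProbabilityTheory Filter
open scoped ENNReal NNReal Topology

namespace Pool.Agent.R953.Boot

open Pool.Agent.R953.Branch Pool.Agent.R953.GW

lemma InT_append (T : List ℕ → ℕ) (i : ℕ) (v : List ℕ) :
    InT T (v ++ [i]) ↔ i < T [] ∧ InT (sub i T) v := by
  induction v with
  | nil => simp [InT]
  | cons j v ih =>
    rw [List.cons_append]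
    unfold InT
    rw [ih]
    change (_ ∧ j < T (v ++ [i])) ↔ (_ ∧ _ ∧ j < T (v ++ [i]))
    tauto

/-- all the subtrees are in `B` -/
def NN (B : Set (List ℕ → ℕ × Bool)) : Set (List ℕ → ℕ × Bool) :=
  {X | ∀ v, InT (fun u => (X u).1) v → at' v X ∈ B}

lemma measurableSet_InT (v : List ℕ) :
    MeasurableSet {X : List ℕ → ℕ × Bool | InT (fun u => (X u).1) v} := by
  induction v with
  | nil => simp [InT]
  | cons i v ih =>
    have h : Measurable (fun X : List ℕ → ℕ × Bool => X v) := measurable_pi_apply v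
    exact ih.inter (h (Set.to_countable {x : ℕ × Bool | i < x.1}).measurableSet)

lemma measurable_at' (v : List ℕ) :
    Measurable (fun X : List ℕ → ℕ × Bool => at' v X) :=
  measurable_pi_lambda _ fun w => measurable_pi_apply (w ++ v)

lemma measurableSet_NN {B : Set (List ℕ → ℕ × Bool)} (hB : MeasurableSet B) :
    MeasurableSet (NN B) := by
  have : NN B = ⋂ v : List ℕ, ({X : List ℕ → ℕ × Bool | InT (fun u => (X u).1) v}ᶜ ∪
      (fun X : List ℕ → ℕ × Bool => at' v X) ⁻¹' B) := by
    ext X
    simp only [NN, Set.mem_ofPred_eq, Set.mem_iInter, Set.mem_union, Set.mem_compl_iff,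
      Set.mem_preimage]
    exact forall_congr' fun v => imp_iff_not_or
  rw [this]
  exact MeasurableSet.iInter fun v => (measurableSet_InT v).compl.union (measurable_at' v hB)

lemma NN_root {B : Set (List ℕ → ℕ × Bool)} {X : List ℕ → ℕ × Bool} (h : X ∈ NN B) : X ∈ B := by
  have := h [] trivial
  rwa [at_nil] at this

lemma NN_sub {B : Set (List ℕ → ℕ × Bool)} {X : List ℕ → ℕ × Bool} (h : X ∈ NN B) (i : ℕ)
    (hi : i < (X []).1) : sub i X ∈ NN B := by
  intro v hv
  rw [← at_append]
  apply h
  exact (InT_append _ _ _).2 ⟨hi, hv⟩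

/-- the tree is infinite -/
def JJ : Set (List ℕ → ℕ × Bool) := {X | {v | InT (fun u => (X u).1) v}.Infinite}

lemma InT_iff_cluster (T : List ℕ → ℕ) (v : List ℕ) :
    InT T v ↔ cluster T (fun _ => true) v := by
  induction v with
  | nil => simp [InT, cluster]
  | cons i v ih => simp [InT, cluster, ih]

lemma infinite_iff_InT (T : List ℕ → ℕ) :
    {v | InT T v}.Infinite ↔ ∀ n, ∃ v : List ℕ, v.length = n ∧ InT T v := by
  have h := infinite_iff T (fun _ => true)
  simp only [← InT_iff_cluster] at h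
  rw [h]
  refine forall_congr' fun n => ?_
  unfold reach
  simp only [InT_iff_cluster]

lemma measurableSet_JJ : MeasurableSet JJ := by
  have : JJ = ⋂ n : ℕ, ⋃ v ∈ {v : List ℕ | v.length = n},
      {X : List ℕ → ℕ × Bool | InT (fun u => (X u).1) v} := by
    ext X
    simp only [JJ, Set.mem_ofPred_eq, infinite_iff_InT, Set.mem_iInter, Set.mem_iUnion,
      exists_prop]
  rw [this]
  exact MeasurableSet.iInter fun n => MeasurableSet.biUnion (Set.to_countable _) fun v _ =>
    measurableSet_InT v

lemma JJ_sub {X : List ℕ → ℕ × Bool} (h : X ∈ JJ) : ∃ i < (X []).1, sub i X ∈ JJ := by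
  by_contra hc
  push Not at hc
  apply h
  have hsub : {v | InT (fun u => (X u).1) v} ⊆ {[]} ∪ ⋃ i ∈ Set.Iio (X []).1,
      (fun v : List ℕ => v ++ [i]) '' {v | InT (fun u => (sub i X u).1) v} := by
    intro v hv
    by_cases hne : v = []
    · left
      exact hne
    · right
      obtain ⟨w, i, rfl⟩ : ∃ w i, v = w ++ [i] :=
        ⟨v.dropLast, v.getLast hne, (List.dropLast_append_getLast hne).symm⟩
      have h1 := (InT_append _ _ _).1 hv
      simp only [Set.mem_iUnion, Set.mem_image, exists_prop]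
      exact ⟨i, h1.1, w, h1.2, rfl⟩
  refine Set.Finite.subset ?_ hsub
  refine (Set.finite_singleton _).union ((Set.finite_Iio _).biUnion fun i hi => ?_)
  have := hc i hi
  unfold JJ at this
  rw [Set.mem_ofPred_eq, Set.not_infinite] at this
  exact this.image _

/-! ### The generating function -/

lemma gf_summable (μ : PMF ℕ) {b : ℝ} (h0 : 0 ≤ b) (h1 : b ≤ 1) :
    Summable fun k => (μ k).toReal * b ^ k :=
  summable_pmf_mul μ (b := 1) fun k => by
    rw [abs_of_nonneg (pow_nonneg h0 k)]
    exact pow_le_one₀ h0 h1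

lemma delta_eq (b c : ℝ) (k : ℕ) : (b - c) * (1 - b ^ k) - (1 - b) * (b ^ k - c ^ k) =
    (b - c) * (1 - b) * ∑ j ∈ Finset.range k, b ^ j * (1 - c ^ (k - 1 - j)) := by
  have h1 := geom_sum₂_mul b c k
  have h2 := geom_sum_mul b k
  have h3 : ∑ j ∈ Finset.range k, b ^ j * (1 - c ^ (k - 1 - j)) =
      ∑ j ∈ Finset.range k, b ^ j - ∑ j ∈ Finset.range k, b ^ j * c ^ (k - 1 - j) := by
    rw [← Finset.sum_sub_distrib]
    refine Finset.sum_congr rfl fun j _ => ?_
    ring
  rw [h3]
  have h4 : 1 - b ^ k = (∑ j ∈ Finset.range k, b ^ j) * (1 - b) := by linear_combination h2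
  have h5 : b ^ k - c ^ k = (∑ j ∈ Finset.range k, b ^ j * c ^ (k - 1 - j)) * (b - c) := h1.symm
  rw [h4, h5]
  ring

lemma gf_lemma (μ : PMF ℕ) (hμ : μ 1 ≠ 1) {b c : ℝ} (hc : 0 ≤ c) (hcb : c ≤ b) (hb : b < 1)
    (h1 : b ≤ gf μ b) (h2 : b - c ≤ gf μ b - gf μ c) : b = c := by
  by_contra hne
  have hlt : c < b := lt_of_le_of_ne hcb fun h => hne h.symm
  have hb0 : 0 ≤ b := hc.trans hcb
  have hc1 : c < 1 := hlt.trans hb
  have hsb := gf_summable μ hb0 hb.le
  have hsc := gf_summable μ hc hc1.le
  have hs1 := summable_pmf μ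
  set d : ℕ → ℝ := fun k => (b - c) * (1 - b ^ k) - (1 - b) * (b ^ k - c ^ k) with hd
  have hterm : ∀ k j, 0 ≤ b ^ j * (1 - c ^ (k - 1 - j)) := by
    intro k j
    have := pow_le_one₀ hc hc1.le (n := k - 1 - j)
    have := pow_nonneg hb0 j
    apply mul_nonneg this
    linarith
  have hd0 : ∀ k, 0 ≤ d k := by
    intro k
    simp only [hd]
    rw [delta_eq]
    have h3 := Finset.sum_nonneg fun j (_ : j ∈ Finset.range k) => hterm k j
    have h4 : 0 < (b - c) * (1 - b) := mul_pos (by linarith) (by linarith)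
    positivity
  have hdpos : ∀ k, 2 ≤ k → 0 < d k := by
    intro k hk
    simp only [hd]
    rw [delta_eq]
    have h4 : 0 < (b - c) * (1 - b) := mul_pos (by linarith) (by linarith)
    apply mul_pos h4
    apply Finset.sum_pos' (fun j _ => hterm k j)
    refine ⟨0, Finset.mem_range.2 (by omega), ?_⟩
    have h5 : c ^ (k - 1 - 0) < 1 := pow_lt_one₀ hc hc1 (by omega)
    simp only [pow_zero, one_mul]
    linarith
  have hsum : ∑' k, (μ k).toReal * d k = (b - c) * (1 - gf μ b) - (1 - b) * (gf μ b - gf μ c) := by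
    have h3 : ∀ k, (μ k).toReal * d k = ((b - c) * (μ k).toReal -
        (b - c) * ((μ k).toReal * b ^ k)) - ((1 - b) * ((μ k).toReal * b ^ k) -
        (1 - b) * ((μ k).toReal * c ^ k)) := by
      intro k
      simp only [hd]
      ring
    simp_rw [h3]
    rw [Summable.tsum_sub ((hs1.mul_left _).sub (hsb.mul_left _))
      ((hsb.mul_left _).sub (hsc.mul_left _)),
      Summable.tsum_sub (hs1.mul_left _) (hsb.mul_left _),
      Summable.tsum_sub (hsb.mul_left _) (hsc.mul_left _)]
    simp only [tsum_mul_left, tsum_pmf]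
    unfold gf
    ring
  have hsummable : Summable fun k => (μ k).toReal * d k := by
    apply summable_pmf_mul μ (b := 2)
    intro k
    have h3 : b ^ k ≤ 1 := pow_le_one₀ hb0 hb.le
    have h4 : c ^ k ≤ 1 := pow_le_one₀ hc hc1.le
    have h5 := pow_nonneg hb0 k
    have h6 := pow_nonneg hc k
    rw [abs_of_nonneg (hd0 k)]
    simp only [hd]
    nlinarith [mul_nonneg (sub_nonneg.2 hcb) h5, mul_nonneg (sub_nonneg.2 hb.le) h5,
      mul_le_mul (show 1 - b ≤ 1 by linarith) h4 h6 zero_le_one]
  have hle : ∑' k, (μ k).toReal * d k ≤ 0 := by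
    rw [hsum]
    nlinarith [mul_le_mul_of_nonneg_left h1 (sub_nonneg.2 hcb),
      mul_le_mul_of_nonneg_left h2 (sub_nonneg.2 hb.le)]
  have hzero : ∀ k, (μ k).toReal * d k = 0 := by
    have h3 : HasSum (fun k => (μ k).toReal * d k) 0 := by
      have h4 : ∑' k, (μ k).toReal * d k = 0 := le_antisymm hle
        (tsum_nonneg fun k => mul_nonneg ENNReal.toReal_nonneg (hd0 k))
      rw [← h4]
      exact hsummable.hasSum
    have h5 := (hasSum_zero_iff_of_nonneg
      fun k => mul_nonneg ENNReal.toReal_nonneg (hd0 k)).1 h3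
    intro k
    exact congrFun h5 k
  have hμ2 : ∀ k, 2 ≤ k → (μ k).toReal = 0 := by
    intro k hk
    rcases mul_eq_zero.1 (hzero k) with h | h
    · exact h
    · exact absurd h (hdpos k hk).ne'
  have hgf : ∀ x : ℝ, gf μ x = (μ 0).toReal + (μ 1).toReal * x := by
    intro x
    unfold gf
    rw [tsum_eq_sum (s := Finset.range 2)]
    · simp [Finset.sum_range_succ]
    · intro k hk
      rw [Finset.mem_range, not_lt] at hk
      rw [hμ2 k hk, zero_mul]
  rw [hgf, hgf] at h2
  have h6 : (μ 1).toReal < 1 := by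
    rw [← ENNReal.toReal_one]
    exact (ENNReal.toReal_lt_toReal (μ.apply_ne_top 1) ENNReal.one_ne_top).2
      (lt_of_le_of_ne (μ.coe_le_one 1) hμ)
  nlinarith [mul_lt_mul_of_pos_right h6 (sub_pos.2 hlt)]

/-- Almost surely, in an infinite tree some vertex is bad. -/
lemma NN_null (μ : PMF ℕ) (hμ : μ 1 ≠ 1) (p : unitInterval) {B : Set (List ℕ → ℕ × Bool)}
    (hB : MeasurableSet B) (hB1 : (tm (lab μ p)).real B < 1) :
    tm (lab μ p) (NN B ∩ JJ) = 0 := by
  set P := tm (lab μ p) with hP
  have hprob : IsProbabilityMeasure P := by rw [hP]; infer_instance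
  have hN := measurableSet_NN hB
  have hJ := measurableSet_JJ
  set b := P.real (NN B) with hb
  set c := P.real (NN B ∩ JJᶜ) with hc
  set a := P.real (NN B ∩ JJ) with ha
  have hab : a = b - c := by
    have h1 := measureReal_inter_add_sdiff (μ := P) (s := NN B) hJ
    rw [Set.sdiff_eq] at h1
    linarith
  have hbB : b ≤ P.real B := measureReal_mono fun X hX => NN_root hX
  have h1 : b ≤ gf μ b := by
    rw [hb, hP, ← AB_prob μ p hN]
    exact measureReal_mono fun X hX i hi => NN_sub hX i hi
  have h2 : b - c ≤ gf μ b - gf μ c := by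
    rw [← hab, hb, hc, hP, ← AB_prob μ p hN, ← AB_prob μ p (hN.inter hJ.compl)]
    have hm2 : MeasurableSet {X : List ℕ → ℕ × Bool | ∀ i < (X []).1, sub i X ∈ NN B ∩ JJᶜ} :=
      (split (lab μ p)).measurable (measurableSet_AB (hN.inter hJ.compl))
    rw [← measureReal_sdiff _ hm2]
    · refine measureReal_mono ?_ (measure_ne_top _ _)
      intro X hX
      refine ⟨fun i hi => NN_sub hX.1 i hi, fun h => ?_⟩
      obtain ⟨i, hi, hJi⟩ := JJ_sub hX.2
      exact (h i hi).2 hJi
    · intro X hX i hi
      exact (hX i hi).1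
  have h3 : b = c := gf_lemma μ hμ measureReal_nonneg (measureReal_mono Set.inter_subset_left)
    (hbB.trans_lt hB1) h1 h2
  have h4 : a = 0 := by rw [hab, h3, sub_self]
  rw [ha, measureReal_eq_zero_iff] at h4
  exact h4

/-! ### Back to percolation -/

lemma percProb_le (T : List ℕ → ℕ) (p : unitInterval) (r : ℕ) (S : Set (List ℕ → ℕ × Bool))
    (hS : ∀ ω : List ℕ → Bool, (∀ v : {v : List ℕ // InT T v}, ∃ n,
      v ∈ inf r (fun u => (T u, ω u)) n) → zip (T, ω) ∈ S) :
    percProb (treeG T) r p ≤ perc p {ω | zip (T, ω) ∈ S} := by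
  unfold percProb initial
  have h1 := Measure.infinitePi_map_restrict' (fun _ : List ℕ => bernoulliMeasure true false p)
    (I := {v | InT T v})
  set g : (List ℕ → Bool) → ({v : List ℕ // InT T v} → Bool) := fun ω v => ω v.1 with hg
  have hgm : Measurable g := measurable_pi_lambda _ fun v => measurable_pi_apply _
  have h2 : Measure.infinitePi (fun _ : {v : List ℕ // InT T v} => bernoulliMeasure true false p) =
      (perc p).map g := h1.symm
  rw [h2, Measure.map_apply hgm (measurableSet_percolates _ _)]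
  apply measure_mono
  intro ω hω
  exact hS ω hω

/-- if a.s. a bad vertex exists, the infinite trees do not percolate -/
lemma percProb_zero (μ : PMF ℕ) (p : unitInterval) (r : ℕ) (S : Set (List ℕ → ℕ × Bool))
    (hS : ∀ (T : List ℕ → ℕ) (ω : List ℕ → Bool), (∀ v : {v : List ℕ // InT T v}, ∃ n,
      v ∈ inf r (fun u => (T u, ω u)) n) → zip (T, ω) ∈ S)
    (h0 : tm (lab μ p) (S ∩ JJ) = 0) :
    ∀ᵐ T ∂(gw μ), {v | InT T v}.Infinite → percProb (treeG T) r p = 0 := by
  have h1 : ((gw μ).prod (perc p)) (zip ⁻¹' (S ∩ JJ)) = 0 := by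
    have h2 : ((gw μ).prod (perc p)).map zip (S ∩ JJ) = 0 := by
      rw [map_zip]
      exact h0
    exact Measure.preimage_null_of_map_null measurable_zip.aemeasurable h2
  have h3 := Measure.measure_ae_null_of_prod_null h1
  filter_upwards [h3] with T hT hinf
  have h4 := percProb_le T p r S (hS T)
  have h5 : {ω | zip (T, ω) ∈ S} ⊆ Prod.mk T ⁻¹' (zip ⁻¹' (S ∩ JJ)) := by
    intro ω hω
    exact ⟨hω, hinf⟩
  exact le_antisymm (h4.trans ((measure_mono h5).trans hT.le)) bot_le

/-- **Criterion.** If `p < 1`, the offspring distribution is not the Dirac mass at `1`, and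
`p + (1 - p) P(Bin(ξ, y) ≥ r) ≤ y` for some `y < 1`, then almost surely, if the tree is infinite,
there is no percolation at `p`. -/
theorem criterion (μ : PMF ℕ) (hμ : μ 1 ≠ 1) (p : unitInterval) (hp : (p : ℝ) < 1) {r : ℕ}
    (hr : 2 ≤ r) {y : ℝ} (hy0 : 0 ≤ y) (hy1 : y < 1)
    (h : p + (1 - p) * ∑' k, (μ k).toReal * hh r k y ≤ y) :
    ∀ᵐ T ∂(gw μ), {v | InT T v}.Infinite → percProb (treeG T) r p = 0 := by
  apply percProb_zero μ p r (NN {X | Hev r X}ᶜ)
  · intro T ω hω v hv hH
    obtain ⟨n, hn⟩ := hω ⟨v, hv⟩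
    exact not_inf_of_Hev hr (zip (T, ω)) ⟨v, hv⟩ hH n hn
  · apply NN_null μ hμ p (measurableSet_Hev r).compl
    rw [probReal_compl_eq_one_sub (measurableSet_Hev r)]
    have := Hev_pos μ p hp r hy0 hy1 h
    linarith

/-! ### Few children, and subcritical trees -/

/-- the root is infected or has at least `r - 1` children -/
def Few (r : ℕ) : Set (List ℕ → ℕ × Bool) := {X | ¬ ((X []).2 = false ∧ (X []).1 + 2 ≤ r)}

lemma measurableSet_Few (r : ℕ) : MeasurableSet (Few r) := by
  have h : Measurable (fun X : List ℕ → ℕ × Bool => X []) := measurable_pi_apply []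
  exact h (Set.to_countable {x : ℕ × Bool | ¬ (x.2 = false ∧ x.1 + 2 ≤ r)}).measurableSet

lemma few_null (μ : PMF ℕ) (h0 : μ 0 = 0) (p : unitInterval) (hp : (p : ℝ) < 1) (r : ℕ)
    {k₀ : ℕ} (hk₀ : k₀ + 2 ≤ r) (hμ : μ k₀ ≠ 0) :
    tm (lab μ p) (NN (Few r)) = 0 := by
  have hN := measurableSet_NN (measurableSet_Few r)
  set b := (tm (lab μ p)).real (NN (Few r)) with hb
  have hb0 : 0 ≤ b := measureReal_nonneg
  have hb1 : b ≤ 1 := measureReal_le_one
  have hp0 := p.2.1
  set D : Set ((ℕ × Bool) × (ℕ → List ℕ → ℕ × Bool)) :=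
    {z | ¬ (z.1.2 = false ∧ z.1.1 + 2 ≤ r)} ∩ AB (NN (Few r)) with hDdef
  have hD : MeasurableSet D := by
    refine MeasurableSet.inter ?_ (measurableSet_AB hN)
    exact measurable_fst
      (Set.to_countable {x : ℕ × Bool | ¬ (x.2 = false ∧ x.1 + 2 ≤ r)}).measurableSet
  have hle : b ≤ (tm (lab μ p)).real {X | (X [], fun i => sub i X) ∈ D} := by
    refine measureReal_mono ?_ (measure_ne_top _ _)
    intro X hX
    exact ⟨NN_root hX, fun i hi => NN_sub hX i hi⟩
  rw [tm_real _ hD] at hle
  have h1 : ∀ x : ℕ × Bool, (Measure.infinitePi (fun _ : ℕ => tm (lab μ p))).real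
      (Prod.mk x ⁻¹' D) = if (x.2 = false ∧ x.1 + 2 ≤ r) then 0 else b ^ x.1 := by
    intro x
    split_ifs with hx
    · have : Prod.mk x ⁻¹' D = ∅ := by
        ext Y
        simp only [hDdef, Set.mem_preimage, Set.mem_inter_iff, Set.mem_ofPred_eq,
          Set.mem_empty_iff_false, iff_false]
        intro h
        exact h.1 hx
      rw [this]
      exact measureReal_empty
    · have : Prod.mk x ⁻¹' D = Prod.mk x ⁻¹' AB (NN (Few r)) := by
        ext Y
        simp only [hDdef, Set.mem_preimage, Set.mem_inter_iff, Set.mem_ofPred_eq, and_iff_right_iff_imp]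
        intro _
        exact hx
      rw [this, AB_prob_section μ p hN]
  simp only [h1] at hle
  rw [integral_lab μ p (b := 1)] at hle
  · set f : ℕ → ℝ := fun k => if k + 2 ≤ r then (p : ℝ) else 1 with hf
    have hf1 : ∀ k, |f k| ≤ 1 := by
      intro k
      simp only [hf]
      split_ifs
      · rw [abs_of_nonneg hp0]; exact hp.le
      · simp
    have hle2 : b ≤ b * ∑' k, (μ k).toReal * f k := by
      refine hle.trans ?_
      rw [← tsum_mul_left]
      refine Summable.tsum_le_tsum (fun k => ?_) ?_ ((summable_pmf_mul μ hf1).mul_left _)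
      · rcases Nat.eq_zero_or_pos k with rfl | hk
        · rw [h0]
          simp
        · have hbk : b ^ k ≤ b := pow_le_of_le_one hb0 hb1 hk.ne'
          have hbk0 : 0 ≤ b ^ k := pow_nonneg hb0 k
          have h2 : (p : ℝ) * (if (k, true).2 = false ∧ (k, true).1 + 2 ≤ r then (0 : ℝ) else b ^ (k, true).1) +
              (1 - p) * (if (k, false).2 = false ∧ (k, false).1 + 2 ≤ r then (0 : ℝ) else b ^ (k, false).1) =
              b ^ k * f k := by
            simp only [hf, Bool.true_eq_false, false_and, if_false, true_and]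
            split_ifs
            · ring
            · ring
          rw [h2]
          have hfk : 0 ≤ f k := by
            simp only [hf]
            split_ifs
            · exact hp0
            · exact zero_le_one
          have h3 : b ^ k * f k ≤ b * f k := mul_le_mul_of_nonneg_right hbk hfk
          calc (μ k).toReal * (b ^ k * f k) ≤ (μ k).toReal * (b * f k) :=
                mul_le_mul_of_nonneg_left h3 ENNReal.toReal_nonneg
            _ = b * ((μ k).toReal * f k) := by ring
      · apply summable_pmf_mul μ (b := 1)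
        intro k
        have hbk : b ^ k ≤ 1 := pow_le_one₀ hb0 hb1
        have hbk0 : 0 ≤ b ^ k := pow_nonneg hb0 k
        simp only [Bool.true_eq_false, false_and, if_false, true_and]
        split_ifs
        · rw [mul_zero, add_zero, abs_of_nonneg (by positivity)]
          nlinarith
        · rw [abs_of_nonneg (by nlinarith)]
          nlinarith
    have hsum : ∑' k, (μ k).toReal * f k < 1 := by
      rw [← tsum_pmf μ]
      refine Summable.tsum_lt_tsum (i := k₀) (fun k => ?_) ?_ (summable_pmf_mul μ hf1)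
        (summable_pmf μ)
      · have : f k ≤ 1 := (le_abs_self _).trans (hf1 k)
        exact mul_le_of_le_one_right ENNReal.toReal_nonneg this
      · have h2 : f k₀ = p := by
          simp only [hf]
          rw [if_pos hk₀]
        rw [h2]
        have h3 : 0 < (μ k₀).toReal := ENNReal.toReal_pos hμ (μ.apply_ne_top k₀)
        nlinarith
    have hb00 : b = 0 := by
      by_contra hne
      have hbpos : 0 < b := lt_of_le_of_ne hb0 fun h => hne h.symm
      nlinarith [mul_lt_mul_of_pos_left hsum hbpos]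
    rw [hb, measureReal_eq_zero_iff] at hb00
    exact hb00
  · intro x
    split_ifs
    · simp
    · rw [abs_of_nonneg (pow_nonneg hb0 _)]
      exact pow_le_one₀ hb0 hb1

/-- If some number `k ≤ r - 2` of children has positive probability, and no vertex is childless,
then almost surely there is no percolation for `p < 1`. -/
theorem criterion_few (μ : PMF ℕ) (h0 : μ 0 = 0) (p : unitInterval) (hp : (p : ℝ) < 1) (r : ℕ)
    {k₀ : ℕ} (hk₀ : k₀ + 2 ≤ r) (hμ : μ k₀ ≠ 0) :
    ∀ᵐ T ∂(gw μ), {v | InT T v}.Infinite → percProb (treeG T) r p = 0 := by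
  apply percProb_zero μ p r (NN (Few r))
  · intro T ω hω v hv hH
    obtain ⟨n, hn⟩ := hω ⟨v, hv⟩
    refine not_inf_of_few (r := r) (zip (T, ω)) ⟨v, hv⟩ ?_ ?_ n hn
    · have := hH.1
      simpa [at'] using this
    · have := hH.2
      simpa [at'] using this
  · exact measure_mono_null Set.inter_subset_left (few_null μ h0 p hp r hk₀ hμ)

/-- A subcritical tree is almost surely finite. -/
theorem finite_of_mean_lt_one (μ : PMF ℕ) (hs : Summable fun k => (μ k).toReal * (k : ℝ))
    (h : ∑' k, (μ k).toReal * (k : ℝ) < 1) : ∀ᵐ T ∂(gw μ), ¬ {v | InT T v}.Infinite := by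
  set p : unitInterval := 0
  set P := tm (lab μ p) with hP
  have hprob : IsProbabilityMeasure P := by rw [hP]; infer_instance
  set a := P.real JJ with ha
  have ha0 : 0 ≤ a := measureReal_nonneg
  have ha1 : a ≤ 1 := measureReal_le_one
  have hc : P.real JJᶜ = 1 - a := probReal_compl_eq_one_sub measurableSet_JJ
  have h1 : gf μ (1 - a) ≤ 1 - a := by
    rw [← hc, hP, ← AB_prob μ p measurableSet_JJ.compl]
    refine measureReal_mono ?_ (measure_ne_top _ _)
    intro X hX hJ
    obtain ⟨i, hi, hJi⟩ := JJ_sub hJ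
    exact hX i hi hJi
  have h2 : 1 - a * ∑' k, (μ k).toReal * (k : ℝ) ≤ gf μ (1 - a) := by
    unfold gf
    have h3 : 1 - a * ∑' k, (μ k).toReal * (k : ℝ) =
        ∑' k, ((μ k).toReal - a * ((μ k).toReal * (k : ℝ))) := by
      rw [Summable.tsum_sub (summable_pmf μ) (hs.mul_left a), tsum_pmf, tsum_mul_left]
    rw [h3]
    refine Summable.tsum_le_tsum (fun k => ?_) ((summable_pmf μ).sub (hs.mul_left a))
      (gf_summable μ (by linarith) (by linarith))
    have h4 := one_add_mul_le_pow (a := -a) (by linarith) k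
    have h5 : (μ k).toReal - a * ((μ k).toReal * (k : ℝ)) = (μ k).toReal * (1 + k * -a) := by ring
    rw [h5]
    have h6 : (1 : ℝ) - a = 1 + -a := by ring
    rw [h6]
    exact mul_le_mul_of_nonneg_left h4 ENNReal.toReal_nonneg
  have ha00 : a = 0 := by
    by_contra hne
    have hapos : 0 < a := lt_of_le_of_ne ha0 fun h => hne h.symm
    nlinarith [mul_lt_mul_of_pos_left h hapos]
  rw [ha, measureReal_eq_zero_iff] at ha00
  have h3 : ((gw μ).prod (perc p)) (zip ⁻¹' JJ) = 0 := by
    have h4 : ((gw μ).prod (perc p)).map zip JJ = 0 := by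
      rw [map_zip]
      exact ha00
    exact Measure.preimage_null_of_map_null measurable_zip.aemeasurable h4
  filter_upwards [Measure.measure_ae_null_of_prod_null h3] with T hT hinf
  have h5 : Prod.mk T ⁻¹' (zip ⁻¹' JJ) = Set.univ := by
    ext ω
    simp only [Set.mem_preimage, Set.mem_univ, iff_true]
    exact hinf
  rw [h5] at hT
  simp at hT

end Pool.Agent.R953.Boot
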