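import Mathlib
import Pool.Agent.R953.BootMain

/-!
# The integral of the binomial tails
-/

set_option autoImplicit false

open MeasureTheory ProbabilityTheory Filter
open scoped ENNReal NNReal Topology

namespace Pool.Agent.R953.Boot

/-- the probability that a binomial variable equals `r` -/
def gg (r k : ℕ) (y : ℝ) : ℝ := hh r k y - hh (r + 1) k y

lemma gg_zero_zero (y : ℝ) : gg 0 0 y = 1 := by
  simp [gg, hh_zero, hh_succ_zero]

lemma gg_succ_zero (r : ℕ) (y : ℝ) : gg (r + 1) 0 y = 0 := by
  simp [gg, hh_succ_zero]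

lemma gg_zero_succ (k : ℕ) (y : ℝ) : gg 0 (k + 1) y = (1 - y) * gg 0 k y := by
  simp only [gg, hh_zero, hh_succ]
  ring

lemma gg_succ_succ (r k : ℕ) (y : ℝ) :
    gg (r + 1) (k + 1) y = y * gg r k y + (1 - y) * gg (r + 1) k y := by
  simp only [gg, hh_succ]
  ring

lemma gg_identity (k : ℕ) (y : ℝ) : ∀ r : ℕ, ((r : ℝ) + 1) * gg (r + 1) (k + 1) y =
    ((k : ℝ) + 1) * y * gg r k y := by
  induction k with
  | zero =>
    intro r
    rw [gg_succ_succ, gg_succ_zero]
    cases r with
    | zero => simp
    | succ r => rw [gg_succ_zero]; simp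
  | succ k ih =>
    intro r
    cases r with
    | zero =>
      rw [gg_succ_succ, gg_zero_succ]
      have h := ih 0
      push_cast at h ⊢
      linear_combination (1 - y) * h
    | succ r =>
      rw [gg_succ_succ, gg_succ_succ r k]
      have h1 := ih r
      have h2 := ih (r + 1)
      rw [gg_succ_succ r k] at h1
      push_cast at h1 h2 ⊢
      linear_combination y * h1 + (1 - y) * h2

lemma hasDerivAt_hh (k : ℕ) (y : ℝ) : ∀ r : ℕ,
    HasDerivAt (fun y => hh (r + 1) (k + 1) y) (((k : ℝ) + 1) * gg r k y) y := by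
  induction k with
  | zero =>
    intro r
    have h : (fun y : ℝ => hh (r + 1) (0 + 1) y) = fun y => y * hh r 0 y := by
      funext y
      rw [hh_succ, hh_succ_zero]
      ring
    rw [h]
    cases r with
    | zero =>
      simp only [hh_zero, gg_zero_zero, mul_one, Nat.cast_zero, zero_add]
      exact hasDerivAt_id y
    | succ r =>
      simp only [hh_succ_zero, gg_succ_zero, mul_zero]
      exact hasDerivAt_const y 0
  | succ k ih =>
    intro r
    have h : (fun y : ℝ => hh (r + 1) (k + 1 + 1) y) =
        fun y => y * hh r (k + 1) y + (1 - y) * hh (r + 1) (k + 1) y := by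
      funext y
      rw [hh_succ]
    rw [h]
    cases r with
    | zero =>
      have h1 := (hasDerivAt_id y).mul_const (1 : ℝ)
      have h2 := ((hasDerivAt_const y (1 : ℝ)).sub (hasDerivAt_id y)).mul (ih 0)
      have h3 := h1.add h2
      simp only [hh_zero]
      refine h3.congr_deriv ?_
      have h4 : gg 0 (k + 1) y = (1 - y) * gg 0 k y := gg_zero_succ k y
      have h5 : hh (0 + 1) (k + 1) y = 1 - gg 0 (k + 1) y := by
        simp [gg, hh_zero]
      simp only [id, Pi.sub_apply]
      rw [h5, h4]
      push_cast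
      ring
    | succ r =>
      have h1 := (hasDerivAt_id y).mul (ih r)
      have h2 := ((hasDerivAt_const y (1 : ℝ)).sub (hasDerivAt_id y)).mul (ih (r + 1))
      refine (h1.add h2).congr_deriv ?_
      have h4 : gg (r + 1) (k + 1) y = hh (r + 1) (k + 1) y - hh (r + 1 + 1) (k + 1) y := rfl
      have h5 := gg_succ_succ r k y
      simp only [id, Pi.sub_apply]
      push_cast
      linear_combination (-1 : ℝ) * h4 - ((k : ℝ) + 1) * h5

lemma hh_le_mul {y : ℝ} (h0 : 0 ≤ y) (h1 : y ≤ 1) (k : ℕ) : ∀ r : ℕ,
    ((r : ℝ) + 1) * hh (r + 1) (k + 1) y ≤ ((k : ℝ) + 1) * y * hh r k y := by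
  induction k with
  | zero =>
    intro r
    rw [hh_succ, hh_succ_zero]
    cases r with
    | zero => simp
    | succ r => rw [hh_succ_zero]; simp
  | succ k ih =>
    intro r
    cases r with
    | zero =>
      rw [hh_succ, hh_zero]
      have h := ih 0
      rw [hh_zero] at h
      push_cast at h ⊢
      have h2 : (1 - y) * ((0 + 1) * hh (0 + 1) (k + 1) y) ≤ (1 - y) * (((k : ℝ) + 1) * y * 1) :=
        mul_le_mul_of_nonneg_left h (by linarith)
      have h3 : (0 : ℝ) ≤ k := Nat.cast_nonneg k
      have h4 : 0 ≤ y * (((k : ℝ) + 1) * y) := by positivity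
      nlinarith
    | succ r =>
      rw [hh_succ]
      have h2 := ih r
      have h3 := ih (r + 1)
      have h4 : hh (r + 1) (k + 1) y = y * hh r k y + (1 - y) * hh (r + 1) k y := hh_succ r k y
      have h5 := mul_le_mul_of_nonneg_left h2 h0
      have h6 := mul_le_mul_of_nonneg_left h3 (sub_nonneg.2 h1)
      push_cast at h2 h3 h5 h6 ⊢
      linear_combination h5 + h6 - ((k : ℝ) + 1) * y * h4

lemma hh_one (k : ℕ) : ∀ r, r ≤ k → hh r k 1 = 1 := by
  induction k with
  | zero =>
    intro r hr
    have : r = 0 := by omega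
    rw [this, hh_zero]
  | succ k ih =>
    intro r hr
    cases r with
    | zero => rw [hh_zero]
    | succ r => rw [hh_succ, ih r (by omega)]; ring

lemma hh_lt (k : ℕ) (y : ℝ) : ∀ r, k < r → hh r k y = 0 := by
  induction k with
  | zero =>
    intro r hr
    obtain ⟨r, rfl⟩ : ∃ s, r = s + 1 := ⟨r - 1, by omega⟩
    rw [hh_succ_zero]
  | succ k ih =>
    intro r hr
    obtain ⟨r, rfl⟩ : ∃ s, r = s + 1 := ⟨r - 1, by omega⟩
    rw [hh_succ, ih r (by omega), ih (r + 1) (by omega)]
    ring

lemma continuous_hh (k : ℕ) : ∀ r, Continuous (hh r k) := by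
  induction k with
  | zero =>
    intro r
    cases r with
    | zero =>
      have : hh 0 0 = fun _ => (1 : ℝ) := by
        funext y
        rw [hh_zero]
      rw [this]
      exact continuous_const
    | succ r => exact continuous_const
  | succ k ih =>
    intro r
    cases r with
    | zero =>
      have : hh 0 (k + 1) = fun _ => (1 : ℝ) := by
        funext y
        rw [hh_zero]
      rw [this]
      exact continuous_const
    | succ r =>
      have : hh (r + 1) (k + 1) = fun y => y * hh r k y + (1 - y) * hh (r + 1) k y := by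
        funext y
        rw [hh_succ]
      rw [this]
      exact (continuous_id.mul (ih r)).add ((continuous_const.sub continuous_id).mul (ih (r + 1)))

/-- the integral of `h_k(y) / y ^ 2` -/
lemma integral_hh_le (s k : ℕ) (hk : s + 1 ≤ k) {p : ℝ} (hp0 : 0 < p) (hp1 : p ≤ 1) :
    ∫ y in p..1, hh (s + 2) k y / y ^ 2 ≤ (k : ℝ) / (s + 1) - 1 := by
  have hs : (0 : ℝ) < s + 1 := by positivity
  rcases hk.eq_or_lt with h | h
  · rw [← h]
    have h1 : ∀ y : ℝ, hh (s + 2) (s + 1) y / y ^ 2 = 0 := by
      intro y
      rw [hh_lt _ _ _ (by omega), zero_div]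
    simp only [h1, intervalIntegral.integral_zero]
    push_cast
    rw [div_self hs.ne', sub_self]
  · obtain ⟨m, rfl⟩ : ∃ m, k = m + 1 + 1 := ⟨k - 2, by omega⟩
    set F : ℝ → ℝ := fun y => ((m : ℝ) + 2) / (s + 1) * hh (s + 1) (m + 1) y -
      hh (s + 1 + 1) (m + 1 + 1) y / y with hF
    have hpos : ∀ y ∈ Set.uIcc p 1, 0 < y := by
      intro y hy
      rw [Set.uIcc_of_le hp1] at hy
      exact hp0.trans_le hy.1
    have hderiv : ∀ y ∈ Set.uIcc p 1, HasDerivAt F (hh (s + 2) (m + 1 + 1) y / y ^ 2) y := by
      intro y hy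
      have hy0 := hpos y hy
      have h1 := (hasDerivAt_hh m y s).const_mul (((m : ℝ) + 2) / (s + 1))
      have h2 := (hasDerivAt_hh (m + 1) y (s + 1)).div (hasDerivAt_id y) hy0.ne'
      refine (h1.sub h2).congr_deriv ?_
      have h3 := gg_identity m y s
      simp only [id]
      push_cast
      have h4 : gg (s + 1) (m + 1) y = ((m : ℝ) + 1) * y * gg s m y / (s + 1) := by
        field_simp
        linarith
      rw [h4]
      field_simp
      ring
    have hint : IntervalIntegrable (fun y => hh (s + 2) (m + 1 + 1) y / y ^ 2) volume p 1 := by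
      apply ContinuousOn.intervalIntegrable
      refine ContinuousOn.div (continuous_hh _ _).continuousOn (by fun_prop) ?_
      intro y hy
      have := hpos y hy
      positivity
    rw [intervalIntegral.integral_eq_sub_of_hasDerivAt hderiv hint]
    have hF1 : F 1 = ((m + 1 + 1 : ℕ) : ℝ) / (s + 1) - 1 := by
      simp only [hF]
      rw [hh_one _ _ (by omega), hh_one _ _ (by omega)]
      push_cast
      ring
    have hFp : 0 ≤ F p := by
      simp only [hF]
      have h1 := hh_le_mul hp0.le hp1 (m + 1) (s + 1)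
      have h2 := hh_nonneg hp0.le hp1 (m + 1 + 1) (s + 1 + 1)
      push_cast at h1
      have h3 : hh (s + 1 + 1) (m + 1 + 1) p / p ≤
          ((m : ℝ) + 2) / (s + 1) * hh (s + 1) (m + 1) p := by
        rw [div_le_iff₀ hp0, div_mul_eq_mul_div, div_mul_eq_mul_div, le_div_iff₀ hs]
        nlinarith
      linarith
    rw [hF1]
    linarith

/-- **Choice of `y`.** -/
lemma exists_y (s : ℕ) (μ : PMF ℕ) (hμ : ∀ k, k < s + 1 → μ k = 0)
    (hs : Summable fun k => (μ k).toReal * (k : ℝ)) {p : ℝ} (hp0 : 0 < p) (hp1 : p < 1)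
    (hp : (∑' k, (μ k).toReal * (k : ℝ)) / (s + 1) ≤ -Real.log p) :
    ∃ y, 0 ≤ y ∧ y < 1 ∧ p + (1 - p) * ∑' k, (μ k).toReal * hh (s + 2) k y ≤ y := by
  by_contra hcon
  push Not at hcon
  set b : ℝ := ∑' k, (μ k).toReal * (k : ℝ) with hb
  set S : ℝ → ℝ := fun y => ∑' k, (μ k).toReal * hh (s + 2) k y with hS
  set ν : Measure ℝ := volume.restrict (Set.Ioc p 1) with hν
  set F : ℕ → ℝ → ℝ := fun k y => (μ k).toReal * (hh (s + 2) k y / y ^ 2) with hF
  have hcont : ∀ k, ContinuousOn (fun y : ℝ => hh (s + 2) k y / y ^ 2) (Set.Icc p 1) := by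
    intro k
    refine ContinuousOn.div (continuous_hh _ _).continuousOn (by fun_prop) ?_
    intro y hy
    have := hp0.trans_le hy.1
    positivity
  have hint0 : ∀ k, Integrable (fun y : ℝ => hh (s + 2) k y / y ^ 2) ν := fun k =>
    ((hcont k).integrableOn_Icc).mono_set Set.Ioc_subset_Icc_self
  have hint : ∀ k, Integrable (F k) ν := fun k => (hint0 k).const_mul _
  have hI : ∀ k, ∫ y, F k y ∂ν = (μ k).toReal * ∫ y in p..1, hh (s + 2) k y / y ^ 2 := by
    intro k
    simp only [hF, hν]
    rw [integral_const_mul, intervalIntegral.integral_of_le hp1.le]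
  have hFnn : ∀ k, ∀ᵐ y ∂ν, 0 ≤ F k y := by
    intro k
    rw [hν, ae_restrict_iff' measurableSet_Ioc]
    refine Eventually.of_forall fun y hy => ?_
    have hy0 : 0 < y := hp0.trans hy.1
    exact mul_nonneg ENNReal.toReal_nonneg
      (div_nonneg (hh_nonneg hy0.le hy.2 _ _) (by positivity))
  have hIle : ∀ k, ∫ y, F k y ∂ν ≤ (μ k).toReal * ((k : ℝ) / (s + 1) - 1) := by
    intro k
    rw [hI]
    by_cases hk : k < s + 1
    · rw [hμ k hk]
      simp
    · exact mul_le_mul_of_nonneg_left (integral_hh_le s k (not_lt.1 hk) hp0 hp1.le)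
        ENNReal.toReal_nonneg
  have hsum2 : Summable fun k => (μ k).toReal * ((k : ℝ) / (s + 1) - 1) := by
    have h1 : (fun k => (μ k).toReal * ((k : ℝ) / (s + 1) - 1)) =
        fun k => (μ k).toReal * (k : ℝ) * (1 / (s + 1)) - (μ k).toReal := by
      funext k
      ring
    rw [h1]
    exact (hs.mul_right _).sub (summable_pmf μ)
  have hnorm : ∀ k, ∫ y, ‖F k y‖ ∂ν = ∫ y, F k y ∂ν := by
    intro k
    apply integral_congr_ae
    filter_upwards [hFnn k] with y hy
    rw [Real.norm_eq_abs, abs_of_nonneg hy]
  have hsumn : Summable fun k => ∫ y, ‖F k y‖ ∂ν := by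
    simp_rw [hnorm]
    exact Summable.of_nonneg_of_le (fun k => integral_nonneg_of_ae (hFnn k)) hIle hsum2
  have hhas := hasSum_integral_of_summable_integral_norm hint hsumn
  have htot : ∫ y, (∑' k, F k y) ∂ν ≤ b / (s + 1) - 1 := by
    have h1 : ∑' k, (μ k).toReal * ((k : ℝ) / (s + 1) - 1) = b / (s + 1) - 1 := by
      have h2 : (fun k => (μ k).toReal * ((k : ℝ) / (s + 1) - 1)) =
          fun k => (μ k).toReal * (k : ℝ) * (1 / (s + 1)) - (μ k).toReal := by
        funext k
        ring
      rw [h2, Summable.tsum_sub (hs.mul_right _) (summable_pmf μ), tsum_pmf, tsum_mul_right]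
      ring
    rw [← h1]
    exact hasSum_le hIle hhas hsum2.hasSum
  have hlow : -Real.log p - 1 + p ≤ ∫ y, (∑' k, F k y) ∂ν := by
    have h1 : ∫ y in p..1, (y - p) / y ^ 2 = -Real.log p - 1 + p := by
      have hderiv : ∀ y ∈ Set.uIcc p 1, HasDerivAt (fun y => Real.log y + p / y)
          ((y - p) / y ^ 2) y := by
        intro y hy
        rw [Set.uIcc_of_le hp1.le] at hy
        have hy0 : 0 < y := hp0.trans_le hy.1
        have h2 := (Real.hasDerivAt_log hy0.ne').add
          ((hasDerivAt_const y p).div (hasDerivAt_id y) hy0.ne')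
        refine h2.congr_deriv ?_
        simp only [id]
        field_simp
        ring
      have hint1 : IntervalIntegrable (fun y : ℝ => (y - p) / y ^ 2) volume p 1 := by
        apply ContinuousOn.intervalIntegrable
        refine ContinuousOn.div (by fun_prop) (by fun_prop) ?_
        intro y hy
        rw [Set.uIcc_of_le hp1.le] at hy
        have : 0 < y := hp0.trans_le hy.1
        positivity
      rw [intervalIntegral.integral_eq_sub_of_hasDerivAt hderiv hint1]
      rw [Real.log_one, div_self hp0.ne']
      ring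
    rw [← h1, intervalIntegral.integral_of_le hp1.le]
    apply integral_mono_ae
    · have hc : ContinuousOn (fun y : ℝ => (y - p) / y ^ 2) (Set.Icc p 1) := by
        refine ContinuousOn.div (by fun_prop) (by fun_prop) ?_
        intro y hy
        have : 0 < y := hp0.trans_le hy.1
        positivity
      exact (hc.integrableOn_Icc).mono_set Set.Ioc_subset_Icc_self
    · by_contra hni
      have hz := integral_undef hni
      -- impossible: the sum is integrable
      exact hni (by
        have hlt : ∫⁻ y, ∑' k, ‖F k y‖ₑ ∂ν ≠ ⊤ := by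
          rw [lintegral_tsum fun k => (hint k).1.enorm]
          have h5 : ∀ k, ∫⁻ y, ‖F k y‖ₑ ∂ν = ENNReal.ofReal (∫ y, ‖F k y‖ ∂ν) := by
            intro k
            rw [← ofReal_integral_norm_eq_lintegral_enorm (hint k)]
          simp_rw [h5]
          rw [← ENNReal.ofReal_tsum_of_nonneg (fun k => integral_nonneg fun _ => norm_nonneg _)
            hsumn]
          exact ENNReal.ofReal_ne_top
        have hmeas : AEStronglyMeasurable (fun y => ∑' k, F k y) ν := by
          have h6 : ∀ k, Measurable (F k) := fun k =>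
            measurable_const.mul ((continuous_hh _ _).measurable.div (measurable_id.pow_const 2))
          apply aestronglyMeasurable_of_tendsto_ae atTop
            (f := fun (n : ℕ) y => ∑ k ∈ Finset.range n, F k y)
          · intro n
            exact (Finset.measurable_fun_sum _ fun k _ => h6 k).aestronglyMeasurable
          · rw [hν, ae_restrict_iff' measurableSet_Ioc]
            refine Eventually.of_forall fun y hy => ?_
            have hy0 : 0 < y := hp0.trans hy.1
            have h7 : Summable fun k => F k y := by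
              apply summable_pmf_mul μ (b := 1 / y ^ 2)
              intro k
              rw [abs_of_nonneg (div_nonneg (hh_nonneg hy0.le hy.2 _ _) (by positivity))]
              exact div_le_div_of_nonneg_right (hh_le_one hy0.le hy.2 _ _) (by positivity)
            exact h7.hasSum.tendsto_sum_nat
        refine ⟨hmeas, ?_⟩
        refine lt_of_le_of_lt (lintegral_mono fun y => ?_) (lt_top_iff_ne_top.2 hlt)
        exact enorm_tsum_le_tsum_enorm)
    · have : ∀ᵐ y ∂ν, y ≠ 1 := by
        rw [hν]
        exact ae_restrict_of_ae (Measure.ae_ne volume 1)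
      filter_upwards [this, (ae_restrict_iff' measurableSet_Ioc (μ := volume)).2
        (Eventually.of_forall fun y (hy : y ∈ Set.Ioc p 1) => hy)] with y hy1 hy
      have hy0 : 0 < y := hp0.trans hy.1
      have hylt : y < 1 := lt_of_le_of_ne hy.2 hy1
      have h2 := hcon y hy0.le hylt
      have h3 : ∑' k, F k y = S y / y ^ 2 := by
        simp only [hF, hS]
        rw [← tsum_div_const]
        refine tsum_congr fun k => ?_
        ring
      rw [h3]
      apply div_le_div_of_nonneg_right _ (by positivity)
      have hSnn : 0 ≤ S y := tsum_nonneg fun k =>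
        mul_nonneg ENNReal.toReal_nonneg (hh_nonneg hy0.le hy.2 _ _)
      have h4 : y < p + (1 - p) * S y := h2
      nlinarith
  linarith

end Pool.Agent.R953.Boot
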