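import Mathlib

/-! Covering and multiplicity of rotated balls of radius `2/q` on the circle. -/

namespace Pool.Agent.R953.QP

open MeasureTheory Set

/-- Arbitrarily large denominators in Dirichlet's theorem. -/
lemma good_q {β : ℝ} (hβ : Irrational β) (N : ℕ) :
    ∃ (q : ℕ) (a : ℤ), N ≤ q ∧ 0 < q ∧ IsCoprime a (q : ℤ) ∧ |β - a / q| < 1 / (q : ℝ) ^ 2 := by
  have hinf := Real.infinite_rat_abs_sub_lt_one_div_den_sq_of_irrational hβ
  by_contra hcon
  push Not at hcon
  apply hinf
  -- the set injects in a finite box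
  have hsub : {q : ℚ | |β - q| < 1 / (q.den : ℝ) ^ 2} ⊆
      (fun z : ℤ × ℕ => (z.1 : ℚ) / (z.2 : ℚ)) ''
        ((Set.Icc (-⌈(|β| + 1) * N⌉) ⌈(|β| + 1) * N⌉) ×ˢ (Set.Iio N)) := by
    intro r hr
    have hr' : |β - r| < 1 / (r.den : ℝ) ^ 2 := hr
    have hden : 0 < r.den := r.den_pos
    have hlt : r.den < N := by
      by_contra hge
      push Not at hge
      refine absurd hr' (not_lt.mpr ?_)
      have := hcon r.den r.num hge hden (by
        have h1 := r.reduced
        rw [Int.isCoprime_iff_gcd_eq_one]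
        simpa [Int.gcd, Nat.Coprime] using h1)
      have h2 : ((r.num : ℝ) / (r.den : ℝ)) = (r : ℝ) := by
        exact (Rat.cast_def r).symm
      rw [h2] at this
      exact this
    refine ⟨(r.num, r.den), ⟨?_, hlt⟩, ?_⟩
    · have hd1 : (1 : ℝ) ≤ r.den := by exact_mod_cast hden
      have hb : |β - r| < 1 := by
        refine lt_of_lt_of_le hr' ?_
        rw [div_le_one (by positivity)]
        nlinarith
      have hr1 : |(r : ℝ)| ≤ |β| + 1 := by
        have := abs_sub_abs_le_abs_sub (r : ℝ) β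
        rw [abs_sub_comm] at this
        linarith
      have hnum : (r.num : ℝ) = r * r.den := by
        have := Rat.cast_def (K := ℝ) r
        rw [this]
        field_simp
      have hN : (r.den : ℝ) ≤ N := by exact_mod_cast hlt.le
      have hn : |(r.num : ℝ)| ≤ (|β| + 1) * N := by
        rw [hnum, abs_mul, abs_of_nonneg (by positivity : (0 : ℝ) ≤ r.den)]
        have h0 : 0 ≤ |β| + 1 := by positivity
        gcongr
      have hc := Int.le_ceil ((|β| + 1) * N)
      have h3 := abs_le.mp (hn.trans hc)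
      constructor
      · exact_mod_cast h3.1
      · exact_mod_cast h3.2
    · exact (Rat.num_div_den r)
  exact ((Set.finite_Icc _ _).prod (Set.finite_Iio N)).image _ |>.subset hsub

lemma norm_coe_le (x : ℝ) : ‖(x : UnitAddCircle)‖ ≤ |x| := by
  have : ‖(x : UnitAddCircle)‖ ≤ ‖x‖ := QuotientAddGroup.norm_mk_le_norm
  simpa using this

lemma cover_real {β t : ℝ} {q : ℕ} {a : ℤ} (hq : 0 < q) (hc : IsCoprime a (q : ℤ))
    (hβ : |β - a / q| < 1 / (q : ℝ) ^ 2) :
    ∃ j : ℕ, j < q ∧ ‖((t + j * β : ℝ) : UnitAddCircle)‖ ≤ 2 / q := by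
  have hq' : (0 : ℝ) < q := by exact_mod_cast hq
  obtain ⟨u, v, huv⟩ := hc
  set k : ℤ := round (q * t) with hk
  set j : ℤ := (-k * u) % q with hj
  have hj0 : 0 ≤ j := Int.emod_nonneg _ (by positivity)
  have hjq : j < q := Int.emod_lt_of_pos _ (by exact_mod_cast hq)
  have hdiv : (-k * u) = q * ((-k * u) / q) + j := by
    rw [hj]; exact (Int.mul_ediv_add_emod _ _).symm
  set e : ℤ := (-k * u) / q
  have hm : k + j * a = (k * v - e * a) * q := by
    have : j = -k * u - q * e := by linarith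
    rw [this]
    linear_combination (-k) * huv
  refine ⟨j.toNat, by omega, ?_⟩
  have hjr : ((j.toNat : ℕ) : ℝ) = (j : ℝ) := by
    have : ((j.toNat : ℕ) : ℤ) = j := Int.toNat_of_nonneg hj0
    exact_mod_cast congrArg (fun z : ℤ => (z : ℝ)) this
  rw [hjr]
  have hmr : (k : ℝ) + j * a = ((k * v - e * a : ℤ) : ℝ) * q := by exact_mod_cast hm
  have hdec : t + j * β = ((k * v - e * a : ℤ) : ℝ) + ((q * t - k) / q + j * (β - a / q)) := by
    field_simp
    linear_combination hmr
  have hcoe : ((t + j * β : ℝ) : UnitAddCircle)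
      = (((q * t - k) / q + j * (β - a / q) : ℝ) : UnitAddCircle) := by
    rw [hdec, AddCircle.coe_add]
    have : (((k * v - e * a : ℤ) : ℝ) : UnitAddCircle) = 0 := by
      rw [AddCircle.coe_eq_zero_iff]
      exact ⟨k * v - e * a, by simp⟩
    rw [this, zero_add]
  rw [hcoe]
  refine (norm_coe_le _).trans ?_
  have h1 : |(q * t - k) / q| ≤ (1 / 2) / q := by
    rw [abs_div, abs_of_pos hq']
    gcongr
    exact abs_sub_round (q * t)
  have h2 : |(j : ℝ) * (β - a / q)| ≤ 1 / q := by
    rw [abs_mul, abs_of_nonneg (by exact_mod_cast hj0)]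
    have hjr2 : (j : ℝ) ≤ q := by exact_mod_cast hjq.le
    calc (j : ℝ) * |β - a / q| ≤ q * (1 / (q : ℝ) ^ 2) := by
          gcongr
      _ = 1 / q := by field_simp
  calc |(q * t - k) / q + j * (β - a / q)| ≤ (1 / 2) / q + 1 / q :=
        (abs_add_le _ _).trans (add_le_add h1 h2)
    _ ≤ 2 / q := by
        rw [← add_div]; gcongr; norm_num

lemma mult_real {β t : ℝ} {q : ℕ} {a : ℤ} (hq : 0 < q) (hc : IsCoprime a (q : ℤ))
    (hβ : |β - a / q| < 1 / (q : ℝ) ^ 2) :
    ((Finset.range q).filter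
      (fun j : ℕ => ‖((t + j * β : ℝ) : UnitAddCircle)‖ ≤ 2 / q)).card ≤ 7 := by
  classical
  have hq' : (0 : ℝ) < q := by exact_mod_cast hq
  set F : ℕ → ℤ := fun j => j * a - round (t + j * β) * q with hF
  have hcard : (Finset.Icc ⌈-(q * t) - 3⌉ ⌊-(q * t) + 3⌋).card ≤ 7 := by
    rw [Int.card_Icc]
    have h1 : ⌊-(q * t) + 3⌋ ≤ ⌈-(q * t) - 3⌉ + 6 := by
      have ha := Int.floor_le (-(q * t) + 3)
      have hb := Int.le_ceil (-(q * t) - 3)
      have : ((⌊-(q * t) + 3⌋ : ℤ) : ℝ) ≤ ((⌈-(q * t) - 3⌉ + 6 : ℤ) : ℝ) := by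
        push_cast
        linarith
      exact_mod_cast this
    omega
  refine le_trans (Finset.card_le_card_of_injOn F ?_ ?_) hcard
  · intro j hj
    simp only [Finset.coe_filter, Finset.mem_range, Set.mem_ofPred_eq] at hj
    obtain ⟨hjq, hn⟩ := hj
    rw [UnitAddCircle.norm_eq] at hn
    have hjr : (j : ℝ) ≤ q := by exact_mod_cast hjq.le
    have h2 : |(j : ℝ) * (β - a / q)| ≤ 1 / q := by
      rw [abs_mul, abs_of_nonneg (by positivity)]
      calc (j : ℝ) * |β - a / q| ≤ q * (1 / (q : ℝ) ^ 2) := by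
            gcongr
        _ = 1 / q := by field_simp
    have h3 : |t + j * (a / q) - round (t + j * β)| ≤ 3 / q := by
      have : t + j * (a / q) - round (t + j * β)
          = (t + j * β - round (t + j * β)) - j * (β - a / q) := by ring
      rw [this]
      calc _ ≤ |t + j * β - round (t + j * β)| + |(j : ℝ) * (β - a / q)| := abs_sub _ _
        _ ≤ 2 / q + 1 / q := add_le_add hn h2
        _ = 3 / q := by ring
    have h4 : |q * t + (F j : ℝ)| ≤ 3 := by
      have : q * t + (F j : ℝ) = q * (t + j * (a / q) - round (t + j * β)) := by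
        simp only [hF]
        push_cast
        field_simp
        ring
      rw [this, abs_mul, abs_of_pos hq']
      calc (q : ℝ) * |t + j * (a / q) - round (t + j * β)| ≤ q * (3 / q) := by gcongr
        _ = 3 := by field_simp
    have h5 := abs_le.mp h4
    simp only [Finset.coe_Icc, Set.mem_Icc]
    constructor
    · rw [Int.ceil_le]; linarith [h5.1]
    · rw [Int.le_floor]; linarith [h5.2]
  · intro i hi j hj hij
    simp only [Finset.coe_filter, Finset.mem_range, Set.mem_ofPred_eq] at hi hj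
    simp only [hF] at hij
    have hd : (q : ℤ) ∣ ((i : ℤ) - j) * a :=
      ⟨round (t + i * β) - round (t + j * β), by linear_combination hij⟩
    have hd2 : (q : ℤ) ∣ ((i : ℤ) - j) := hc.symm.dvd_of_dvd_mul_right hd
    have := Int.eq_zero_of_abs_lt_dvd hd2 (by
      rw [abs_lt]; constructor <;> omega)
    omega

end Pool.Agent.R953.QP
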