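import Pool.Agent.R953.QP9

/-! Mixing of the stationary chain on path space. -/

namespace Pool.Agent.R953.QP

open MeasureTheory Set Filter Topology ENNReal

/-- `μ` is the law of the chain with initial law `ν`. -/
structure IsChain (α : UnitAddCircle) (p : UnitAddCircle → ℝ) (ν : Measure UnitAddCircle)
    (μ : Measure (ℕ → UnitAddCircle)) : Prop where
  prob : IsProbabilityMeasure μ
  init : ∀ B : Set UnitAddCircle, MeasurableSet B → μ {x | x 0 ∈ B} = ν B
  step : ∀ (n : ℕ) (B : ℕ → Set UnitAddCircle), (∀ i, MeasurableSet (B i)) →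
    μ {x | ∀ i ≤ n + 1, x i ∈ B i} = ∫⁻ x in {x | ∀ i ≤ n, x i ∈ B i},
      (ENNReal.ofReal (p (x n)) * (B (n + 1)).indicator (fun _ => 1) (x n + α)
        + ENNReal.ofReal (1 - p (x n)) * (B (n + 1)).indicator (fun _ => 1) (x n - α)) ∂μ

/-- Rectangles depending on the coordinates `0, …, n`. -/
def Rect (n : ℕ) (A : Set (ℕ → UnitAddCircle)) : Prop :=
  ∃ B : ℕ → Set UnitAddCircle, (∀ i, MeasurableSet (B i)) ∧ A = {x | ∀ i ≤ n, x i ∈ B i}

variable {α : UnitAddCircle} {p : UnitAddCircle → ℝ} {ν : Measure UnitAddCircle}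
  {μ : Measure (ℕ → UnitAddCircle)}

lemma measurableSet_rect (n : ℕ) {B : ℕ → Set UnitAddCircle} (hB : ∀ i, MeasurableSet (B i)) :
    MeasurableSet {x : ℕ → UnitAddCircle | ∀ i ≤ n, x i ∈ B i} := by
  have : {x : ℕ → UnitAddCircle | ∀ i ≤ n, x i ∈ B i}
      = ⋂ i ∈ Finset.range (n + 1), (fun x : ℕ → UnitAddCircle => x i) ⁻¹' (B i) := by
    ext x
    simp only [mem_iInter, Finset.mem_range, mem_preimage, Set.mem_ofPred_eq]
    constructor
    · intro h i hi; exact h i (by omega)
    · intro h i hi; exact h i (by omega)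
  rw [this]
  exact Finset.measurableSet_biInter _ (fun i _ => measurable_pi_apply i (hB i))

lemma Rect.measurableSet {n : ℕ} {A : Set (ℕ → UnitAddCircle)} (h : Rect n A) :
    MeasurableSet A := by
  obtain ⟨B, hB, rfl⟩ := h
  exact measurableSet_rect n hB

lemma Rect.succ {n : ℕ} {A : Set (ℕ → UnitAddCircle)} (h : Rect n A) : Rect (n + 1) A := by
  obtain ⟨B, hB, rfl⟩ := h
  refine ⟨fun i => if i ≤ n then B i else univ, fun i => ?_, ?_⟩
  · by_cases hi : i ≤ n
    · simp [hi, hB i]
    · simp [hi]
  · ext x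
    simp only [Set.mem_ofPred_eq]
    constructor
    · intro h i _
      by_cases hi : i ≤ n
      · simpa [hi] using h i hi
      · simp [hi]
    · intro h i hi
      have := h i (by omega)
      simpa [hi] using this

lemma Rect.mono {n m : ℕ} (hnm : n ≤ m) {A : Set (ℕ → UnitAddCircle)} (h : Rect n A) :
    Rect m A := by
  induction m, hnm using Nat.le_induction with
  | base => exact h
  | succ m _ ih => exact ih.succ

lemma Rect.inter {n : ℕ} {A : Set (ℕ → UnitAddCircle)} (h : Rect n A) {D : Set UnitAddCircle}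
    (hD : MeasurableSet D) : Rect n (A ∩ {x | x n ∈ D}) := by
  obtain ⟨B, hB, rfl⟩ := h
  refine ⟨fun i => if i = n then B i ∩ D else B i, fun i => ?_, ?_⟩
  · by_cases hi : i = n
    · simp only [hi, if_true]; exact (hB n).inter hD
    · simp [hi, hB i]
  · ext x
    simp only [mem_inter_iff, Set.mem_ofPred_eq]
    constructor
    · rintro ⟨h1, h2⟩ i hi
      by_cases hin : i = n
      · subst hin; simp only [if_true]; exact ⟨h1 i hi, h2⟩
      · simpa [hin] using h1 i hi
    · intro h
      refine ⟨fun i hi => ?_, ?_⟩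
      · have := h i hi
        by_cases hin : i = n
        · subst hin; simp only [if_true] at this; exact this.1
        · simpa [hin] using this
      · have := h n (le_refl n)
        simp only [if_true] at this
        exact this.2

lemma rect_univ (n : ℕ) : Rect n (univ : Set (ℕ → UnitAddCircle)) :=
  ⟨fun _ => univ, fun _ => MeasurableSet.univ, by ext x; simp⟩

lemma stepM_apply (hE : Env p) (m : Measure UnitAddCircle) {s : Set UnitAddCircle}
    (hs : MeasurableSet s) : stepM α p m s
      = ∫⁻ y, (ENNReal.ofReal (p y) * s.indicator (fun _ => 1) (y + α)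
        + ENNReal.ofReal (1 - p y) * s.indicator (fun _ => 1) (y - α)) ∂m := by
  have hpm : Measurable (fun y => ENNReal.ofReal (p y)) := hE.cont.measurable.ennreal_ofReal
  have hqm : Measurable (fun y => ENNReal.ofReal (1 - p y)) := hE.q_cont.measurable.ennreal_ofReal
  have hone : Measurable (s.indicator (fun _ => (1 : ℝ≥0∞))) := measurable_const.indicator hs
  have ha : MeasurableSet ((fun y : UnitAddCircle => y + α) ⁻¹' s) := meas_add α hs
  have hb : MeasurableSet ((fun y : UnitAddCircle => y - α) ⁻¹' s) := meas_sub α hs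
  have hf1 : Measurable (fun y : UnitAddCircle =>
      ENNReal.ofReal (p y) * s.indicator (fun _ => (1 : ℝ≥0∞)) (y + α)) :=
    hpm.mul (hone.comp (meas_add α))
  unfold stepM
  rw [Measure.add_apply, Measure.map_apply (meas_add α) hs, Measure.map_apply (meas_sub α) hs,
    withDensity_apply _ ha, withDensity_apply _ hb, lintegral_add_left hf1,
    ← lintegral_indicator ha, ← lintegral_indicator hb]
  congr 1
  · refine lintegral_congr (fun y => ?_)
    by_cases hy : y + α ∈ s
    · have hy' : y ∈ (fun y : UnitAddCircle => y + α) ⁻¹' s := hy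
      rw [Set.indicator_of_mem hy, mul_one, Set.indicator_of_mem hy']
    · have hy' : y ∉ (fun y : UnitAddCircle => y + α) ⁻¹' s := hy
      rw [Set.indicator_of_notMem hy, mul_zero, Set.indicator_of_notMem hy']
  · refine lintegral_congr (fun y => ?_)
    by_cases hy : y - α ∈ s
    · have hy' : y ∈ (fun y : UnitAddCircle => y - α) ⁻¹' s := hy
      rw [Set.indicator_of_mem hy, mul_one, Set.indicator_of_mem hy']
    · have hy' : y ∉ (fun y : UnitAddCircle => y - α) ⁻¹' s := hy
      rw [Set.indicator_of_notMem hy, mul_zero, Set.indicator_of_notMem hy']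

lemma ev_meas (n : ℕ) : Measurable (fun x : ℕ → UnitAddCircle => x n) := measurable_pi_apply n

lemma IsChain.map_eq (hE : Env p) (h : IsChain α p ν μ) {n : ℕ} {A : Set (ℕ → UnitAddCircle)}
    (hA : Rect n A) :
    (μ.restrict A).map (fun x => x (n + 1)) = stepM α p ((μ.restrict A).map (fun x => x n)) := by
  ext s hs
  obtain ⟨B, hB, rfl⟩ := hA
  have hs' : MeasurableSet ((fun x : ℕ → UnitAddCircle => x (n + 1)) ⁻¹' s) := ev_meas _ hs
  have hpm : Measurable (fun y => ENNReal.ofReal (p y)) := hE.cont.measurable.ennreal_ofReal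
  have hqm : Measurable (fun y => ENNReal.ofReal (1 - p y)) := hE.q_cont.measurable.ennreal_ofReal
  have hone : Measurable (s.indicator (fun _ => (1 : ℝ≥0∞))) := measurable_const.indicator hs
  have hK : Measurable (fun y : UnitAddCircle =>
      (ENNReal.ofReal (p y) * s.indicator (fun _ => (1 : ℝ≥0∞)) (y + α)
        + ENNReal.ofReal (1 - p y) * s.indicator (fun _ => (1 : ℝ≥0∞)) (y - α))) :=
    (hpm.mul (hone.comp (meas_add α))).add (hqm.mul (hone.comp (meas_sub α)))
  rw [stepM_apply hE _ hs, lintegral_map hK (ev_meas n), Measure.map_apply (ev_meas _) hs,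
    Measure.restrict_apply hs']
  set B' : ℕ → Set UnitAddCircle := fun i => if i ≤ n then B i else s with hB'
  have hB'm : ∀ i, MeasurableSet (B' i) := by
    intro i
    by_cases hi : i ≤ n
    · simp only [hB', hi, if_true]; exact hB i
    · simp only [hB', hi, if_false]; exact hs
  have hst := h.step n B' hB'm
  have e1 : {x : ℕ → UnitAddCircle | ∀ i ≤ n, x i ∈ B' i} = {x | ∀ i ≤ n, x i ∈ B i} := by
    ext x
    simp only [Set.mem_ofPred_eq]
    refine forall_congr' (fun i => forall_congr' (fun hi => ?_))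
    simp only [hB', hi, if_true]
  have e2 : {x : ℕ → UnitAddCircle | ∀ i ≤ n + 1, x i ∈ B' i}
      = (fun x : ℕ → UnitAddCircle => x (n + 1)) ⁻¹' s ∩ {x | ∀ i ≤ n, x i ∈ B i} := by
    ext x
    simp only [Set.mem_ofPred_eq, mem_inter_iff, mem_preimage]
    constructor
    · intro hx
      refine ⟨?_, fun i hi => ?_⟩
      · have := hx (n + 1) (le_refl _)
        simpa [hB'] using this
      · have := hx i (by omega)
        simpa [hB', hi] using this
    · rintro ⟨h1, h2⟩ i hi
      by_cases hin : i ≤ n
      · simpa [hB', hin] using h2 i hin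
      · have : i = n + 1 := by omega
        subst this
        simpa [hB'] using h1
  have e3 : B' (n + 1) = s := by simp [hB']
  rw [e1, e2, e3] at hst
  exact hst

/-- bounded measurable functions -/
structure BM (f : UnitAddCircle → ℝ) : Prop where
  meas : Measurable f
  lb : ∀ y, 0 ≤ f y
  ub : ∀ y, f y ≤ 1

lemma BM.pop (hE : Env p) {f : UnitAddCircle → ℝ} (hf : BM f) : BM (Pop α p f) := by
  refine ⟨meas_Pop hE hf.meas, fun y => ?_, fun y => ?_⟩
  · have h1 := hE.pos y
    have h2 := hE.q_pos y
    have h3 := hf.lb (y + α)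
    have h4 := hf.lb (y - α)
    simp only [Pop]
    positivity
  · have h1 := hE.pos y
    have h2 := hE.q_pos y
    have h3 := hf.ub (y + α)
    have h4 := hf.ub (y - α)
    simp only [Pop]
    nlinarith

lemma BM.memLp {f : UnitAddCircle → ℝ} (hf : BM f) (m : Measure UnitAddCircle)
    [IsFiniteMeasure m] (r : ℝ≥0∞) : MemLp f r m := by
  refine MemLp.of_bound hf.meas.aestronglyMeasurable 1 (Eventually.of_forall (fun y => ?_))
  rw [Real.norm_eq_abs, abs_of_nonneg (hf.lb y)]
  exact hf.ub y

lemma BM.integrable {f : UnitAddCircle → ℝ} (hf : BM f) (m : Measure UnitAddCircle)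
    [IsFiniteMeasure m] : Integrable f m := memLp_one_iff_integrable.mp (hf.memLp m 1)

lemma stepM_integral' (hE : Env p) (m : Measure UnitAddCircle) [IsFiniteMeasure m]
    {f : UnitAddCircle → ℝ} (hf : BM f) : ∫ y, f y ∂(stepM α p m) = ∫ y, Pop α p f y ∂m := by
  have hpm : Measurable (fun y => ENNReal.ofReal (p y)) := hE.cont.measurable.ennreal_ofReal
  have hqm : Measurable (fun y => ENNReal.ofReal (1 - p y)) := hE.q_cont.measurable.ennreal_ofReal
  have f1 : IsFiniteMeasure (m.withDensity (fun y => ENNReal.ofReal (p y))) := by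
    refine isFiniteMeasure_withDensity ?_
    refine ((lintegral_mono (fun y => ?_ : ∀ y, ENNReal.ofReal (p y) ≤ 1)).trans_lt ?_).ne
    · rw [← ENNReal.ofReal_one]; exact ENNReal.ofReal_le_ofReal (hE.lt_one y).le
    · simp
  have f2 : IsFiniteMeasure (m.withDensity (fun y => ENNReal.ofReal (1 - p y))) := by
    refine isFiniteMeasure_withDensity ?_
    refine ((lintegral_mono (fun y => ?_ : ∀ y, ENNReal.ofReal (1 - p y) ≤ 1)).trans_lt ?_).ne
    · rw [← ENNReal.ofReal_one]; exact ENNReal.ofReal_le_ofReal (by linarith [hE.pos y])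
    · simp
  unfold stepM
  rw [integral_add_measure (hf.integrable _) (hf.integrable _),
    integral_map (meas_add α).aemeasurable hf.meas.aestronglyMeasurable,
    integral_map (meas_sub α).aemeasurable hf.meas.aestronglyMeasurable,
    integral_withDensity_eq_integral_toReal_smul hpm
        (Eventually.of_forall (fun y => ENNReal.ofReal_lt_top)),
    integral_withDensity_eq_integral_toReal_smul hqm
        (Eventually.of_forall (fun y => ENNReal.ofReal_lt_top))]
  have bnd : ∀ (g : UnitAddCircle → ℝ), Measurable g → (∀ y, |g y| ≤ 1) → Integrable g m := by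
    intro g hg hb
    exact memLp_one_iff_integrable.mp (MemLp.of_bound hg.aestronglyMeasurable 1
      (Eventually.of_forall (fun y => hb y)))
  have i1 : Integrable (fun y => p y * f (y + α)) m := by
    refine bnd _ (hE.cont.measurable.mul (hf.meas.comp (meas_add α))) (fun y => ?_)
    rw [abs_mul]
    have h1 := hE.abs_p y
    have h2 : |f (y + α)| ≤ 1 := by rw [abs_of_nonneg (hf.lb _)]; exact hf.ub _
    exact mul_le_one₀ h1 (abs_nonneg _) h2
  have i2 : Integrable (fun y => (1 - p y) * f (y - α)) m := by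
    refine bnd _ (hE.q_cont.measurable.mul (hf.meas.comp (meas_sub α))) (fun y => ?_)
    rw [abs_mul]
    have h1 := hE.abs_q y
    have h2 : |f (y - α)| ≤ 1 := by rw [abs_of_nonneg (hf.lb _)]; exact hf.ub _
    exact mul_le_one₀ h1 (abs_nonneg _) h2
  show _ = ∫ y, (p y * f (y + α) + (1 - p y) * f (y - α)) ∂m
  rw [integral_add i1 i2]
  congr 1
  · refine integral_congr_ae (Eventually.of_forall (fun y => ?_))
    simp only [smul_eq_mul]
    rw [ENNReal.toReal_ofReal (hE.pos y).le]
  · refine integral_congr_ae (Eventually.of_forall (fun y => ?_))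
    simp only [smul_eq_mul]
    rw [ENNReal.toReal_ofReal (hE.q_pos y).le]

/-- The Markov property for bounded measurable functions. -/
lemma IsChain.markov (hE : Env p) (h : IsChain α p ν μ) {n : ℕ} {A : Set (ℕ → UnitAddCircle)}
    (hA : Rect n A) {f : UnitAddCircle → ℝ} (hf : BM f) :
    ∫ x in A, f (x (n + 1)) ∂μ = ∫ x in A, Pop α p f (x n) ∂μ := by
  have hμ := h.prob
  have e1 := integral_map (μ := μ.restrict A) (ev_meas (n + 1)).aemeasurable
    (hf.meas.aestronglyMeasurable (μ := (μ.restrict A).map (fun x => x (n + 1))))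
  have e2 := integral_map (μ := μ.restrict A) (ev_meas n).aemeasurable
    ((hf.pop (α := α) hE).meas.aestronglyMeasurable (μ := (μ.restrict A).map (fun x => x n)))
  rw [← e1, ← e2, h.map_eq hE hA, stepM_integral' hE _ hf]

lemma BM.iter (hE : Env p) {f : UnitAddCircle → ℝ} (hf : BM f) (j : ℕ) :
    BM ((Pop α p)^[j] f) := by
  induction j with
  | zero => exact hf
  | succ j ih => rw [Function.iterate_succ_apply']; exact ih.pop hE

lemma IsChain.markov_iter (hE : Env p) (h : IsChain α p ν μ) {n : ℕ}
    {A : Set (ℕ → UnitAddCircle)} (hA : Rect n A) (j : ℕ) {f : UnitAddCircle → ℝ} (hf : BM f) :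
    ∫ x in A, f (x (n + j)) ∂μ = ∫ x in A, (Pop α p)^[j] f (x n) ∂μ := by
  induction j generalizing f with
  | zero => simp
  | succ j ih =>
    have h1 := h.markov hE (hA.mono (Nat.le_add_right n j)) hf
    rw [← add_assoc, h1, ih (hf.pop hE), Function.iterate_succ_apply]

/-- The one-time marginals of a stationary chain. -/
lemma IsChain.marginal (hE : Env p) (h : IsChain α p ν μ) (hst : stepM α p ν = ν) (n : ℕ) :
    μ.map (fun x => x n) = ν := by
  induction n with
  | zero =>
    ext s hs
    rw [Measure.map_apply (ev_meas 0) hs]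
    exact h.init s hs
  | succ n ih =>
    have := h.map_eq hE (rect_univ n)
    rw [Measure.restrict_univ, ih, hst] at this
    exact this

lemma IsChain.integral_eq (hE : Env p) (h : IsChain α p ν μ) (hst : stepM α p ν = ν) (n : ℕ)
    {f : UnitAddCircle → ℝ} (hf : Measurable f) : ∫ x, f (x n) ∂μ = ∫ y, f y ∂ν := by
  rw [← h.marginal hE hst n, integral_map (ev_meas n).aemeasurable hf.aestronglyMeasurable]

/-- The probability, as a function of the starting point, of a rectangle. -/
noncomputable def Gf (α : UnitAddCircle) (p : UnitAddCircle → ℝ) :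
    ℕ → (ℕ → Set UnitAddCircle) → UnitAddCircle → ℝ
  | 0, _ => fun _ => 1
  | (m + 1), D => fun y => (D 0).indicator (Pop α p (Gf α p m (fun i => D (i + 1)))) y

lemma Gf_BM (hE : Env p) (m : ℕ) (D : ℕ → Set UnitAddCircle) (hD : ∀ i, MeasurableSet (D i)) :
    BM (Gf α p m D) := by
  induction m generalizing D with
  | zero => exact ⟨measurable_const, fun y => zero_le_one, fun y => le_refl _⟩
  | succ m ih =>
    have h1 := (ih (fun i => D (i + 1)) (fun i => hD _)).pop (α := α) hE
    refine ⟨h1.meas.indicator (hD 0), fun y => ?_, fun y => ?_⟩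
    · exact Set.indicator_nonneg (fun y _ => h1.lb y) y
    · by_cases hy : y ∈ D 0
      · simp only [Gf]
        rw [Set.indicator_of_mem hy]; exact h1.ub y
      · simp only [Gf]
        rw [Set.indicator_of_notMem hy]; exact zero_le_one

/-- shift by `n` -/
def sh (n : ℕ) (x : ℕ → UnitAddCircle) : ℕ → UnitAddCircle := fun i => x (n + i)

lemma measurable_sh (n : ℕ) : Measurable (sh n) :=
  measurable_pi_lambda _ (fun i => measurable_pi_apply (n + i))

/-- rectangle with `m` constraints -/
def RD (m : ℕ) (D : ℕ → Set UnitAddCircle) : Set (ℕ → UnitAddCircle) := {x | ∀ i < m, x i ∈ D i}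

lemma measurableSet_RD (m : ℕ) {D : ℕ → Set UnitAddCircle} (hD : ∀ i, MeasurableSet (D i)) :
    MeasurableSet (RD m D) := by
  have : RD m D = ⋂ i ∈ Finset.range m, (fun x : ℕ → UnitAddCircle => x i) ⁻¹' (D i) := by
    ext x
    simp only [RD, mem_iInter, Finset.mem_range, mem_preimage, Set.mem_ofPred_eq]
  rw [this]
  exact Finset.measurableSet_biInter _ (fun i _ => measurable_pi_apply i (hD i))

lemma IsChain.future (hE : Env p) (h : IsChain α p ν μ) (m : ℕ) :
    ∀ (n : ℕ) (A : Set (ℕ → UnitAddCircle)), Rect n A →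
    ∀ (D : ℕ → Set UnitAddCircle), (∀ i, MeasurableSet (D i)) →
      μ.real (A ∩ sh n ⁻¹' (RD m D)) = ∫ x in A, Gf α p m D (x n) ∂μ := by
  have hμ := h.prob
  induction m with
  | zero =>
    intro n A hA D hD
    have : RD 0 D = univ := by ext x; simp [RD]
    rw [this, preimage_univ, inter_univ]
    simp [Gf, Measure.real]
  | succ m ih =>
    intro n A hA D hD
    set A' : Set (ℕ → UnitAddCircle) := A ∩ {x | x n ∈ D 0} with hA'
    have hA'r : Rect n A' := hA.inter (hD 0)
    have hset : A ∩ sh n ⁻¹' (RD (m + 1) D) = A' ∩ sh (n + 1) ⁻¹' (RD m (fun i => D (i + 1))) := by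
      ext x
      simp only [hA', RD, sh, mem_inter_iff, mem_preimage, Set.mem_ofPred_eq]
      constructor
      · rintro ⟨h1, h2⟩
        refine ⟨⟨h1, ?_⟩, fun i hi => ?_⟩
        · have := h2 0 (by omega)
          simpa using this
        · have := h2 (i + 1) (by omega)
          rwa [show n + 1 + i = n + (i + 1) by ring]
      · rintro ⟨⟨h1, h2⟩, h3⟩
        refine ⟨h1, fun i hi => ?_⟩
        rcases Nat.eq_zero_or_pos i with h0 | h0
        · subst h0; simpa using h2
        · obtain ⟨j, rfl⟩ := Nat.exists_eq_succ_of_ne_zero h0.ne'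
          have := h3 j (by omega)
          rwa [show n + 1 + j = n + (j + 1) by ring] at this
    rw [hset, ih (n + 1) A' hA'r.succ _ (fun i => hD _),
      h.markov hE hA'r (Gf_BM hE m _ (fun i => hD _))]
    have hDn : MeasurableSet {x : ℕ → UnitAddCircle | x n ∈ D 0} := ev_meas n (hD 0)
    rw [hA', ← setIntegral_indicator hDn]
    refine integral_congr_ae (Eventually.of_forall (fun x => ?_))
    by_cases hx : x n ∈ D 0
    · have hx' : x ∈ {x : ℕ → UnitAddCircle | x n ∈ D 0} := hx
      simp only [Gf]
      rw [Set.indicator_of_mem hx', Set.indicator_of_mem hx]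
    · have hx' : x ∉ {x : ℕ → UnitAddCircle | x n ∈ D 0} := hx
      simp only [Gf]
      rw [Set.indicator_of_notMem hx', Set.indicator_of_notMem hx]

end Pool.Agent.R953.QP
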