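import Pool.Agent.R953.QP10

/-! Mixing of the stationary chain on path space, end of the proof. -/

namespace Pool.Agent.R953.QP

open MeasureTheory Set Filter Topology ENNReal

variable {α : UnitAddCircle} {p : UnitAddCircle → ℝ} {ν : Measure UnitAddCircle}
  {μ : Measure (ℕ → UnitAddCircle)}

lemma IsChain.real_RD (hE : Env p) (h : IsChain α p ν μ) (hst : stepM α p ν = ν) (n m : ℕ)
    {D : ℕ → Set UnitAddCircle} (hD : ∀ i, MeasurableSet (D i)) :
    μ.real (sh n ⁻¹' (RD m D)) = ∫ y, Gf α p m D y ∂ν := by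
  have h1 := h.future hE m n univ (rect_univ n) D hD
  rw [univ_inter, Measure.restrict_univ] at h1
  rw [h1]
  exact h.integral_eq hE hst n (Gf_BM hE m D hD).meas

lemma sq_eq {S : Set (ℕ → UnitAddCircle)}
    (hS : S ∈ squareCylinders (fun _ : ℕ => {s : Set UnitAddCircle | MeasurableSet s})) :
    ∃ (m : ℕ) (D : ℕ → Set UnitAddCircle), (∀ i, MeasurableSet (D i)) ∧ S = RD (m + 1) D := by
  obtain ⟨s, t, ht, rfl⟩ := hS
  refine ⟨s.sup id, fun i => if i ∈ s then t i else univ, fun i => ?_, ?_⟩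
  · by_cases hi : i ∈ s
    · simp only [hi, if_true]; exact ht i (mem_univ i)
    · simp [hi]
  · ext x
    simp only [RD, Set.mem_pi, Finset.mem_coe, Set.mem_ofPred_eq]
    constructor
    · intro h i _
      by_cases hi : i ∈ s
      · simpa [hi] using h i hi
      · simp [hi]
    · intro h i hi
      have hle : i ≤ s.sup id := Finset.le_sup (f := id) hi
      have := h i (by omega)
      simpa [hi] using this

lemma RD_rect (m : ℕ) {D : ℕ → Set UnitAddCircle} (hD : ∀ i, MeasurableSet (D i)) :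
    Rect m (RD (m + 1) D) := by
  refine ⟨D, hD, ?_⟩
  ext x
  simp only [RD, Set.mem_ofPred_eq]
  constructor
  · intro h i hi; exact h i (by omega)
  · intro h i hi; exact h i (by omega)

lemma pi_sq : IsPiSystem (squareCylinders (fun _ : ℕ => {s : Set UnitAddCircle | MeasurableSet s})) :=
  isPiSystem_squareCylinders (fun _ => MeasurableSpace.isPiSystem_measurableSet)
    (fun _ => by simp)

lemma gen_sq : (MeasurableSpace.pi : MeasurableSpace (ℕ → UnitAddCircle))
    = MeasurableSpace.generateFrom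
      (squareCylinders (fun _ : ℕ => {s : Set UnitAddCircle | MeasurableSet s})) :=
  generateFrom_squareCylinders.symm

/-- Stationarity on path space. -/
lemma IsChain.stationary (hE : Env p) (h : IsChain α p ν μ) (hst : stepM α p ν = ν) (n : ℕ) :
    μ.map (sh n) = μ := by
  have hμ := h.prob
  have hμ' : IsProbabilityMeasure (μ.map (sh n)) :=
    Measure.isProbabilityMeasure_map (measurable_sh n).aemeasurable
  refine ext_of_generate_finite _ gen_sq pi_sq (fun S hS => ?_) (by simp)
  obtain ⟨m, D, hD, rfl⟩ := sq_eq hS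
  rw [Measure.map_apply (measurable_sh n) (measurableSet_RD _ hD)]
  have h1 := h.real_RD hE hst n (m + 1) hD
  have h2 := h.real_RD hE hst 0 (m + 1) hD
  have h3 : sh 0 ⁻¹' (RD (m + 1) D) = RD (m + 1) D := by
    ext x; simp [sh, RD]
  rw [h3, ← h1] at h2
  exact (measureReal_eq_measureReal_iff (measure_ne_top _ _) (measure_ne_top _ _)).mp h2.symm

/-- mixing of a pair of events -/
def MixP (μ : Measure (ℕ → UnitAddCircle)) (A D : Set (ℕ → UnitAddCircle)) : Prop :=
  Tendsto (fun n : ℕ => μ.real (A ∩ sh n ⁻¹' D)) atTop (𝓝 (μ.real A * μ.real D))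

lemma IsChain.real_sh (hE : Env p) (h : IsChain α p ν μ) (hst : stepM α p ν = ν) (n : ℕ)
    {D : Set (ℕ → UnitAddCircle)} (hD : MeasurableSet D) : μ.real (sh n ⁻¹' D) = μ.real D := by
  have := h.stationary hE hst n
  unfold Measure.real
  rw [← Measure.map_apply (measurable_sh n) hD, this]

/-- Mixing for rectangles. -/
lemma IsChain.mix_rect (hE : Env p) (h : IsChain α p ν μ) (hst : stepM α p ν = ν)
    (hmix : ∀ f : UnitAddCircle → ℝ, BM f →
      Tendsto (fun n : ℕ => ∫ y, |(Pop α p)^[n] f y - ∫ z, f z ∂ν| ∂ν) atTop (𝓝 0))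
    {k : ℕ} {A : Set (ℕ → UnitAddCircle)} (hA : Rect k A) (m : ℕ) {D : ℕ → Set UnitAddCircle}
    (hD : ∀ i, MeasurableSet (D i)) : MixP μ A (RD m D) := by
  have hμ := h.prob
  have hG := Gf_BM (α := α) hE m D hD
  set G := Gf α p m D with hGdef
  set c : ℝ := ∫ z, G z ∂ν with hc
  have hcD : μ.real (RD m D) = c := by
    have := h.real_RD hE hst 0 m hD
    rw [h.real_sh hE hst 0 (measurableSet_RD m hD)] at this
    exact this
  unfold MixP
  rw [hcD, ← tendsto_add_atTop_iff_nat k]
  rw [tendsto_iff_norm_sub_tendsto_zero]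
  refine squeeze_zero (fun n => norm_nonneg _) (fun j => ?_) (hmix G hG)
  have hAm := hA.measurableSet
  have hBj := hG.iter (α := α) hE j
  have e1 : μ.real (A ∩ sh (j + k) ⁻¹' RD m D) = ∫ x in A, (Pop α p)^[j] G (x k) ∂μ := by
    rw [add_comm j k, h.future hE m (k + j) A (hA.mono (Nat.le_add_right k j)) D hD,
      h.markov_iter hE hA j hG]
  have hbi : ∀ g : UnitAddCircle → ℝ, BM g → Integrable (fun x : ℕ → UnitAddCircle => g (x k)) μ := by
    intro g hg
    refine memLp_one_iff_integrable.mp (MemLp.of_bound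
      (hg.meas.comp (ev_meas k)).aestronglyMeasurable 1 (Eventually.of_forall (fun x => ?_)))
    rw [Real.norm_eq_abs, abs_of_nonneg (hg.lb _)]
    exact hg.ub _
  have hint : Integrable (fun x : ℕ → UnitAddCircle => (Pop α p)^[j] G (x k) - c) μ :=
    (hbi _ hBj).sub (integrable_const c)
  have e2 : μ.real (A ∩ sh (j + k) ⁻¹' RD m D) - μ.real A * c
      = ∫ x in A, ((Pop α p)^[j] G (x k) - c) ∂μ := by
    rw [e1, integral_sub (hbi _ hBj).restrict (integrable_const c).restrict, setIntegral_const,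
      smul_eq_mul]
  rw [e2, Real.norm_eq_abs]
  calc |∫ x in A, ((Pop α p)^[j] G (x k) - c) ∂μ|
      ≤ ∫ x in A, |(Pop α p)^[j] G (x k) - c| ∂μ := abs_integral_le_integral_abs
    _ ≤ ∫ x, |(Pop α p)^[j] G (x k) - c| ∂μ :=
        setIntegral_le_integral hint.abs (Eventually.of_forall (fun x => abs_nonneg _))
    _ = ∫ y, |(Pop α p)^[j] G y - c| ∂ν :=
        h.integral_eq hE hst k (f := fun y => |(Pop α p)^[j] G y - c|)
          (hBj.meas.sub_const c).abs

lemma MixP.compl_right [IsProbabilityMeasure μ] {A D : Set (ℕ → UnitAddCircle)}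
    (hD : MeasurableSet D) (h : MixP μ A D) : MixP μ A Dᶜ := by
  unfold MixP at h ⊢
  have e1 : ∀ n : ℕ, μ.real (A ∩ sh n ⁻¹' Dᶜ) = μ.real A - μ.real (A ∩ sh n ⁻¹' D) := by
    intro n
    have := measureReal_inter_add_sdiff (μ := μ) (s := A) (measurable_sh n hD)
    rw [preimage_compl]
    have h2 : A ∩ (sh n ⁻¹' D)ᶜ = A \ (sh n ⁻¹' D) := rfl
    rw [h2]
    linarith
  have e2 : μ.real Dᶜ = 1 - μ.real D := by
    rw [measureReal_compl hD]; simp
  simp only [e1, e2]
  have := h.const_sub (μ.real A)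
  convert this using 2
  ring

lemma MixP.compl_left [IsProbabilityMeasure μ] {A D : Set (ℕ → UnitAddCircle)}
    (hA : MeasurableSet A) (hsD : ∀ n, μ.real (sh n ⁻¹' D) = μ.real D)
    (h : MixP μ A D) : MixP μ Aᶜ D := by
  unfold MixP at h ⊢
  have e1 : ∀ n : ℕ, μ.real (Aᶜ ∩ sh n ⁻¹' D) = μ.real D - μ.real (A ∩ sh n ⁻¹' D) := by
    intro n
    have := measureReal_inter_add_sdiff (μ := μ) (s := sh n ⁻¹' D) hA
    have h2 : Aᶜ ∩ (sh n ⁻¹' D) = (sh n ⁻¹' D) \ A := by
      ext x; simp only [mem_inter_iff, mem_compl_iff, mem_diff]; tauto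
    rw [h2, ← hsD n, inter_comm A]
    linarith
  have e2 : μ.real Aᶜ = 1 - μ.real A := by
    rw [measureReal_compl hA]; simp
  simp only [e1, e2]
  have := h.const_sub (μ.real D)
  convert this using 2
  ring

lemma real_iUnion [IsProbabilityMeasure μ] {f : ℕ → Set (ℕ → UnitAddCircle)}
    (hd : Pairwise (Function.onFun Disjoint f)) (hm : ∀ i, MeasurableSet (f i)) :
    HasSum (fun i => μ.real (f i)) (μ.real (⋃ i, f i)) := by
  have h1 := measure_iUnion (μ := μ) hd hm
  have hne : ∑' i, μ (f i) ≠ ∞ := by rw [← h1]; exact measure_ne_top _ _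
  have h2 : μ.real (⋃ i, f i) = ∑' i, μ.real (f i) := by
    unfold Measure.real
    rw [h1, ENNReal.tsum_toReal_eq (fun i => measure_ne_top _ _)]
  rw [h2]
  exact (ENNReal.summable_toReal hne).hasSum

lemma MixP.iUnion_right [IsProbabilityMeasure μ] {A : Set (ℕ → UnitAddCircle)}
    (hA : MeasurableSet A) {f : ℕ → Set (ℕ → UnitAddCircle)}
    (hd : Pairwise (Function.onFun Disjoint f)) (hm : ∀ i, MeasurableSet (f i))
    (hs : ∀ i n, μ.real (sh n ⁻¹' (f i)) = μ.real (f i))
    (h : ∀ i, MixP μ A (f i)) : MixP μ A (⋃ i, f i) := by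
  unfold MixP at h ⊢
  have e1 : ∀ n : ℕ, μ.real (A ∩ sh n ⁻¹' (⋃ i, f i)) = ∑' i, μ.real (A ∩ sh n ⁻¹' (f i)) := by
    intro n
    rw [preimage_iUnion, inter_iUnion]
    refine ((real_iUnion (μ := μ) ?_ ?_).tsum_eq).symm
    · intro i j hij
      refine Disjoint.mono inter_subset_right inter_subset_right ?_
      exact (hd hij).preimage (sh n)
    · exact fun i => hA.inter (measurable_sh n (hm i))
  have e2 : μ.real A * μ.real (⋃ i, f i) = ∑' i, μ.real A * μ.real (f i) := by
    rw [← (real_iUnion (μ := μ) hd hm).tsum_eq, tsum_mul_left]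
  simp only [e1, e2]
  refine tendsto_tsum_of_dominated_convergence (bound := fun i => μ.real (f i))
    (real_iUnion (μ := μ) hd hm).summable h (Eventually.of_forall (fun n i => ?_))
  rw [Real.norm_eq_abs, abs_of_nonneg measureReal_nonneg, ← hs i n]
  exact measureReal_mono inter_subset_right (measure_ne_top _ _)

lemma MixP.iUnion_left [IsProbabilityMeasure μ] {D : Set (ℕ → UnitAddCircle)}
    (hD : MeasurableSet D) {f : ℕ → Set (ℕ → UnitAddCircle)}
    (hd : Pairwise (Function.onFun Disjoint f)) (hm : ∀ i, MeasurableSet (f i))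
    (h : ∀ i, MixP μ (f i) D) : MixP μ (⋃ i, f i) D := by
  unfold MixP at h ⊢
  have e1 : ∀ n : ℕ, μ.real ((⋃ i, f i) ∩ sh n ⁻¹' D) = ∑' i, μ.real (f i ∩ sh n ⁻¹' D) := by
    intro n
    rw [iUnion_inter]
    refine ((real_iUnion (μ := μ) ?_ ?_).tsum_eq).symm
    · intro i j hij
      exact Disjoint.mono inter_subset_left inter_subset_left (hd hij)
    · exact fun i => (hm i).inter (measurable_sh n hD)
  have e2 : μ.real (⋃ i, f i) * μ.real D = ∑' i, μ.real (f i) * μ.real D := by
    rw [← (real_iUnion (μ := μ) hd hm).tsum_eq, tsum_mul_right]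
  simp only [e1, e2]
  refine tendsto_tsum_of_dominated_convergence (bound := fun i => μ.real (f i))
    (real_iUnion (μ := μ) hd hm).summable h (Eventually.of_forall (fun n i => ?_))
  rw [Real.norm_eq_abs, abs_of_nonneg measureReal_nonneg]
  exact measureReal_mono inter_subset_left (measure_ne_top _ _)

/-- Mixing on path space. -/
theorem IsChain.mixing (hE : Env p) (h : IsChain α p ν μ) (hst : stepM α p ν = ν)
    (hmix : ∀ f : UnitAddCircle → ℝ, BM f →
      Tendsto (fun n : ℕ => ∫ y, |(Pop α p)^[n] f y - ∫ z, f z ∂ν| ∂ν) atTop (𝓝 0))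
    {A D : Set (ℕ → UnitAddCircle)} (hA : MeasurableSet A) (hD : MeasurableSet D) :
    MixP μ A D := by
  have hμ := h.prob
  have hs : ∀ {S : Set (ℕ → UnitAddCircle)}, MeasurableSet S → ∀ n,
      μ.real (sh n ⁻¹' S) = μ.real S := fun hS n => h.real_sh hE hst n hS
  have step1 : ∀ {k : ℕ} {A : Set (ℕ → UnitAddCircle)}, Rect k A →
      ∀ D, MeasurableSet D → MixP μ A D := by
    intro k A hA
    refine MeasurableSpace.induction_on_inter (C := fun D _ => MixP μ A D) gen_sq pi_sq ?_ ?_ ?_ ?_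
    · simp [MixP]
    · intro S hS
      obtain ⟨m, D, hD, rfl⟩ := sq_eq hS
      exact h.mix_rect hE hst hmix hA (m + 1) hD
    · intro D hD hDm
      exact hDm.compl_right hD
    · intro f hd hm hf
      exact MixP.iUnion_right hA.measurableSet hd hm (fun i n => hs (hm i) n) hf
  revert A
  refine fun {A} hA => MeasurableSpace.induction_on_inter (C := fun A _ => MixP μ A D)
    gen_sq pi_sq ?_ ?_ ?_ ?_ A hA
  · simp [MixP]
  · intro S hS
    obtain ⟨m, B, hB, rfl⟩ := sq_eq hS
    exact step1 (RD_rect m hB) D hD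
  · intro A hA hAm
    exact hAm.compl_left hA (fun n => hs hD n)
  · intro f hd hm hf
    exact MixP.iUnion_left hD hd hm hf

end Pool.Agent.R953.QP
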