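import Pool.Agent.R953.QP11

/-! Mixing of the stationary chain: assembling. -/

namespace Pool.Agent.R953.QP

open MeasureTheory ProbabilityTheory Set Filter Topology ENNReal

variable {p : UnitAddCircle → ℝ} {ν : Measure UnitAddCircle}

lemma two_nsmul_coe (b : ℝ) : 2 • (b : UnitAddCircle) = ((2 * b : ℝ) : UnitAddCircle) := by
  rw [two_mul, AddCircle.coe_add, two_nsmul]

lemma lip_BS {β : UnitAddCircle} {ψ : UnitAddCircle → ℝ} {L : NNReal} (hL : LipschitzWith L ψ)
    (n : ℕ) : ∃ L', LipschitzWith L' (BS β ψ n) := by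
  induction n with
  | zero =>
    refine ⟨0, ?_⟩
    have : BS β ψ 0 = fun _ => 0 := by funext y; simp [BS]
    rw [this]
    exact LipschitzWith.const 0
  | succ n ih =>
    obtain ⟨L', hL'⟩ := ih
    refine ⟨L' + L, ?_⟩
    have h1 : BS β ψ (n + 1) = fun y => BS β ψ n y + ψ (y - n • β) := by
      funext y; simp [BS, Finset.sum_range_succ]
    rw [h1]
    refine hL'.add (LipschitzWith.of_dist_le_mul (fun y z => ?_))
    have := hL.dist_le_mul (y - n • β) (z - n • β)
    rwa [dist_sub_right] at this

lemma stat_DB {b : ℝ} (hirr : Irrational b) [IsProbabilityMeasure ν] (hE : Env p)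
    (hsym : ∫ y : UnitAddCircle, Real.log (p y) = ∫ y : UnitAddCircle, Real.log (1 - p y))
    (hst : IsStat (b : UnitAddCircle) p ν) : DB (b : UnitAddCircle) p ν :=
  fun φ hφ => detailed' hirr hE.cont hE.pos hE.lt_one hsym hst φ hφ

lemma stat_step {α : UnitAddCircle} [IsProbabilityMeasure ν] (hE : Env p)
    (hst : IsStat α p ν) : stepM α p ν = ν := by
  have h1 := stepM_prob (α := α) (μ := ν) hE.cont hE.pos hE.lt_one inferInstance
  refine ext_of_forall_integral_eq_of_IsFiniteMeasure (fun f => ?_)
  rw [stepM_integral hE.cont hE.pos hE.lt_one f.continuous]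
  exact hst f f.continuous

theorem chain_mixing {b : ℝ} (hirr : Irrational b)
    (hs : ContDiff ℝ 1 (fun x : ℝ => p (x : UnitAddCircle)))
    (h0 : ∀ y, 0 < p y) (h1 : ∀ y, p y < 1)
    (hsym : ∫ y : UnitAddCircle, Real.log (p y) = ∫ y : UnitAddCircle, Real.log (1 - p y))
    [IsProbabilityMeasure ν] (hst : IsStat (b : UnitAddCircle) p ν)
    {μ : Measure (ℕ → UnitAddCircle)} (hμ : IsChain (b : UnitAddCircle) p ν μ)
    {A D : Set (ℕ → UnitAddCircle)} (hA : MeasurableSet A) (hD : MeasurableSet D) :
    MixP μ A D := by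
  have hE : Env p := ⟨cont_of_contDiff hs, h0, h1⟩
  obtain ⟨L, hL⟩ := psi_lipschitz (b := b) hs h0 h1
  have hauto := stat_auto hirr hE.cont h0 h1 hsym hst
  have hDB := stat_DB hirr hE hsym hst
  have q1 := hauto.quasiErgodic hirr hL
  have hauto2 : Auto ((2 * b : ℝ) : UnitAddCircle) (BS (b : UnitAddCircle)
      (fun y => Real.log (1 - p y) - Real.log (p (y - (b : UnitAddCircle)))) 2) ν := by
    intro φ hφ
    rw [← two_nsmul_coe]
    exact hauto.iter hL.continuous.measurable 2 φ hφ
  obtain ⟨L', hL'⟩ := lip_BS (β := (b : UnitAddCircle)) hL 2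
  have hirr2 : Irrational (2 * b) := by
    have := hirr.natCast_mul (m := 2) (by norm_num)
    simpa using this
  have q2 := hauto2.quasiErgodic hirr2 hL'
  rw [← two_nsmul_coe] at q2
  exact hμ.mixing hE (stat_step hE hst)
    (fun f hf => Pop_mix hE hDB q1 q2 hf.meas (hf.memLp ν 2)) hA hD

lemma IsChain.measurePreserving {b : ℝ}
    (hs : ContDiff ℝ 1 (fun x : ℝ => p (x : UnitAddCircle)))
    (h0 : ∀ y, 0 < p y) (h1 : ∀ y, p y < 1)
    [IsProbabilityMeasure ν] (hst : IsStat (b : UnitAddCircle) p ν)
    {μ : Measure (ℕ → UnitAddCircle)} (hμ : IsChain (b : UnitAddCircle) p ν μ) (n : ℕ) :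
    MeasurePreserving (sh n) μ μ :=
  ⟨measurable_sh n, hμ.stationary ⟨cont_of_contDiff hs, h0, h1⟩
    (stat_step ⟨cont_of_contDiff hs, h0, h1⟩ hst) n⟩

/-- The transition kernel of the chain. -/
noncomputable def kern (α : UnitAddCircle) (p : UnitAddCircle → ℝ) (hp : Measurable p) :
    Kernel UnitAddCircle UnitAddCircle where
  toFun y := ENNReal.ofReal (p y) • Measure.dirac (y + α)
    + ENNReal.ofReal (1 - p y) • Measure.dirac (y - α)
  measurable' := by
    refine Measure.measurable_of_measurable_coe _ (fun s hs => ?_)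
    have hone : Measurable (s.indicator (fun _ => (1 : ℝ≥0∞))) := measurable_const.indicator hs
    have h1 : Measurable (fun y => ENNReal.ofReal (p y)) := hp.ennreal_ofReal
    have h2 : Measurable (fun y => ENNReal.ofReal (1 - p y)) := (hp.const_sub 1).ennreal_ofReal
    have h3 : ∀ y : UnitAddCircle, (ENNReal.ofReal (p y) • Measure.dirac (y + α)
        + ENNReal.ofReal (1 - p y) • Measure.dirac (y - α)) s
        = ENNReal.ofReal (p y) * s.indicator (fun _ => 1) (y + α)
          + ENNReal.ofReal (1 - p y) * s.indicator (fun _ => 1) (y - α) := by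
      intro y
      rw [Measure.add_apply, Measure.smul_apply, Measure.smul_apply, Measure.dirac_apply' _ hs,
        Measure.dirac_apply' _ hs]
      rfl
    simp only [h3]
    exact (h1.mul (hone.comp (meas_add α))).add (h2.mul (hone.comp (meas_sub α)))

lemma kern_apply (α : UnitAddCircle) (hp : Measurable p) (y : UnitAddCircle)
    {s : Set UnitAddCircle} (hs : MeasurableSet s) : kern α p hp y s
      = ENNReal.ofReal (p y) * s.indicator (fun _ => 1) (y + α)
          + ENNReal.ofReal (1 - p y) * s.indicator (fun _ => 1) (y - α) := by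
  show (ENNReal.ofReal (p y) • Measure.dirac (y + α)
        + ENNReal.ofReal (1 - p y) • Measure.dirac (y - α)) s = _
  rw [Measure.add_apply, Measure.smul_apply, Measure.smul_apply, Measure.dirac_apply' _ hs,
    Measure.dirac_apply' _ hs]
  rfl

lemma kern_markov (α : UnitAddCircle) (hp : Measurable p) (h0 : ∀ y, 0 < p y)
    (h1 : ∀ y, p y < 1) : IsMarkovKernel (kern α p hp) := by
  refine ⟨fun y => ⟨?_⟩⟩
  rw [kern_apply α hp y MeasurableSet.univ]
  simp only [indicator_univ, mul_one]
  rw [← ENNReal.ofReal_add (h0 y).le (by linarith [h1 y])]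
  simp

/-- The law on path space of a Markov chain with kernel `K` and initial law `ν`. -/
noncomputable def pathLaw (K : Kernel UnitAddCircle UnitAddCircle) [IsMarkovKernel K]
    (ν : Measure UnitAddCircle) : Measure (ℕ → UnitAddCircle) :=
  Kernel.trajMeasure (X := fun _ => UnitAddCircle) ν
    (fun n => K.comap (fun x : (Π _ : Finset.Iic n, UnitAddCircle) => x ⟨n, by simp⟩)
      (measurable_pi_apply _))

lemma pathLaw_isChain (α : UnitAddCircle) (hp : Measurable p) [hK : IsMarkovKernel (kern α p hp)]
    [IsProbabilityMeasure ν] : IsChain α p ν (pathLaw (kern α p hp) ν) := by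
  have hprob : IsProbabilityMeasure (pathLaw (kern α p hp) ν) := by
    unfold pathLaw; infer_instance
  refine ⟨hprob, fun B hB => ?_, fun n B hB => ?_⟩
  · have hfm : Measurable (Preorder.frestrictLe (π := fun _ : ℕ => UnitAddCircle) 0) := by
      fun_prop
    have hS : MeasurableSet {u : (Π _ : Finset.Iic 0, UnitAddCircle) | u ⟨0, by simp⟩ ∈ B} :=
      measurable_pi_apply _ hB
    have h1 : (pathLaw (kern α p hp) ν).map (Preorder.frestrictLe (π := fun _ => UnitAddCircle) 0)
        = ν.map (MeasurableEquiv.piUnique (fun _ : Finset.Iic 0 => UnitAddCircle)).symm := by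
      unfold pathLaw Kernel.trajMeasure
      rw [Measure.map_comp _ _ hfm, Kernel.traj_map_frestrictLe, Kernel.partialTraj_self,
        Measure.id_comp]
    have h2 : {x : ℕ → UnitAddCircle | x 0 ∈ B}
        = (Preorder.frestrictLe (π := fun _ => UnitAddCircle) 0) ⁻¹'
          {u : (Π _ : Finset.Iic 0, UnitAddCircle) | u ⟨0, by simp⟩ ∈ B} := rfl
    rw [h2, ← Measure.map_apply hfm hS, h1, Measure.map_apply (by fun_prop) hS]
    rfl
  · set μ := pathLaw (kern α p hp) ν with hμ
    have hkey := Kernel.map_frestrictLe_trajMeasure_compProd_eq_map_trajMeasure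
      (X := fun _ => UnitAddCircle) (μ₀ := ν)
      (κ := fun n => (kern α p hp).comap
        (fun x : (Π _ : Finset.Iic n, UnitAddCircle) => x ⟨n, by simp⟩) (measurable_pi_apply _))
      (a := n)
    set R : Set (Π _ : Finset.Iic n, UnitAddCircle) := {u | ∀ i : Finset.Iic n, u i ∈ B i} with hR
    have hRm : MeasurableSet R := by
      have : R = ⋂ i : Finset.Iic n, (fun u : (Π _ : Finset.Iic n, UnitAddCircle) => u i) ⁻¹' (B i) := by
        ext u; simp [hR]
      rw [this]
      exact MeasurableSet.iInter (fun i => measurable_pi_apply i (hB i))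
    have hset : {x : ℕ → UnitAddCircle | ∀ i ≤ n + 1, x i ∈ B i}
        = (fun x : ℕ → UnitAddCircle => (Preorder.frestrictLe (π := fun _ => UnitAddCircle) n x,
            x (n + 1))) ⁻¹' (R ×ˢ B (n + 1)) := by
      ext x
      simp only [Set.mem_ofPred_eq, mem_preimage, mem_prod, hR, Preorder.frestrictLe_apply]
      constructor
      · intro h
        exact ⟨fun i => h i (by have := Finset.mem_Iic.mp i.2; omega), h (n + 1) (le_refl _)⟩
      · rintro ⟨h1, h2⟩ i hi
        by_cases hin : i ≤ n
        · exact h1 ⟨i, Finset.mem_Iic.mpr hin⟩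
        · have : i = n + 1 := by omega
          subst this; exact h2
    have hset2 : {x : ℕ → UnitAddCircle | ∀ i ≤ n, x i ∈ B i}
        = (Preorder.frestrictLe (π := fun _ => UnitAddCircle) n) ⁻¹' R := by
      ext x
      simp only [Set.mem_ofPred_eq, mem_preimage, hR, Preorder.frestrictLe_apply]
      constructor
      · intro h i
        exact h i (Finset.mem_Iic.mp i.2)
      · intro h i hi
        exact h ⟨i, Finset.mem_Iic.mpr hi⟩
    have hfm : Measurable (Preorder.frestrictLe (π := fun _ : ℕ => UnitAddCircle) n) := by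
      fun_prop
    have hgm : Measurable (fun x : ℕ → UnitAddCircle =>
        (Preorder.frestrictLe (π := fun _ => UnitAddCircle) n x, x (n + 1))) :=
      hfm.prodMk (measurable_pi_apply _)
    rw [hset, ← Measure.map_apply hgm (hRm.prod (hB _))]
    have hkey' : (μ.map (Preorder.frestrictLe (π := fun _ => UnitAddCircle) n)) ⊗ₘ
        ((kern α p hp).comap
        (fun x : (Π _ : Finset.Iic n, UnitAddCircle) => x ⟨n, by simp⟩) (measurable_pi_apply _))
        = μ.map (fun x : ℕ → UnitAddCircle =>
        (Preorder.frestrictLe (π := fun _ => UnitAddCircle) n x, x (n + 1))) := hkey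
    rw [← hkey', Measure.compProd_apply_prod hRm (hB _), hset2]
    rw [setLIntegral_map hRm _ hfm]
    · refine lintegral_congr (fun x => ?_)
      rw [Kernel.comap_apply, kern_apply α hp _ (hB _)]
      rfl
    · exact Kernel.measurable_coe _ (hB _)

end Pool.Agent.R953.QP
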