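import Pool.Agent.R953.QP1

/-! Automorphic measures of an irrational rotation: two of them are comparable, hence each of
them is ergodic and they coincide. -/

namespace Pool.Agent.R953.QP

open MeasureTheory Set Filter Topology ENNReal

/-- `ν` is automorphic: `ν` is the image of `e^ψ ν` under `y ↦ y - β`. -/
def Auto (β : UnitAddCircle) (ψ : UnitAddCircle → ℝ) (ν : Measure UnitAddCircle) : Prop :=
  ∀ φ : UnitAddCircle → ℝ≥0∞, Measurable φ →
    ∫⁻ y, φ y ∂ν = ∫⁻ y, φ (y - β) * ENNReal.ofReal (Real.exp (ψ y)) ∂ν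

/-- Birkhoff sums. -/
noncomputable def BS (β : UnitAddCircle) (ψ : UnitAddCircle → ℝ) (n : ℕ) (y : UnitAddCircle) : ℝ :=
  ∑ i ∈ Finset.range n, ψ (y - i • β)

variable {β : UnitAddCircle} {ψ : UnitAddCircle → ℝ} {ν : Measure UnitAddCircle}

lemma measurable_BS (hψ : Measurable ψ) (n : ℕ) : Measurable (BS β ψ n) := by
  unfold BS
  exact Finset.measurable_sum _ (fun i _ => hψ.comp (measurable_id.sub_const _))

lemma Auto.iter (h : Auto β ψ ν) (hψ : Measurable ψ) (n : ℕ) :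
    ∀ φ : UnitAddCircle → ℝ≥0∞, Measurable φ →
      ∫⁻ y, φ y ∂ν = ∫⁻ y, φ (y - n • β) * ENNReal.ofReal (Real.exp (BS β ψ n y)) ∂ν := by
  induction n with
  | zero => intro φ hφ; simp [BS]
  | succ n ih =>
    intro φ hφ
    rw [ih φ hφ]
    have hm : Measurable (fun y : UnitAddCircle =>
        φ (y - n • β) * ENNReal.ofReal (Real.exp (BS β ψ n y))) :=
      (hφ.comp (measurable_id.sub_const _)).mul
        ((measurable_BS hψ n).exp.ennreal_ofReal)
    rw [h _ hm]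
    refine lintegral_congr (fun y => ?_)
    have e1 : y - β - n • β = y - (n + 1) • β := by
      rw [succ_nsmul]; abel
    have e2 : BS β ψ (n + 1) y = BS β ψ n (y - β) + ψ y := by
      unfold BS
      rw [Finset.sum_range_succ']
      congr 1
      · refine Finset.sum_congr rfl (fun i _ => ?_)
        rw [succ_nsmul]
        congr 1
        abel
      · simp
    rw [e1, e2, Real.exp_add, ENNReal.ofReal_mul (Real.exp_pos _).le]
    ring

lemma coe_aux (t b : ℝ) (j : ℕ) : ((t + j * b : ℝ) : UnitAddCircle)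
    = (t : UnitAddCircle) + j • (b : UnitAddCircle) := by
  rw [AddCircle.coe_add, ← AddCircle.coe_nsmul, nsmul_eq_mul]

lemma cover {b : ℝ} {q : ℕ} {a : ℤ} (hq : 0 < q) (hc : IsCoprime a (q : ℤ))
    (hb : |b - a / q| < 1 / (q : ℝ) ^ 2) (y : UnitAddCircle) :
    ∃ j : ℕ, j < q ∧ ‖y + j • (b : UnitAddCircle)‖ ≤ 2 / q := by
  obtain ⟨t, rfl⟩ := QuotientAddGroup.mk_surjective y
  obtain ⟨j, hj, hn⟩ := cover_real (t := t) hq hc hb
  refine ⟨j, hj, ?_⟩
  rw [coe_aux] at hn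
  exact hn

lemma mult {b : ℝ} {q : ℕ} {a : ℤ} (hq : 0 < q) (hc : IsCoprime a (q : ℤ))
    (hb : |b - a / q| < 1 / (q : ℝ) ^ 2) (y : UnitAddCircle) :
    ((Finset.range q).filter
      (fun j : ℕ => ‖y + j • (b : UnitAddCircle)‖ ≤ 2 / q)).card ≤ 7 := by
  obtain ⟨t, rfl⟩ := QuotientAddGroup.mk_surjective y
  have := mult_real (t := t) hq hc hb
  simpa only [coe_aux] using this

/-- The rotated balls. -/
def Bq (b : ℝ) (q : ℕ) (c : UnitAddCircle) (j : ℕ) : Set UnitAddCircle :=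
  {y | ‖(y - c) + j • (b : UnitAddCircle)‖ ≤ 2 / q}

lemma measurableSet_Bq (b : ℝ) (q : ℕ) (c : UnitAddCircle) (j : ℕ) :
    MeasurableSet (Bq b q c j) := by
  unfold Bq
  exact measurableSet_le (((continuous_id.sub continuous_const).add continuous_const).norm.measurable)
    measurable_const

lemma sum_Bq_le {b : ℝ} {q : ℕ} {a : ℤ} (hq : 0 < q) (hc : IsCoprime a (q : ℤ))
    (hb : |b - a / q| < 1 / (q : ℝ) ^ 2) (c : UnitAddCircle) (ν : Measure UnitAddCircle)
    (J : Finset ℕ) (hJ : J ⊆ Finset.range q) (U : Set UnitAddCircle) (hU : MeasurableSet U)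
    (hJU : ∀ j ∈ J, Bq b q c j ⊆ U) :
    ∑ j ∈ J, ν (Bq b q c j) ≤ 7 * ν U := by
  classical
  have h1 : ∑ j ∈ J, ν (Bq b q c j)
      = ∫⁻ y, ∑ j ∈ J, (Bq b q c j).indicator (fun _ => (1 : ℝ≥0∞)) y ∂ν := by
    rw [lintegral_finsetSum]
    · refine Finset.sum_congr rfl (fun j _ => ?_)
      rw [lintegral_indicator (measurableSet_Bq b q c j)]; simp
    · intro j _
      exact measurable_const.indicator (measurableSet_Bq b q c j)
  rw [h1]
  have h2 : 7 * ν U = ∫⁻ y, U.indicator (fun _ => (7 : ℝ≥0∞)) y ∂ν := by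
    rw [lintegral_indicator hU]; simp
  rw [h2]
  refine lintegral_mono (fun y => ?_)
  by_cases hy : y ∈ U
  · rw [Set.indicator_of_mem hy]
    have h3 : ∑ j ∈ J, (Bq b q c j).indicator (fun _ => (1 : ℝ≥0∞)) y
        = ((J.filter (fun j => y ∈ Bq b q c j)).card : ℝ≥0∞) := by
      rw [Finset.card_filter]
      push_cast
      refine Finset.sum_congr rfl (fun j _ => ?_)
      simp [Set.indicator]
    rw [h3]
    have h4 : (J.filter (fun j => y ∈ Bq b q c j)).card ≤ 7 := by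
      refine le_trans (Finset.card_le_card ?_) (mult hq hc hb (y - c))
      intro j hj
      simp only [Finset.mem_filter] at hj ⊢
      exact ⟨hJ hj.1, hj.2⟩
    exact (Nat.cast_le.mpr h4).trans (le_of_eq (by norm_num))
  · rw [Set.indicator_of_notMem hy]
    refine le_of_eq (Finset.sum_eq_zero (fun j hj => ?_))
    exact Set.indicator_of_notMem (fun h => hy (hJU j hj h)) _

lemma one_le_sum_Bq {b : ℝ} {q : ℕ} {a : ℤ} (hq : 0 < q) (hc : IsCoprime a (q : ℤ))
    (hb : |b - a / q| < 1 / (q : ℝ) ^ 2) (c : UnitAddCircle) (ν : Measure UnitAddCircle) :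
    ν Set.univ ≤ ∑ j ∈ Finset.range q, ν (Bq b q c j) := by
  have : (Set.univ : Set UnitAddCircle) ⊆ ⋃ j ∈ Finset.range q, Bq b q c j := by
    intro y _
    obtain ⟨j, hj, hn⟩ := cover hq hc hb (y - c)
    simp only [Set.mem_iUnion]
    exact ⟨j, Finset.mem_range.mpr hj, hn⟩
  exact (measure_mono this).trans (measure_biUnion_finset_le _ _)

/-- the measure of a rotated ball -/
lemma Auto.measure_Bq {b : ℝ} (h : Auto (b : UnitAddCircle) ψ ν) (hψ : Measurable ψ)
    (q : ℕ) (c : UnitAddCircle) (j : ℕ) :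
    ν (Bq b q c j) = ∫⁻ y in Bq b q c 0, ENNReal.ofReal (Real.exp (BS b ψ j y)) ∂ν := by
  have h1 := h.iter hψ j ((Bq b q c j).indicator (fun _ => 1))
    (measurable_const.indicator (measurableSet_Bq b q c j))
  rw [lintegral_indicator (measurableSet_Bq b q c j)] at h1
  simp only [lintegral_one, Measure.restrict_apply, MeasurableSet.univ, Set.univ_inter] at h1
  rw [h1, ← lintegral_indicator (measurableSet_Bq b q c 0)]
  refine lintegral_congr (fun y => ?_)
  have hiff : y - j • (b : UnitAddCircle) ∈ Bq b q c j ↔ y ∈ Bq b q c 0 := by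
    unfold Bq
    simp only [Set.mem_ofPred_eq]
    have : y - j • (b : UnitAddCircle) - c + j • (b : UnitAddCircle) = y - c + 0 • (b : UnitAddCircle) := by
      rw [zero_nsmul]; abel
    rw [this]
  by_cases hy : y ∈ Bq b q c 0
  · rw [Set.indicator_of_mem (hiff.mpr hy), Set.indicator_of_mem hy, one_mul]
  · rw [Set.indicator_of_notMem (fun h => hy (hiff.mp h)), Set.indicator_of_notMem hy, zero_mul]

lemma BS_dist {L : NNReal} (hL : LipschitzWith L ψ) {q : ℕ} {c y : UnitAddCircle}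
    {b : ℝ} (hy : y ∈ Bq b q c 0) {j : ℕ} (hj : j < q) :
    |BS b ψ j y - BS b ψ j c| ≤ 2 * L := by
  have hq : (0 : ℝ) < q := by exact_mod_cast (lt_of_le_of_lt (Nat.zero_le j) hj)
  have hd : dist y c ≤ 2 / q := by
    have : ‖(y - c) + 0 • (b : UnitAddCircle)‖ ≤ 2 / q := hy
    rw [dist_eq_norm]
    simpa using this
  unfold BS
  rw [← Finset.sum_sub_distrib]
  calc |∑ i ∈ Finset.range j, (ψ (y - i • (b : UnitAddCircle)) - ψ (c - i • (b : UnitAddCircle)))|
      ≤ ∑ i ∈ Finset.range j, |ψ (y - i • (b : UnitAddCircle)) - ψ (c - i • (b : UnitAddCircle))| :=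
        Finset.abs_sum_le_sum_abs _ _
    _ ≤ ∑ _i ∈ Finset.range j, (L : ℝ) * (2 / q) := by
        refine Finset.sum_le_sum (fun i _ => ?_)
        have h1 := hL.dist_le_mul (y - i • (b : UnitAddCircle)) (c - i • (b : UnitAddCircle))
        rw [Real.dist_eq, dist_sub_right] at h1
        exact h1.trans (mul_le_mul_of_nonneg_left hd L.2)
    _ = j * (L * (2 / q)) := by simp
    _ ≤ q * (L * (2 / q)) := by
        have : (j : ℝ) ≤ q := by exact_mod_cast hj.le
        have h0 : (0 : ℝ) ≤ L * (2 / q) := by positivity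
        exact mul_le_mul_of_nonneg_right this h0
    _ = 2 * L := by field_simp

lemma Auto.le_Bq {b : ℝ} (h : Auto (b : UnitAddCircle) ψ ν) (hψ : Measurable ψ)
    {L : NNReal} (hL : LipschitzWith L ψ) (q : ℕ) (c : UnitAddCircle) {j : ℕ} (hj : j < q) :
    ν (Bq b q c j) ≤ ENNReal.ofReal (Real.exp (BS b ψ j c)) *
      (ENNReal.ofReal (Real.exp (2 * L)) * ν (Bq b q c 0)) := by
  rw [h.measure_Bq hψ]
  calc ∫⁻ y in Bq b q c 0, ENNReal.ofReal (Real.exp (BS b ψ j y)) ∂ν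
      ≤ ∫⁻ _y in Bq b q c 0, ENNReal.ofReal (Real.exp (BS b ψ j c)) *
          ENNReal.ofReal (Real.exp (2 * L)) ∂ν := by
        refine setLIntegral_mono' (measurableSet_Bq b q c 0) (fun y hy => ?_)
        rw [← ENNReal.ofReal_mul (Real.exp_pos _).le, ← Real.exp_add]
        refine ENNReal.ofReal_le_ofReal (Real.exp_le_exp.mpr ?_)
        have := (abs_le.mp (BS_dist hL hy hj)).2
        linarith
    _ = _ := by
        rw [setLIntegral_const]; ring

lemma Auto.ge_Bq {b : ℝ} (h : Auto (b : UnitAddCircle) ψ ν) (hψ : Measurable ψ)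
    {L : NNReal} (hL : LipschitzWith L ψ) (q : ℕ) (c : UnitAddCircle) {j : ℕ} (hj : j < q) :
    ENNReal.ofReal (Real.exp (BS b ψ j c)) * ν (Bq b q c 0) ≤
      ENNReal.ofReal (Real.exp (2 * L)) * ν (Bq b q c j) := by
  rw [h.measure_Bq hψ q c j, ← lintegral_const_mul _ ((measurable_BS hψ j).exp.ennreal_ofReal),
    ← setLIntegral_const]
  refine setLIntegral_mono' (measurableSet_Bq b q c 0) (fun y hy => ?_)
  rw [← ENNReal.ofReal_mul (Real.exp_pos _).le, ← Real.exp_add]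
  refine ENNReal.ofReal_le_ofReal (Real.exp_le_exp.mpr ?_)
  have := (abs_le.mp (BS_dist hL hy hj)).1
  linarith

/-- Comparability of balls. -/
lemma ball_comp {b : ℝ} {ν₁ ν₂ : Measure UnitAddCircle} [IsProbabilityMeasure ν₁]
    [IsProbabilityMeasure ν₂] (h₁ : Auto (b : UnitAddCircle) ψ ν₁)
    (h₂ : Auto (b : UnitAddCircle) ψ ν₂) (hψ : Measurable ψ)
    {L : NNReal} (hL : LipschitzWith L ψ) {q : ℕ} {a : ℤ} (hq : 0 < q) (hc : IsCoprime a (q : ℤ))
    (hb : |b - a / q| < 1 / (q : ℝ) ^ 2) (c : UnitAddCircle) :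
    ν₁ (Bq b q c 0) ≤ 7 * ENNReal.ofReal (Real.exp (4 * L)) * ν₂ (Bq b q c 0) := by
  set W : ℝ≥0∞ := ∑ j ∈ Finset.range q, ENNReal.ofReal (Real.exp (BS b ψ j c)) with hW
  have hWtop : W ≠ ∞ := by
    rw [hW]; exact ENNReal.sum_ne_top.mpr (fun j _ => ENNReal.ofReal_ne_top)
  have hW0 : W ≠ 0 := by
    rw [hW]
    intro h0
    rw [Finset.sum_eq_zero_iff] at h0
    have := h0 0 (Finset.mem_range.mpr hq)
    rw [ENNReal.ofReal_eq_zero] at this
    exact absurd this (not_le.mpr (Real.exp_pos _))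
  set E : ℝ≥0∞ := ENNReal.ofReal (Real.exp (2 * L)) with hE
  have hEE : E * E = ENNReal.ofReal (Real.exp (4 * L)) := by
    rw [hE, ← ENNReal.ofReal_mul (Real.exp_pos _).le, ← Real.exp_add]
    congr 2; ring
  -- upper bound for ν₁
  have u1 : W * ν₁ (Bq b q c 0) ≤ E * 7 := by
    calc W * ν₁ (Bq b q c 0)
        = ∑ j ∈ Finset.range q, ENNReal.ofReal (Real.exp (BS b ψ j c)) * ν₁ (Bq b q c 0) := by
          rw [hW, Finset.sum_mul]
      _ ≤ ∑ j ∈ Finset.range q, E * ν₁ (Bq b q c j) :=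
          Finset.sum_le_sum (fun j hj => h₁.ge_Bq hψ hL q c (Finset.mem_range.mp hj))
      _ = E * ∑ j ∈ Finset.range q, ν₁ (Bq b q c j) := by rw [Finset.mul_sum]
      _ ≤ E * (7 * ν₁ Set.univ) := by
          gcongr
          exact sum_Bq_le hq hc hb c ν₁ _ (Finset.Subset.refl _) _ MeasurableSet.univ
            (fun j _ => Set.subset_univ _)
      _ = E * 7 := by simp
  have u2 : 1 ≤ W * (E * ν₂ (Bq b q c 0)) := by
    calc (1 : ℝ≥0∞) = ν₂ Set.univ := by simp
      _ ≤ ∑ j ∈ Finset.range q, ν₂ (Bq b q c j) := one_le_sum_Bq hq hc hb c ν₂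
      _ ≤ ∑ j ∈ Finset.range q, ENNReal.ofReal (Real.exp (BS b ψ j c)) *
            (E * ν₂ (Bq b q c 0)) :=
          Finset.sum_le_sum (fun j hj => h₂.le_Bq hψ hL q c (Finset.mem_range.mp hj))
      _ = W * (E * ν₂ (Bq b q c 0)) := by rw [hW, Finset.sum_mul]
  have u3 : W * ν₁ (Bq b q c 0) ≤ W * (7 * (E * E) * ν₂ (Bq b q c 0)) := by
    calc W * ν₁ (Bq b q c 0) ≤ E * 7 * 1 := by rw [mul_one]; exact u1
      _ ≤ E * 7 * (W * (E * ν₂ (Bq b q c 0))) := by gcongr
      _ = W * (7 * (E * E) * ν₂ (Bq b q c 0)) := by ring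
  rw [← hEE]
  exact (ENNReal.mul_le_mul_iff_right hW0 hWtop).mp u3

lemma Bq_eq (b : ℝ) (q : ℕ) (c : UnitAddCircle) (j : ℕ) :
    Bq b q c j = Bq b q (c - j • (b : UnitAddCircle)) 0 := by
  unfold Bq
  ext y
  simp only [Set.mem_ofPred_eq]
  have : y - c + j • (b : UnitAddCircle) = y - (c - j • (b : UnitAddCircle)) + 0 • (b : UnitAddCircle) := by
    simp; abel
  rw [this]

/-- Comparability of two automorphic probability measures. -/
lemma comp_compact {b : ℝ} (hirr : Irrational b) {ν₁ ν₂ : Measure UnitAddCircle}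
    [IsProbabilityMeasure ν₁] [IsProbabilityMeasure ν₂] (h₁ : Auto (b : UnitAddCircle) ψ ν₁)
    (h₂ : Auto (b : UnitAddCircle) ψ ν₂)
    {L : NNReal} (hL : LipschitzWith L ψ) {K U : Set UnitAddCircle} (hK : IsCompact K)
    (hU : IsOpen U) (hKU : K ⊆ U) :
    ν₁ K ≤ 49 * ENNReal.ofReal (Real.exp (4 * L)) * ν₂ U := by
  classical
  have hψ : Measurable ψ := hL.continuous.measurable
  obtain ⟨δ, hδ, hthick⟩ := hK.exists_thickening_subset_open hU hKU
  obtain ⟨N, hN⟩ := exists_nat_gt (4 / δ)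
  obtain ⟨q, a, hNq, hq, hc, hb⟩ := good_q hirr N
  have hq' : (0 : ℝ) < q := by exact_mod_cast hq
  have hsmall : 4 / (q : ℝ) < δ := by
    have h1 : 4 / δ < q := lt_of_lt_of_le hN (by exact_mod_cast hNq)
    rw [div_lt_iff₀ hδ] at h1
    rw [div_lt_iff₀ hq']
    linarith
  set J : Finset ℕ := (Finset.range q).filter (fun j => (Bq b q 0 j ∩ K).Nonempty) with hJ
  have hsub : ∀ j ∈ J, Bq b q 0 j ⊆ U := by
    intro j hj y hy
    rw [hJ, Finset.mem_filter] at hj
    obtain ⟨x, hxB, hxK⟩ := hj.2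
    refine hthick ?_
    rw [Metric.mem_thickening_iff]
    refine ⟨x, hxK, ?_⟩
    have e1 : ‖(y - 0) + j • (b : UnitAddCircle)‖ ≤ 2 / q := hy
    have e2 : ‖(x - 0) + j • (b : UnitAddCircle)‖ ≤ 2 / q := hxB
    have : y - x = ((y - 0) + j • (b : UnitAddCircle)) - ((x - 0) + j • (b : UnitAddCircle)) := by abel
    rw [dist_eq_norm, this]
    calc _ ≤ ‖(y - 0) + j • (b : UnitAddCircle)‖ + ‖(x - 0) + j • (b : UnitAddCircle)‖ :=
          norm_sub_le _ _
      _ ≤ 2 / q + 2 / q := add_le_add e1 e2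
      _ = 4 / q := by ring
      _ < δ := hsmall
  have hcov : K ⊆ ⋃ j ∈ J, Bq b q 0 j := by
    intro x hx
    obtain ⟨j, hj, hn⟩ := cover hq hc hb (x - 0)
    simp only [Set.mem_iUnion]
    exact ⟨j, by rw [hJ, Finset.mem_filter]; exact ⟨Finset.mem_range.mpr hj, ⟨x, hn, hx⟩⟩, hn⟩
  calc ν₁ K ≤ ∑ j ∈ J, ν₁ (Bq b q 0 j) :=
        (measure_mono hcov).trans (measure_biUnion_finset_le _ _)
    _ ≤ ∑ j ∈ J, 7 * ENNReal.ofReal (Real.exp (4 * L)) * ν₂ (Bq b q 0 j) := by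
        refine Finset.sum_le_sum (fun j _ => ?_)
        rw [Bq_eq b q 0 j]
        exact ball_comp h₁ h₂ hψ hL hq hc hb _
    _ = 7 * ENNReal.ofReal (Real.exp (4 * L)) * ∑ j ∈ J, ν₂ (Bq b q 0 j) := by
        rw [Finset.mul_sum]
    _ ≤ 7 * ENNReal.ofReal (Real.exp (4 * L)) * (7 * ν₂ U) := by
        gcongr
        exact sum_Bq_le hq hc hb 0 ν₂ J (Finset.filter_subset _ _) U hU.measurableSet hsub
    _ = 49 * ENNReal.ofReal (Real.exp (4 * L)) * ν₂ U := by
        have : (49 : ℝ≥0∞) = 7 * 7 := by norm_num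
        rw [this]; ring

lemma comp_set {b : ℝ} (hirr : Irrational b) {ν₁ ν₂ : Measure UnitAddCircle}
    [IsProbabilityMeasure ν₁] [IsProbabilityMeasure ν₂] (h₁ : Auto (b : UnitAddCircle) ψ ν₁)
    (h₂ : Auto (b : UnitAddCircle) ψ ν₂)
    {L : NNReal} (hL : LipschitzWith L ψ) {A : Set UnitAddCircle} (hA : MeasurableSet A)
    (h0 : ν₂ A = 0) : ν₁ A = 0 := by
  rw [hA.measure_eq_iSup_isCompact_of_ne_top (measure_ne_top ν₁ A)]
  simp only [ENNReal.iSup_eq_zero]
  intro K hKA hK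
  by_contra hne
  have hCpos : 49 * ENNReal.ofReal (Real.exp (4 * L)) ≠ ∞ :=
    ENNReal.mul_ne_top (by norm_num) ENNReal.ofReal_ne_top
  set C : ℝ≥0∞ := 49 * ENNReal.ofReal (Real.exp (4 * L)) with hC
  have hK0 : ν₂ K = 0 := measure_mono_null hKA h0
  have hC0 : C ≠ 0 := by
    rw [hC]
    refine mul_ne_zero (by norm_num) ?_
    rw [Ne, ENNReal.ofReal_eq_zero]
    exact not_le.mpr (Real.exp_pos _)
  have hlt : ν₂ K < ν₁ K / C := by
    rw [hK0]
    exact ENNReal.div_pos hne hCpos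
  obtain ⟨U, hKU, hU, hUlt⟩ := Set.exists_isOpen_lt_of_lt K _ hlt
  have h1 := comp_compact hirr h₁ h₂ hL hK hU hKU
  have h2 : C * ν₂ U < ν₁ K := by
    rw [ENNReal.lt_div_iff_mul_lt (Or.inl hC0) (Or.inl hCpos)] at hUlt
    rwa [mul_comm]
  exact absurd h1 (not_le.mpr h2)

end Pool.Agent.R953.QP
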