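import Pool.Agent.R953.QP2

/-! Ergodicity and uniqueness of automorphic probability measures. -/

namespace Pool.Agent.R953.QP

open MeasureTheory Set Filter Topology ENNReal

variable {β : UnitAddCircle} {ψ : UnitAddCircle → ℝ} {ν : Measure UnitAddCircle}

lemma Auto.qmp (h : Auto β ψ ν) (hψ : Measurable ψ) :
    Measure.QuasiMeasurePreserving (fun y : UnitAddCircle => y - β) ν ν := by
  have hm : Measurable (fun y : UnitAddCircle => y - β) := measurable_id.sub_const _
  refine ⟨hm, ?_⟩
  refine Measure.AbsolutelyContinuous.mk (fun s hs h0 => ?_)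
  rw [Measure.map_apply hm hs]
  have h1 := h (s.indicator (fun _ => 1)) (measurable_const.indicator hs)
  rw [lintegral_indicator hs] at h1
  simp only [lintegral_one, Measure.restrict_apply, MeasurableSet.univ, Set.univ_inter] at h1
  rw [h0] at h1
  have hmeas : Measurable (fun y : UnitAddCircle =>
      (s.indicator (fun _ => (1 : ℝ≥0∞)) (y - β)) * ENNReal.ofReal (Real.exp (ψ y))) :=
    ((measurable_const.indicator hs).comp hm).mul hψ.exp.ennreal_ofReal
  have h2 := (lintegral_eq_zero_iff hmeas).mp h1.symm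
  rw [measure_eq_zero_iff_ae_notMem]
  filter_upwards [h2] with y hy hys
  simp only [Pi.zero_apply, mul_eq_zero] at hy
  rcases hy with hy | hy
  · rw [Set.indicator_of_mem (show y - β ∈ s from hys)] at hy
    exact one_ne_zero hy
  · rw [ENNReal.ofReal_eq_zero] at hy
    exact absurd hy (not_le.mpr (Real.exp_pos _))

lemma Auto.cond (h : Auto β ψ ν) {s : Set UnitAddCircle} (hs : MeasurableSet s)
    (hinv : (fun y : UnitAddCircle => y - β) ⁻¹' s = s) :
    Auto β ψ ((ν s)⁻¹ • ν.restrict s) := by
  intro φ hφ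
  rw [lintegral_smul_measure, lintegral_smul_measure]
  congr 1
  rw [← lintegral_indicator hs, ← lintegral_indicator hs,
    h _ (hφ.indicator hs)]
  refine lintegral_congr (fun y => ?_)
  have hiff : y - β ∈ s ↔ y ∈ s := by
    constructor
    · intro h1
      rw [← hinv]; exact h1
    · intro h1
      rw [← hinv] at h1; exact h1
  by_cases hy : y ∈ s
  · rw [Set.indicator_of_mem (hiff.mpr hy), Set.indicator_of_mem hy]
  · rw [Set.indicator_of_notMem (fun h => hy (hiff.mp h)), Set.indicator_of_notMem hy, zero_mul]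

/-- An automorphic probability measure is (quasi-)ergodic. -/
lemma Auto.quasiErgodic {b : ℝ} (hirr : Irrational b) [IsProbabilityMeasure ν]
    (h : Auto (b : UnitAddCircle) ψ ν) {L : NNReal} (hL : LipschitzWith L ψ) :
    QuasiErgodic (fun y : UnitAddCircle => y - (b : UnitAddCircle)) ν := by
  have hψ : Measurable ψ := hL.continuous.measurable
  refine ⟨h.qmp hψ, ⟨fun s hs hinv => ?_⟩⟩
  by_cases h0 : ν s = 0
  · have : s =ᵐ[ν] (∅ : Set UnitAddCircle) := by
      rw [ae_eq_empty]; exact h0
    exact (eventuallyConst_set'.mpr (Or.inl this))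
  by_cases h1 : ν sᶜ = 0
  · have : s =ᵐ[ν] (Set.univ : Set UnitAddCircle) := by
      rw [ae_eq_univ]; exact h1
    exact (eventuallyConst_set'.mpr (Or.inr this))
  exfalso
  have hinv' : (fun y : UnitAddCircle => y - (b : UnitAddCircle)) ⁻¹' sᶜ = sᶜ := by
    rw [Set.preimage_compl, hinv]
  have a1 := h.cond hs hinv
  have a2 := h.cond hs.compl hinv'
  have p1 : IsProbabilityMeasure ((ν s)⁻¹ • ν.restrict s) := by
    constructor
    rw [Measure.smul_apply, Measure.restrict_apply MeasurableSet.univ, Set.univ_inter, smul_eq_mul]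
    exact ENNReal.inv_mul_cancel h0 (measure_ne_top _ _)
  have p2 : IsProbabilityMeasure ((ν sᶜ)⁻¹ • ν.restrict sᶜ) := by
    constructor
    rw [Measure.smul_apply, Measure.restrict_apply MeasurableSet.univ, Set.univ_inter, smul_eq_mul]
    exact ENNReal.inv_mul_cancel h1 (measure_ne_top _ _)
  have hz : ((ν sᶜ)⁻¹ • ν.restrict sᶜ) s = 0 := by
    rw [Measure.smul_apply, Measure.restrict_apply hs, Set.inter_compl_self, measure_empty,
      smul_zero]
  have := comp_set hirr a1 a2 hL hs hz
  rw [Measure.smul_apply, Measure.restrict_apply hs, Set.inter_self, smul_eq_mul,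
    ENNReal.inv_mul_cancel h0 (measure_ne_top _ _)] at this
  exact one_ne_zero this

/-- Two automorphic probability measures coincide. -/
theorem auto_unique {b : ℝ} (hirr : Irrational b) {ν₁ ν₂ : Measure UnitAddCircle}
    [IsProbabilityMeasure ν₁] [IsProbabilityMeasure ν₂] (h₁ : Auto (b : UnitAddCircle) ψ ν₁)
    (h₂ : Auto (b : UnitAddCircle) ψ ν₂) {L : NNReal} (hL : LipschitzWith L ψ) : ν₁ = ν₂ := by
  have hψ : Measurable ψ := hL.continuous.measurable
  have hac : ν₁ ≪ ν₂ := Measure.AbsolutelyContinuous.mk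
    (fun s hs h0 => comp_set hirr h₁ h₂ hL hs h0)
  set f := ν₁.rnDeriv ν₂ with hf
  have hfm : Measurable f := Measure.measurable_rnDeriv _ _
  have hleb : ν₁.HaveLebesgueDecomposition ν₂ :=
    Measure.haveLebesgueDecomposition_of_sigmaFinite _ _
  have hwd : ν₂.withDensity f = ν₁ := Measure.withDensity_rnDeriv_eq _ _ hac
  set β : UnitAddCircle := (b : UnitAddCircle) with hβ
  have hm : Measurable (fun y : UnitAddCircle => y - β) := measurable_id.sub_const _
  have hp : Measurable (fun y : UnitAddCircle => y + β) := measurable_id.add_const _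
  have hlin : ∀ φ : UnitAddCircle → ℝ≥0∞, Measurable φ →
      ∫⁻ y, φ y ∂ν₁ = ∫⁻ y, f y * φ y ∂ν₂ := by
    intro φ hφ
    rw [← hwd, lintegral_withDensity_eq_lintegral_mul _ hfm hφ]
    rfl
  have hinv : f ∘ (fun y : UnitAddCircle => y - β) =ᵐ[ν₂] f := by
    refine ae_eq_of_forall_setLIntegral_eq_of_sigmaFinite (hfm.comp hm) hfm (fun s hs _ => ?_)
    set φ : UnitAddCircle → ℝ≥0∞ := fun y =>
      s.indicator (fun x => ENNReal.ofReal (Real.exp (-ψ x))) (y + β) with hφdef
    have hφ : Measurable φ :=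
      (Measurable.indicator (hψ.neg.exp.ennreal_ofReal) hs).comp hp
    have e1 : ∀ y, φ (y - β) * ENNReal.ofReal (Real.exp (ψ y)) = s.indicator (fun _ => 1) y := by
      intro y
      simp only [hφdef, sub_add_cancel]
      by_cases hy : y ∈ s
      · rw [Set.indicator_of_mem hy, Set.indicator_of_mem hy,
          ← ENNReal.ofReal_mul (Real.exp_pos _).le, ← Real.exp_add]
        simp
      · rw [Set.indicator_of_notMem hy, Set.indicator_of_notMem hy, zero_mul]
    have k1 : ∫⁻ y, φ y ∂ν₁ = ∫⁻ y, f y * s.indicator (fun _ => 1) y ∂ν₂ := by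
      rw [h₁ φ hφ, ← hlin _ (measurable_const.indicator hs)]
      exact lintegral_congr e1
    have k2 : ∫⁻ y, φ y ∂ν₁ = ∫⁻ y, f (y - β) * s.indicator (fun _ => 1) y ∂ν₂ := by
      have h2' := h₂ (fun y => f y * φ y) (hfm.mul hφ)
      rw [hlin φ hφ, h2']
      refine lintegral_congr (fun y => ?_)
      show f (y - β) * φ (y - β) * ENNReal.ofReal (Real.exp (ψ y)) = _
      rw [mul_assoc, e1 y]
    rw [← lintegral_indicator hs, ← lintegral_indicator hs]
    calc ∫⁻ y, s.indicator (f ∘ fun y => y - β) y ∂ν₂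
        = ∫⁻ y, f (y - β) * s.indicator (fun _ => 1) y ∂ν₂ := by
          refine lintegral_congr (fun y => ?_)
          by_cases hy : y ∈ s <;> simp [hy]
      _ = ∫⁻ y, f y * s.indicator (fun _ => 1) y ∂ν₂ := by rw [← k2, k1]
      _ = ∫⁻ y, s.indicator f y ∂ν₂ := by
          refine lintegral_congr (fun y => ?_)
          by_cases hy : y ∈ s <;> simp [hy]
  obtain ⟨c, hc⟩ := (h₂.quasiErgodic hirr hL).ae_eq_const_of_ae_eq_comp₀ hfm.nullMeasurable hinv
  have h3 : ν₁ = c • ν₂ := by
    rw [← hwd, withDensity_congr_ae hc]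
    exact withDensity_const c
  have h4 : c = 1 := by
    have := congrArg (fun m : Measure UnitAddCircle => m Set.univ) h3
    simpa using this.symm
  rw [h3, h4, one_smul]

end Pool.Agent.R953.QP
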