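import Pool.Agent.R953.QP3

/-! Stationary measures of a symmetric quasi-periodic walk are automorphic (zero flux). -/

namespace Pool.Agent.R953.QP

open MeasureTheory Set Filter Topology ENNReal

/-- `ν` is stationary for the chain on the circle which jumps from `y` to `y + α` with
probability `p y` and to `y - α` with probability `1 - p y`. -/
def IsStat (α : UnitAddCircle) (p : UnitAddCircle → ℝ) (ν : Measure UnitAddCircle) : Prop :=
  ∀ φ : UnitAddCircle → ℝ, Continuous φ →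
    ∫ y, (p y * φ (y + α) + (1 - p y) * φ (y - α)) ∂ν = ∫ y, φ y ∂ν

lemma integ {E : Type*} [NormedAddCommGroup E] [NormedSpace ℝ E] {f : UnitAddCircle → E}
    (hf : Continuous f) (ν : Measure UnitAddCircle) [IsFiniteMeasure ν] : Integrable f ν :=
  hf.integrable_of_hasCompactSupport (HasCompactSupport.of_compactSpace f)

lemma stat_complex {α : UnitAddCircle} {p : UnitAddCircle → ℝ} {ν : Measure UnitAddCircle}
    [IsProbabilityMeasure ν] (hp : Continuous p) (hst : IsStat α p ν)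
    (φ : UnitAddCircle → ℂ) (hφ : Continuous φ) :
    ∫ y, ((p y : ℂ) * φ (y + α) + (1 - (p y : ℂ)) * φ (y - α)) ∂ν = ∫ y, φ y ∂ν := by
  have hc1 : Continuous (fun y : UnitAddCircle => y + α) := continuous_id.add continuous_const
  have hc2 : Continuous (fun y : UnitAddCircle => y - α) := continuous_id.sub continuous_const
  have hpc : Continuous (fun y => (p y : ℂ)) := Complex.continuous_ofReal.comp hp
  have hint : Integrable (fun y => ((p y : ℂ) * φ (y + α) + (1 - (p y : ℂ)) * φ (y - α))) ν :=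
    integ ((hpc.mul (hφ.comp hc1)).add ((continuous_const.sub hpc).mul (hφ.comp hc2))) ν
  have hr := hst (fun y => (φ y).re) (Complex.continuous_re.comp hφ)
  have hi := hst (fun y => (φ y).im) (Complex.continuous_im.comp hφ)
  have e1 : (∫ y, ((p y : ℂ) * φ (y + α) + (1 - (p y : ℂ)) * φ (y - α)) ∂ν).re
      = (∫ y, φ y ∂ν).re := by
    have a1 := integral_re (𝕜 := ℂ) hint
    have a2 := integral_re (𝕜 := ℂ) (integ hφ ν)
    simp only [RCLike.re_eq_complex_re] at a1 a2
    rw [← a1, ← a2, ← hr]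
    refine integral_congr_ae (Eventually.of_forall (fun y => ?_))
    simp
  have e2 : (∫ y, ((p y : ℂ) * φ (y + α) + (1 - (p y : ℂ)) * φ (y - α)) ∂ν).im
      = (∫ y, φ y ∂ν).im := by
    have a1 := integral_im (𝕜 := ℂ) hint
    have a2 := integral_im (𝕜 := ℂ) (integ hφ ν)
    simp only [RCLike.im_eq_complex_im] at a1 a2
    rw [← a1, ← a2, ← hi]
    refine integral_congr_ae (Eventually.of_forall (fun y => ?_))
    simp
  exact Complex.ext e1 e2

/-- The flux functional. -/
noncomputable def fluxL (α : UnitAddCircle) (p : UnitAddCircle → ℝ) (ν : Measure UnitAddCircle)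
    [IsProbabilityMeasure ν] (hp : Continuous p) (c : ℂ) : C(UnitAddCircle, ℂ) →ₗ[ℂ] ℂ where
  toFun φ := ∫ y, φ y * (p y : ℂ) ∂ν - ∫ y, φ (y - α) * (1 - (p y : ℂ)) ∂ν - c * ∫ y, φ y
  map_add' φ₁ φ₂ := by
    have hc2 : Continuous (fun y : UnitAddCircle => y - α) := continuous_id.sub continuous_const
    have hpc : Continuous (fun y => (p y : ℂ)) := Complex.continuous_ofReal.comp hp
    have i1 : ∀ φ : C(UnitAddCircle, ℂ), Integrable (fun y => φ y * (p y : ℂ)) ν :=
      fun φ => integ (φ.continuous.mul hpc) ν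
    have i2 : ∀ φ : C(UnitAddCircle, ℂ), Integrable (fun y => φ (y - α) * (1 - (p y : ℂ))) ν :=
      fun φ => integ ((φ.continuous.comp hc2).mul (continuous_const.sub hpc)) ν
    have i3 : ∀ φ : C(UnitAddCircle, ℂ), Integrable (fun y => φ y) (volume : Measure UnitAddCircle) :=
      fun φ => integ φ.continuous _
    simp only [ContinuousMap.add_apply, add_mul]
    rw [integral_add (i1 φ₁) (i1 φ₂), integral_add (i2 φ₁) (i2 φ₂), integral_add (i3 φ₁) (i3 φ₂)]
    ring
  map_smul' a φ := by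
    simp only [ContinuousMap.smul_apply, smul_eq_mul, mul_assoc, integral_const_mul,
      RingHom.id_apply]
    ring

lemma fluxL_bound {α : UnitAddCircle} {p : UnitAddCircle → ℝ} {ν : Measure UnitAddCircle}
    [IsProbabilityMeasure ν] (hp : Continuous p) (h0 : ∀ y, 0 < p y) (h1 : ∀ y, p y < 1)
    (c : ℂ) (φ : C(UnitAddCircle, ℂ)) :
    ‖fluxL α p ν hp c φ‖ ≤ (2 + ‖c‖) * ‖φ‖ := by
  have hv : (volume : Measure UnitAddCircle).real Set.univ = 1 := by
    simp [Measure.real]
  have b1 : ‖∫ y, φ y * (p y : ℂ) ∂ν‖ ≤ ‖φ‖ * ν.real Set.univ := by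
    refine norm_integral_le_of_norm_le_const (Eventually.of_forall (fun y => ?_))
    rw [norm_mul, Complex.norm_real, Real.norm_eq_abs, abs_of_pos (h0 y)]
    calc ‖φ y‖ * p y ≤ ‖φ‖ * 1 :=
          mul_le_mul (φ.norm_coe_le_norm y) (h1 y).le (h0 y).le (norm_nonneg _)
      _ = ‖φ‖ := mul_one _
  have b2 : ‖∫ y, φ (y - α) * (1 - (p y : ℂ)) ∂ν‖ ≤ ‖φ‖ * ν.real Set.univ := by
    refine norm_integral_le_of_norm_le_const (Eventually.of_forall (fun y => ?_))
    have : (1 - (p y : ℂ)) = ((1 - p y : ℝ) : ℂ) := by push_cast; rfl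
    rw [norm_mul, this, Complex.norm_real, Real.norm_eq_abs, abs_of_pos (by linarith [h1 y])]
    calc ‖φ (y - α)‖ * (1 - p y) ≤ ‖φ‖ * 1 :=
          mul_le_mul (φ.norm_coe_le_norm _) (by linarith [h0 y]) (by linarith [h1 y])
            (norm_nonneg _)
      _ = ‖φ‖ := mul_one _
  have b3 : ‖∫ y : UnitAddCircle, φ y‖ ≤ ‖φ‖ * (volume : Measure UnitAddCircle).real Set.univ := by
    refine norm_integral_le_of_norm_le_const (Eventually.of_forall (fun y => ?_))
    exact φ.norm_coe_le_norm y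
  rw [hv, mul_one] at b3
  simp only [probReal_univ, mul_one] at b1 b2
  have b4 : ‖c * ∫ y : UnitAddCircle, φ y‖ ≤ ‖c‖ * ‖φ‖ := by
    rw [norm_mul]; exact mul_le_mul_of_nonneg_left b3 (norm_nonneg _)
  show ‖∫ y, φ y * (p y : ℂ) ∂ν - ∫ y, φ (y - α) * (1 - (p y : ℂ)) ∂ν - c * ∫ y, φ y‖ ≤ _
  calc _ ≤ ‖∫ y, φ y * (p y : ℂ) ∂ν‖ + ‖∫ y, φ (y - α) * (1 - (p y : ℂ)) ∂ν‖
        + ‖c * ∫ y, φ y‖ :=
        (norm_sub_le _ _).trans (add_le_add_left (norm_sub_le _ _) _)
    _ ≤ ‖φ‖ + ‖φ‖ + ‖c‖ * ‖φ‖ := by gcongr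
    _ = (2 + ‖c‖) * ‖φ‖ := by ring

lemma zsmul_ne_zero_of_irr {b : ℝ} (hirr : Irrational b) {n : ℤ} (hn : n ≠ 0) :
    n • (b : UnitAddCircle) ≠ 0 := by
  intro h
  have h1 : (((n : ℝ) * b : ℝ) : UnitAddCircle) = 0 := by
    rw [← h, ← zsmul_eq_mul]
    exact AddCircle.coe_zsmul (1 : ℝ)
  rw [AddCircle.coe_eq_zero_iff] at h1
  obtain ⟨m, hm⟩ := h1
  have h2 : (n : ℝ) * b = (m : ℝ) := by simpa using hm.symm
  have h3 : Irrational ((n : ℝ) * b) := hirr.intCast_mul hn
  exact h3 ⟨(m : ℚ), by simpa using h2.symm⟩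

lemma fourier_ne_one {b : ℝ} (hirr : Irrational b) {n : ℤ} (hn : n ≠ 0) :
    (fourier n (b : UnitAddCircle) : ℂ) ≠ 1 := by
  rw [fourier_apply]
  intro h
  have h2 : AddCircle.toCircle (n • (b : UnitAddCircle)) = 1 := Circle.ext (by simpa using h)
  rw [← AddCircle.toCircle_zero] at h2
  exact zsmul_ne_zero_of_irr hirr hn (AddCircle.injective_toCircle one_ne_zero h2)

lemma fourier_add_pt (n : ℤ) (y z : UnitAddCircle) :
    (fourier n (y + z) : ℂ) = fourier n y * fourier n z := by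
  rw [fourier_apply, fourier_apply, fourier_apply, smul_add, AddCircle.toCircle_add]
  simp

lemma integral_fourier_zero {b : ℝ} (hirr : Irrational b) {n : ℤ} (hn : n ≠ 0) :
    ∫ y : UnitAddCircle, (fourier n y : ℂ) = 0 := by
  have h1 : ∫ y : UnitAddCircle, (fourier n (y + (b : UnitAddCircle)) : ℂ)
      = ∫ y : UnitAddCircle, (fourier n y : ℂ) :=
    integral_add_right_eq_self (fun y : UnitAddCircle => (fourier n y : ℂ)) (b : UnitAddCircle)
  simp only [fourier_add_pt] at h1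
  rw [integral_mul_const] at h1
  by_contra h0
  have : (fourier n (b : UnitAddCircle) : ℂ) = 1 := by
    have := mul_left_cancel₀ h0 (h1.trans (mul_one _).symm)
    exact this
  exact fourier_ne_one hirr hn this

lemma fluxL_fourier {b : ℝ} (hirr : Irrational b) {p : UnitAddCircle → ℝ}
    {ν : Measure UnitAddCircle} [IsProbabilityMeasure ν] (hp : Continuous p)
    (hst : IsStat (b : UnitAddCircle) p ν) (n : ℤ) :
    fluxL (b : UnitAddCircle) p ν hp
      (∫ y, (p y : ℂ) ∂ν - ∫ y, (1 - (p y : ℂ)) ∂ν) (fourier n) = 0 := by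
  have hpc : Continuous (fun y => (p y : ℂ)) := Complex.continuous_ofReal.comp hp
  show ∫ y, (fourier n y : ℂ) * (p y : ℂ) ∂ν
    - ∫ y, (fourier n (y - (b : UnitAddCircle)) : ℂ) * (1 - (p y : ℂ)) ∂ν
    - (∫ y, (p y : ℂ) ∂ν - ∫ y, (1 - (p y : ℂ)) ∂ν) * ∫ y : UnitAddCircle, (fourier n y : ℂ) = 0
  by_cases hn : n = 0
  · subst hn
    have hv : (volume : Measure UnitAddCircle).real Set.univ = 1 := by
      simp [Measure.real]
    simp only [fourier_zero, one_mul]
    rw [integral_const, hv]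
    simp
  · rw [integral_fourier_zero hirr hn, mul_zero, sub_zero]
    set z : ℂ := fourier n (b : UnitAddCircle) with hz
    have hz1 : z ≠ 1 := fourier_ne_one hirr hn
    have hz0 : z ≠ 0 := by
      rw [hz, fourier_apply]
      exact Circle.coe_ne_zero _
    have hsub : ∀ y : UnitAddCircle, (fourier n (y - (b : UnitAddCircle)) : ℂ) = fourier n y * z⁻¹ := by
      intro y
      have := fourier_add_pt n (y - (b : UnitAddCircle)) (b : UnitAddCircle)
      rw [sub_add_cancel] at this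
      rw [this, ← hz, mul_assoc, mul_inv_cancel₀ hz0, mul_one]
    set A : ℂ := ∫ y, (fourier n y : ℂ) * (p y : ℂ) ∂ν with hA
    set B : ℂ := ∫ y, (fourier n y : ℂ) * (1 - (p y : ℂ)) ∂ν with hB
    have hcont : Continuous (fun y : UnitAddCircle => (fourier n y : ℂ)) := (fourier n).continuous
    have iA : Integrable (fun y => (fourier n y : ℂ) * (p y : ℂ)) ν := integ (hcont.mul hpc) ν
    have iB : Integrable (fun y => (fourier n y : ℂ) * (1 - (p y : ℂ))) ν :=
      integ (hcont.mul (continuous_const.sub hpc)) ν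
    have hs := stat_complex hp hst (fun y => (fourier n y : ℂ)) hcont
    have hl : ∫ y, ((p y : ℂ) * (fourier n (y + (b : UnitAddCircle)) : ℂ)
        + (1 - (p y : ℂ)) * (fourier n (y - (b : UnitAddCircle)) : ℂ)) ∂ν = A * z + B * z⁻¹ := by
      rw [hA, hB, ← integral_mul_const, ← integral_mul_const,
        ← integral_add (iA.mul_const _) (iB.mul_const _)]
      refine integral_congr_ae (Eventually.of_forall (fun y => ?_))
      simp only [hsub, fourier_add_pt, ← hz]
      ring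
    have hr : ∫ y, (fourier n y : ℂ) ∂ν = A + B := by
      rw [hA, hB, ← integral_add iA iB]
      refine integral_congr_ae (Eventually.of_forall (fun y => ?_))
      simp only
      ring
    have hBz : ∫ y, (fourier n (y - (b : UnitAddCircle)) : ℂ) * (1 - (p y : ℂ)) ∂ν = B * z⁻¹ := by
      rw [hB, ← integral_mul_const]
      refine integral_congr_ae (Eventually.of_forall (fun y => ?_))
      simp only [hsub]
      ring
    rw [hBz]
    have key : A * z + B * z⁻¹ = A + B := by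
      rw [← hl, ← hr]; exact hs
    have key2 : (A - B * z⁻¹) * (z - 1) = 0 := by
      have : B * z⁻¹ * z = B := by rw [mul_assoc, inv_mul_cancel₀ hz0, mul_one]
      linear_combination key - this
    rcases mul_eq_zero.mp key2 with h | h
    · exact h
    · exact absurd (sub_eq_zero.mp h) hz1

/-- The flux of a stationary measure is a multiple of Lebesgue measure. -/
lemma flux {b : ℝ} (hirr : Irrational b) {p : UnitAddCircle → ℝ}
    {ν : Measure UnitAddCircle} [IsProbabilityMeasure ν] (hp : Continuous p)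
    (h0 : ∀ y, 0 < p y) (h1 : ∀ y, p y < 1) (hst : IsStat (b : UnitAddCircle) p ν) :
    ∃ c : ℝ, ∀ φ : UnitAddCircle → ℝ, Continuous φ →
      ∫ y, φ y * p y ∂ν = ∫ y, φ (y - (b : UnitAddCircle)) * (1 - p y) ∂ν + c * ∫ y, φ y := by
  set c : ℝ := ∫ y, p y ∂ν - ∫ y, (1 - p y) ∂ν with hc
  have hcc : (c : ℂ) = ∫ y, (p y : ℂ) ∂ν - ∫ y, (1 - (p y : ℂ)) ∂ν := by
    rw [hc]
    push_cast
    rw [← integral_complex_ofReal, ← integral_complex_ofReal]
    simp
  refine ⟨c, fun φ hφ => ?_⟩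
  set D : C(UnitAddCircle, ℂ) →L[ℂ] ℂ :=
    (fluxL (b : UnitAddCircle) p ν hp (c : ℂ)).mkContinuous (2 + ‖(c : ℂ)‖)
      (fun φ => fluxL_bound hp h0 h1 _ φ) with hD
  have hDf : ∀ n : ℤ, D (fourier n) = 0 := by
    intro n
    rw [hD, LinearMap.mkContinuous_apply, hcc]
    exact fluxL_fourier hirr hp hst n
  have hspan : (Submodule.span ℂ (Set.range (@fourier (1 : ℝ)))) ≤ LinearMap.ker D.toLinearMap := by
    rw [Submodule.span_le]
    rintro _ ⟨n, rfl⟩
    exact hDf n
  have htop : (⊤ : Submodule ℂ C(UnitAddCircle, ℂ)) ≤ LinearMap.ker D.toLinearMap := by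
    rw [← span_fourier_closure_eq_top (T := (1 : ℝ))]
    exact Submodule.topologicalClosure_minimal _ hspan D.isClosed_ker
  have hφ0 : D ⟨fun y => (φ y : ℂ), Complex.continuous_ofReal.comp hφ⟩ = 0 :=
    htop (Submodule.mem_top)
  have hφ1 : ∫ y, (φ y : ℂ) * (p y : ℂ) ∂ν
      - ∫ y, (φ (y - (b : UnitAddCircle)) : ℂ) * (1 - (p y : ℂ)) ∂ν
      - (c : ℂ) * ∫ y : UnitAddCircle, (φ y : ℂ) = 0 := hφ0
  have e1 : ∫ y, (φ y : ℂ) * (p y : ℂ) ∂ν = ((∫ y, φ y * p y ∂ν : ℝ) : ℂ) := by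
    rw [← integral_complex_ofReal]; simp
  have e2 : ∫ y, (φ (y - (b : UnitAddCircle)) : ℂ) * (1 - (p y : ℂ)) ∂ν
      = ((∫ y, φ (y - (b : UnitAddCircle)) * (1 - p y) ∂ν : ℝ) : ℂ) := by
    rw [← integral_complex_ofReal]; simp
  have e3 : ∫ y : UnitAddCircle, (φ y : ℂ) = ((∫ y : UnitAddCircle, φ y : ℝ) : ℂ) := by
    rw [← integral_complex_ofReal]
  rw [e1, e2, e3] at hφ1
  have : ∫ y, φ y * p y ∂ν - ∫ y, φ (y - (b : UnitAddCircle)) * (1 - p y) ∂ν
      - c * ∫ y : UnitAddCircle, φ y = 0 := by exact_mod_cast hφ1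
  linarith

end Pool.Agent.R953.QP
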