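import Pool.Agent.R953.QP4

/-! The flux vanishes for symmetric walks. -/

namespace Pool.Agent.R953.QP

open MeasureTheory Set Filter Topology ENNReal

lemma flux_nonpos {β : UnitAddCircle} {w g : UnitAddCircle → ℝ} {ν : Measure UnitAddCircle}
    [IsProbabilityMeasure ν] (hw : Continuous w) (hw0 : ∀ y, 0 < w y) (hg : Continuous g)
    (hg1 : ∀ y, 1 ≤ g y) (hlog : ∫ y : UnitAddCircle, Real.log (w y) = 0) {c : ℝ}
    (h : ∀ ψ : UnitAddCircle → ℝ, Continuous ψ →
      ∫ y, ψ y ∂ν = ∫ y, ψ (y + β) * w y ∂ν + c * ∫ y, ψ y * g y) : c ≤ 0 := by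
  have hl : Continuous (fun y => Real.log (w y)) := hw.log (fun y => (hw0 y).ne')
  set S : ℕ → UnitAddCircle → ℝ := fun n y => ∑ i ∈ Finset.range n, Real.log (w (y + i • β)) with hS
  have hSc : ∀ n, Continuous (S n) := by
    intro n
    refine continuous_finsetSum _ (fun i _ => ?_)
    exact hl.comp (continuous_id.add continuous_const)
  have hS1 : ∀ n y, S (n + 1) y = S n (y + β) + Real.log (w y) := by
    intro n y
    simp only [hS]
    rw [Finset.sum_range_succ']
    congr 1
    · refine Finset.sum_congr rfl (fun i _ => ?_)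
      rw [succ_nsmul]
      congr 2
      abel
    · simp
  have hE : ∀ n, Continuous (fun y => Real.exp (S n y)) := fun n => (hSc n).rexp
  have hvr : (volume : Measure UnitAddCircle).real Set.univ = 1 := by simp [Measure.real]
  have hint0 : ∀ n, ∫ y : UnitAddCircle, S n y = 0 := by
    intro n
    simp only [hS]
    rw [integral_finsetSum]
    · refine Finset.sum_eq_zero (fun i _ => ?_)
      have := integral_add_right_eq_self (μ := (volume : Measure UnitAddCircle))
        (fun y : UnitAddCircle => Real.log (w y)) (i • β)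
      rw [this, hlog]
    · intro i _
      exact integ (hl.comp (continuous_id.add continuous_const)) _
  have hge : ∀ n, 1 ≤ ∫ y : UnitAddCircle, Real.exp (S n y) * g y := by
    intro n
    have h1 : ∫ y : UnitAddCircle, (1 + S n y) = 1 := by
      rw [integral_add (integrable_const _) (integ (hSc n) _), hint0 n, integral_const, hvr]
      simp
    refine h1.symm.le.trans ?_
    refine integral_mono (integ (continuous_const.add (hSc n)) _)
      (integ ((hE n).mul hg) _) (fun y => ?_)
    simp only
    calc 1 + S n y ≤ Real.exp (S n y) := by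
          have := Real.add_one_le_exp (S n y); linarith
      _ = Real.exp (S n y) * 1 := (mul_one _).symm
      _ ≤ Real.exp (S n y) * g y := mul_le_mul_of_nonneg_left (hg1 y) (Real.exp_pos _).le
  have key : ∀ n, (1 : ℝ) = ∫ y, Real.exp (S n y) ∂ν
      + c * ∑ k ∈ Finset.range n, ∫ y : UnitAddCircle, Real.exp (S k y) * g y := by
    intro n
    induction n with
    | zero => simp [hS]
    | succ n ih =>
      have h3 := h (fun y => Real.exp (S n y)) (hE n)
      have : ∫ y, Real.exp (S n (y + β)) * w y ∂ν = ∫ y, Real.exp (S (n + 1) y) ∂ν := by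
        refine integral_congr_ae (Eventually.of_forall (fun y => ?_))
        simp only
        rw [hS1, Real.exp_add, Real.exp_log (hw0 y)]
      rw [this] at h3
      rw [h3] at ih
      rw [Finset.sum_range_succ, mul_add]
      linarith
  by_contra hc
  push Not at hc
  obtain ⟨n, hn⟩ := exists_nat_gt (1 / c)
  have h2 := key n
  have h3 : (0 : ℝ) ≤ ∫ y, Real.exp (S n y) ∂ν := integral_nonneg (fun y => (Real.exp_pos _).le)
  have h4 : (n : ℝ) ≤ ∑ k ∈ Finset.range n, ∫ y : UnitAddCircle, Real.exp (S k y) * g y := by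
    calc (n : ℝ) = ∑ _k ∈ Finset.range n, (1 : ℝ) := by simp
      _ ≤ _ := Finset.sum_le_sum (fun k _ => hge k)
  have h5 : c * n ≤ 1 := by
    calc c * n ≤ c * ∑ k ∈ Finset.range n, ∫ y : UnitAddCircle, Real.exp (S k y) * g y :=
          mul_le_mul_of_nonneg_left h4 hc.le
      _ ≤ 1 := by linarith
  rw [div_lt_iff₀ hc] at hn
  linarith

/-- Detailed balance for a stationary measure of a symmetric walk. -/
theorem detailed {b : ℝ} (hirr : Irrational b) {p : UnitAddCircle → ℝ}
    {ν : Measure UnitAddCircle} [IsProbabilityMeasure ν] (hp : Continuous p)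
    (h0 : ∀ y, 0 < p y) (h1 : ∀ y, p y < 1)
    (hsym : ∫ y : UnitAddCircle, Real.log (p y) = ∫ y : UnitAddCircle, Real.log (1 - p y))
    (hst : IsStat (b : UnitAddCircle) p ν) (φ : UnitAddCircle → ℝ) (hφ : Continuous φ) :
    ∫ y, φ y * p y ∂ν = ∫ y, φ (y - (b : UnitAddCircle)) * (1 - p y) ∂ν := by
  set β : UnitAddCircle := (b : UnitAddCircle) with hβ
  obtain ⟨c, hc⟩ := flux hirr hp h0 h1 hst
  have hq0 : ∀ y, 0 < 1 - p y := fun y => by linarith [h1 y]
  have hqc : Continuous (fun y => 1 - p y) := continuous_const.sub hp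
  have hm : Continuous (fun y : UnitAddCircle => y - β) := continuous_id.sub continuous_const
  have ha : Continuous (fun y : UnitAddCircle => y + β) := continuous_id.add continuous_const
  have lp : Continuous (fun y => Real.log (p y)) := hp.log (fun y => (h0 y).ne')
  have lq : Continuous (fun y => Real.log (1 - p y)) := hqc.log (fun y => (hq0 y).ne')
  have c1 : c ≤ 0 := by
    refine flux_nonpos (β := -β) (w := fun y => (1 - p y) / p (y - β)) (g := fun y => (p y)⁻¹)
      (ν := ν) ?_ ?_ ?_ ?_ ?_ ?_
    · exact hqc.div (hp.comp hm) (fun y => (h0 _).ne')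
    · intro y; exact div_pos (hq0 y) (h0 _)
    · exact hp.inv₀ (fun y => (h0 y).ne')
    · intro y
      rw [one_le_inv₀ (h0 y)]
      exact (h1 y).le
    · have e1 : ∀ y : UnitAddCircle, Real.log ((1 - p y) / p (y - β))
          = Real.log (1 - p y) - Real.log (p (y - β)) := by
        intro y
        rw [Real.log_div (hq0 y).ne' (h0 _).ne']
      simp only [e1]
      have ilm : Integrable (fun y : UnitAddCircle => Real.log (p (y - β))) volume :=
        integ (lp.comp hm) _
      rw [integral_sub (integ lq _) ilm, ← hsym,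
        integral_sub_right_eq_self (μ := (volume : Measure UnitAddCircle))
          (fun y : UnitAddCircle => Real.log (p y)) β, sub_self]
    · intro ψ hψ
      have := hc (fun y => ψ y / p y) (hψ.div hp (fun y => (h0 y).ne'))
      have e1 : ∫ y, ψ y / p y * p y ∂ν = ∫ y, ψ y ∂ν := by
        refine integral_congr_ae (Eventually.of_forall (fun y => ?_))
        simp only
        rw [div_mul_cancel₀ _ (h0 y).ne']
      rw [e1] at this
      rw [this]
      congr 1
      refine integral_congr_ae (Eventually.of_forall (fun y => ?_))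
      simp only [← sub_eq_add_neg]
      ring
  have c2 : -c ≤ 0 := by
    refine flux_nonpos (β := β) (w := fun y => p y / (1 - p (y + β)))
      (g := fun y => (1 - p y)⁻¹) (ν := ν) ?_ ?_ ?_ ?_ ?_ ?_
    · exact hp.div (hqc.comp ha) (fun y => (hq0 _).ne')
    · intro y; exact div_pos (h0 y) (hq0 _)
    · exact hqc.inv₀ (fun y => (hq0 y).ne')
    · intro y
      rw [one_le_inv₀ (hq0 y)]
      linarith [h0 y]
    · have e1 : ∀ y : UnitAddCircle, Real.log (p y / (1 - p (y + β)))
          = Real.log (p y) - Real.log (1 - p (y + β)) := by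
        intro y
        rw [Real.log_div (h0 y).ne' (hq0 _).ne']
      simp only [e1]
      have ilm : Integrable (fun y : UnitAddCircle => Real.log (1 - p (y + β))) volume :=
        integ (lq.comp ha) _
      rw [integral_sub (integ lp _) ilm, hsym,
        integral_add_right_eq_self (μ := (volume : Measure UnitAddCircle))
          (fun y : UnitAddCircle => Real.log (1 - p y)) β, sub_self]
    · intro ψ hψ
      have := hc (fun y => ψ (y + β) / (1 - p (y + β)))
        ((hψ.comp ha).div (hqc.comp ha) (fun y => (hq0 _).ne'))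
      have e1 : ∫ y, ψ (y - β + β) / (1 - p (y - β + β)) * (1 - p y) ∂ν = ∫ y, ψ y ∂ν := by
        refine integral_congr_ae (Eventually.of_forall (fun y => ?_))
        simp only [sub_add_cancel]
        rw [div_mul_cancel₀ _ (hq0 y).ne']
      have e2 : ∫ y : UnitAddCircle, ψ (y + β) / (1 - p (y + β))
          = ∫ y : UnitAddCircle, ψ y * (1 - p y)⁻¹ := by
        have := integral_add_right_eq_self (μ := (volume : Measure UnitAddCircle))
          (fun y : UnitAddCircle => ψ y * (1 - p y)⁻¹) β
        rw [← this]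
        rfl
      rw [e1, e2] at this
      have e3 : ∫ y, ψ (y + β) / (1 - p (y + β)) * p y ∂ν
          = ∫ y, ψ (y + β) * (p y / (1 - p (y + β))) ∂ν := by
        refine integral_congr_ae (Eventually.of_forall (fun y => ?_))
        simp only
        ring
      rw [e3] at this
      linarith
  have c0 : c = 0 := by linarith
  rw [hc φ hφ, c0, zero_mul, add_zero]

/-- Detailed balance for nonnegative measurable functions. -/
theorem detailed' {b : ℝ} (hirr : Irrational b) {p : UnitAddCircle → ℝ}
    {ν : Measure UnitAddCircle} [IsProbabilityMeasure ν] (hp : Continuous p)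
    (h0 : ∀ y, 0 < p y) (h1 : ∀ y, p y < 1)
    (hsym : ∫ y : UnitAddCircle, Real.log (p y) = ∫ y : UnitAddCircle, Real.log (1 - p y))
    (hst : IsStat (b : UnitAddCircle) p ν) (φ : UnitAddCircle → ℝ≥0∞) (hφ : Measurable φ) :
    ∫⁻ y, φ y * ENNReal.ofReal (p y) ∂ν
      = ∫⁻ y, φ (y - (b : UnitAddCircle)) * ENNReal.ofReal (1 - p y) ∂ν := by
  set β : UnitAddCircle := (b : UnitAddCircle) with hβ
  have hq0 : ∀ y, 0 < 1 - p y := fun y => by linarith [h1 y]
  have hqc : Continuous (fun y => 1 - p y) := continuous_const.sub hp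
  have hm : Continuous (fun y : UnitAddCircle => y - β) := continuous_id.sub continuous_const
  have hpm : Measurable (fun y => ENNReal.ofReal (p y)) := hp.measurable.ennreal_ofReal
  have hqm : Measurable (fun y => ENNReal.ofReal (1 - p y)) := hqc.measurable.ennreal_ofReal
  set m₁ : Measure UnitAddCircle := ν.withDensity (fun y => ENNReal.ofReal (p y)) with hm₁
  set m₂ : Measure UnitAddCircle :=
    (ν.withDensity (fun y => ENNReal.ofReal (1 - p y))).map (fun y => y - β) with hm₂
  have f1 : IsFiniteMeasure m₁ := by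
    refine isFiniteMeasure_withDensity ?_
    refine ((lintegral_mono (fun y => ?_ : ∀ y, ENNReal.ofReal (p y) ≤ 1)).trans_lt ?_).ne
    · rw [← ENNReal.ofReal_one]; exact ENNReal.ofReal_le_ofReal (h1 y).le
    · simp
  have f2' : IsFiniteMeasure (ν.withDensity (fun y => ENNReal.ofReal (1 - p y))) := by
    refine isFiniteMeasure_withDensity ?_
    refine ((lintegral_mono (fun y => ?_ : ∀ y, ENNReal.ofReal (1 - p y) ≤ 1)).trans_lt ?_).ne
    · rw [← ENNReal.ofReal_one]; exact ENNReal.ofReal_le_ofReal (by linarith [h0 y])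
    · simp
  have f2 : IsFiniteMeasure m₂ := by
    rw [hm₂]; infer_instance
  have heq : m₁ = m₂ := by
    refine ext_of_forall_integral_eq_of_IsFiniteMeasure (fun f => ?_)
    have e1 : ∫ y, f y ∂m₁ = ∫ y, f y * p y ∂ν := by
      rw [hm₁, integral_withDensity_eq_integral_toReal_smul hpm
        (Eventually.of_forall (fun y => ENNReal.ofReal_lt_top))]
      refine integral_congr_ae (Eventually.of_forall (fun y => ?_))
      simp only [smul_eq_mul]
      rw [ENNReal.toReal_ofReal (h0 y).le, mul_comm]
    have e2 : ∫ y, f y ∂m₂ = ∫ y, f (y - β) * (1 - p y) ∂ν := by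
      rw [hm₂, integral_map hm.measurable.aemeasurable f.continuous.aestronglyMeasurable,
        integral_withDensity_eq_integral_toReal_smul hqm
        (Eventually.of_forall (fun y => ENNReal.ofReal_lt_top))]
      refine integral_congr_ae (Eventually.of_forall (fun y => ?_))
      simp only [smul_eq_mul]
      rw [ENNReal.toReal_ofReal (hq0 y).le, mul_comm]
    rw [e1, e2]
    exact detailed hirr hp h0 h1 hsym hst f f.continuous
  have g1 : ∫⁻ y, φ y ∂m₁ = ∫⁻ y, φ y * ENNReal.ofReal (p y) ∂ν := by
    rw [hm₁, lintegral_withDensity_eq_lintegral_mul _ hpm hφ]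
    refine lintegral_congr (fun y => ?_)
    simp only [Pi.mul_apply]
    rw [mul_comm]
  have g2 : ∫⁻ y, φ y ∂m₂ = ∫⁻ y, φ (y - β) * ENNReal.ofReal (1 - p y) ∂ν := by
    have hφm : Measurable (fun y => φ (y - β)) := hφ.comp hm.measurable
    rw [hm₂, lintegral_map hφ hm.measurable,
      lintegral_withDensity_eq_lintegral_mul _ hqm hφm]
    refine lintegral_congr (fun y => ?_)
    simp only [Pi.mul_apply]
    rw [mul_comm]
  rw [← g1, ← g2, heq]

/-- A stationary measure of a symmetric walk is automorphic. -/
theorem stat_auto {b : ℝ} (hirr : Irrational b) {p : UnitAddCircle → ℝ}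
    {ν : Measure UnitAddCircle} [IsProbabilityMeasure ν] (hp : Continuous p)
    (h0 : ∀ y, 0 < p y) (h1 : ∀ y, p y < 1)
    (hsym : ∫ y : UnitAddCircle, Real.log (p y) = ∫ y : UnitAddCircle, Real.log (1 - p y))
    (hst : IsStat (b : UnitAddCircle) p ν) :
    Auto (b : UnitAddCircle)
      (fun y => Real.log (1 - p y) - Real.log (p (y - (b : UnitAddCircle)))) ν := by
  intro φ hφ
  have hq0 : ∀ y, 0 < 1 - p y := fun y => by linarith [h1 y]
  have hpm : Measurable (fun y => ENNReal.ofReal (p y)⁻¹) := hp.measurable.inv.ennreal_ofReal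
  have h := detailed' hirr hp h0 h1 hsym hst (fun y => φ y * ENNReal.ofReal (p y)⁻¹)
    (hφ.mul hpm)
  have e1 : ∫⁻ y, φ y * ENNReal.ofReal (p y)⁻¹ * ENNReal.ofReal (p y) ∂ν = ∫⁻ y, φ y ∂ν := by
    refine lintegral_congr (fun y => ?_)
    rw [mul_assoc, ← ENNReal.ofReal_mul (inv_nonneg.mpr (h0 y).le),
      inv_mul_cancel₀ (h0 y).ne', ENNReal.ofReal_one, mul_one]
  rw [← e1, h]
  refine lintegral_congr (fun y => ?_)
  rw [mul_assoc, ← ENNReal.ofReal_mul (inv_nonneg.mpr (h0 _).le), Real.exp_sub,
    Real.exp_log (hq0 y), Real.exp_log (h0 _)]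
  congr 2
  field_simp

end Pool.Agent.R953.QP
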