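import Pool.Agent.R953.QP5

/-! Existence and uniqueness of the stationary measure of a symmetric quasi-periodic walk. -/

namespace Pool.Agent.R953.QP

open MeasureTheory Set Filter Topology ENNReal

/-- A `C¹` function on the circle is Lipschitz. -/
lemma lipschitz_of_contDiff {f : UnitAddCircle → ℝ}
    (hf : ContDiff ℝ 1 (fun x : ℝ => f (x : UnitAddCircle))) : ∃ L : NNReal, LipschitzWith L f := by
  set F : ℝ → ℝ := fun x => f (x : UnitAddCircle) with hF
  have hper : Function.Periodic F 1 := by
    intro x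
    simp only [hF]
    congr 1
    rw [AddCircle.coe_add, AddCircle.coe_period, add_zero]
  have hper' : Function.Periodic (deriv F) 1 := by
    intro x
    have h1 : deriv (fun z => F (z + 1)) x = deriv F (x + 1) := deriv_comp_add_const F 1 x
    have h2 : (fun z => F (z + 1)) = F := funext hper
    rw [← h1, h2]
  have hcont : Continuous (deriv F) := hf.continuous_deriv (le_refl _)
  have hbdd := hper'.isBounded_of_continuous one_ne_zero hcont
  obtain ⟨C, hC⟩ := hbdd.exists_norm_le
  have hC' : ∀ x, ‖deriv F x‖ ≤ C := fun x => hC _ ⟨x, rfl⟩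
  have hC0 : 0 ≤ C := (norm_nonneg _).trans (hC' 0)
  have hlip : LipschitzWith ⟨C, hC0⟩ F := by
    refine lipschitzWith_of_nnnorm_deriv_le (hf.differentiable (by norm_num)) (fun x => ?_)
    exact hC' x
  refine ⟨⟨C, hC0⟩, LipschitzWith.of_dist_le_mul (fun y z => ?_)⟩
  obtain ⟨s, rfl⟩ := QuotientAddGroup.mk_surjective y
  obtain ⟨t, rfl⟩ := QuotientAddGroup.mk_surjective z
  have e1 : dist (s : UnitAddCircle) (t : UnitAddCircle) = |(s - t) - round (s - t)| := by
    rw [dist_eq_norm, ← AddCircle.coe_sub]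
    exact UnitAddCircle.norm_eq
  have e2 : f (s : UnitAddCircle) = F (s - round (s - t)) := by
    simp only [hF]
    congr 1
    rw [AddCircle.coe_sub]
    have : ((round (s - t) : ℝ) : UnitAddCircle) = 0 := by
      rw [AddCircle.coe_eq_zero_iff]
      exact ⟨round (s - t), by simp⟩
    rw [this, sub_zero]
  have e3 := hlip.dist_le_mul (s - round (s - t)) t
  have e4 : dist (s - (round (s - t) : ℝ)) t = |(s - t) - round (s - t)| := by
    rw [Real.dist_eq]
    congr 1
    ring
  rw [e4, ← e1] at e3
  calc dist (f (s : UnitAddCircle)) (f (t : UnitAddCircle))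
      = dist (F (s - round (s - t))) (F t) := by rw [e2]
    _ ≤ _ := e3

/-- The density of a stationary measure along the rotation is Lipschitz. -/
lemma psi_lipschitz {b : ℝ} {p : UnitAddCircle → ℝ}
    (hs : ContDiff ℝ 1 (fun x : ℝ => p (x : UnitAddCircle)))
    (h0 : ∀ y, 0 < p y) (h1 : ∀ y, p y < 1) :
    ∃ L : NNReal, LipschitzWith L
      (fun y => Real.log (1 - p y) - Real.log (p (y - (b : UnitAddCircle)))) := by
  refine lipschitz_of_contDiff ?_
  refine ContDiff.sub ?_ ?_
  · exact (contDiff_const.sub hs).log (fun x => by have := h1 (x : UnitAddCircle); linarith)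
  · have h2 : ContDiff ℝ 1 (fun x : ℝ => p ((x - b : ℝ) : UnitAddCircle)) :=
      hs.comp (contDiff_id.sub contDiff_const)
    have h3 : ContDiff ℝ 1 (fun x : ℝ => p ((x : UnitAddCircle) - (b : UnitAddCircle))) := by
      simpa only [AddCircle.coe_sub] using h2
    exact h3.log (fun x => (h0 _).ne')

lemma cont_of_contDiff {p : UnitAddCircle → ℝ}
    (hs : ContDiff ℝ 1 (fun x : ℝ => p (x : UnitAddCircle))) : Continuous p :=
  (lipschitz_of_contDiff hs).choose_spec.continuous

theorem stat_unique {b : ℝ} (hirr : Irrational b) {p : UnitAddCircle → ℝ}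
    (hs : ContDiff ℝ 1 (fun x : ℝ => p (x : UnitAddCircle)))
    (h0 : ∀ y, 0 < p y) (h1 : ∀ y, p y < 1)
    (hsym : ∫ y : UnitAddCircle, Real.log (p y) = ∫ y : UnitAddCircle, Real.log (1 - p y))
    {ν₁ ν₂ : Measure UnitAddCircle} [IsProbabilityMeasure ν₁] [IsProbabilityMeasure ν₂]
    (hst₁ : IsStat (b : UnitAddCircle) p ν₁) (hst₂ : IsStat (b : UnitAddCircle) p ν₂) :
    ν₁ = ν₂ := by
  have hp := cont_of_contDiff hs
  obtain ⟨L, hL⟩ := psi_lipschitz (b := b) hs h0 h1
  exact auto_unique hirr (stat_auto hirr hp h0 h1 hsym hst₁) (stat_auto hirr hp h0 h1 hsym hst₂) hL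

/-- one step of the chain -/
noncomputable def stepM (α : UnitAddCircle) (p : UnitAddCircle → ℝ) (μ : Measure UnitAddCircle) :
    Measure UnitAddCircle :=
  (μ.withDensity (fun y => ENNReal.ofReal (p y))).map (fun y => y + α) +
  (μ.withDensity (fun y => ENNReal.ofReal (1 - p y))).map (fun y => y - α)

lemma stepM_prob {α : UnitAddCircle} {p : UnitAddCircle → ℝ} {μ : Measure UnitAddCircle}
    (hp : Continuous p) (h0 : ∀ y, 0 < p y) (h1 : ∀ y, p y < 1) (hμ : IsProbabilityMeasure μ) :
    IsProbabilityMeasure (stepM α p μ) := by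
  have ha : Measurable (fun y : UnitAddCircle => y + α) := measurable_id.add_const _
  have hm : Measurable (fun y : UnitAddCircle => y - α) := measurable_id.sub_const _
  constructor
  unfold stepM
  rw [Measure.add_apply, Measure.map_apply ha MeasurableSet.univ,
    Measure.map_apply hm MeasurableSet.univ, preimage_univ, preimage_univ,
    withDensity_apply _ MeasurableSet.univ, withDensity_apply _ MeasurableSet.univ,
    Measure.restrict_univ, ← lintegral_add_left hp.measurable.ennreal_ofReal]
  have : ∀ y, ENNReal.ofReal (p y) + ENNReal.ofReal (1 - p y) = 1 := by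
    intro y
    rw [← ENNReal.ofReal_add (h0 y).le (by linarith [h1 y])]
    simp
  simp [this]

lemma stepM_integral {α : UnitAddCircle} {p : UnitAddCircle → ℝ} {μ : Measure UnitAddCircle}
    (hp : Continuous p) (h0 : ∀ y, 0 < p y) (h1 : ∀ y, p y < 1) [IsProbabilityMeasure μ]
    {φ : UnitAddCircle → ℝ} (hφ : Continuous φ) :
    ∫ y, φ y ∂(stepM α p μ) = ∫ y, (p y * φ (y + α) + (1 - p y) * φ (y - α)) ∂μ := by
  have hq0 : ∀ y, 0 < 1 - p y := fun y => by linarith [h1 y]
  have hqc : Continuous (fun y => 1 - p y) := continuous_const.sub hp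
  have hm : Continuous (fun y : UnitAddCircle => y - α) := continuous_id.sub continuous_const
  have ha : Continuous (fun y : UnitAddCircle => y + α) := continuous_id.add continuous_const
  have hpm : Measurable (fun y => ENNReal.ofReal (p y)) := hp.measurable.ennreal_ofReal
  have hqm : Measurable (fun y => ENNReal.ofReal (1 - p y)) := hqc.measurable.ennreal_ofReal
  have f1 : IsFiniteMeasure (μ.withDensity (fun y => ENNReal.ofReal (p y))) := by
    refine isFiniteMeasure_withDensity ?_
    refine ((lintegral_mono (fun y => ?_ : ∀ y, ENNReal.ofReal (p y) ≤ 1)).trans_lt ?_).ne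
    · rw [← ENNReal.ofReal_one]; exact ENNReal.ofReal_le_ofReal (h1 y).le
    · simp
  have f2 : IsFiniteMeasure (μ.withDensity (fun y => ENNReal.ofReal (1 - p y))) := by
    refine isFiniteMeasure_withDensity ?_
    refine ((lintegral_mono (fun y => ?_ : ∀ y, ENNReal.ofReal (1 - p y) ≤ 1)).trans_lt ?_).ne
    · rw [← ENNReal.ofReal_one]; exact ENNReal.ofReal_le_ofReal (by linarith [h0 y])
    · simp
  unfold stepM
  rw [integral_add_measure (integ hφ _) (integ hφ _),
    integral_map ha.measurable.aemeasurable hφ.aestronglyMeasurable,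
    integral_map hm.measurable.aemeasurable hφ.aestronglyMeasurable,
    integral_withDensity_eq_integral_toReal_smul hpm
        (Eventually.of_forall (fun y => ENNReal.ofReal_lt_top)),
    integral_withDensity_eq_integral_toReal_smul hqm
        (Eventually.of_forall (fun y => ENNReal.ofReal_lt_top))]
  have i1 : Integrable (fun y => p y * φ (y + α)) μ := integ (hp.mul (hφ.comp ha)) _
  have i2 : Integrable (fun y => (1 - p y) * φ (y - α)) μ := integ (hqc.mul (hφ.comp hm)) _
  rw [integral_add i1 i2]
  congr 1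
  · refine integral_congr_ae (Eventually.of_forall (fun y => ?_))
    simp only [smul_eq_mul]
    rw [ENNReal.toReal_ofReal (h0 y).le]
  · refine integral_congr_ae (Eventually.of_forall (fun y => ?_))
    simp only [smul_eq_mul]
    rw [ENNReal.toReal_ofReal (hq0 y).le]

/-- Existence of a stationary measure (Krylov-Bogoliubov). -/
theorem stat_exists (α : UnitAddCircle) {p : UnitAddCircle → ℝ}
    (hp : Continuous p) (h0 : ∀ y, 0 < p y) (h1 : ∀ y, p y < 1) :
    ∃ ν : ProbabilityMeasure UnitAddCircle, IsStat α p (ν : Measure UnitAddCircle) := by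
  set M : ℕ → Measure UnitAddCircle := fun n => (stepM α p)^[n] (Measure.dirac 0) with hM
  have hM1 : ∀ n, M (n + 1) = stepM α p (M n) := by
    intro n
    simp only [hM]
    rw [Function.iterate_succ_apply']
  have hMp : ∀ n, IsProbabilityMeasure (M n) := by
    intro n
    induction n with
    | zero => simp only [hM, Function.iterate_zero, id_eq]; infer_instance
    | succ n ih => rw [hM1]; exact stepM_prob hp h0 h1 ih
  set N : ℕ → Measure UnitAddCircle := fun n =>
    ((n + 1 : ℕ) : ℝ≥0∞)⁻¹ • ∑ k ∈ Finset.range (n + 1), M k with hN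
  have hNp : ∀ n, IsProbabilityMeasure (N n) := by
    intro n
    constructor
    simp only [hN]
    rw [Measure.smul_apply, Measure.finsetSum_apply]
    simp only [measure_univ, Finset.sum_const, Finset.card_range, nsmul_eq_mul, mul_one, smul_eq_mul]
    exact ENNReal.inv_mul_cancel (by simp) (ENNReal.natCast_ne_top _)
  have hNint : ∀ n (φ : UnitAddCircle → ℝ), Continuous φ →
      ∫ y, φ y ∂(N n) = (n + 1 : ℝ)⁻¹ * ∑ k ∈ Finset.range (n + 1), ∫ y, φ y ∂(M k) := by
    intro n φ hφ
    simp only [hN]
    rw [integral_smul_measure, integral_finsetSum_measure (fun k _ => integ hφ _)]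
    rw [ENNReal.toReal_inv, ENNReal.toReal_natCast, smul_eq_mul]
    push_cast
    rfl
  set NP : ℕ → ProbabilityMeasure UnitAddCircle := fun n => ⟨N n, hNp n⟩ with hNP
  set U : Ultrafilter ℕ := Filter.hyperfilter ℕ with hU
  have hUle : (U : Filter ℕ) ≤ atTop := Nat.hyperfilter_le_atTop
  have hlim : ∃ ν : ProbabilityMeasure UnitAddCircle, Tendsto NP (U : Filter ℕ) (𝓝 ν) := by
    obtain ⟨ν, -, hν⟩ := isCompact_univ.ultrafilter_le_nhds (U.map NP) (by simp)
    exact ⟨ν, hν⟩
  obtain ⟨ν, hν⟩ := hlim
  refine ⟨ν, fun φ hφ => ?_⟩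
  have hqc : Continuous (fun y => 1 - p y) := continuous_const.sub hp
  have hm : Continuous (fun y : UnitAddCircle => y - α) := continuous_id.sub continuous_const
  have ha : Continuous (fun y : UnitAddCircle => y + α) := continuous_id.add continuous_const
  set Pφ : UnitAddCircle → ℝ := fun y => p y * φ (y + α) + (1 - p y) * φ (y - α) with hPφ
  have hPc : Continuous Pφ := (hp.mul (hφ.comp ha)).add (hqc.mul (hφ.comp hm))
  set g : C(UnitAddCircle, ℝ) := ⟨fun y => Pφ y - φ y, hPc.sub hφ⟩ with hg
  set G : BoundedContinuousFunction UnitAddCircle ℝ := BoundedContinuousFunction.mkOfCompact g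
    with hG
  have t1 : Tendsto (fun n => ∫ y, (Pφ y - φ y) ∂(N n)) (U : Filter ℕ)
      (𝓝 (∫ y, (Pφ y - φ y) ∂(ν : Measure UnitAddCircle))) := by
    have := ((ProbabilityMeasure.continuous_integral_boundedContinuousFunction G).tendsto ν).comp hν
    exact this
  obtain ⟨C, hC⟩ : ∃ C, ∀ y, |φ y| ≤ C := by
    have := isCompact_univ.exists_bound_of_continuousOn (s := (Set.univ : Set UnitAddCircle))
      (f := φ) hφ.continuousOn
    obtain ⟨C, hC⟩ := this
    exact ⟨C, fun y => hC y (mem_univ _)⟩
  have hval : ∀ n, ∫ y, (Pφ y - φ y) ∂(N n)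
      = (n + 1 : ℝ)⁻¹ * (∫ y, φ y ∂(M (n + 1)) - ∫ y, φ y ∂(M 0)) := by
    intro n
    rw [hNint n (fun y => Pφ y - φ y) (hPc.sub hφ)]
    congr 1
    rw [← Finset.sum_range_sub (fun k => ∫ y, φ y ∂(M k)) (n + 1)]
    refine Finset.sum_congr rfl (fun k _ => ?_)
    have hMk := hMp k
    rw [integral_sub (integ hPc _) (integ hφ _), hM1 k, stepM_integral hp h0 h1 hφ]
  have hbd : ∀ k, |∫ y, φ y ∂(M k)| ≤ C := by
    intro k
    have hMk := hMp k
    have := norm_integral_le_of_norm_le_const (μ := M k) (f := φ) (C := C)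
      (Eventually.of_forall (fun y => by rw [Real.norm_eq_abs]; exact hC y))
    simpa using this
  have t2 : Tendsto (fun n => ∫ y, (Pφ y - φ y) ∂(N n)) atTop (𝓝 0) := by
    rw [tendsto_zero_iff_abs_tendsto_zero]
    have hz : Tendsto (fun n : ℕ => (2 * C) * (1 / ((n : ℝ) + 1))) atTop (𝓝 0) := by
      have := (tendsto_one_div_add_atTop_nhds_zero_nat (𝕜 := ℝ)).const_mul (2 * C)
      simpa using this
    refine squeeze_zero (fun n => abs_nonneg _) (fun n => ?_) hz
    simp only [Function.comp]
    rw [hval n, abs_mul, abs_of_nonneg (by positivity : (0 : ℝ) ≤ (n + 1 : ℝ)⁻¹), one_div, mul_comm]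
    refine mul_le_mul_of_nonneg_right ?_ (by positivity)
    calc _ ≤ |∫ y, φ y ∂(M (n + 1))| + |∫ y, φ y ∂(M 0)| := abs_sub _ _
      _ ≤ C + C := add_le_add (hbd _) (hbd _)
      _ = 2 * C := by ring
  have t3 := tendsto_nhds_unique t1 (t2.mono_left hUle)
  rw [integral_sub (integ hPc _) (integ hφ _)] at t3
  linarith

end Pool.Agent.R953.QP
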