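import Pool.Agent.R953.QP6

/-! The transition operator of a symmetric quasi-periodic walk is mixing in `L²`. -/

namespace Pool.Agent.R953.QP

open MeasureTheory Set Filter Topology ENNReal

section Hilbert

variable {H : Type*} [NormedAddCommGroup H] [InnerProductSpace ℝ H]

lemma hilbert_inner (T : H →L[ℝ] H) (hsym : ∀ x y, inner ℝ (T x) y = inner ℝ x (T y)) (x y : H)
    (m : ℕ) : inner ℝ ((T ^ m) x) y = inner ℝ x ((T ^ m) y) := by
  induction m generalizing x y with
  | zero => simp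
  | succ m ih =>
    rw [pow_succ, mul_apply_eq_comp, ih, hsym, ← mul_apply_eq_comp,
      ← pow_succ', pow_succ]

lemma hilbert_power [CompleteSpace H] (T : H →L[ℝ] H)
    (hsym : ∀ x y, inner ℝ (T x) y = inner ℝ x (T y)) (hc : ∀ x, ‖T x‖ ≤ ‖x‖) (x : H) :
    ∃ g, Tendsto (fun n : ℕ => (T ^ (2 * n)) x) atTop (𝓝 g) ∧ T (T g) = g := by
  set u : ℕ → H := fun n => (T ^ n) x with hu
  set b : ℕ → ℝ := fun n => ‖u n‖ ^ 2 with hb
  have hu1 : ∀ n, u (n + 1) = T (u n) := by
    intro n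
    simp only [hu]
    rw [pow_succ', mul_apply_eq_comp]
  have hanti : Antitone b := by
    refine antitone_nat_of_succ_le (fun n => ?_)
    simp only [hb, hu1]
    exact pow_le_pow_left₀ (norm_nonneg _) (hc _) 2
  have hbdd : BddBelow (Set.range b) := ⟨0, by rintro _ ⟨n, rfl⟩; simp only [hb]; positivity⟩
  have hlim := tendsto_atTop_ciInf hanti hbdd
  set ℓ : ℝ := ⨅ i, b i with hℓ
  have hle : ∀ n, ℓ ≤ b n := fun n => ciInf_le hbdd n
  have hin : ∀ m n, inner ℝ (u (2 * m)) (u (2 * n)) = b (m + n) := by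
    intro m n
    simp only [hb, hu]
    rw [← real_inner_self_eq_norm_sq, hilbert_inner T hsym, hilbert_inner T hsym,
      ← mul_apply_eq_comp, ← mul_apply_eq_comp, ← pow_add, ← pow_add]
    congr 3
    ring
  have hdist : ∀ m n N, N ≤ m → N ≤ n →
      dist (u (2 * m)) (u (2 * n)) ≤ Real.sqrt (2 * (b N - ℓ)) := by
    intro m n N hm hn
    refine Real.le_sqrt_of_sq_le ?_
    rw [dist_eq_norm, ← real_inner_self_eq_norm_sq, inner_sub_left, inner_sub_right,
      inner_sub_right, hin, hin, hin, hin]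
    have h1 : b (m + m) ≤ b N := hanti (by omega)
    have h2 : b (n + n) ≤ b N := hanti (by omega)
    have h3 := hle (m + n)
    have h4 := hle (n + m)
    linarith
  have hcauchy : CauchySeq (fun n => u (2 * n)) := by
    refine cauchySeq_of_le_tendsto_0 (fun N => Real.sqrt (2 * (b N - ℓ)))
      (fun n m N hn hm => hdist n m N hn hm) ?_
    have : Tendsto (fun N => 2 * (b N - ℓ)) atTop (𝓝 0) := by
      have := (hlim.sub_const ℓ).const_mul 2
      simpa using this
    have h2 := (Real.continuous_sqrt.tendsto 0).comp this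
    rw [Real.sqrt_zero] at h2
    exact h2
  obtain ⟨g, hg⟩ := cauchySeq_tendsto_of_complete hcauchy
  refine ⟨g, hg, ?_⟩
  have h1 : Tendsto (fun n => T (T (u (2 * n)))) atTop (𝓝 (T (T g))) :=
    ((T.continuous.comp T.continuous).tendsto g).comp hg
  have h2 : Tendsto (fun n => u (2 * (n + 1))) atTop (𝓝 g) := hg.comp (tendsto_add_atTop_nat 1)
  have h3 : (fun n => u (2 * (n + 1))) = fun n => T (T (u (2 * n))) := by
    funext n
    rw [← hu1, ← hu1]
    rfl
  rw [h3] at h2
  exact tendsto_nhds_unique h1 h2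

lemma hilbert_mix [CompleteSpace H] (T : H →L[ℝ] H)
    (hsym : ∀ x y, inner ℝ (T x) y = inner ℝ x (T y)) (hc : ∀ x, ‖T x‖ ≤ ‖x‖) (e : H)
    (he : ‖e‖ = 1) (hTe : T e = e) (h1 : ∀ g, T g = g → ∃ c : ℝ, g = c • e)
    (h2 : ∀ g, T g = -g → g = 0) (x : H) :
    Tendsto (fun n : ℕ => (T ^ n) x) atTop (𝓝 ((inner ℝ e x : ℝ) • e)) := by
  obtain ⟨g, hg, hTT⟩ := hilbert_power T hsym hc x
  have hv : g - T g = 0 := by
    refine h2 _ ?_
    rw [map_sub, hTT]; abel
  have hTg : T g = g := (sub_eq_zero.mp hv).symm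
  obtain ⟨c, hcg⟩ := h1 g hTg
  have hTe' : ∀ n : ℕ, (T ^ n) e = e := by
    intro n
    induction n with
    | zero => simp
    | succ n ih => rw [pow_succ, mul_apply_eq_comp, hTe, ih]
  have hc' : c = inner ℝ e x := by
    have e1 : Tendsto (fun n : ℕ => (inner ℝ e ((T ^ (2 * n)) x) : ℝ)) atTop (𝓝 (inner ℝ e g)) :=
      ((continuous_const.inner continuous_id).tendsto g).comp hg
    have e2 : (fun n : ℕ => (inner ℝ e ((T ^ (2 * n)) x) : ℝ)) = fun _ => inner ℝ e x := by
      funext n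
      rw [← hilbert_inner T hsym, hTe']
    rw [e2] at e1
    have e3 := tendsto_nhds_unique tendsto_const_nhds e1
    rw [e3, hcg, inner_smul_right, real_inner_self_eq_norm_sq, he]
    ring
  rw [← hc', ← hcg]
  rw [tendsto_iff_norm_sub_tendsto_zero]
  have hanti : ∀ n : ℕ, ‖(T ^ (n + 1)) x - g‖ ≤ ‖(T ^ n) x - g‖ := by
    intro n
    have : (T ^ (n + 1)) x - g = T ((T ^ n) x - g) := by
      rw [map_sub, hTg, pow_succ', mul_apply_eq_comp]
    rw [this]
    exact hc _
  have hanti' : Antitone (fun n : ℕ => ‖(T ^ n) x - g‖) := antitone_nat_of_succ_le hanti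
  have hg0 : Tendsto (fun n : ℕ => ‖(T ^ (2 * n)) x - g‖) atTop (𝓝 0) :=
    tendsto_iff_norm_sub_tendsto_zero.mp hg
  have hdiv : Tendsto (fun n : ℕ => n / 2) atTop atTop := Nat.tendsto_div_const_atTop (by norm_num)
  refine squeeze_zero (fun n => norm_nonneg _) (fun n => ?_) (hg0.comp hdiv)
  exact hanti' (show 2 * (n / 2) ≤ n from Nat.mul_div_le n 2)

end Hilbert

end Pool.Agent.R953.QP
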