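import Pool.Agent.R953.QP7

/-! The transition operator of a reversible quasi-periodic walk on `L²`. -/

namespace Pool.Agent.R953.QP

open MeasureTheory Set Filter Topology ENNReal

/-- Detailed balance. -/
def DB (α : UnitAddCircle) (p : UnitAddCircle → ℝ) (ν : Measure UnitAddCircle) : Prop :=
  ∀ φ : UnitAddCircle → ℝ≥0∞, Measurable φ →
    ∫⁻ y, φ y * ENNReal.ofReal (p y) ∂ν = ∫⁻ y, φ (y - α) * ENNReal.ofReal (1 - p y) ∂ν

/-- Standing assumptions on `p`. -/
structure Env (p : UnitAddCircle → ℝ) : Prop where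
  cont : Continuous p
  pos : ∀ y, 0 < p y
  lt_one : ∀ y, p y < 1

/-- The transition operator. -/
def Pop (α : UnitAddCircle) (p : UnitAddCircle → ℝ) (f : UnitAddCircle → ℝ) : UnitAddCircle → ℝ :=
  fun y => p y * f (y + α) + (1 - p y) * f (y - α)

variable {α : UnitAddCircle} {p : UnitAddCircle → ℝ} {ν : Measure UnitAddCircle}

lemma Env.q_pos (hE : Env p) (y : UnitAddCircle) : 0 < 1 - p y := by linarith [hE.lt_one y]

lemma Env.q_cont (hE : Env p) : Continuous (fun y => 1 - p y) := continuous_const.sub hE.cont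

lemma exists_lower {g : UnitAddCircle → ℝ} (hg : Continuous g) (h0 : ∀ y, 0 < g y) :
    ∃ m : ℝ, 0 < m ∧ ∀ y, m ≤ g y := by
  obtain ⟨y0, -, hy0⟩ := isCompact_univ.exists_isMinOn (s := (Set.univ : Set UnitAddCircle))
    ⟨0, mem_univ _⟩ hg.continuousOn
  exact ⟨g y0, h0 y0, fun y => hy0 (mem_univ y)⟩

lemma meas_add (α : UnitAddCircle) : Measurable (fun y : UnitAddCircle => y + α) :=
  measurable_id.add_const _

lemma meas_sub (α : UnitAddCircle) : Measurable (fun y : UnitAddCircle => y - α) :=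
  measurable_id.sub_const _

lemma DB.measure_eq (h : DB α p ν) :
    ν.withDensity (fun y => ENNReal.ofReal (p y))
      = (ν.withDensity (fun y => ENNReal.ofReal (1 - p y))).map (fun y => y - α) := by
  ext s hs
  have h1 := h (s.indicator (fun _ => 1)) (measurable_const.indicator hs)
  have hs' : MeasurableSet ((fun y : UnitAddCircle => y - α) ⁻¹' s) := meas_sub α hs
  rw [Measure.map_apply (meas_sub α) hs, withDensity_apply _ hs, withDensity_apply _ hs',
    ← lintegral_indicator hs, ← lintegral_indicator hs']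
  have e1 : ∀ y, s.indicator (fun _ => (1 : ℝ≥0∞)) y * ENNReal.ofReal (p y)
      = s.indicator (fun y => ENNReal.ofReal (p y)) y := by
    intro y
    by_cases hy : y ∈ s <;> simp [hy]
  have e2 : ∀ y, s.indicator (fun _ => (1 : ℝ≥0∞)) (y - α) * ENNReal.ofReal (1 - p y)
      = ((fun y : UnitAddCircle => y - α) ⁻¹' s).indicator (fun y => ENNReal.ofReal (1 - p y)) y := by
    intro y
    by_cases hy : y - α ∈ s
    · have hy' : y ∈ (fun y : UnitAddCircle => y - α) ⁻¹' s := hy
      rw [Set.indicator_of_mem hy, one_mul, Set.indicator_of_mem hy']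
    · have hy' : y ∉ (fun y : UnitAddCircle => y - α) ⁻¹' s := hy
      rw [Set.indicator_of_notMem hy, zero_mul, Set.indicator_of_notMem hy']
  simp only [e1, e2] at h1
  exact h1

lemma DB.integral (hE : Env p) (h : DB α p ν) {φ : UnitAddCircle → ℝ} (hφ : Measurable φ) :
    ∫ y, φ y * p y ∂ν = ∫ y, φ (y - α) * (1 - p y) ∂ν := by
  have hpm : Measurable (fun y => ENNReal.ofReal (p y)) := hE.cont.measurable.ennreal_ofReal
  have hqm : Measurable (fun y => ENNReal.ofReal (1 - p y)) := hE.q_cont.measurable.ennreal_ofReal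
  have e1 : ∫ y, φ y ∂(ν.withDensity (fun y => ENNReal.ofReal (p y))) = ∫ y, φ y * p y ∂ν := by
    rw [integral_withDensity_eq_integral_toReal_smul hpm
      (Eventually.of_forall (fun y => ENNReal.ofReal_lt_top))]
    refine integral_congr_ae (Eventually.of_forall (fun y => ?_))
    simp only [smul_eq_mul]
    rw [ENNReal.toReal_ofReal (hE.pos y).le, mul_comm]
  have e2 : ∫ y, φ y ∂((ν.withDensity (fun y => ENNReal.ofReal (1 - p y))).map (fun y => y - α))
      = ∫ y, φ (y - α) * (1 - p y) ∂ν := by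
    rw [integral_map (meas_sub α).aemeasurable hφ.aestronglyMeasurable,
      integral_withDensity_eq_integral_toReal_smul hqm
      (Eventually.of_forall (fun y => ENNReal.ofReal_lt_top))]
    refine integral_congr_ae (Eventually.of_forall (fun y => ?_))
    simp only [smul_eq_mul]
    rw [ENNReal.toReal_ofReal (hE.q_pos y).le, mul_comm]
  rw [← e1, ← e2, h.measure_eq]

lemma DB.map_sub_le (hE : Env p) (h : DB α p ν) :
    ∃ C : ℝ≥0∞, C ≠ ∞ ∧ ν.map (fun y => y - α) ≤ C • ν := by
  obtain ⟨m, hm, hmp⟩ := exists_lower hE.q_cont hE.q_pos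
  refine ⟨ENNReal.ofReal m⁻¹, ENNReal.ofReal_ne_top, ?_⟩
  have hpm : Measurable (fun y => ENNReal.ofReal (p y)) := hE.cont.measurable.ennreal_ofReal
  have hqm : Measurable (fun y => ENNReal.ofReal (1 - p y)) := hE.q_cont.measurable.ennreal_ofReal
  refine Measure.le_iff.mpr (fun s hs => ?_)
  rw [Measure.map_apply (meas_sub α) hs, Measure.smul_apply, smul_eq_mul]
  have hs' : MeasurableSet ((fun y : UnitAddCircle => y - α) ⁻¹' s) := meas_sub α hs
  have hone : Measurable (s.indicator (fun _ => (1 : ℝ≥0∞))) := measurable_const.indicator hs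
  have e1 : ν ((fun y : UnitAddCircle => y - α) ⁻¹' s)
      = ∫⁻ y, s.indicator (fun _ => (1 : ℝ≥0∞)) (y - α) ∂ν := by
    rw [← lintegral_indicator_one hs']
    rfl
  have e2 : ν s = ∫⁻ y, s.indicator (fun _ => (1 : ℝ≥0∞)) y ∂ν := (lintegral_indicator_one hs).symm
  rw [e1]
  calc ∫⁻ y, s.indicator (fun _ => (1 : ℝ≥0∞)) (y - α) ∂ν
      ≤ ∫⁻ y, ENNReal.ofReal m⁻¹ *
          (s.indicator (fun _ => (1 : ℝ≥0∞)) (y - α) * ENNReal.ofReal (1 - p y)) ∂ν := by
        refine lintegral_mono (fun y => ?_)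
        have : 1 ≤ ENNReal.ofReal m⁻¹ * ENNReal.ofReal (1 - p y) := by
          rw [← ENNReal.ofReal_mul (by positivity), ← ENNReal.ofReal_one]
          refine ENNReal.ofReal_le_ofReal ?_
          calc (1 : ℝ) = m⁻¹ * m := (inv_mul_cancel₀ hm.ne').symm
            _ ≤ _ := mul_le_mul_of_nonneg_left (hmp y) (by positivity)
        calc s.indicator (fun _ => (1 : ℝ≥0∞)) (y - α)
            = s.indicator (fun _ => (1 : ℝ≥0∞)) (y - α) * 1 := (mul_one _).symm
          _ ≤ s.indicator (fun _ => (1 : ℝ≥0∞)) (y - α) *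
              (ENNReal.ofReal m⁻¹ * ENNReal.ofReal (1 - p y)) := by gcongr
          _ = _ := by ring
    _ = ENNReal.ofReal m⁻¹ *
          ∫⁻ y, s.indicator (fun _ => (1 : ℝ≥0∞)) (y - α) * ENNReal.ofReal (1 - p y) ∂ν := by
        rw [lintegral_const_mul]
        exact (hone.comp (meas_sub α)).mul hqm
    _ = ENNReal.ofReal m⁻¹ *
          ∫⁻ y, s.indicator (fun _ => (1 : ℝ≥0∞)) y * ENNReal.ofReal (p y) ∂ν := by
        rw [h _ hone]
    _ ≤ ENNReal.ofReal m⁻¹ * ν s := by
        gcongr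
        rw [e2]
        refine lintegral_mono (fun y => ?_)
        have : ENNReal.ofReal (p y) ≤ 1 := by
          rw [← ENNReal.ofReal_one]; exact ENNReal.ofReal_le_ofReal (hE.lt_one y).le
        calc _ ≤ s.indicator (fun _ => (1 : ℝ≥0∞)) y * 1 := by gcongr
          _ = _ := mul_one _

/-- Detailed balance, reversed. -/
lemma DB.symm (h : DB α p ν) (hE : Env p) : DB (-α) (fun y => 1 - p y) ν := by
  intro φ hφ
  have h1 := h (fun y => φ (y + α)) (hφ.comp (meas_add α))
  simp only [sub_add_cancel] at h1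
  rw [← h1]
  refine lintegral_congr (fun y => ?_)
  have : 1 - (1 - p y) = p y := by ring
  simp only [sub_neg_eq_add, this]

lemma Env.symm (hE : Env p) : Env (fun y => 1 - p y) :=
  ⟨hE.q_cont, hE.q_pos, fun y => by linarith [hE.pos y]⟩

lemma DB.map_add_le (hE : Env p) (h : DB α p ν) :
    ∃ C : ℝ≥0∞, C ≠ ∞ ∧ ν.map (fun y => y + α) ≤ C • ν := by
  obtain ⟨C, hC, hle⟩ := (h.symm hE).map_sub_le hE.symm
  refine ⟨C, hC, ?_⟩
  simpa only [sub_neg_eq_add] using hle

lemma DB.qmp_sub (hE : Env p) (h : DB α p ν) :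
    Measure.QuasiMeasurePreserving (fun y : UnitAddCircle => y - α) ν ν := by
  obtain ⟨C, hC, hle⟩ := h.map_sub_le hE
  exact ⟨meas_sub α, Measure.absolutelyContinuous_of_le_smul hle⟩

lemma DB.qmp_add (hE : Env p) (h : DB α p ν) :
    Measure.QuasiMeasurePreserving (fun y : UnitAddCircle => y + α) ν ν := by
  obtain ⟨C, hC, hle⟩ := h.map_add_le hE
  exact ⟨meas_add α, Measure.absolutelyContinuous_of_le_smul hle⟩

lemma DB.memLp_sub (hE : Env p) (h : DB α p ν) {f : UnitAddCircle → ℝ} {r : ℝ≥0∞}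
    (hf : MemLp f r ν) : MemLp (fun y => f (y - α)) r ν := by
  obtain ⟨C, hC, hle⟩ := h.map_sub_le hE
  exact (hf.of_measure_le_smul hC hle).comp_of_map (meas_sub α).aemeasurable

lemma DB.memLp_add (hE : Env p) (h : DB α p ν) {f : UnitAddCircle → ℝ} {r : ℝ≥0∞}
    (hf : MemLp f r ν) : MemLp (fun y => f (y + α)) r ν := by
  obtain ⟨C, hC, hle⟩ := h.map_add_le hE
  exact (hf.of_measure_le_smul hC hle).comp_of_map (meas_add α).aemeasurable

lemma memLp_mul_bdd {f g : UnitAddCircle → ℝ} {r : ℝ≥0∞} (hg : Continuous g)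
    (hg1 : ∀ y, |g y| ≤ 1) (hf : MemLp f r ν) : MemLp (fun y => g y * f y) r ν := by
  refine hf.mono (hg.aestronglyMeasurable.mul hf.1) (Eventually.of_forall (fun y => ?_))
  rw [norm_mul]
  calc ‖g y‖ * ‖f y‖ ≤ 1 * ‖f y‖ := mul_le_mul_of_nonneg_right (hg1 y) (norm_nonneg _)
    _ = ‖f y‖ := one_mul _

lemma Env.abs_p (hE : Env p) (y : UnitAddCircle) : |p y| ≤ 1 := by
  rw [abs_of_pos (hE.pos y)]; exact (hE.lt_one y).le

lemma Env.abs_q (hE : Env p) (y : UnitAddCircle) : |1 - p y| ≤ 1 := by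
  rw [abs_of_pos (hE.q_pos y)]; linarith [hE.pos y]

lemma DB.memLp_Pop (hE : Env p) (h : DB α p ν) {f : UnitAddCircle → ℝ} {r : ℝ≥0∞}
    (hf : MemLp f r ν) : MemLp (Pop α p f) r ν :=
  (memLp_mul_bdd hE.cont hE.abs_p (h.memLp_add hE hf)).add
    (memLp_mul_bdd hE.q_cont hE.abs_q (h.memLp_sub hE hf))

lemma DB.Pop_congr (hE : Env p) (h : DB α p ν) {f g : UnitAddCircle → ℝ} (hfg : f =ᵐ[ν] g) :
    Pop α p f =ᵐ[ν] Pop α p g := by
  have h1 := (h.qmp_add hE).ae_eq_comp hfg
  have h2 := (h.qmp_sub hE).ae_eq_comp hfg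
  filter_upwards [h1, h2] with y hy1 hy2
  simp only [Function.comp] at hy1 hy2
  simp only [Pop, hy1, hy2]

lemma meas_Pop (hE : Env p) {f : UnitAddCircle → ℝ} (hf : Measurable f) :
    Measurable (Pop α p f) :=
  (hE.cont.measurable.mul (hf.comp (meas_add α))).add
    (hE.q_cont.measurable.mul (hf.comp (meas_sub α)))

/-- Stationarity for integrable functions. -/
lemma DB.integral_Pop (hE : Env p) (h : DB α p ν) {f : UnitAddCircle → ℝ} (hfm : Measurable f)
    (hf : Integrable f ν) : ∫ y, Pop α p f y ∂ν = ∫ y, f y ∂ν := by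
  have hf1 : MemLp f 1 ν := memLp_one_iff_integrable.mpr hf
  have i1 : Integrable (fun y => p y * f (y + α)) ν :=
    memLp_one_iff_integrable.mp (memLp_mul_bdd hE.cont hE.abs_p (h.memLp_add hE hf1))
  have i2 : Integrable (fun y => (1 - p y) * f (y - α)) ν :=
    memLp_one_iff_integrable.mp (memLp_mul_bdd hE.q_cont hE.abs_q (h.memLp_sub hE hf1))
  have i3 : Integrable (fun y => p y * f y) ν :=
    memLp_one_iff_integrable.mp (memLp_mul_bdd hE.cont hE.abs_p hf1)
  have i4 : Integrable (fun y => (1 - p y) * f y) ν :=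
    memLp_one_iff_integrable.mp (memLp_mul_bdd hE.q_cont hE.abs_q hf1)
  have d1 := h.integral hE (φ := fun y => f (y + α)) (hfm.comp (meas_add α))
  have d2 := h.integral hE hfm
  simp only [sub_add_cancel] at d1
  show ∫ y, (p y * f (y + α) + (1 - p y) * f (y - α)) ∂ν = _
  rw [integral_add i1 i2]
  have e1 : ∫ y, p y * f (y + α) ∂ν = ∫ y, (1 - p y) * f y ∂ν := by
    rw [show (fun y => p y * f (y + α)) = fun y => f (y + α) * p y from
      funext (fun y => mul_comm _ _), d1]
    exact integral_congr_ae (Eventually.of_forall (fun y => mul_comm _ _))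
  have e2 : ∫ y, (1 - p y) * f (y - α) ∂ν = ∫ y, p y * f y ∂ν := by
    rw [show (fun y => (1 - p y) * f (y - α)) = fun y => f (y - α) * (1 - p y) from
      funext (fun y => mul_comm _ _), ← d2]
    exact integral_congr_ae (Eventually.of_forall (fun y => mul_comm _ _))
  rw [e1, e2, ← integral_add i4 i3]
  refine integral_congr_ae (Eventually.of_forall (fun y => ?_))
  simp only
  ring

/-- Symmetry of the transition operator. -/
lemma DB.symm_Pop (hE : Env p) (h : DB α p ν) {f g : UnitAddCircle → ℝ} (hfm : Measurable f)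
    (hgm : Measurable g) (hf : MemLp f 2 ν) (hg : MemLp g 2 ν) :
    ∫ y, Pop α p f y * g y ∂ν = ∫ y, f y * Pop α p g y ∂ν := by
  have fa := h.memLp_add hE hf
  have fs := h.memLp_sub hE hf
  have ga := h.memLp_add hE hg
  have gs := h.memLp_sub hE hg
  have i1 : Integrable (fun y => (p y * f (y + α)) * g y) ν :=
    (memLp_mul_bdd hE.cont hE.abs_p fa).integrable_mul hg
  have i2 : Integrable (fun y => ((1 - p y) * f (y - α)) * g y) ν :=
    (memLp_mul_bdd hE.q_cont hE.abs_q fs).integrable_mul hg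
  have i3 : Integrable (fun y => f y * (p y * g (y + α))) ν :=
    hf.integrable_mul (memLp_mul_bdd hE.cont hE.abs_p ga)
  have i4 : Integrable (fun y => f y * ((1 - p y) * g (y - α))) ν :=
    hf.integrable_mul (memLp_mul_bdd hE.q_cont hE.abs_q gs)
  have d1 := h.integral hE (φ := fun y => f (y + α) * g y) ((hfm.comp (meas_add α)).mul hgm)
  have d2 := h.integral hE (φ := fun y => f y * g (y + α)) (hfm.mul (hgm.comp (meas_add α)))
  simp only [sub_add_cancel] at d1 d2
  have e0 : ∫ y, Pop α p f y * g y ∂ν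
      = ∫ y, (p y * f (y + α)) * g y ∂ν + ∫ y, ((1 - p y) * f (y - α)) * g y ∂ν := by
    rw [← integral_add i1 i2]
    refine integral_congr_ae (Eventually.of_forall (fun y => ?_))
    simp only [Pop]; ring
  have e1 : ∫ y, f y * Pop α p g y ∂ν
      = ∫ y, f y * (p y * g (y + α)) ∂ν + ∫ y, f y * ((1 - p y) * g (y - α)) ∂ν := by
    rw [← integral_add i3 i4]
    refine integral_congr_ae (Eventually.of_forall (fun y => ?_))
    simp only [Pop]; ring
  have a1 : ∫ y, (p y * f (y + α)) * g y ∂ν = ∫ y, f y * ((1 - p y) * g (y - α)) ∂ν := by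
    calc _ = ∫ y, f (y + α) * g y * p y ∂ν :=
          integral_congr_ae (Eventually.of_forall (fun y => by simp only; ring))
      _ = _ := d1
      _ = _ := integral_congr_ae (Eventually.of_forall (fun y => by simp only; ring))
  have a2 : ∫ y, ((1 - p y) * f (y - α)) * g y ∂ν = ∫ y, f y * (p y * g (y + α)) ∂ν := by
    calc _ = ∫ y, f (y - α) * g y * (1 - p y) ∂ν :=
          integral_congr_ae (Eventually.of_forall (fun y => by simp only; ring))
      _ = _ := d2.symm
      _ = _ := integral_congr_ae (Eventually.of_forall (fun y => by simp only; ring))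
  rw [e0, e1, a1, a2]
  ring

end Pool.Agent.R953.QP
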