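import Pool.Agent.R953.QP8

/-! `L²` mixing of the transition operator. -/

namespace Pool.Agent.R953.QP

open MeasureTheory Set Filter Topology ENNReal

variable {α : UnitAddCircle} {p : UnitAddCircle → ℝ} {ν : Measure UnitAddCircle}

lemma l2_inner (f g : Lp ℝ 2 ν) : inner ℝ f g = ∫ y, f y * g y ∂ν := by
  rw [L2.inner_def]
  refine integral_congr_ae (Eventually.of_forall (fun y => ?_))
  simp only [RCLike.inner_apply, conj_trivial]
  ring

/-- The transition operator on `L²`, as a linear map. -/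
noncomputable def TL (hE : Env p) (h : DB α p ν) : Lp ℝ 2 ν →ₗ[ℝ] Lp ℝ 2 ν where
  toFun f := (h.memLp_Pop hE (Lp.memLp f)).toLp (Pop α p f)
  map_add' f g := by
    have h1 := h.Pop_congr hE (Lp.coeFn_add f g)
    rw [← MemLp.toLp_add]
    refine MemLp.toLp_congr _ _ (h1.trans (Eventually.of_forall (fun y => ?_)))
    simp only [Pop, Pi.add_apply]
    ring
  map_smul' c f := by
    have h1 := h.Pop_congr hE (Lp.coeFn_smul c f)
    simp only [RingHom.id_apply]
    rw [← MemLp.toLp_const_smul]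
    refine MemLp.toLp_congr _ _ (h1.trans (Eventually.of_forall (fun y => ?_)))
    simp only [Pop, Pi.smul_apply, smul_eq_mul]
    ring

lemma TL_coe (hE : Env p) (h : DB α p ν) (f : Lp ℝ 2 ν) : TL hE h f =ᵐ[ν] Pop α p f :=
  MemLp.coeFn_toLp (h.memLp_Pop hE (Lp.memLp f))

lemma measF (f : Lp ℝ 2 ν) : Measurable (f : UnitAddCircle → ℝ) :=
  (Lp.stronglyMeasurable f).measurable

lemma TL_norm (hE : Env p) (h : DB α p ν) (f : Lp ℝ 2 ν) : ‖TL hE h f‖ ≤ ‖f‖ := by
  have hsq : ‖TL hE h f‖ ^ 2 ≤ ‖f‖ ^ 2 := by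
    rw [← real_inner_self_eq_norm_sq, ← real_inner_self_eq_norm_sq, l2_inner, l2_inner]
    have hf2 : Integrable (fun y => f y * f y) ν := (Lp.memLp f).integrable_mul (Lp.memLp f)
    have hP := h.memLp_Pop hE (Lp.memLp f)
    calc ∫ y, TL hE h f y * TL hE h f y ∂ν = ∫ y, Pop α p f y * Pop α p f y ∂ν := by
          refine integral_congr_ae ?_
          filter_upwards [TL_coe hE h f] with y hy
          rw [hy]
      _ ≤ ∫ y, Pop α p (fun y => f y * f y) y ∂ν := by
          refine integral_mono (hP.integrable_mul hP) ?_ (fun y => ?_)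
          · exact memLp_one_iff_integrable.mp
              (h.memLp_Pop hE (memLp_one_iff_integrable.mpr hf2))
          · simp only [Pop]
            have h1 := hE.pos y
            have h2 := hE.q_pos y
            nlinarith [mul_nonneg (mul_nonneg h1.le h2.le) (sq_nonneg (f (y + α) - f (y - α)))]
      _ = ∫ y, f y * f y ∂ν := h.integral_Pop hE ((measF f).mul (measF f)) hf2
  exact (sq_le_sq₀ (norm_nonneg _) (norm_nonneg _)).mp hsq

/-- The transition operator on `L²`. -/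
noncomputable def TC (hE : Env p) (h : DB α p ν) : Lp ℝ 2 ν →L[ℝ] Lp ℝ 2 ν :=
  (TL hE h).mkContinuous 1 (fun f => by rw [one_mul]; exact TL_norm hE h f)

lemma TC_coe (hE : Env p) (h : DB α p ν) (f : Lp ℝ 2 ν) : TC hE h f =ᵐ[ν] Pop α p f :=
  TL_coe hE h f

lemma TC_norm (hE : Env p) (h : DB α p ν) (f : Lp ℝ 2 ν) : ‖TC hE h f‖ ≤ ‖f‖ := TL_norm hE h f

lemma TC_sym (hE : Env p) (h : DB α p ν) (f g : Lp ℝ 2 ν) :
    inner ℝ (TC hE h f) g = inner ℝ f (TC hE h g) := by
  rw [l2_inner, l2_inner]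
  have e1 : ∫ y, TC hE h f y * g y ∂ν = ∫ y, Pop α p f y * g y ∂ν := by
    refine integral_congr_ae ?_
    filter_upwards [TC_coe hE h f] with y hy
    rw [hy]
  have e2 : ∫ y, f y * TC hE h g y ∂ν = ∫ y, f y * Pop α p g y ∂ν := by
    refine integral_congr_ae ?_
    filter_upwards [TC_coe hE h g] with y hy
    rw [hy]
  rw [e1, e2]
  exact h.symm_Pop hE (measF f) (measF g) (Lp.memLp f) (Lp.memLp g)

/-- An eigenfunction with eigenvalue `ε = ±1` satisfies `f (y - α) = ε f y` almost everywhere. -/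
lemma eigen (hE : Env p) (h : DB α p ν) (f : Lp ℝ 2 ν) (ε : ℝ) (hε : ε * ε = 1)
    (hf : TC hE h f = ε • f) : ∀ᵐ y ∂ν, f (y - α) = ε * f y := by
  have hF : Pop α p f =ᵐ[ν] fun y => ε * f y := by
    have h1 := TC_coe hE h f
    rw [hf] at h1
    have h2 := Lp.coeFn_smul ε f
    filter_upwards [h1, h2] with y hy1 hy2
    rw [← hy1, hy2]
    rfl
  have m0 := Lp.memLp f
  have ma := h.memLp_add hE m0
  have ms := h.memLp_sub hE m0
  have mP := h.memLp_Pop hE m0
  have hf2 : Integrable (fun y => f y * f y) ν := m0.integrable_mul m0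
  have iPf2 : Integrable (fun y => Pop α p (fun y => f y * f y) y) ν :=
    memLp_one_iff_integrable.mp (h.memLp_Pop hE (memLp_one_iff_integrable.mpr hf2))
  have ifP : Integrable (fun y => f y * Pop α p f y) ν := m0.integrable_mul mP
  have hnn : ∀ y, 0 ≤ p y * (f (y + α) - ε * f y) ^ 2 + (1 - p y) * (f (y - α) - ε * f y) ^ 2 := by
    intro y
    have h1 := hE.pos y
    have h2 := hE.q_pos y
    positivity
  have hexp : ∀ y, p y * (f (y + α) - ε * f y) ^ 2 + (1 - p y) * (f (y - α) - ε * f y) ^ 2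
      = Pop α p (fun y => f y * f y) y - 2 * ε * (f y * Pop α p f y) + f y * f y := by
    intro y
    simp only [Pop]
    linear_combination (f y * f y) * hε
  have hint : Integrable (fun y => p y * (f (y + α) - ε * f y) ^ 2
      + (1 - p y) * (f (y - α) - ε * f y) ^ 2) ν := by
    simp only [hexp]
    exact (iPf2.sub (ifP.const_mul _)).add hf2
  have hzero : ∫ y, (p y * (f (y + α) - ε * f y) ^ 2
      + (1 - p y) * (f (y - α) - ε * f y) ^ 2) ∂ν = 0 := by
    simp only [hexp]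
    have i1 : Integrable (fun y => 2 * ε * (f y * Pop α p f y)) ν := ifP.const_mul _
    have i12 : Integrable (fun y => Pop α p (fun y => f y * f y) y
        - 2 * ε * (f y * Pop α p f y)) ν := iPf2.sub i1
    have iP : ∫ y, Pop α p (fun y => f y * f y) y ∂ν = ∫ y, f y * f y ∂ν :=
      h.integral_Pop hE ((measF f).mul (measF f)) hf2
    rw [integral_add i12 hf2, integral_sub iPf2 i1, iP, integral_const_mul]
    have e1 : ∫ y, f y * Pop α p f y ∂ν = ε * ∫ y, f y * f y ∂ν := by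
      rw [← integral_const_mul]
      refine integral_congr_ae ?_
      filter_upwards [hF] with y hy
      rw [hy]; ring
    rw [e1]
    linear_combination (-2 * ∫ y, f y * f y ∂ν) * hε
  have hae := (integral_eq_zero_iff_of_nonneg hnn hint).mp hzero
  filter_upwards [hae] with y hy
  have h1 := hE.pos y
  have h2 := hE.q_pos y
  simp only [Pi.zero_apply] at hy
  have h3 : (1 - p y) * (f (y - α) - ε * f y) ^ 2 = 0 := by
    have a1 : 0 ≤ p y * (f (y + α) - ε * f y) ^ 2 := by positivity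
    have a2 : 0 ≤ (1 - p y) * (f (y - α) - ε * f y) ^ 2 := by positivity
    linarith
  rcases mul_eq_zero.mp h3 with h4 | h4
  · exact absurd h4 h2.ne'
  · exact sub_eq_zero.mp (pow_eq_zero_iff (two_ne_zero)|>.mp h4)

/-- the constant function one in `L²` -/
noncomputable def oneL (ν : Measure UnitAddCircle) [IsProbabilityMeasure ν] : Lp ℝ 2 ν :=
  (memLp_const (1 : ℝ)).toLp (fun _ => (1 : ℝ))

lemma oneL_coe [IsProbabilityMeasure ν] : oneL ν =ᵐ[ν] fun _ => (1 : ℝ) :=
  MemLp.coeFn_toLp (memLp_const (1 : ℝ))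

lemma oneL_norm [IsProbabilityMeasure ν] : ‖oneL ν‖ = 1 := by
  have h1 : ‖oneL ν‖ ^ 2 = 1 := by
    rw [← real_inner_self_eq_norm_sq, l2_inner]
    have : ∫ y, oneL ν y * oneL ν y ∂ν = ∫ _y, (1 : ℝ) ∂ν := by
      refine integral_congr_ae ?_
      filter_upwards [oneL_coe (ν := ν)] with y hy
      rw [hy]; norm_num
    rw [this]; simp
  have h0 : 0 ≤ ‖oneL ν‖ := norm_nonneg _
  nlinarith [h1, h0]

lemma TC_one [IsProbabilityMeasure ν] (hE : Env p) (h : DB α p ν) : TC hE h (oneL ν) = oneL ν := by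
  refine Lp.ext ?_
  have h1 := TC_coe hE h (oneL ν)
  have h2 := h.Pop_congr hE (oneL_coe (ν := ν))
  filter_upwards [h1, h2, oneL_coe (ν := ν)] with y hy1 hy2 hy3
  rw [hy1, hy2, hy3]
  simp only [Pop]
  ring

lemma smul_oneL [IsProbabilityMeasure ν] {f : Lp ℝ 2 ν} {c : ℝ} (hf : f =ᵐ[ν] fun _ => c) :
    f = c • oneL ν := by
  refine Lp.ext ?_
  filter_upwards [hf, Lp.coeFn_smul c (oneL ν), oneL_coe (ν := ν)] with y hy1 hy2 hy3
  rw [hy1, hy2, Pi.smul_apply, hy3, smul_eq_mul, mul_one]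

/-- `L²` mixing, abstract form. -/
lemma TC_mix [IsProbabilityMeasure ν] (hE : Env p) (h : DB α p ν)
    (q1 : QuasiErgodic (fun y : UnitAddCircle => y - α) ν)
    (q2 : QuasiErgodic (fun y : UnitAddCircle => y - 2 • α) ν) (f : Lp ℝ 2 ν) :
    Tendsto (fun n : ℕ => ((TC hE h) ^ n) f) atTop (𝓝 ((∫ y, f y ∂ν) • oneL ν)) := by
  have hin : inner ℝ (oneL ν) f = ∫ y, f y ∂ν := by
    rw [l2_inner]
    refine integral_congr_ae ?_
    filter_upwards [oneL_coe (ν := ν)] with y hy
    rw [hy, one_mul]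
  rw [← hin]
  refine hilbert_mix (TC hE h) (TC_sym hE h) (TC_norm hE h) (oneL ν) oneL_norm (TC_one hE h) ?_ ?_ f
  · intro g hg
    have h1 := eigen hE h g 1 (by norm_num) (by rw [hg, one_smul])
    have h2 : (g : UnitAddCircle → ℝ) ∘ (fun y : UnitAddCircle => y - α) =ᵐ[ν] g := by
      filter_upwards [h1] with y hy
      simp only [Function.comp]
      rw [hy, one_mul]
    obtain ⟨c, hc⟩ := q1.ae_eq_const_of_ae_eq_comp₀ (measF g).nullMeasurable h2
    exact ⟨c, smul_oneL hc⟩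
  · intro g hg
    have h1 := eigen hE h g (-1) (by norm_num) (by rw [hg, neg_one_smul])
    have h1' : (fun y => g (y - α)) =ᵐ[ν] fun y => -1 * g y := h1
    have h3 := (h.qmp_sub hE).ae_eq_comp h1'
    have h2 : (g : UnitAddCircle → ℝ) ∘ (fun y : UnitAddCircle => y - 2 • α) =ᵐ[ν] g := by
      filter_upwards [h1, h3] with y hy1 hy3
      simp only [Function.comp] at hy3 ⊢
      have : y - 2 • α = y - α - α := by rw [two_nsmul]; abel
      rw [this, hy3, hy1]
      ring
    obtain ⟨c, hc⟩ := q2.ae_eq_const_of_ae_eq_comp₀ (measF g).nullMeasurable h2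
    have h4 := (h.qmp_sub hE).ae_eq_comp hc
    have h5 : ∃ y : UnitAddCircle, g (y - α) = -1 * g y ∧ g y = c ∧ g (y - α) = c := by
      have hall : ∀ᵐ y ∂ν, g (y - α) = -1 * g y ∧ g y = c ∧ g (y - α) = c := by
        filter_upwards [h1, hc, h4] with y hy1 hy2 hy3
        exact ⟨hy1, hy2, hy3⟩
      exact hall.exists
    obtain ⟨y, e1, e2, e3⟩ := h5
    have hc0 : c = 0 := by
      rw [e3, e2] at e1
      linarith
    rw [smul_oneL hc, hc0, zero_smul]

lemma TC_pow_coe (hE : Env p) (h : DB α p ν) {f : UnitAddCircle → ℝ} (hf : MemLp f 2 ν) (n : ℕ) :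
    ((TC hE h) ^ n) (hf.toLp f) =ᵐ[ν] (Pop α p)^[n] f := by
  induction n with
  | zero => simpa using hf.coeFn_toLp
  | succ n ih =>
    rw [pow_succ', mul_apply_eq_comp, Function.iterate_succ_apply']
    exact (TC_coe hE h _).trans (h.Pop_congr hE ih)

/-- `L¹` mixing of the transition operator. -/
lemma Pop_mix [IsProbabilityMeasure ν] (hE : Env p) (h : DB α p ν)
    (q1 : QuasiErgodic (fun y : UnitAddCircle => y - α) ν)
    (q2 : QuasiErgodic (fun y : UnitAddCircle => y - 2 • α) ν) {f : UnitAddCircle → ℝ}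
    (hfm : Measurable f) (hf : MemLp f 2 ν) :
    Tendsto (fun n : ℕ => ∫ y, |(Pop α p)^[n] f y - ∫ z, f z ∂ν| ∂ν) atTop (𝓝 0) := by
  have hPm : ∀ n : ℕ, Measurable ((Pop α p)^[n] f) := by
    intro n
    induction n with
    | zero => exact hfm
    | succ n ih => rw [Function.iterate_succ_apply']; exact meas_Pop hE ih
  have hint : ∫ y, (hf.toLp f) y ∂ν = ∫ z, f z ∂ν := integral_congr_ae hf.coeFn_toLp
  have h1 := TC_mix hE h q1 q2 (hf.toLp f)
  rw [hint] at h1
  have h2 := tendsto_iff_norm_sub_tendsto_zero.mp h1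
  refine squeeze_zero (fun n => integral_nonneg (fun y => abs_nonneg _)) (fun n => ?_) h2
  set c : ℝ := ∫ z, f z ∂ν with hc
  set D : UnitAddCircle → ℝ := fun y => (Pop α p)^[n] f y - c with hD
  have hDm : Measurable D := (hPm n).sub_const c
  have e1 : (((TC hE h) ^ n) (hf.toLp f) - c • oneL ν : Lp ℝ 2 ν) =ᵐ[ν] D := by
    filter_upwards [Lp.coeFn_sub (((TC hE h) ^ n) (hf.toLp f)) (c • oneL ν),
      TC_pow_coe hE h hf n, Lp.coeFn_smul c (oneL ν), oneL_coe (ν := ν)] with y a1 a2 a3 a4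
    rw [a1, Pi.sub_apply, a2, a3, Pi.smul_apply, a4, smul_eq_mul, mul_one]
  have e2 : eLpNorm D 2 ν = ‖((TC hE h) ^ n) (hf.toLp f) - c • oneL ν‖ₑ := by
    rw [Lp.enorm_def]
    exact (eLpNorm_congr_ae e1).symm
  have hDLp : MemLp D 2 ν := by
    have := Lp.memLp (((TC hE h) ^ n) (hf.toLp f) - c • oneL ν)
    exact (memLp_congr_ae e1).mp this
  have hD1 : Integrable D ν := hDLp.integrable (by norm_num)
  calc ∫ y, |D y| ∂ν = (∫⁻ y, ‖D y‖ₑ ∂ν).toReal := by
        rw [← integral_norm_eq_lintegral_enorm hD1.1]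
        rfl
    _ = (eLpNorm D 1 ν).toReal := by rw [eLpNorm_one_eq_lintegral_enorm]
    _ ≤ (eLpNorm D 2 ν).toReal :=
        ENNReal.toReal_mono hDLp.2.ne
          (eLpNorm_le_eLpNorm_of_exponent_le (by norm_num) hDLp.1)
    _ = ‖((TC hE h) ^ n) (hf.toLp f) - c • oneL ν‖ := by
        rw [e2]
        simp

end Pool.Agent.R953.QP
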