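import Mathlib
import Pool.Agent.R953.BootLaw

/-!
# Generating functions of offspring distributions with exponential moments
-/

set_option autoImplicit false

open MeasureTheory ProbabilityTheory Filter
open scoped ENNReal NNReal Topology

namespace Pool.Agent.R953.Surv

open Pool.Agent.R953.Branch Pool.Agent.R953.GW Pool.Agent.R953.Boot

/-- `∑ μ_k k R ^ k` converges, and `R > 1` -/
structure EM (μ : PMF ℕ) (R : ℝ) : Prop where
  one_lt : 1 < R
  summable : Summable fun k : ℕ => (μ k).toReal * ((k : ℝ) * R ^ k)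

/-- geometric sums -/
noncomputable def geo {K : Type*} [Field K] (k : ℕ) (z : K) : K := ∑ j ∈ Finset.range k, z ^ j

/-- the real series `ψ` -/
noncomputable def psi (μ : PMF ℕ) (x : ℝ) : ℝ := ∑' k, (μ k).toReal * geo k x

/-- the complex series `ψ` -/
noncomputable def Psi (μ : PMF ℕ) (z : ℂ) : ℂ := ∑' k, ((μ k).toReal : ℂ) * geo k z

/-- the complex generating function -/
noncomputable def Phi (μ : PMF ℕ) (z : ℂ) : ℂ := ∑' k, ((μ k).toReal : ℂ) * z ^ k

/-- the derivative of the generating function -/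
noncomputable def LL (μ : PMF ℕ) (x : ℝ) : ℝ := ∑' k : ℕ, (μ k).toReal * ((k : ℝ) * x ^ (k - 1))

variable {μ : PMF ℕ} {R : ℝ}

lemma EM.pow (h : EM μ R) : Summable fun k : ℕ => (μ k).toReal * R ^ k := by
  have h0 : 0 < R := one_pos.trans h.one_lt
  refine Summable.of_nonneg_of_le (fun k => by positivity) (fun k => ?_)
    ((summable_pmf μ).add h.summable)
  rcases Nat.eq_zero_or_pos k with rfl | hk
  · simp
  · have h1 : (1 : ℝ) ≤ k := by exact_mod_cast hk
    have h2 : R ^ k ≤ (k : ℝ) * R ^ k := le_mul_of_one_le_left (by positivity) h1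
    have h3 : (0 : ℝ) ≤ (μ k).toReal := ENNReal.toReal_nonneg
    have h4 := mul_le_mul_of_nonneg_left h2 h3
    linarith

lemma norm_geo_le {K : Type*} [NormedField K] (hR : 1 ≤ R) {z : K} (hz : ‖z‖ ≤ R) (k : ℕ) :
    ‖geo k z‖ ≤ (k : ℝ) * R ^ k := by
  unfold geo
  calc ‖∑ j ∈ Finset.range k, z ^ j‖ ≤ ∑ j ∈ Finset.range k, ‖z ^ j‖ := norm_sum_le _ _
    _ ≤ ∑ _j ∈ Finset.range k, R ^ k := by
        apply Finset.sum_le_sum
        intro j hj
        rw [norm_pow]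
        calc ‖z‖ ^ j ≤ R ^ j := pow_le_pow_left₀ (norm_nonneg z) hz j
          _ ≤ R ^ k := pow_le_pow_right₀ hR (Finset.mem_range.1 hj).le
    _ = (k : ℝ) * R ^ k := by rw [Finset.sum_const, Finset.card_range, nsmul_eq_mul]

lemma EM.summable_geo (h : EM μ R) {x : ℝ} (hx : |x| ≤ R) :
    Summable fun k : ℕ => (μ k).toReal * geo k x := by
  refine Summable.of_norm_bounded h.summable fun k => ?_
  rw [norm_mul, Real.norm_eq_abs, abs_of_nonneg ENNReal.toReal_nonneg]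
  exact mul_le_mul_of_nonneg_left (norm_geo_le h.one_lt.le hx k) ENNReal.toReal_nonneg

lemma EM.summable_pow (h : EM μ R) {x : ℝ} (hx : |x| ≤ R) :
    Summable fun k : ℕ => (μ k).toReal * x ^ k := by
  refine Summable.of_norm_bounded h.pow fun k => ?_
  rw [norm_mul, Real.norm_eq_abs, abs_of_nonneg ENNReal.toReal_nonneg, norm_pow,
    Real.norm_eq_abs]
  exact mul_le_mul_of_nonneg_left (pow_le_pow_left₀ (abs_nonneg x) hx k) ENNReal.toReal_nonneg

lemma EM.bound_LL (h : EM μ R) {x : ℝ} (hx : |x| ≤ R) (k : ℕ) :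
    ‖(μ k).toReal * ((k : ℝ) * x ^ (k - 1))‖ ≤ (μ k).toReal * ((k : ℝ) * R ^ k) := by
  rw [norm_mul, Real.norm_eq_abs, abs_of_nonneg ENNReal.toReal_nonneg, norm_mul, norm_pow,
    Real.norm_eq_abs, Real.norm_eq_abs, abs_of_nonneg (Nat.cast_nonneg k)]
  apply mul_le_mul_of_nonneg_left _ ENNReal.toReal_nonneg
  apply mul_le_mul_of_nonneg_left _ (Nat.cast_nonneg k)
  calc |x| ^ (k - 1) ≤ R ^ (k - 1) := pow_le_pow_left₀ (abs_nonneg x) hx _
    _ ≤ R ^ k := pow_le_pow_right₀ h.one_lt.le (Nat.sub_le k 1)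

lemma EM.summable_LL (h : EM μ R) {x : ℝ} (hx : |x| ≤ R) :
    Summable fun k : ℕ => (μ k).toReal * ((k : ℝ) * x ^ (k - 1)) :=
  Summable.of_norm_bounded h.summable (h.bound_LL hx)

lemma abs_le_of {x : ℝ} (h0 : 0 ≤ x) (h1 : x ≤ R) : |x| ≤ R := by
  rwa [abs_of_nonneg h0]

lemma EM.psi_mul (h : EM μ R) {x : ℝ} (hx : |x| ≤ R) : psi μ x * (x - 1) = gf μ x - 1 := by
  have h1 : gf μ x - 1 = ∑' k, ((μ k).toReal * x ^ k - (μ k).toReal) := by
    rw [Summable.tsum_sub (h.summable_pow hx) (summable_pmf μ), tsum_pmf]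
    rfl
  rw [h1]
  unfold psi
  rw [← tsum_mul_right]
  refine tsum_congr fun k => ?_
  have := geom_sum_mul x k
  unfold geo
  rw [mul_assoc, this]
  ring

lemma EM.psi_sub_ge (h : EM μ R) {k₀ : ℕ} (hk₀ : 2 ≤ k₀) {x y : ℝ} (h0 : 0 ≤ x) (hxy : x ≤ y)
    (hy : y ≤ R) : (μ k₀).toReal * (y - x) ≤ psi μ y - psi μ x := by
  have hy0 := h0.trans hxy
  unfold psi
  rw [← Summable.tsum_sub (h.summable_geo (abs_le_of hy0 hy))
    (h.summable_geo (abs_le_of h0 (hxy.trans hy)))]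
  have hs := (h.summable_geo (abs_le_of hy0 hy)).sub
    (h.summable_geo (abs_le_of h0 (hxy.trans hy)))
  have hterm : ∀ k j : ℕ, 0 ≤ y ^ j - x ^ j := fun k j => by
    have := pow_le_pow_left₀ h0 hxy j
    linarith
  have hpos : ∀ k : ℕ, 0 ≤ (μ k).toReal * geo k y - (μ k).toReal * geo k x := by
    intro k
    rw [← mul_sub]
    apply mul_nonneg ENNReal.toReal_nonneg
    unfold geo
    rw [← Finset.sum_sub_distrib]
    exact Finset.sum_nonneg fun j _ => hterm k j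
  refine le_trans ?_ (hs.le_tsum k₀ fun k _ => hpos k)
  rw [← mul_sub]
  apply mul_le_mul_of_nonneg_left _ ENNReal.toReal_nonneg
  unfold geo
  rw [← Finset.sum_sub_distrib]
  have := Finset.single_le_sum (f := fun j => y ^ j - x ^ j) (fun j _ => hterm k₀ j)
    (Finset.mem_range.2 (show 1 < k₀ by omega))
  simpa using this

lemma pow_sub_pow_le {x y : ℝ} (h0 : 0 ≤ x) (hxy : x ≤ y) (k : ℕ) :
    y ^ k - x ^ k ≤ (k : ℝ) * y ^ (k - 1) * (y - x) := by
  have hy0 := h0.trans hxy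
  rw [← geom_sum₂_mul]
  apply mul_le_mul_of_nonneg_right _ (sub_nonneg.2 hxy)
  calc ∑ i ∈ Finset.range k, y ^ i * x ^ (k - 1 - i)
      ≤ ∑ _i ∈ Finset.range k, y ^ (k - 1) := by
        apply Finset.sum_le_sum
        intro i hi
        have hi' := Finset.mem_range.1 hi
        calc y ^ i * x ^ (k - 1 - i) ≤ y ^ i * y ^ (k - 1 - i) :=
              mul_le_mul_of_nonneg_left (pow_le_pow_left₀ h0 hxy _) (by positivity)
          _ = y ^ (k - 1) := by rw [← pow_add]; congr 1; omega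
    _ = (k : ℝ) * y ^ (k - 1) := by rw [Finset.sum_const, Finset.card_range, nsmul_eq_mul]

lemma EM.gf_sub_le (h : EM μ R) {x y : ℝ} (h0 : 0 ≤ x) (hxy : x ≤ y) (hy : y ≤ R) :
    gf μ y - gf μ x ≤ LL μ y * (y - x) := by
  have hy0 := h0.trans hxy
  unfold gf LL
  rw [← Summable.tsum_sub (h.summable_pow (abs_le_of hy0 hy))
    (h.summable_pow (abs_le_of h0 (hxy.trans hy))), ← tsum_mul_right]
  refine Summable.tsum_le_tsum (fun k => ?_) ((h.summable_pow (abs_le_of hy0 hy)).sub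
    (h.summable_pow (abs_le_of h0 (hxy.trans hy)))) ((h.summable_LL (abs_le_of hy0 hy)).mul_right _)
  rw [← mul_sub, mul_assoc]
  exact mul_le_mul_of_nonneg_left (pow_sub_pow_le h0 hxy k) ENNReal.toReal_nonneg

lemma EM.gf_mono (h : EM μ R) {x y : ℝ} (h0 : 0 ≤ x) (hxy : x ≤ y) (hy : y ≤ R) :
    gf μ x ≤ gf μ y := by
  have hy0 := h0.trans hxy
  unfold gf
  refine Summable.tsum_le_tsum (fun k => ?_) (h.summable_pow (abs_le_of h0 (hxy.trans hy)))
    (h.summable_pow (abs_le_of hy0 hy))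
  exact mul_le_mul_of_nonneg_left (pow_le_pow_left₀ h0 hxy k) ENNReal.toReal_nonneg

lemma gf_nonneg {x : ℝ} (h0 : 0 ≤ x) : 0 ≤ gf μ x :=
  tsum_nonneg fun k => mul_nonneg ENNReal.toReal_nonneg (pow_nonneg h0 k)

lemma gf_one : gf μ 1 = 1 := by
  unfold gf
  simp only [one_pow, mul_one]
  exact tsum_pmf μ

lemma EM.LL_le_psi (h : EM μ R) {x : ℝ} (h0 : 0 ≤ x) (h1 : x ≤ 1) : LL μ x ≤ psi μ x := by
  have hx : |x| ≤ R := abs_le_of h0 (h1.trans h.one_lt.le)
  unfold LL psi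
  refine Summable.tsum_le_tsum (fun k => ?_) (h.summable_LL hx) (h.summable_geo hx)
  apply mul_le_mul_of_nonneg_left _ ENNReal.toReal_nonneg
  unfold geo
  calc (k : ℝ) * x ^ (k - 1) = ∑ _j ∈ Finset.range k, x ^ (k - 1) := by
        rw [Finset.sum_const, Finset.card_range, nsmul_eq_mul]
    _ ≤ ∑ j ∈ Finset.range k, x ^ j := by
        apply Finset.sum_le_sum
        intro j hj
        exact pow_le_pow_of_le_one h0 h1 (by have := Finset.mem_range.1 hj; omega)

lemma LL_nonneg {x : ℝ} (h0 : 0 ≤ x) : 0 ≤ LL μ x :=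
  tsum_nonneg fun k => mul_nonneg ENNReal.toReal_nonneg
    (mul_nonneg (Nat.cast_nonneg k) (pow_nonneg h0 _))

lemma EM.continuousOn_LL (h : EM μ R) : ContinuousOn (LL μ) (Set.Icc 0 R) := by
  unfold LL
  refine continuousOn_tsum (fun k => by fun_prop) h.summable fun k x hx => ?_
  exact h.bound_LL (abs_le_of hx.1 hx.2) k

lemma EM.continuousOn_psi (h : EM μ R) : ContinuousOn (psi μ) (Set.Icc 0 R) := by
  unfold psi
  refine continuousOn_tsum (fun k => ?_) h.summable fun k x hx => ?_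
  · unfold geo
    fun_prop
  · rw [norm_mul, Real.norm_eq_abs, abs_of_nonneg ENNReal.toReal_nonneg]
    exact mul_le_mul_of_nonneg_left (norm_geo_le h.one_lt.le (abs_le_of hx.1 hx.2) k)
      ENNReal.toReal_nonneg

lemma EM.continuousOn_gf (h : EM μ R) : ContinuousOn (gf μ) (Set.Icc 0 R) := by
  unfold gf
  refine continuousOn_tsum (fun k => by fun_prop) h.pow fun k x hx => ?_
  rw [norm_mul, Real.norm_eq_abs, abs_of_nonneg ENNReal.toReal_nonneg, norm_pow,
    Real.norm_eq_abs]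
  exact mul_le_mul_of_nonneg_left (pow_le_pow_left₀ (abs_nonneg x) (abs_le_of hx.1 hx.2) k)
    ENNReal.toReal_nonneg

lemma psi_one : psi μ 1 = ∑' k : ℕ, (μ k).toReal * (k : ℝ) := by
  unfold psi geo
  simp

/-! ### Complex functions -/

lemma Phi_ofReal (x : ℝ) : Phi μ (x : ℂ) = (gf μ x : ℂ) := by
  unfold Phi gf
  push_cast
  rfl

lemma Psi_ofReal (x : ℝ) : Psi μ (x : ℂ) = (psi μ x : ℂ) := by
  unfold Psi psi geo
  push_cast
  rfl

lemma EM.bound_pow (_h : EM μ R) {z : ℂ} (hz : ‖z‖ ≤ R) (k : ℕ) :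
    ‖((μ k).toReal : ℂ) * z ^ k‖ ≤ (μ k).toReal * R ^ k := by
  rw [norm_mul, Complex.norm_real, Real.norm_eq_abs, abs_of_nonneg ENNReal.toReal_nonneg,
    norm_pow]
  exact mul_le_mul_of_nonneg_left (pow_le_pow_left₀ (norm_nonneg z) hz k) ENNReal.toReal_nonneg

lemma EM.bound_geo (h : EM μ R) {z : ℂ} (hz : ‖z‖ ≤ R) (k : ℕ) :
    ‖((μ k).toReal : ℂ) * geo k z‖ ≤ (μ k).toReal * ((k : ℝ) * R ^ k) := by
  rw [norm_mul, Complex.norm_real, Real.norm_eq_abs, abs_of_nonneg ENNReal.toReal_nonneg]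
  exact mul_le_mul_of_nonneg_left (norm_geo_le h.one_lt.le hz k) ENNReal.toReal_nonneg

lemma EM.differentiableOn_Phi (h : EM μ R) : DifferentiableOn ℂ (Phi μ) (Metric.ball 0 R) := by
  unfold Phi
  refine Complex.differentiableOn_tsum_of_summable_norm h.pow (fun k => by fun_prop) Metric.isOpen_ball
    fun k z hz => ?_
  exact h.bound_pow (by simpa using (Metric.mem_ball.1 hz).le) k

lemma EM.differentiableOn_Psi (h : EM μ R) : DifferentiableOn ℂ (Psi μ) (Metric.ball 0 R) := by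
  unfold Psi
  refine Complex.differentiableOn_tsum_of_summable_norm h.summable (fun k => ?_) Metric.isOpen_ball
    fun k z hz => ?_
  · unfold geo
    fun_prop
  · exact h.bound_geo (by simpa using (Metric.mem_ball.1 hz).le) k

lemma EM.Psi_mul (h : EM μ R) {z : ℂ} (hz : ‖z‖ ≤ R) : Psi μ z * (z - 1) = Phi μ z - 1 := by
  have h1 : ∑' k, ((μ k).toReal : ℂ) = 1 := by
    rw [← Complex.ofReal_tsum, tsum_pmf]
    simp
  have hs1 : Summable fun k => ((μ k).toReal : ℂ) := by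
    have := summable_pmf μ
    exact_mod_cast this
  have hs2 : Summable fun k => ((μ k).toReal : ℂ) * z ^ k :=
    Summable.of_norm_bounded h.pow (h.bound_pow hz)
  have h2 : Phi μ z - 1 = ∑' k, (((μ k).toReal : ℂ) * z ^ k - ((μ k).toReal : ℂ)) := by
    rw [Summable.tsum_sub hs2 hs1, h1]
    rfl
  rw [h2]
  unfold Psi
  rw [← tsum_mul_right]
  refine tsum_congr fun k => ?_
  have := geom_sum_mul z k
  unfold geo
  rw [mul_assoc, this]
  ring

lemma EM.deriv_Psi_ne (h : EM μ R) {k₀ : ℕ} (hk₀ : 2 ≤ k₀) (hμ : μ k₀ ≠ 0) {x : ℝ} (h0 : 0 ≤ x)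
    (hx : x < R) : deriv (Psi μ) (x : ℂ) ≠ 0 := by
  have hmem : (x : ℂ) ∈ Metric.ball (0 : ℂ) R := by
    simp [abs_of_nonneg h0, hx]
  have hd : HasDerivAt (Psi μ) (deriv (Psi μ) (x : ℂ)) (x : ℂ) :=
    ((h.differentiableOn_Psi).differentiableAt (Metric.isOpen_ball.mem_nhds hmem)).hasDerivAt
  intro hz
  rw [hz] at hd
  have hd2 := hd.real_of_complex
  have h1 : (fun t : ℝ => (Psi μ (t : ℂ)).re) = psi μ := by
    funext t
    rw [Psi_ofReal, Complex.ofReal_re]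
  rw [h1, Complex.zero_re] at hd2
  have hc : 0 < (μ k₀).toReal := ENNReal.toReal_pos hμ (μ.apply_ne_top k₀)
  have h2 : Tendsto (slope (psi μ) x) (𝓝[>] x) (𝓝 0) :=
    (hasDerivAt_iff_tendsto_slope.1 hd2).mono_left (nhdsWithin_mono _ fun y hy => ne_of_gt hy)
  have h3 : ∀ᶠ y in 𝓝[>] x, (μ k₀).toReal ≤ slope (psi μ) x y := by
    have h4 : Set.Ioo x R ∈ 𝓝[>] x := Ioo_mem_nhdsGT hx
    filter_upwards [h4] with y hy
    rw [slope_def_field, le_div_iff₀ (sub_pos.2 hy.1)]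
    exact h.psi_sub_ge hk₀ h0 hy.1.le hy.2.le
  have h5 := ge_of_tendsto h2 h3
  linarith

end Pool.Agent.R953.Surv
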