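import Mathlib
import Pool.Agent.R953.Surv1

/-!
# The annealed survival function and its local analytic continuation
-/

set_option autoImplicit false

open MeasureTheory ProbabilityTheory Filter
open scoped ENNReal NNReal Topology

namespace Pool.Agent.R953.Surv

open Pool.Agent.R953.Branch Pool.Agent.R953.GW Pool.Agent.R953.Boot

variable {μ : PMF ℕ} {R : ℝ}

lemma tendsto_th' (μ : PMF ℕ) {p : ℝ} (h0 : 0 ≤ p) (h1 : p ≤ 1) :
    Tendsto (fun n => th μ p n) atTop (𝓝 (annealed μ p)) :=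
  tendsto_th μ ⟨p, h0, h1⟩

lemma annealed_mem (μ : PMF ℕ) {p : ℝ} (h0 : 0 ≤ p) (h1 : p ≤ 1) :
    0 ≤ annealed μ p ∧ annealed μ p ≤ 1 :=
  ⟨ge_of_tendsto' (tendsto_th' μ h0 h1) fun n => (th_mem μ h0 h1 n).1,
    le_of_tendsto' (tendsto_th' μ h0 h1) fun n => (th_mem μ h0 h1 n).2⟩

/-- the fixed point equation -/
lemma EM.annealed_eq (h : EM μ R) {p : ℝ} (h0 : 0 ≤ p) (h1 : p ≤ 1) :
    annealed μ p = 1 - gf μ (1 - p * annealed μ p) := by
  have hR := h.one_lt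
  have hlim := tendsto_th' μ h0 h1
  have hlim1 := hlim.comp (tendsto_add_atTop_nat 1)
  have hz : Tendsto (fun n => 1 - p * th μ p n) atTop (𝓝[Set.Icc 0 R] (1 - p * annealed μ p)) := by
    apply tendsto_nhdsWithin_of_tendsto_nhds_of_eventually_within
    · exact tendsto_const_nhds.sub (hlim.const_mul p)
    · refine Eventually.of_forall fun n => ?_
      have := th_mem μ h0 h1 n
      have h2 : 0 ≤ p * th μ p n := mul_nonneg h0 this.1
      have h3 : p * th μ p n ≤ 1 := mul_le_one₀ h1 this.1 this.2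
      constructor <;> linarith
  have hmem : 1 - p * annealed μ p ∈ Set.Icc 0 R := by
    have := annealed_mem μ h0 h1
    have h2 : 0 ≤ p * annealed μ p := mul_nonneg h0 this.1
    have h3 : p * annealed μ p ≤ 1 := mul_le_one₀ h1 this.1 this.2
    constructor <;> linarith
  have hgf := (h.continuousOn_gf _ hmem).tendsto.comp hz
  have hlim2 : Tendsto (fun n => th μ p (n + 1)) atTop
      (𝓝 (1 - gf μ (1 - p * annealed μ p))) := by
    have h2 : (fun n => th μ p (n + 1)) = fun n => 1 - gf μ (1 - p * th μ p n) := by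
      funext n
      exact th_succ μ h0 h1 n
    rw [h2]
    exact tendsto_const_nhds.sub hgf
  exact tendsto_nhds_unique hlim1 hlim2

/-- `z(p) = 1 - p g(p)` -/
noncomputable def zz (μ : PMF ℕ) (p : ℝ) : ℝ := 1 - p * annealed μ p

lemma zz_le_one (μ : PMF ℕ) {p : ℝ} (h0 : 0 ≤ p) (h1 : p ≤ 1) : zz μ p ≤ 1 := by
  have := mul_nonneg h0 (annealed_mem μ h0 h1).1
  unfold zz
  linarith

lemma zz_pos (μ : PMF ℕ) {p : ℝ} (h0 : 0 ≤ p) (h1 : p < 1) : 0 < zz μ p := by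
  have h2 := annealed_mem μ h0 h1.le
  unfold zz
  nlinarith

/-- `ψ(z(p)) = 1 / p` for `p ≥ p_c` -/
lemma EM.psi_zz (h : EM μ R) {k₀ : ℕ} (_hk₀ : 2 ≤ k₀) (hμ : μ k₀ ≠ 0) {p : ℝ} (h0 : 0 < p)
    (h1 : p < 1) (hp : 1 / p ≤ psi μ 1) : psi μ (zz μ p) = 1 / p := by
  have hR := h.one_lt
  have hc : 0 < (μ k₀).toReal := ENNReal.toReal_pos hμ (μ.apply_ne_top k₀)
  have hmem := annealed_mem μ h0.le h1.le
  have hz0 := zz_pos μ h0.le h1
  have hz1 := zz_le_one μ h0.le h1.le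
  have hzR : |zz μ p| ≤ R := abs_le_of hz0.le (hz1.trans hR.le)
  have heq := h.annealed_eq h0.le h1.le
  have hmul := h.psi_mul hzR
  have hza : zz μ p - 1 = -(p * annealed μ p) := by unfold zz; ring
  have hgf : gf μ (zz μ p) - 1 = - annealed μ p := by
    unfold zz
    linarith
  rw [hza, hgf] at hmul
  rcases hmem.1.eq_or_lt with ha | ha
  · -- annealed = 0
    have hz : zz μ p = 1 := by unfold zz; rw [← ha]; ring
    rw [hz]
    apply le_antisymm _ hp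
    by_contra hlt
    rw [not_le] at hlt
    -- there is a zero `z₁`
    have hpsi0 : psi μ 0 ≤ 1 := by
      have h2 := h.psi_mul (x := 0) (by simp; linarith)
      have h3 : 0 ≤ gf μ 0 := gf_nonneg le_rfl
      linarith
    have h1p : 1 < 1 / p := by rwa [lt_div_iff₀ h0, one_mul]
    obtain ⟨z₁, hz₁, hpz₁⟩ := intermediate_value_Ioo zero_le_one
      (h.continuousOn_psi.mono (Set.Icc_subset_Icc_right hR.le))
      (show 1 / p ∈ Set.Ioo (psi μ 0) (psi μ 1) from ⟨by linarith, hlt⟩)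
    have h4 := h.psi_mul (abs_le_of hz₁.1.le (hz₁.2.le.trans hR.le))
    rw [hpz₁] at h4
    set a₁ : ℝ := (1 - z₁) / p with ha₁
    have ha₁pos : 0 < a₁ := div_pos (by linarith [hz₁.2]) h0
    have h5 : a₁ = 1 - gf μ z₁ := by
      rw [ha₁]
      have h6 : 1 / p * (z₁ - 1) = (z₁ - 1) / p := by ring
      rw [h6] at h4
      have h7 : (1 - z₁) / p = -((z₁ - 1) / p) := by ring
      rw [h7, h4]
      ring
    have hpa : 1 - p * a₁ = z₁ := by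
      rw [ha₁]
      field_simp
      ring
    have hth : ∀ n, a₁ ≤ th μ p n := by
      intro n
      induction n with
      | zero =>
        rw [th_zero, h5]
        linarith [gf_nonneg (μ := μ) hz₁.1.le]
      | succ n ih =>
        rw [th_succ μ h0.le h1.le, h5]
        have h8 := th_mem μ h0.le h1.le n
        have h9 : 0 ≤ 1 - p * th μ p n := by
          have := mul_le_one₀ h1.le h8.1 h8.2
          linarith
        have h10 : 1 - p * th μ p n ≤ z₁ := by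
          rw [← hpa]
          have := mul_le_mul_of_nonneg_left ih h0.le
          linarith
        have h11 := h.gf_mono h9 h10 (hz₁.2.le.trans hR.le)
        linarith
    have h12 := ge_of_tendsto' (tendsto_th' μ h0.le h1.le) hth
    linarith
  · field_simp
    have h2 : psi μ (zz μ p) * p * annealed μ p = 1 * annealed μ p := by linarith
    have h3 := mul_right_cancel₀ ha.ne' h2
    linarith

/-- At `p_c` the annealed survival function vanishes. -/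
lemma EM.annealed_crit (h : EM μ R) {k₀ : ℕ} (hk₀ : 2 ≤ k₀) (hμ : μ k₀ ≠ 0) {p : ℝ} (h0 : 0 < p)
    (h1 : p < 1) (hp : psi μ 1 = 1 / p) : annealed μ p = 0 := by
  have hR := h.one_lt
  have hc : 0 < (μ k₀).toReal := ENNReal.toReal_pos hμ (μ.apply_ne_top k₀)
  have h2 := h.psi_zz hk₀ hμ h0 h1 hp.ge
  have h3 := h.psi_sub_ge hk₀ (zz_pos μ h0.le h1).le (zz_le_one μ h0.le h1.le) hR.le
  rw [h2, hp] at h3
  have h4 := (annealed_mem μ h0.le h1.le).1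
  unfold zz at h3
  have h5 : (μ k₀).toReal * (p * annealed μ p) ≤ 0 := by nlinarith
  have h6 : 0 < (μ k₀).toReal * p := mul_pos hc h0
  nlinarith

/-- Lipschitz bound for `z`. -/
lemma EM.zz_lip (h : EM μ R) {k₀ : ℕ} (hk₀ : 2 ≤ k₀) (hμ : μ k₀ ≠ 0) {p q : ℝ} (h0 : 0 < p)
    (h1 : p < 1) (hp : 1 / p ≤ psi μ 1) (h0' : 0 < q) (h1' : q < 1) (hq : 1 / q ≤ psi μ 1) :
    (μ k₀).toReal * |zz μ p - zz μ q| ≤ |1 / p - 1 / q| := by
  have hR := h.one_lt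
  have e1 := h.psi_zz hk₀ hμ h0 h1 hp
  have e2 := h.psi_zz hk₀ hμ h0' h1' hq
  rcases le_total (zz μ p) (zz μ q) with hle | hle
  · have h3 := h.psi_sub_ge hk₀ (zz_pos μ h0.le h1).le hle ((zz_le_one μ h0'.le h1'.le).trans hR.le)
    rw [e1, e2] at h3
    rw [abs_of_nonpos (sub_nonpos.2 hle)]
    have := neg_abs_le (1 / p - 1 / q)
    linarith
  · have h3 := h.psi_sub_ge hk₀ (zz_pos μ h0'.le h1').le hle ((zz_le_one μ h0.le h1.le).trans hR.le)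
    rw [e1, e2] at h3
    rw [abs_of_nonneg (sub_nonneg.2 hle)]
    have := le_abs_self (1 / p - 1 / q)
    linarith

/-- The local analytic continuation `a` of the annealed survival function around `p₀`, with the
quantitative bounds which are needed for the second moments. -/
structure Good (μ : PMF ℕ) (R p₀ ρ θ x₁ : ℝ) (a : ℂ → ℂ) : Prop where
  rho_pos : 0 < ρ
  rho_lt : ρ < p₀
  theta_pos : 0 < θ
  theta_lt : θ < 1
  x_nonneg : 0 ≤ x₁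
  x_lt : x₁ < R
  diff : DifferentiableOn ℂ a (Metric.ball (p₀ : ℂ) ρ)
  fix : ∀ p ∈ Metric.ball (p₀ : ℂ) ρ, a p = 1 - Phi μ (1 - p * a p)
  c1 : ∀ p ∈ Metric.ball (p₀ : ℂ) ρ, ‖1 - p * a p‖ ^ 2 ≤ x₁
  c2 : ∀ p ∈ Metric.ball (p₀ : ℂ) ρ,
    ‖1 - p * a p‖ ^ 2 + ‖p‖ ^ 2 * (gf μ x₁ - ‖1 - a p‖ ^ 2) ≤ x₁
  c3 : ∀ p ∈ Metric.ball (p₀ : ℂ) ρ, ‖p‖ ^ 2 * LL μ x₁ ≤ θ ^ 2
  real : ∀ p : ℝ, |p - p₀| < ρ → 1 / p ≤ psi μ 1 → p < 1 → a p = (annealed μ p : ℂ)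

theorem EM.exists_good (h : EM μ R) {k₀ : ℕ} (hk₀ : 2 ≤ k₀) (hμ : μ k₀ ≠ 0) {p₀ : ℝ}
    (h0 : 0 < p₀) (h1 : p₀ < 1) (hp : 1 / p₀ ≤ psi μ 1) :
    ∃ (ρ θ x₁ : ℝ) (a : ℂ → ℂ), Good μ R p₀ ρ θ x₁ a := by
  have hR := h.one_lt
  have hc : 0 < (μ k₀).toReal := ENNReal.toReal_pos hμ (μ.apply_ne_top k₀)
  set z₀ : ℝ := zz μ p₀ with hz₀
  set a₀ : ℝ := annealed μ p₀ with ha₀
  have hz0 : 0 < z₀ := zz_pos μ h0.le h1
  have hz1 : z₀ ≤ 1 := zz_le_one μ h0.le h1.le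
  have hpsi : psi μ z₀ = 1 / p₀ := h.psi_zz hk₀ hμ h0 h1 hp
  have hza : z₀ = 1 - p₀ * a₀ := rfl
  have hgf : gf μ z₀ = 1 - a₀ := by
    have := h.annealed_eq h0.le h1.le
    rw [hza]
    linarith
  -- choice of `x₁`
  have hLz : p₀ ^ 2 * LL μ z₀ < 1 := by
    have h2 := h.LL_le_psi hz0.le hz1
    rw [hpsi] at h2
    calc p₀ ^ 2 * LL μ z₀ ≤ p₀ ^ 2 * (1 / p₀) := by gcongr
      _ = p₀ := by field_simp
      _ < 1 := h1
  have hLcont : ContinuousWithinAt (fun x => p₀ ^ 2 * LL μ x) (Set.Icc 0 R) z₀ :=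
    (h.continuousOn_LL z₀ ⟨hz0.le, hz1.trans hR.le⟩).const_mul _ |>.congr (fun _ _ => rfl) rfl
  obtain ⟨x₁, hx₁, hx₁R, hLx⟩ : ∃ x₁, z₀ < x₁ ∧ x₁ < R ∧ p₀ ^ 2 * LL μ x₁ < 1 := by
    have h2 : ∀ᶠ x in 𝓝[Set.Icc 0 R] z₀, p₀ ^ 2 * LL μ x < 1 :=
      hLcont.tendsto.eventually (gt_mem_nhds hLz)
    have h3 : ∀ᶠ x in 𝓝[>] z₀, p₀ ^ 2 * LL μ x < 1 := by
      have h4 : 𝓝[Set.Ioo z₀ R] z₀ ≤ 𝓝[Set.Icc 0 R] z₀ :=
        nhdsWithin_mono _ fun x hx => ⟨hz0.le.trans hx.1.le, hx.2.le⟩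
      have h5 : 𝓝[>] z₀ = 𝓝[Set.Ioo z₀ R] z₀ :=
        (nhdsWithin_Ioo_eq_nhdsGT (hz1.trans_lt hR)).symm
      rw [h5]
      exact h4 h2
    have h6 : ∀ᶠ x in 𝓝[>] z₀, x ∈ Set.Ioo z₀ R := Ioo_mem_nhdsGT (hz1.trans_lt hR)
    obtain ⟨x, hx1, hx2⟩ := (h3.and h6).exists
    exact ⟨x, hx2.1, hx2.2, hx1⟩
  have hx0 : 0 ≤ x₁ := hz0.le.trans hx₁.le
  -- choice of `θ`
  obtain ⟨θ, hθ0, hθ1, hθ⟩ : ∃ θ : ℝ, 0 < θ ∧ θ < 1 ∧ p₀ ^ 2 * LL μ x₁ < θ ^ 2 := by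
    have hL0 : 0 ≤ p₀ ^ 2 * LL μ x₁ := mul_nonneg (by positivity) (LL_nonneg hx0)
    set κ : ℝ := (p₀ ^ 2 * LL μ x₁ + 1) / 2 with hκ
    have hκ0 : 0 < κ := by rw [hκ]; linarith
    have hκ1 : κ < 1 := by rw [hκ]; linarith
    refine ⟨Real.sqrt κ, Real.sqrt_pos.2 hκ0, ?_, ?_⟩
    · rw [Real.sqrt_lt' one_pos]
      simpa using hκ1
    · rw [Real.sq_sqrt hκ0.le, hκ]
      linarith
  -- strict inequality (c2) at `p₀`
  have hc2 : z₀ ^ 2 + p₀ ^ 2 * (gf μ x₁ - (1 - a₀) ^ 2) < x₁ := by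
    have h2 := h.gf_sub_le hz0.le hx₁.le hx₁R.le
    rw [hgf] at h2
    have h3 : p₀ ^ 2 * (gf μ x₁ - (1 - a₀)) ≤ p₀ ^ 2 * LL μ x₁ * (x₁ - z₀) := by
      have := mul_le_mul_of_nonneg_left h2 (sq_nonneg p₀)
      linarith
    have h4 : p₀ ^ 2 * LL μ x₁ * (x₁ - z₀) < x₁ - z₀ := by
      have := mul_lt_mul_of_pos_right hLx (sub_pos.2 hx₁)
      linarith
    have ha01 := annealed_mem μ h0.le h1.le
    have h5 : z₀ ^ 2 + p₀ ^ 2 * ((1 - a₀) - (1 - a₀) ^ 2) ≤ z₀ := by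
      have e : z₀ ^ 2 + p₀ ^ 2 * ((1 - a₀) - (1 - a₀) ^ 2) - z₀ =
          - (p₀ * a₀) * (1 - p₀) := by
        rw [hza]; ring
      have : 0 ≤ p₀ * a₀ * (1 - p₀) := mul_nonneg (mul_nonneg h0.le ha01.1) (by linarith)
      linarith
    nlinarith
  -- the local inverse
  have hball : (z₀ : ℂ) ∈ Metric.ball (0 : ℂ) R := by
    simp [abs_of_pos hz0]
    linarith
  have hball' : Metric.ball (0 : ℂ) R ∈ 𝓝 (z₀ : ℂ) := Metric.isOpen_ball.mem_nhds hball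
  have hana : AnalyticAt ℂ (Psi μ) (z₀ : ℂ) := h.differentiableOn_Psi.analyticAt hball'
  have hd0 : deriv (Psi μ) (z₀ : ℂ) ≠ 0 := h.deriv_Psi_ne hk₀ hμ hz0.le (by linarith)
  have hp0C : (p₀ : ℂ) ≠ 0 := by exact_mod_cast h0.ne'
  have hPsi0 : Psi μ (z₀ : ℂ) = (p₀ : ℂ)⁻¹ := by
    rw [Psi_ofReal, hpsi]
    push_cast
    rw [one_div]
  set g : ℂ → ℂ := hana.hasStrictDerivAt.localInverse _ _ _ hd0 with hg
  have hgana : AnalyticAt ℂ g (p₀ : ℂ)⁻¹ := by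
    rw [← hPsi0]
    exact hana.analyticAt_localInverse hd0
  have hg0 : g (p₀ : ℂ)⁻¹ = z₀ := by
    rw [← hPsi0]
    exact HasStrictFDerivAt.localInverse_apply_image ..
  have hinv : ContinuousAt (fun p : ℂ => p⁻¹) (p₀ : ℂ) := continuousAt_inv₀ hp0C
  have hsana : AnalyticAt ℂ (fun p : ℂ => g p⁻¹) (p₀ : ℂ) :=
    AnalyticAt.fun_comp hgana (analyticAt_inv hp0C)
  have hscont : ContinuousAt (fun p : ℂ => g p⁻¹) (p₀ : ℂ) := hsana.continuousAt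
  set a : ℂ → ℂ := fun p => (1 - g p⁻¹) / p with ha
  have haana : AnalyticAt ℂ a (p₀ : ℂ) := (analyticAt_const.sub hsana).div analyticAt_id hp0C
  have haa₀ : a (p₀ : ℂ) = (a₀ : ℂ) := by
    simp only [ha, hg0]
    rw [hza]
    push_cast
    field_simp
    ring
  -- the conditions
  have e0 : ∀ᶠ p : ℂ in 𝓝 (p₀ : ℂ), p ≠ 0 := isOpen_ne.mem_nhds hp0C
  have e1 : ∀ᶠ p : ℂ in 𝓝 (p₀ : ℂ), AnalyticAt ℂ a p := haana.eventually_analyticAt
  have e2 : ∀ᶠ p : ℂ in 𝓝 (p₀ : ℂ), Psi μ (g p⁻¹) = p⁻¹ := by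
    have h2 : ∀ᶠ w : ℂ in 𝓝 (p₀ : ℂ)⁻¹, Psi μ (g w) = w := by
      rw [← hPsi0]
      exact hana.hasStrictDerivAt.eventually_right_inverse hd0
    exact hinv.eventually h2
  have e3 : ∀ᶠ p : ℂ in 𝓝 (p₀ : ℂ), ‖g p⁻¹‖ < R := by
    have h2 : ContinuousAt (fun p : ℂ => ‖g p⁻¹‖) (p₀ : ℂ) := hscont.norm
    refine h2.eventually (gt_mem_nhds ?_)
    simp only [hg0]
    rw [Complex.norm_real, Real.norm_eq_abs, abs_of_pos hz0]
    linarith
  have e4 : ∀ᶠ p : ℂ in 𝓝 (p₀ : ℂ), ‖1 - p * a p‖ ^ 2 < x₁ := by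
    have h2 : ContinuousAt (fun p : ℂ => ‖1 - p * a p‖ ^ 2) (p₀ : ℂ) :=
      ((continuousAt_const.sub (continuousAt_id.mul haana.continuousAt)).norm).pow 2
    refine h2.eventually (gt_mem_nhds ?_)
    simp only [haa₀]
    have h3 : (1 : ℂ) - p₀ * a₀ = ((z₀ : ℝ) : ℂ) := by
      rw [hza]
      push_cast
      ring
    rw [h3, Complex.norm_real, Real.norm_eq_abs, sq_abs]
    nlinarith
  have e5 : ∀ᶠ p : ℂ in 𝓝 (p₀ : ℂ),
      ‖1 - p * a p‖ ^ 2 + ‖p‖ ^ 2 * (gf μ x₁ - ‖1 - a p‖ ^ 2) < x₁ := by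
    have h2 : ContinuousAt (fun p : ℂ => ‖1 - p * a p‖ ^ 2 +
        ‖p‖ ^ 2 * (gf μ x₁ - ‖1 - a p‖ ^ 2)) (p₀ : ℂ) := by
      have h3 := haana.continuousAt
      exact (((continuousAt_const.sub (continuousAt_id.mul h3)).norm).pow 2).add
        ((continuousAt_id.norm.pow 2).mul (continuousAt_const.sub
          ((continuousAt_const.sub h3).norm.pow 2)))
    refine h2.eventually (gt_mem_nhds ?_)
    simp only [haa₀]
    have h3 : (1 : ℂ) - p₀ * a₀ = ((z₀ : ℝ) : ℂ) := by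
      rw [hza]
      push_cast
      ring
    have h4 : (1 : ℂ) - a₀ = ((1 - a₀ : ℝ) : ℂ) := by push_cast; ring
    rw [h3, h4, Complex.norm_real, Complex.norm_real, Complex.norm_real, Real.norm_eq_abs,
      Real.norm_eq_abs, Real.norm_eq_abs, sq_abs, sq_abs, sq_abs]
    exact hc2
  have e6 : ∀ᶠ p : ℂ in 𝓝 (p₀ : ℂ), ‖p‖ ^ 2 * LL μ x₁ < θ ^ 2 := by
    have h2 : ContinuousAt (fun p : ℂ => ‖p‖ ^ 2 * LL μ x₁) (p₀ : ℂ) :=
      (continuousAt_id.norm.pow 2).mul continuousAt_const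
    refine h2.eventually (gt_mem_nhds ?_)
    simp only [Complex.norm_real, Real.norm_eq_abs, sq_abs]
    exact hθ
  have e7 : ∀ᶠ p : ℂ in 𝓝 (p₀ : ℂ), ∀ q : ℝ, (q : ℂ) = p → 0 < q → q < 1 →
      1 / q ≤ psi μ 1 → g p⁻¹ = (zz μ q : ℂ) := by
    have h2 : ∀ᶠ z : ℂ in 𝓝 (z₀ : ℂ), g (Psi μ z) = z :=
      hana.hasStrictDerivAt.eventually_left_inverse hd0
    obtain ⟨ε, hε, hball2⟩ := Metric.eventually_nhds_iff_ball.1 h2
    have h3 : ∀ᶠ p : ℂ in 𝓝 (p₀ : ℂ), ‖p⁻¹ - (p₀ : ℂ)⁻¹‖ < (μ k₀).toReal * ε := by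
      have h4 : ContinuousAt (fun p : ℂ => ‖p⁻¹ - (p₀ : ℂ)⁻¹‖) (p₀ : ℂ) :=
        (hinv.sub continuousAt_const).norm
      refine h4.eventually (gt_mem_nhds ?_)
      simp only [sub_self, norm_zero]
      positivity
    filter_upwards [h3] with p hp3 q hq hq0 hq1 hqp
    subst hq
    have h5 := h.zz_lip hk₀ hμ hq0 hq1 hqp h0 h1 hp
    have h6 : ‖(q : ℂ)⁻¹ - (p₀ : ℂ)⁻¹‖ = |1 / q - 1 / p₀| := by
      rw [← Complex.ofReal_inv, ← Complex.ofReal_inv, ← Complex.ofReal_sub, Complex.norm_real,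
        Real.norm_eq_abs, one_div, one_div]
    rw [h6] at hp3
    have h7 : |zz μ q - z₀| < ε := by
      have h8 : (μ k₀).toReal * |zz μ q - z₀| < (μ k₀).toReal * ε := lt_of_le_of_lt h5 hp3
      exact lt_of_mul_lt_mul_left h8 hc.le
    have h8 := hball2 (zz μ q : ℂ) (by
      rw [Metric.mem_ball, dist_eq_norm, ← Complex.ofReal_sub, Complex.norm_real,
        Real.norm_eq_abs]
      exact h7)
    rw [Psi_ofReal, h.psi_zz hk₀ hμ hq0 hq1 hqp] at h8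
    rw [← h8]
    congr 1
    push_cast
    rw [one_div]
  obtain ⟨ρ', hρ', hall⟩ := Metric.eventually_nhds_iff_ball.1
    (e0.and (e1.and (e2.and (e3.and (e4.and (e5.and (e6.and e7)))))))
  have hρle : ∀ p ∈ Metric.ball (p₀ : ℂ) (min ρ' (p₀ / 2)), p ∈ Metric.ball (p₀ : ℂ) ρ' :=
    fun p hp => Metric.ball_subset_ball (min_le_left _ _) hp
  have hpap : ∀ p : ℂ, p ≠ 0 → 1 - p * a p = g p⁻¹ := by
    intro p hp
    simp only [ha]
    field_simp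
    ring
  refine ⟨min ρ' (p₀ / 2), θ, x₁, a, ⟨lt_min hρ' (by linarith), ?_, hθ0, hθ1, hx0, hx₁R, ?_, ?_,
    ?_, ?_, ?_, ?_⟩⟩
  · exact lt_of_le_of_lt (min_le_right _ _) (by linarith)
  · intro p hp
    exact (hall p (hρle p hp)).2.1.differentiableAt.differentiableWithinAt
  · intro p hp
    obtain ⟨f0, f1, f2, f3, -⟩ := hall p (hρle p hp)
    have h2 := h.Psi_mul f3.le
    rw [hpap p f0]
    rw [f2] at h2
    have h3 : Phi μ (g p⁻¹) = 1 + p⁻¹ * (g p⁻¹ - 1) := by rw [h2]; ring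
    rw [h3]
    simp only [ha]
    field_simp
    ring
  · intro p hp
    exact (hall p (hρle p hp)).2.2.2.2.1.le
  · intro p hp
    exact (hall p (hρle p hp)).2.2.2.2.2.1.le
  · intro p hp
    exact (hall p (hρle p hp)).2.2.2.2.2.2.1.le
  · intro p hp hpp hp1
    have hmem : (p : ℂ) ∈ Metric.ball (p₀ : ℂ) (min ρ' (p₀ / 2)) := by
      rw [Metric.mem_ball, dist_eq_norm, ← Complex.ofReal_sub, Complex.norm_real,
        Real.norm_eq_abs]
      exact hp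
    have hppos : 0 < p := by
      have h2 : |p - p₀| < p₀ / 2 := lt_of_lt_of_le hp (min_le_right _ _)
      rw [abs_lt] at h2
      linarith
    obtain ⟨f0, f1, f2, f3, f4, f5, f6, f7⟩ := hall p (hρle p hmem)
    have h2 := f7 p rfl hppos hp1 hpp
    simp only [ha]
    rw [h2]
    unfold zz
    have hpC : (p : ℂ) ≠ 0 := by exact_mod_cast hppos.ne'
    push_cast
    field_simp
    ring

end Pool.Agent.R953.Surv
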