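import Mathlib
import Pool.Agent.R953.Surv2

/-!
# Second moments of the iteration on Galton-Watson trees
-/

set_option autoImplicit false

open MeasureTheory ProbabilityTheory Filter
open scoped ENNReal NNReal Topology ComplexConjugate

namespace Pool.Agent.R953.Surv

open Pool.Agent.R953.Branch Pool.Agent.R953.GW Pool.Agent.R953.Boot

variable {μ : PMF ℕ} {R : ℝ}

/-- the iteration `X_{n+1}(T) = 1 - ∏ (1 - p X_n(T_i))` started from the constant `a` -/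
noncomputable def XX (a p : ℂ) : ℕ → (List ℕ → ℕ) → ℂ
  | 0, _ => a
  | n + 1, T => 1 - ∏ i ∈ Finset.range (T []), (1 - p * XX a p n (sub i T))

/-- `Y_n = 1 - p X_n` -/
noncomputable def YY (a p : ℂ) (n : ℕ) (T : List ℕ → ℕ) : ℂ := 1 - p * XX a p n T

/-- the product `Π_n(T) = ∏ Y_n(T_i)` -/
noncomputable def PP {K : Type*} [CommMonoid K] (f : (List ℕ → ℕ) → K) (T : List ℕ → ℕ) : K :=
  ∏ i ∈ Finset.range (T []), f (sub i T)

lemma XX_succ (a p : ℂ) (n : ℕ) (T : List ℕ → ℕ) : XX a p (n + 1) T = 1 - PP (YY a p n) T := rfl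

lemma YY_succ (a p : ℂ) (n : ℕ) (T : List ℕ → ℕ) :
    YY a p (n + 1) T = (1 - p) + p * PP (YY a p n) T := by
  unfold YY
  rw [XX_succ]
  ring_nf
  rfl

lemma measurable_PP {K : Type*} [CommMonoid K] [MeasurableSpace K] [MeasurableMul₂ K]
    {f : (List ℕ → ℕ) → K} (hf : Measurable f) : Measurable (PP f) := by
  have h2 : Measurable (fun T : List ℕ → ℕ => (T [], fun i => sub i T)) :=
    Measurable.prodMk (measurable_pi_apply _) (measurable_pi_lambda _ fun i => measurable_sub i)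
  exact (measurable_prod_range hf).comp h2

lemma measurable_XX (a p : ℂ) (n : ℕ) : Measurable (XX a p n) := by
  induction n with
  | zero => exact measurable_const
  | succ n ih =>
    have h1 : Measurable (YY a p n) := measurable_const.sub (measurable_const.mul ih)
    exact measurable_const.sub (measurable_PP h1)

lemma measurable_YY (a p : ℂ) (n : ℕ) : Measurable (YY a p n) :=
  measurable_const.sub (measurable_const.mul (measurable_XX a p n))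

lemma enorm_prod' {𝕜 : Type*} [RCLike 𝕜] (s : Finset ℕ) (g : ℕ → 𝕜) :
    ‖∏ i ∈ s, g i‖ₑ = ∏ i ∈ s, ‖g i‖ₑ := by
  classical
  induction s using Finset.induction_on with
  | empty => simp
  | insert a s ha ih => rw [Finset.prod_insert ha, Finset.prod_insert ha, enorm_mul, ih]

/-- **Expectation of a product over the children.** -/
lemma EM.integral_PP (h : EM μ R) {𝕜 : Type*} [RCLike 𝕜] {f : (List ℕ → ℕ) → 𝕜}
    (hf : Measurable f) (hint : Integrable f (gw μ)) (hR : ∫ T, ‖f T‖ ∂(gw μ) ≤ R) :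
    Integrable (PP f) (gw μ) ∧
      ∫ T, PP f T ∂(gw μ) = ∑' k, ((μ k).toReal : 𝕜) * (∫ T, f T ∂(gw μ)) ^ k := by
  set F : ℕ × (ℕ → List ℕ → ℕ) → 𝕜 := fun x => ∏ i ∈ Finset.range x.1, f (x.2 i) with hF
  have hFm : Measurable F := measurable_prod_range hf
  set P : Measure (ℕ → List ℕ → ℕ) := Measure.infinitePi (fun _ : ℕ => gw μ) with hP
  have hnorm : ∀ k z, ‖F (k, z)‖ = ∏ i ∈ Finset.range k, ‖f (z i)‖ := by
    intro k z
    simp only [hF]
    rw [norm_prod]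
  have hn0 : 0 ≤ ∫ T, ‖f T‖ ∂(gw μ) := integral_nonneg fun _ => norm_nonneg _
  have hI : ∀ k, ∫ z, ‖F (k, z)‖ ∂P = (∫ T, ‖f T‖ ∂(gw μ)) ^ k := by
    intro k
    simp only [hnorm]
    exact integral_prod_range (gw μ) (f := fun T => ‖f T‖) hf.norm.aestronglyMeasurable k
  have hFk : ∀ k, Integrable (fun z => F (k, z)) P := by
    intro k
    refine ⟨(hFm.comp measurable_prodMk_left).aestronglyMeasurable, ?_⟩
    have hind : iIndepFun (fun (i : ℕ) (z : ℕ → List ℕ → ℕ) => ‖f (z i)‖ₑ) P :=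
      iIndepFun_infinitePi (P := fun _ : ℕ => gw μ) (X := fun _ y => ‖f y‖ₑ) fun _ => hf.enorm
    have h1 : ∫⁻ z, ‖F (k, z)‖ₑ ∂P = ∏ i ∈ Finset.range k, ∫⁻ z, ‖f (z i)‖ₑ ∂P := by
      rw [← lintegral_prod_eq_prod_lintegral_of_indepFun _ _ hind
        fun i => (hf.comp (measurable_pi_apply i)).enorm]
      refine lintegral_congr fun z => ?_
      simp only [hF]
      rw [enorm_prod']
    change ∫⁻ z, ‖F (k, z)‖ₑ ∂P < ⊤
    rw [h1]
    apply ENNReal.prod_lt_top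
    intro i _
    have h2 : ∫⁻ z : ℕ → List ℕ → ℕ, ‖f (z i)‖ₑ ∂P = ∫⁻ T, ‖f T‖ₑ ∂(gw μ) := by
      have h3 : P.map (fun z => z i) = gw μ := Measure.infinitePi_map_eval _ _
      rw [← h3, lintegral_map hf.enorm (measurable_pi_apply i)]
    rw [h2]
    exact hint.2
  have hFint : Integrable F (μ.toMeasure.prod P) := by
    rw [integrable_prod_iff hFm.aestronglyMeasurable]
    refine ⟨Eventually.of_forall hFk, ?_⟩
    simp only [hI]
    refine ⟨(measurable_of_countable _).aestronglyMeasurable, ?_⟩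
    change ∫⁻ k, ‖(∫ T, ‖f T‖ ∂(gw μ)) ^ k‖ₑ ∂μ.toMeasure < ⊤
    rw [lintegral_countable']
    have h1 : ∀ k, ‖(∫ T, ‖f T‖ ∂(gw μ)) ^ k‖ₑ * μ.toMeasure {k} ≤
        ENNReal.ofReal ((μ k).toReal * R ^ k) := by
      intro k
      rw [PMF.toMeasure_apply_singleton _ _ (MeasurableSet.singleton k),
        ENNReal.ofReal_mul ENNReal.toReal_nonneg, ENNReal.ofReal_toReal (μ.apply_ne_top k),
        mul_comm]
      apply mul_le_mul_right
      rw [Real.enorm_eq_ofReal (pow_nonneg hn0 k)]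
      exact ENNReal.ofReal_le_ofReal (pow_le_pow_left₀ hn0 hR k)
    refine lt_of_le_of_lt (ENNReal.tsum_le_tsum h1) ?_
    rw [← ENNReal.ofReal_tsum_of_nonneg _ h.pow]
    · exact ENNReal.ofReal_lt_top
    · intro k
      have := h.one_lt
      positivity
  have hmp := gw_split μ
  have hcomp : PP f = F ∘ (fun T : List ℕ → ℕ => (T [], fun i => sub i T)) := rfl
  refine ⟨?_, ?_⟩
  · rw [hcomp]
    exact hmp.integrable_comp_of_integrable hFint
  · have h1 : ∫ T, PP f T ∂(gw μ) = ∫ x, F x ∂(μ.toMeasure.prod P) := by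
      rw [← hmp.map_eq, integral_map hmp.measurable.aemeasurable hFm.aestronglyMeasurable]
      rfl
    rw [h1, integral_prod _ hFint]
    have h2 : ∀ k, ∫ z, F (k, z) ∂P = (∫ T, f T ∂(gw μ)) ^ k := fun k =>
      integral_prod_range (gw μ) hf.aestronglyMeasurable k
    have h3 : Integrable (fun k : ℕ => (∫ T, f T ∂(gw μ)) ^ k) μ.toMeasure := by
      have := hFint.integral_prod_left
      simpa only [h2] using this
    simp only [h2]
    rw [PMF.integral_eq_tsum _ _ h3]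
    refine tsum_congr fun k => ?_
    rw [RCLike.real_smul_eq_coe_mul]

/-! ### Square integrable functions -/

section L2

variable {Ω : Type*} [MeasurableSpace Ω] {P : Measure Ω} [IsProbabilityMeasure P]

lemma norm_le_sq (x : ℝ) : x ≤ (1 + x ^ 2) / 2 := by nlinarith [sq_nonneg (x - 1)]

lemma integrable_of_sq {f : Ω → ℂ} (hf : Measurable f) (h2 : Integrable (fun ω => ‖f ω‖ ^ 2) P) :
    Integrable f P := by
  refine Integrable.mono' (((integrable_const (1 : ℝ)).add h2).div_const 2)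
    hf.aestronglyMeasurable (Eventually.of_forall fun ω => ?_)
  exact norm_le_sq _

lemma integral_norm_le_of_sq {f : Ω → ℂ} (hf : Measurable f)
    (h2 : Integrable (fun ω => ‖f ω‖ ^ 2) P) :
    ∫ ω, ‖f ω‖ ∂P ≤ (1 + ∫ ω, ‖f ω‖ ^ 2 ∂P) / 2 := by
  have h3 : ∫ ω, ‖f ω‖ ∂P ≤ ∫ ω, (1 + ‖f ω‖ ^ 2) / 2 ∂P :=
    integral_mono (integrable_of_sq hf h2).norm (((integrable_const (1 : ℝ)).add h2).div_const 2)
      fun ω => norm_le_sq _
  rw [integral_div, integral_add (integrable_const _) h2] at h3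
  simpa using h3

lemma norm_mul_conj_le (z w : ℂ) : ‖z * conj w‖ ≤ (‖z‖ ^ 2 + ‖w‖ ^ 2) / 2 := by
  rw [norm_mul, RCLike.norm_conj]
  nlinarith [sq_nonneg (‖z‖ - ‖w‖)]

lemma measurable_mul_conj {f g : Ω → ℂ} (hf : Measurable f) (hg : Measurable g) :
    Measurable (fun ω => f ω * conj (g ω)) :=
  hf.mul (Complex.continuous_conj.measurable.comp hg)

omit [IsProbabilityMeasure P] in
lemma integrable_mul_conj {f g : Ω → ℂ} (hf : Measurable f) (hg : Measurable g)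
    (h2 : Integrable (fun ω => ‖f ω‖ ^ 2) P) (h3 : Integrable (fun ω => ‖g ω‖ ^ 2) P) :
    Integrable (fun ω => f ω * conj (g ω)) P :=
  Integrable.mono' ((h2.add h3).div_const 2) (measurable_mul_conj hf hg).aestronglyMeasurable
    (Eventually.of_forall fun _ => norm_mul_conj_le _ _)

omit [IsProbabilityMeasure P] in
lemma integral_norm_mul_conj_le {f g : Ω → ℂ} (hf : Measurable f) (hg : Measurable g)
    (h2 : Integrable (fun ω => ‖f ω‖ ^ 2) P) (h3 : Integrable (fun ω => ‖g ω‖ ^ 2) P) :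
    ∫ ω, ‖f ω * conj (g ω)‖ ∂P ≤ (∫ ω, ‖f ω‖ ^ 2 ∂P + ∫ ω, ‖g ω‖ ^ 2 ∂P) / 2 := by
  have h4 : ∫ ω, ‖f ω * conj (g ω)‖ ∂P ≤ ∫ ω, (‖f ω‖ ^ 2 + ‖g ω‖ ^ 2) / 2 ∂P :=
    integral_mono (integrable_mul_conj hf hg h2 h3).norm ((h2.add h3).div_const 2)
      fun ω => norm_mul_conj_le _ _
  rw [integral_div, integral_add h2 h3] at h4
  exact h4

omit [IsProbabilityMeasure P] in
lemma integral_mul_conj_self (f : Ω → ℂ) :
    ∫ ω, f ω * conj (f ω) ∂P = ((∫ ω, ‖f ω‖ ^ 2 ∂P : ℝ) : ℂ) := by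
  rw [← integral_complex_ofReal]
  refine integral_congr_ae (Eventually.of_forall fun ω => ?_)
  simp only
  rw [Complex.mul_conj, Complex.normSq_eq_norm_sq]

lemma norm_sub_sq' (z w : ℂ) :
    ‖z - w‖ ^ 2 = ‖z‖ ^ 2 + ‖w‖ ^ 2 - 2 * (z * conj w).re := by
  rw [← Complex.normSq_eq_norm_sq, ← Complex.normSq_eq_norm_sq, ← Complex.normSq_eq_norm_sq,
    Complex.normSq_sub]

omit [IsProbabilityMeasure P] in
lemma integral_sub_sq {f g : Ω → ℂ} (hf : Measurable f) (hg : Measurable g)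
    (h2 : Integrable (fun ω => ‖f ω‖ ^ 2) P) (h3 : Integrable (fun ω => ‖g ω‖ ^ 2) P) :
    Integrable (fun ω => ‖f ω - g ω‖ ^ 2) P ∧
    ∫ ω, ‖f ω - g ω‖ ^ 2 ∂P = ∫ ω, ‖f ω‖ ^ 2 ∂P + ∫ ω, ‖g ω‖ ^ 2 ∂P -
      2 * (∫ ω, f ω * conj (g ω) ∂P).re := by
  have hi := integrable_mul_conj hf hg h2 h3
  have hire : Integrable (fun ω => (f ω * conj (g ω)).re) P := hi.re
  have h4 : (∫ ω, f ω * conj (g ω) ∂P).re = ∫ ω, (f ω * conj (g ω)).re ∂P := by
    have := integral_re hi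
    exact this.symm
  simp_rw [norm_sub_sq']
  have h23 : Integrable (fun ω => ‖f ω‖ ^ 2 + ‖g ω‖ ^ 2) P := h2.add h3
  refine ⟨h23.sub (hire.const_mul 2), ?_⟩
  rw [integral_sub h23 (hire.const_mul 2), integral_add h2 h3, integral_const_mul, h4]

lemma cross_expand {f g : Ω → ℂ} (hf : Measurable f) (hg : Measurable g)
    (h2 : Integrable (fun ω => ‖f ω‖ ^ 2) P) (h3 : Integrable (fun ω => ‖g ω‖ ^ 2) P) (q p : ℂ) :
    ∫ ω, (q + p * f ω) * conj (q + p * g ω) ∂P = q * conj q + q * conj p * conj (∫ ω, g ω ∂P) +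
      p * conj q * (∫ ω, f ω ∂P) + p * conj p * ∫ ω, f ω * conj (g ω) ∂P := by
  have hi := integrable_mul_conj hf hg h2 h3
  have hfi := integrable_of_sq hf h2
  have hgi := integrable_of_sq hg h3
  have hgc : Integrable (fun ω => conj (g ω)) P := by
    refine ⟨(Complex.continuous_conj.measurable.comp hg).aestronglyMeasurable, ?_⟩
    have := hgi.2
    unfold HasFiniteIntegral at this ⊢
    simpa using this
  have e : ∀ ω, (q + p * f ω) * conj (q + p * g ω) =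
      (q * conj q + (q * conj p) * conj (g ω)) + ((p * conj q) * f ω +
        (p * conj p) * (f ω * conj (g ω))) := by
    intro ω
    rw [map_add, map_mul]
    ring
  simp_rw [e]
  have k1 : Integrable (fun ω => q * conj q + (q * conj p) * conj (g ω)) P :=
    (integrable_const _).add (hgc.const_mul _)
  have k2 : Integrable (fun ω => (p * conj q) * f ω + (p * conj p) * (f ω * conj (g ω))) P :=
    (hfi.const_mul _).add (hi.const_mul _)
  have j1 : ∫ ω, conj (g ω) ∂P = conj (∫ ω, g ω ∂P) := integral_conj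
  have j2 : ∫ ω, (q * conj q + (q * conj p) * conj (g ω)) ∂P =
      q * conj q + (q * conj p) * conj (∫ ω, g ω ∂P) := by
    rw [integral_add (integrable_const _) (hgc.const_mul _), integral_const_mul (q * conj p), j1]
    simp only [integral_const, probReal_univ, one_smul]
  have j3 : ∫ ω, ((p * conj q) * f ω + (p * conj p) * (f ω * conj (g ω))) ∂P =
      (p * conj q) * ∫ ω, f ω ∂P + (p * conj p) * ∫ ω, f ω * conj (g ω) ∂P := by
    rw [integral_add (hfi.const_mul _) (hi.const_mul _), integral_const_mul, integral_const_mul]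
  rw [integral_add k1 k2, j2, j3]
  ring

end L2

/-! ### The moments of `Y_n` -/

lemma PP_mul_conj (f g : (List ℕ → ℕ) → ℂ) (T : List ℕ → ℕ) :
    PP (fun T => f T * conj (g T)) T = PP f T * conj (PP g T) := by
  unfold PP
  rw [Finset.prod_mul_distrib, map_prod]

lemma PP_norm_sq (f : (List ℕ → ℕ) → ℂ) (T : List ℕ → ℕ) :
    PP (fun T => ‖f T‖ ^ 2) T = ‖PP f T‖ ^ 2 := by
  unfold PP
  rw [norm_prod, Finset.prod_pow]

/-- the conditions on the point `(a, p)` -/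
structure Cond (μ : PMF ℕ) (R θ x₁ : ℝ) (a p : ℂ) : Prop where
  theta_pos : 0 < θ
  theta_lt : θ < 1
  x_nonneg : 0 ≤ x₁
  x_lt : x₁ < R
  p_ne : p ≠ 0
  fix : a = 1 - Phi μ (1 - p * a)
  c1 : ‖1 - p * a‖ ^ 2 ≤ x₁
  c2 : ‖1 - p * a‖ ^ 2 + ‖p‖ ^ 2 * (gf μ x₁ - ‖1 - a‖ ^ 2) ≤ x₁
  c3 : ‖p‖ ^ 2 * LL μ x₁ ≤ θ ^ 2

variable {θ x₁ : ℝ} {a p : ℂ}

lemma EM.gf_sub_le' (h : EM μ R) {x y X : ℝ} (h0 : 0 ≤ x) (hxy : x ≤ y) (hy : y ≤ X)
    (hX : X ≤ R) : gf μ y - gf μ x ≤ LL μ X * (y - x) := by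
  have hy0 := h0.trans hxy
  refine (h.gf_sub_le h0 hxy (hy.trans hX)).trans ?_
  apply mul_le_mul_of_nonneg_right _ (sub_nonneg.2 hxy)
  unfold LL
  refine Summable.tsum_le_tsum (fun k => ?_) (h.summable_LL (abs_le_of hy0 (hy.trans hX)))
    (h.summable_LL (abs_le_of (hy0.trans hy) hX))
  apply mul_le_mul_of_nonneg_left _ ENNReal.toReal_nonneg
  apply mul_le_mul_of_nonneg_left _ (Nat.cast_nonneg k)
  exact pow_le_pow_left₀ hy0 hy _

/-- The properties of a function `Y` which are propagated by the recursion. -/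
structure Mom (μ : PMF ℕ) (x₁ : ℝ) (y₀ : ℂ) (Y : (List ℕ → ℕ) → ℂ) : Prop where
  meas : Measurable Y
  sq : Integrable (fun T => ‖Y T‖ ^ 2) (gw μ)
  mean : ∫ T, Y T ∂(gw μ) = y₀
  le : ∫ T, ‖Y T‖ ^ 2 ∂(gw μ) ≤ x₁

lemma Mom.prod (h : EM μ R) (hc : Cond μ R θ x₁ a p) {Y : (List ℕ → ℕ) → ℂ}
    (hY : Mom μ x₁ (1 - p * a) Y) :
    Measurable (PP Y) ∧ Integrable (fun T => ‖PP Y T‖ ^ 2) (gw μ) ∧
      ∫ T, PP Y T ∂(gw μ) = 1 - a ∧
      ∫ T, ‖PP Y T‖ ^ 2 ∂(gw μ) = gf μ (∫ T, ‖Y T‖ ^ 2 ∂(gw μ)) := by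
  have hR := h.one_lt
  have h1 : ∫ T, ‖Y T‖ ∂(gw μ) ≤ R := by
    have := integral_norm_le_of_sq hY.meas hY.sq
    have := hY.le
    have := hc.x_lt
    linarith
  have h2 := h.integral_PP hY.meas (integrable_of_sq hY.meas hY.sq) h1
  have h3 : ∫ T, ‖‖Y T‖ ^ 2‖ ∂(gw μ) ≤ R := by
    have e : ∀ T, ‖‖Y T‖ ^ 2‖ = ‖Y T‖ ^ 2 := fun T => by
      rw [Real.norm_eq_abs, abs_of_nonneg (sq_nonneg _)]
    simp only [e]
    exact hY.le.trans hc.x_lt.le
  have h4 := h.integral_PP (𝕜 := ℝ) (hY.meas.norm.pow_const 2) hY.sq h3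
  have e : PP (fun T => ‖Y T‖ ^ 2) = fun T => ‖PP Y T‖ ^ 2 := funext fun T => PP_norm_sq Y T
  refine ⟨measurable_PP hY.meas, ?_, ?_, ?_⟩
  · rw [← e]; exact h4.1
  · rw [h2.2, hY.mean]
    have := hc.fix
    change Phi μ (1 - p * a) = 1 - a
    linear_combination this
  · have h5 := h4.2
    rw [e] at h5
    rw [h5]
    rfl

lemma Mom.cross (h : EM μ R) (hc : Cond μ R θ x₁ a p) {Y Z : (List ℕ → ℕ) → ℂ}
    (hY : Mom μ x₁ (1 - p * a) Y) (hZ : Mom μ x₁ (1 - p * a) Z) :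
    ∫ T, PP Y T * conj (PP Z T) ∂(gw μ) = Phi μ (∫ T, Y T * conj (Z T) ∂(gw μ)) := by
  have h1 : ∫ T, ‖Y T * conj (Z T)‖ ∂(gw μ) ≤ R := by
    have := integral_norm_mul_conj_le hY.meas hZ.meas hY.sq hZ.sq
    have := hY.le
    have := hZ.le
    have := hc.x_lt
    linarith
  have h2 := h.integral_PP (measurable_mul_conj hY.meas hZ.meas)
    (integrable_mul_conj hY.meas hZ.meas hY.sq hZ.sq) h1
  have e : PP (fun T => Y T * conj (Z T)) = fun T => PP Y T * conj (PP Z T) :=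
    funext fun T => PP_mul_conj Y Z T
  rw [e] at h2
  rw [h2.2]
  rfl

/-- The scalar product of two functions obtained by one step of the recursion. -/
lemma Mom.cross_succ (h : EM μ R) (hc : Cond μ R θ x₁ a p) {Y Z : (List ℕ → ℕ) → ℂ}
    (hY : Mom μ x₁ (1 - p * a) Y) (hZ : Mom μ x₁ (1 - p * a) Z) :
    ∫ T, ((1 - p) + p * PP Y T) * conj ((1 - p) + p * PP Z T) ∂(gw μ) =
      (1 - p) * conj (1 - p) + (1 - p) * conj p * conj (1 - a) + p * conj (1 - p) * (1 - a) +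
        p * conj p * Phi μ (∫ T, Y T * conj (Z T) ∂(gw μ)) := by
  obtain ⟨m1, s1, i1, -⟩ := Mom.prod h hc hY
  obtain ⟨m2, s2, i2, -⟩ := Mom.prod h hc hZ
  rw [cross_expand m1 m2 s1 s2, i1, i2, Mom.cross h hc hY hZ]

lemma Mom.succ (h : EM μ R) (hc : Cond μ R θ x₁ a p) {Y : (List ℕ → ℕ) → ℂ}
    (hY : Mom μ x₁ (1 - p * a) Y) :
    Mom μ x₁ (1 - p * a) (fun T => (1 - p) + p * PP Y T) := by
  obtain ⟨m1, s1, i1, n1⟩ := Mom.prod h hc hY
  have hmeas : Measurable (fun T => (1 - p) + p * PP Y T) :=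
    measurable_const.add (measurable_const.mul m1)
  have hint := integrable_of_sq m1 s1
  have hsq : Integrable (fun T => ‖(1 - p) + p * PP Y T‖ ^ 2) (gw μ) := by
    refine Integrable.mono' (((integrable_const (2 * ‖1 - p‖ ^ 2)).add (s1.const_mul (2 * ‖p‖ ^ 2))))
      (hmeas.norm.pow_const 2).aestronglyMeasurable (Eventually.of_forall fun T => ?_)
    rw [Real.norm_eq_abs, abs_of_nonneg (sq_nonneg _)]
    have h1 : ‖(1 - p) + p * PP Y T‖ ≤ ‖1 - p‖ + ‖p‖ * ‖PP Y T‖ := by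
      refine (norm_add_le _ _).trans ?_
      rw [norm_mul]
    have h2 := norm_nonneg ((1 - p) + p * PP Y T)
    have h3 : 0 ≤ ‖1 - p‖ := norm_nonneg _
    have h4 : 0 ≤ ‖p‖ * ‖PP Y T‖ := by positivity
    calc ‖(1 - p) + p * PP Y T‖ ^ 2 ≤ (‖1 - p‖ + ‖p‖ * ‖PP Y T‖) ^ 2 :=
          pow_le_pow_left₀ h2 h1 2
      _ ≤ 2 * ‖1 - p‖ ^ 2 + 2 * ‖p‖ ^ 2 * ‖PP Y T‖ ^ 2 := by
          nlinarith [sq_nonneg (‖1 - p‖ - ‖p‖ * ‖PP Y T‖)]
  have hnn : 0 ≤ ∫ T, ‖Y T‖ ^ 2 ∂(gw μ) := integral_nonneg fun _ => sq_nonneg _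
  refine ⟨hmeas, hsq, ?_, ?_⟩
  · rw [integral_add (integrable_const _) (hint.const_mul p), integral_const_mul, i1]
    simp only [integral_const, probReal_univ, one_smul]
    ring
  · have h1 := Mom.cross_succ h hc hY hY
    rw [integral_mul_conj_self, integral_mul_conj_self Y, Phi_ofReal] at h1
    have h2 : ((∫ T, ‖(1 - p) + p * PP Y T‖ ^ 2 ∂(gw μ) : ℝ) : ℂ) =
        ((‖1 - p * a‖ ^ 2 + ‖p‖ ^ 2 * (gf μ (∫ T, ‖Y T‖ ^ 2 ∂(gw μ)) - ‖1 - a‖ ^ 2) : ℝ) : ℂ) := by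
      rw [h1]
      push_cast
      rw [← Complex.mul_conj', ← Complex.mul_conj', ← Complex.mul_conj']
      simp only [map_sub, map_one, map_mul]
      ring
    rw [Complex.ofReal_inj.1 h2]
    have h3 := h.gf_mono hnn hY.le hc.x_lt.le
    have h4 := hc.c2
    have h5 : ‖p‖ ^ 2 * (gf μ (∫ T, ‖Y T‖ ^ 2 ∂(gw μ)) - ‖1 - a‖ ^ 2) ≤
        ‖p‖ ^ 2 * (gf μ x₁ - ‖1 - a‖ ^ 2) := by gcongr
    linarith

lemma mom_YY (h : EM μ R) (hc : Cond μ R θ x₁ a p) (n : ℕ) :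
    Mom μ x₁ (1 - p * a) (YY a p n) := by
  induction n with
  | zero =>
    have e : YY a p 0 = fun _ => 1 - p * a := rfl
    rw [e]
    refine ⟨measurable_const, integrable_const _, by simp, ?_⟩
    simpa using hc.c1
  | succ n ih =>
    have e : YY a p (n + 1) = fun T => (1 - p) + p * PP (YY a p n) T := funext (YY_succ a p n)
    rw [e]
    exact Mom.succ h hc ih

/-- Orthogonality of the increments. -/
lemma cross_YY (h : EM μ R) (hc : Cond μ R θ x₁ a p) (n : ℕ) :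
    ∫ T, YY a p (n + 1) T * conj (YY a p n T) ∂(gw μ) =
      ∫ T, YY a p n T * conj (YY a p n T) ∂(gw μ) := by
  induction n with
  | zero =>
    have e : ∀ T, YY a p 0 T = 1 - p * a := fun _ => rfl
    simp only [e]
    rw [integral_mul_const, (mom_YY h hc 1).mean]
    simp
  | succ n ih =>
    have e1 := Mom.cross_succ h hc (mom_YY h hc (n + 1)) (mom_YY h hc n)
    have e2 := Mom.cross_succ h hc (mom_YY h hc n) (mom_YY h hc n)
    rw [ih] at e1
    rw [← e2] at e1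
    simp only [YY_succ a p (n + 1)]
    simp only [YY_succ a p n] at e1 ⊢
    exact e1

/-- the increments -/
noncomputable def DD (a p : ℂ) (n : ℕ) (T : List ℕ → ℕ) : ℂ := XX a p (n + 1) T - XX a p n T

lemma measurable_DD (a p : ℂ) (n : ℕ) : Measurable (DD a p n) :=
  (measurable_XX a p (n + 1)).sub (measurable_XX a p n)

/-- the second moment of the increments -/
lemma DD_sq (h : EM μ R) (hc : Cond μ R θ x₁ a p) (n : ℕ) :
    Integrable (fun T => ‖DD a p n T‖ ^ 2) (gw μ) ∧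
    ‖p‖ ^ 2 * ∫ T, ‖DD a p n T‖ ^ 2 ∂(gw μ) =
      ∫ T, ‖YY a p (n + 1) T‖ ^ 2 ∂(gw μ) - ∫ T, ‖YY a p n T‖ ^ 2 ∂(gw μ) := by
  have m1 := mom_YY h hc (n + 1)
  have m0 := mom_YY h hc n
  obtain ⟨h1, h2⟩ := integral_sub_sq m1.meas m0.meas m1.sq m0.sq
  have e : ∀ T, ‖YY a p (n + 1) T - YY a p n T‖ ^ 2 = ‖p‖ ^ 2 * ‖DD a p n T‖ ^ 2 := by
    intro T
    have : YY a p (n + 1) T - YY a p n T = -(p * DD a p n T) := by
      unfold YY DD
      ring
    rw [this, norm_neg, norm_mul, mul_pow]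
  simp_rw [e] at h1 h2
  have hp : ‖p‖ ^ 2 ≠ 0 := pow_ne_zero _ (norm_ne_zero_iff.2 hc.p_ne)
  refine ⟨?_, ?_⟩
  · have h3 := h1.const_mul (‖p‖ ^ 2)⁻¹
    refine h3.congr (Eventually.of_forall fun T => ?_)
    simp only
    rw [← mul_assoc, inv_mul_cancel₀ hp, one_mul]
  · rw [← integral_const_mul, h2, cross_YY h hc n, integral_mul_conj_self, Complex.ofReal_re]
    ring

lemma DD_sq_succ (h : EM μ R) (hc : Cond μ R θ x₁ a p) (n : ℕ) :
    ∫ T, ‖DD a p (n + 1) T‖ ^ 2 ∂(gw μ) ≤ θ ^ 2 * ∫ T, ‖DD a p n T‖ ^ 2 ∂(gw μ) := by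
  have m1 := mom_YY h hc (n + 1)
  have m0 := mom_YY h hc n
  obtain ⟨p1, s1, i1, n1⟩ := Mom.prod h hc m1
  obtain ⟨p0, s0, i0, n0⟩ := Mom.prod h hc m0
  have hX : ∀ T, DD a p (n + 1) T = PP (YY a p n) T - PP (YY a p (n + 1)) T := by
    intro T
    unfold DD
    rw [XX_succ, XX_succ]
    ring
  simp_rw [hX]
  obtain ⟨-, h2⟩ := integral_sub_sq p0 p1 s0 s1
  have hcross : ∫ T, PP (YY a p n) T * conj (PP (YY a p (n + 1)) T) ∂(gw μ) =
      ((gf μ (∫ T, ‖YY a p n T‖ ^ 2 ∂(gw μ)) : ℝ) : ℂ) := by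
    rw [Mom.cross h hc m0 m1]
    have h3 : ∫ T, YY a p n T * conj (YY a p (n + 1) T) ∂(gw μ) =
        conj (∫ T, YY a p (n + 1) T * conj (YY a p n T) ∂(gw μ)) := by
      rw [← integral_conj]
      refine integral_congr_ae (Eventually.of_forall fun T => ?_)
      simp only [map_mul, Complex.conj_conj]
      ring
    rw [h3, cross_YY h hc n, integral_mul_conj_self, Complex.conj_ofReal, Phi_ofReal]
  rw [h2, n0, n1, hcross, Complex.ofReal_re]
  have hd := (DD_sq h hc n).2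
  have hnn : 0 ≤ ∫ T, ‖DD a p n T‖ ^ 2 ∂(gw μ) := integral_nonneg fun _ => sq_nonneg _
  have hle : ∫ T, ‖YY a p n T‖ ^ 2 ∂(gw μ) ≤ ∫ T, ‖YY a p (n + 1) T‖ ^ 2 ∂(gw μ) := by
    have : 0 ≤ ‖p‖ ^ 2 * ∫ T, ‖DD a p n T‖ ^ 2 ∂(gw μ) := by positivity
    linarith
  have h4 := h.gf_sub_le' (integral_nonneg fun _ => sq_nonneg _) hle m1.le hc.x_lt.le
  rw [← hd] at h4
  have h5 : LL μ x₁ * (‖p‖ ^ 2 * ∫ T, ‖DD a p n T‖ ^ 2 ∂(gw μ)) ≤
      θ ^ 2 * ∫ T, ‖DD a p n T‖ ^ 2 ∂(gw μ) := by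
    calc LL μ x₁ * (‖p‖ ^ 2 * ∫ T, ‖DD a p n T‖ ^ 2 ∂(gw μ)) =
        (‖p‖ ^ 2 * LL μ x₁) * ∫ T, ‖DD a p n T‖ ^ 2 ∂(gw μ) := by ring
      _ ≤ _ := mul_le_mul_of_nonneg_right hc.c3 hnn
  linarith

/-- **Exponential decay of the increments.** -/
theorem integral_DD_le (h : EM μ R) (hc : Cond μ R θ x₁ a p) (n : ℕ) :
    Integrable (DD a p n) (gw μ) ∧
      ∫ T, ‖DD a p n T‖ ∂(gw μ) ≤ θ ^ n * ((1 + x₁ / ‖p‖ ^ 2) / 2) := by
  have hθ := hc.theta_pos
  have hp : 0 < ‖p‖ ^ 2 := by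
    have := norm_pos_iff.2 hc.p_ne
    positivity
  have hE0 : ∫ T, ‖DD a p 0 T‖ ^ 2 ∂(gw μ) ≤ x₁ / ‖p‖ ^ 2 := by
    rw [le_div_iff₀ hp]
    have h1 := (DD_sq h hc 0).2
    have h2 := (mom_YY h hc 1).le
    have h3 : 0 ≤ ∫ T, ‖YY a p 0 T‖ ^ 2 ∂(gw μ) := integral_nonneg fun _ => sq_nonneg _
    linarith
  have hEn : ∀ n, ∫ T, ‖DD a p n T‖ ^ 2 ∂(gw μ) ≤ (θ ^ 2) ^ n * (x₁ / ‖p‖ ^ 2) := by
    intro n
    induction n with
    | zero => simpa using hE0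
    | succ n ih =>
      refine (DD_sq_succ h hc n).trans ?_
      rw [show (θ ^ 2) ^ (n + 1) = θ ^ 2 * (θ ^ 2) ^ n by ring]
      have := mul_le_mul_of_nonneg_left ih (sq_nonneg θ)
      linarith
  have hsq := (DD_sq h hc n).1
  have hint := integrable_of_sq (measurable_DD a p n) hsq
  refine ⟨hint, ?_⟩
  have hθn : 0 < θ ^ n := pow_pos hθ n
  have h1 : ∀ x : ℝ, x ≤ (θ ^ n + x ^ 2 / θ ^ n) / 2 := by
    intro x
    have h2 : θ ^ n + x ^ 2 / θ ^ n - 2 * x = (θ ^ n - x) ^ 2 / θ ^ n := by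
      field_simp
      ring
    have h3 : 0 ≤ (θ ^ n - x) ^ 2 / θ ^ n := by positivity
    linarith
  have h2 : ∫ T, ‖DD a p n T‖ ∂(gw μ) ≤ ∫ T, (θ ^ n + ‖DD a p n T‖ ^ 2 / θ ^ n) / 2 ∂(gw μ) :=
    integral_mono hint.norm (((integrable_const (θ ^ n)).add (hsq.div_const (θ ^ n))).div_const 2)
      fun T => h1 _
  rw [integral_div, integral_add (integrable_const _) (hsq.div_const _), integral_div] at h2
  simp only [integral_const, probReal_univ, one_smul] at h2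
  refine h2.trans ?_
  have h3 : (∫ T, ‖DD a p n T‖ ^ 2 ∂(gw μ)) / θ ^ n ≤ θ ^ n * (x₁ / ‖p‖ ^ 2) := by
    rw [div_le_iff₀ hθn]
    have h4 := hEn n
    have h5 : (θ ^ 2) ^ n = θ ^ n * θ ^ n := by
      rw [← pow_mul, ← pow_add]
      congr 1
      ring
    rw [h5] at h4
    linarith
  linarith

end Pool.Agent.R953.Surv
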