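import Mathlib
import Pool.Agent.R953.Surv3

/-!
# Almost sure convergence of the iteration on a complex neighbourhood
-/

set_option autoImplicit false

open MeasureTheory ProbabilityTheory Filter
open scoped ENNReal NNReal Topology ComplexConjugate

namespace Pool.Agent.R953.Surv

open Pool.Agent.R953.Branch Pool.Agent.R953.GW Pool.Agent.R953.Boot

variable {μ : PMF ℕ} {R : ℝ} {p₀ ρ θ x₁ : ℝ} {a : ℂ → ℂ}

lemma Good.norm_ge (g : Good μ R p₀ ρ θ x₁ a) {p : ℂ} (hp : p ∈ Metric.ball (p₀ : ℂ) ρ) :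
    p₀ - ρ < ‖p‖ := by
  have h1 := g.rho_pos
  have h2 := g.rho_lt
  rw [Metric.mem_ball, dist_eq_norm] at hp
  have h3 : ‖(p₀ : ℂ)‖ = p₀ := by
    rw [Complex.norm_real, Real.norm_eq_abs, abs_of_pos (by linarith)]
  have h4 : ‖(p₀ : ℂ)‖ ≤ ‖p‖ + ‖p - p₀‖ := by
    calc ‖(p₀ : ℂ)‖ = ‖p - (p - p₀)‖ := by congr 1; ring
      _ ≤ ‖p‖ + ‖p - p₀‖ := norm_sub_le _ _
  linarith

lemma Good.cond (g : Good μ R p₀ ρ θ x₁ a) {p : ℂ} (hp : p ∈ Metric.ball (p₀ : ℂ) ρ) :
    Cond μ R θ x₁ (a p) p where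
  theta_pos := g.theta_pos
  theta_lt := g.theta_lt
  x_nonneg := g.x_nonneg
  x_lt := g.x_lt
  p_ne := by
    have h1 := g.norm_ge hp
    have h2 := g.rho_lt
    rw [← norm_pos_iff]
    linarith
  fix := g.fix p hp
  c1 := g.c1 p hp
  c2 := g.c2 p hp
  c3 := g.c3 p hp

/-- the constant in the exponential decay -/
noncomputable def KK (p₀ ρ x₁ : ℝ) : ℝ := (1 + x₁ / (p₀ - ρ) ^ 2) / 2

lemma Good.decay (h : EM μ R) (g : Good μ R p₀ ρ θ x₁ a) {p : ℂ}
    (hp : p ∈ Metric.ball (p₀ : ℂ) ρ) (n : ℕ) :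
    ∫⁻ T, ‖DD (a p) p n T‖ₑ ∂(gw μ) ≤ ENNReal.ofReal (θ ^ n * KK p₀ ρ x₁) := by
  obtain ⟨h1, h2⟩ := integral_DD_le h (g.cond hp) n
  rw [← ofReal_integral_norm_eq_lintegral_enorm h1]
  apply ENNReal.ofReal_le_ofReal
  refine h2.trans ?_
  have h3 := g.norm_ge hp
  have h4 := g.rho_lt
  have h5 := g.x_nonneg
  have h6 : 0 < (p₀ - ρ) ^ 2 := by
    have : 0 < p₀ - ρ := by linarith
    positivity
  have h7 : (p₀ - ρ) ^ 2 ≤ ‖p‖ ^ 2 := pow_le_pow_left₀ (by linarith) h3.le 2
  unfold KK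
  have h8 : x₁ / ‖p‖ ^ 2 ≤ x₁ / (p₀ - ρ) ^ 2 := div_le_div_of_nonneg_left h5 h6 h7
  have h9 : 0 ≤ θ ^ n := pow_nonneg g.theta_pos.le n
  exact mul_le_mul_of_nonneg_left (by linarith) h9

/-- joint measurability -/
lemma measurable_XX_joint {α β : ℝ → ℂ} (hα : Measurable α) (hβ : Measurable β) (n : ℕ) :
    Measurable (fun x : (List ℕ → ℕ) × ℝ => XX (α x.2) (β x.2) n x.1) := by
  induction n with
  | zero => exact hα.comp measurable_snd
  | succ n ih =>
    set f : (List ℕ → ℕ) × ℝ → ℂ := fun x => 1 - β x.2 * XX (α x.2) (β x.2) n x.1 with hf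
    have hfm : Measurable f :=
      measurable_const.sub ((hβ.comp measurable_snd).mul ih)
    have h1 : Measurable (fun x : (List ℕ → ℕ) × ℝ => (x.1 [], fun i : ℕ => (sub i x.1, x.2))) := by
      refine Measurable.prodMk ((measurable_pi_apply _).comp measurable_fst) ?_
      exact measurable_pi_lambda _ fun i =>
        ((measurable_sub i).comp measurable_fst).prodMk measurable_snd
    have h2 := (measurable_prod_range hfm).comp h1
    exact measurable_const.sub h2

lemma measurable_DD_joint {α β : ℝ → ℂ} (hα : Measurable α) (hβ : Measurable β) (n : ℕ) :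
    Measurable (fun x : (List ℕ → ℕ) × ℝ => DD (α x.2) (β x.2) n x.1) :=
  (measurable_XX_joint hα hβ (n + 1)).sub (measurable_XX_joint hα hβ n)

lemma Good.diff_XX (g : Good μ R p₀ ρ θ x₁ a) (n : ℕ) :
    ∀ T : List ℕ → ℕ, DifferentiableOn ℂ (fun w => XX (a w) w n T) (Metric.ball (p₀ : ℂ) ρ) := by
  induction n with
  | zero => intro T; exact g.diff
  | succ n ih =>
    intro T
    have h1 : ∀ i : ℕ, DifferentiableOn ℂ (fun w => 1 - w * XX (a w) w n (sub i T))
        (Metric.ball (p₀ : ℂ) ρ) := fun i =>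
      (differentiableOn_const 1).sub (differentiableOn_id.mul (ih (sub i T)))
    change DifferentiableOn ℂ (fun w => 1 - ∏ i ∈ Finset.range (T []),
      (1 - w * XX (a w) w n (sub i T))) (Metric.ball (p₀ : ℂ) ρ)
    refine (differentiableOn_const 1).sub ?_
    exact DifferentiableOn.fun_finsetProd fun i _ => h1 i

lemma Good.diff_DD (g : Good μ R p₀ ρ θ x₁ a) (n : ℕ) (T : List ℕ → ℕ) :
    DifferentiableOn ℂ (fun w => DD (a w) w n T) (Metric.ball (p₀ : ℂ) ρ) :=
  (g.diff_XX (n + 1) T).sub (g.diff_XX n T)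

/-- Cauchy estimate -/
lemma cauchy_est {f : ℂ → ℂ} {c : ℂ} {r ρ : ℝ} (hr : 0 < r) (hrρ : r < ρ)
    (hf : DifferentiableOn ℂ f (Metric.ball c ρ)) {w : ℂ} (hw : w ∈ Metric.ball c (r / 2)) :
    ‖f w‖ ≤ ∫ t in (0 : ℝ)..(2 * Real.pi), ‖f (circleMap c r t)‖ := by
  have hsub : Metric.closedBall c r ⊆ Metric.ball c ρ := Metric.closedBall_subset_ball hrρ
  have hdc : DiffContOnCl ℂ f (Metric.ball c r) := by
    refine ⟨hf.mono (Metric.ball_subset_closedBall.trans hsub), ?_⟩
    rw [closure_ball c hr.ne']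
    exact hf.continuousOn.mono hsub
  have hwr : w ∈ Metric.ball c r := Metric.ball_subset_ball (by linarith) hw
  have h1 := hdc.circleIntegral_sub_inv_smul hwr
  have hcont : Continuous (fun t : ℝ => f (circleMap c r t)) := by
    refine hf.continuousOn.comp_continuous (continuous_circleMap c r) fun t => ?_
    exact hsub (circleMap_mem_closedBall c hr.le t)
  have h2 : ‖∮ z in C(c, r), (z - w)⁻¹ • f z‖ ≤
      ∫ t in (0 : ℝ)..(2 * Real.pi), 2 * ‖f (circleMap c r t)‖ := by
    unfold circleIntegral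
    have hpi : (0 : ℝ) ≤ 2 * Real.pi := by positivity
    refine (intervalIntegral.norm_integral_le_of_norm_le hpi ?_ ?_)
    · refine Eventually.of_forall fun t _ => ?_
      rw [norm_smul, norm_smul, deriv_circleMap, norm_inv]
      have h3 : ‖circleMap 0 r t * Complex.I‖ = r := by
        simp [abs_of_pos hr]
      rw [h3]
      have h4 : r / 2 ≤ ‖circleMap c r t - w‖ := by
        rw [Metric.mem_ball, dist_eq_norm] at hw
        have h5 : ‖circleMap c r t - c‖ = r := by
          simp [abs_of_pos hr]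
        have h6 : ‖circleMap c r t - c‖ ≤ ‖circleMap c r t - w‖ + ‖w - c‖ := by
          calc ‖circleMap c r t - c‖ = ‖(circleMap c r t - w) + (w - c)‖ := by congr 1; ring
            _ ≤ _ := norm_add_le _ _
        linarith
      have h7 : ‖circleMap c r t - w‖⁻¹ ≤ (r / 2)⁻¹ := inv_anti₀ (by linarith) h4
      calc r * (‖circleMap c r t - w‖⁻¹ * ‖f (circleMap c r t)‖)
          ≤ r * ((r / 2)⁻¹ * ‖f (circleMap c r t)‖) := by gcongr
        _ = 2 * ‖f (circleMap c r t)‖ := by field_simp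
    · exact (continuous_const.mul hcont.norm).intervalIntegrable _ _
  rw [h1, intervalIntegral.integral_const_mul, norm_smul] at h2
  have h3 : ‖(2 * Real.pi * Complex.I : ℂ)‖ = 2 * Real.pi := by
    simp [abs_of_pos Real.pi_pos]
  rw [h3] at h2
  have h4 : Real.pi * ‖f w‖ ≤ ∫ t in (0 : ℝ)..(2 * Real.pi), ‖f (circleMap c r t)‖ := by
    linarith
  have h5 : ‖f w‖ ≤ Real.pi * ‖f w‖ := by
    have := Real.pi_gt_three
    nlinarith [norm_nonneg (f w)]
  exact h5.trans h4

/-- **Almost sure convergence** on a complex ball around `p₀`. -/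
theorem Good.ae_conv (h : EM μ R) (g : Good μ R p₀ ρ θ x₁ a) :
    ∀ᵐ T ∂(gw μ), ∃ G : ℂ → ℂ, DifferentiableOn ℂ G (Metric.ball (p₀ : ℂ) (ρ / 4)) ∧
      ∀ w ∈ Metric.ball (p₀ : ℂ) (ρ / 4), Tendsto (fun n => XX (a w) w n T) atTop (𝓝 (G w)) := by
  have hρ := g.rho_pos
  set r : ℝ := ρ / 2 with hr
  have hr0 : 0 < r := by linarith
  have hrρ : r < ρ := by linarith
  set c : ℝ → ℂ := circleMap (p₀ : ℂ) r with hc
  have hcball : ∀ t, c t ∈ Metric.ball (p₀ : ℂ) ρ := fun t =>
    Metric.closedBall_subset_ball hrρ (circleMap_mem_closedBall _ hr0.le t)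
  have hcm : Measurable c := (continuous_circleMap _ _).measurable
  have hacont : Continuous (fun t => a (c t)) :=
    g.diff.continuousOn.comp_continuous (continuous_circleMap _ _) hcball
  have hac : Measurable (fun t => a (c t)) := hacont.measurable
  set ν : Measure ℝ := volume.restrict (Set.Ioc 0 (2 * Real.pi)) with hν
  set u : ℕ → (List ℕ → ℕ) → ℝ≥0∞ := fun n T => ∫⁻ t, ‖DD (a (c t)) (c t) n T‖ₑ ∂ν with hu
  have hjm : ∀ n, Measurable (fun x : (List ℕ → ℕ) × ℝ => ‖DD (a (c x.2)) (c x.2) n x.1‖ₑ) :=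
    fun n => (measurable_DD_joint hac hcm n).enorm
  have hum : ∀ n, Measurable (u n) := fun n => (hjm n).lintegral_prod_right'
  have hKK : 0 ≤ KK p₀ ρ x₁ := by
    unfold KK
    have := g.x_nonneg
    positivity
  have hfin : ∫⁻ T, ∑' n, u n T ∂(gw μ) ≠ ⊤ := by
    rw [lintegral_tsum fun n => (hum n).aemeasurable]
    have h1 : ∀ n, ∫⁻ T, u n T ∂(gw μ) ≤ ENNReal.ofReal (θ ^ n * KK p₀ ρ x₁) * ν Set.univ := by
      intro n
      simp only [hu]
      rw [lintegral_lintegral_swap (hjm n).aemeasurable, ← lintegral_const]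
      exact lintegral_mono fun t => g.decay h (hcball t) n
    have h2 : ν Set.univ ≠ ⊤ := by
      rw [hν, Measure.restrict_apply_univ, Real.volume_Ioc]
      exact ENNReal.ofReal_ne_top
    have h3 : ∑' n, ENNReal.ofReal (θ ^ n * KK p₀ ρ x₁) * ν Set.univ ≠ ⊤ := by
      rw [ENNReal.tsum_mul_right, ← ENNReal.ofReal_tsum_of_nonneg]
      · exact ENNReal.mul_ne_top ENNReal.ofReal_ne_top h2
      · intro n
        have := g.theta_pos
        positivity
      · exact (summable_geometric_of_lt_one g.theta_pos.le g.theta_lt).mul_right _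
    exact ne_top_of_le_ne_top h3 (ENNReal.tsum_le_tsum h1)
  have hae := ae_lt_top (Measurable.tsum hum) hfin
  filter_upwards [hae] with T hT
  have hun : ∀ n, u n T ≠ ⊤ := fun n => ne_top_of_le_ne_top hT.ne (ENNReal.le_tsum n)
  have hsum : Summable fun n => (u n T).toReal := ENNReal.summable_toReal hT.ne
  have hbound : ∀ n, ∀ w ∈ Metric.ball (p₀ : ℂ) (ρ / 4), ‖DD (a w) w n T‖ ≤ (u n T).toReal := by
    intro n w hw
    have hw' : w ∈ Metric.ball (p₀ : ℂ) (r / 2) := by
      have : r / 2 = ρ / 4 := by rw [hr]; ring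
      rwa [this]
    refine (cauchy_est hr0 hrρ (g.diff_DD n T) hw').trans ?_
    have hcont : Continuous (fun t => DD (a (c t)) (c t) n T) :=
      (g.diff_DD n T).continuousOn.comp_continuous (continuous_circleMap _ _) hcball
    rw [intervalIntegral.integral_of_le (by positivity)]
    have h1 : ∫ t in Set.Ioc 0 (2 * Real.pi), ‖DD (a (c t)) (c t) n T‖ = (u n T).toReal := by
      simp only [hu]
      rw [← integral_norm_eq_lintegral_enorm hcont.aestronglyMeasurable]
    exact h1.le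
  refine ⟨fun w => a w + ∑' n, DD (a w) w n T, ?_, ?_⟩
  · have hsubset : Metric.ball (p₀ : ℂ) (ρ / 4) ⊆ Metric.ball (p₀ : ℂ) ρ :=
      Metric.ball_subset_ball (by linarith)
    refine (g.diff.mono hsubset).add ?_
    exact Complex.differentiableOn_tsum_of_summable_norm hsum
      (fun n => (g.diff_DD n T).mono hsubset) Metric.isOpen_ball hbound
  · intro w hw
    have hs : Summable fun n => DD (a w) w n T :=
      Summable.of_norm_bounded hsum fun n => hbound n w hw
    have h1 := hs.hasSum.tendsto_sum_nat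
    have h2 : ∀ n, ∑ k ∈ Finset.range n, DD (a w) w k T = XX (a w) w n T - a w := by
      intro n
      unfold DD
      rw [Finset.sum_range_sub (fun k => XX (a w) w k T)]
      rfl
    simp only [h2] at h1
    have h3 := h1.const_add (a w)
    refine h3.congr fun n => ?_
    ring

end Pool.Agent.R953.Surv
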