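import Mathlib
import Pool.Agent.R953.Surv4

/-!
# Identification of the limit with the quenched survival function
-/

set_option autoImplicit false

open MeasureTheory ProbabilityTheory Filter
open scoped ENNReal NNReal Topology ComplexConjugate

namespace Pool.Agent.R953.Surv

open Pool.Agent.R953.Branch Pool.Agent.R953.GW Pool.Agent.R953.Boot

variable {μ : PMF ℕ} {R : ℝ} {p₀ ρ θ x₁ : ℝ} {a : ℂ → ℂ}

/-- the real iteration -/
noncomputable def AR (a p : ℝ) : ℕ → (List ℕ → ℕ) → ℝ
  | 0, _ => a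
  | n + 1, T => 1 - ∏ i ∈ Finset.range (T []), (1 - p * AR a p n (sub i T))

lemma AR_ofReal (a p : ℝ) (n : ℕ) : ∀ T, XX (a : ℂ) (p : ℂ) n T = ((AR a p n T : ℝ) : ℂ) := by
  induction n with
  | zero => intro T; rfl
  | succ n ih =>
    intro T
    change 1 - ∏ i ∈ Finset.range (T []), (1 - (p : ℂ) * XX (a : ℂ) (p : ℂ) n (sub i T)) =
      ((1 - ∏ i ∈ Finset.range (T []), (1 - p * AR a p n (sub i T)) : ℝ) : ℂ)
    push_cast
    simp only [ih]

lemma AR_mem {a p : ℝ} (ha0 : 0 ≤ a) (ha1 : a ≤ 1) (hp0 : 0 ≤ p) (hp1 : p ≤ 1) (n : ℕ) :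
    ∀ T, 0 ≤ AR a p n T ∧ AR a p n T ≤ A p n T := by
  induction n with
  | zero => intro T; exact ⟨ha0, ha1⟩
  | succ n ih =>
    intro T
    have h1 : ∀ i, 0 ≤ 1 - p * A p n (sub i T) := by
      intro i
      have := A_mem hp0 hp1 n (sub i T)
      nlinarith
    have h2 : ∀ i, 1 - p * A p n (sub i T) ≤ 1 - p * AR a p n (sub i T) := by
      intro i
      have := mul_le_mul_of_nonneg_left (ih (sub i T)).2 hp0
      linarith
    have h3 : ∀ i, 1 - p * AR a p n (sub i T) ≤ 1 := by
      intro i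
      have := mul_nonneg hp0 (ih (sub i T)).1
      linarith
    constructor
    · change 0 ≤ 1 - ∏ i ∈ Finset.range (T []), (1 - p * AR a p n (sub i T))
      have := Finset.prod_le_one (s := Finset.range (T []))
        (f := fun i => 1 - p * AR a p n (sub i T)) (fun i _ => (h1 i).trans (h2 i))
        (fun i _ => h3 i)
      linarith
    · change 1 - ∏ i ∈ Finset.range (T []), (1 - p * AR a p n (sub i T)) ≤
        1 - ∏ i ∈ Finset.range (T []), (1 - p * A p n (sub i T))
      have := Finset.prod_le_prod (s := Finset.range (T []))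
        (f := fun i => 1 - p * A p n (sub i T)) (g := fun i => 1 - p * AR a p n (sub i T))
        (fun i _ => h1 i) (fun i _ => h2 i)
      linarith

lemma A_mono {p q : ℝ} (hp0 : 0 ≤ p) (hpq : p ≤ q) (hq1 : q ≤ 1) (n : ℕ) :
    ∀ T, A p n T ≤ A q n T := by
  induction n with
  | zero => intro T; exact le_rfl
  | succ n ih =>
    intro T
    change 1 - ∏ i ∈ Finset.range (T []), (1 - p * A p n (sub i T)) ≤
      1 - ∏ i ∈ Finset.range (T []), (1 - q * A q n (sub i T))
    have := Finset.prod_le_prod (s := Finset.range (T []))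
      (f := fun i => 1 - q * A q n (sub i T)) (g := fun i => 1 - p * A p n (sub i T))
      (fun i _ => by
        have := A_mem (hp0.trans hpq) hq1 n (sub i T)
        nlinarith)
      (fun i _ => by
        have h1 := ih (sub i T)
        have h2 := A_mem hp0 (hpq.trans hq1) n (sub i T)
        have h3 : p * A p n (sub i T) ≤ q * A q n (sub i T) :=
          mul_le_mul hpq h1 h2.1 (hp0.trans hpq)
        linarith)
    linarith

lemma tendsto_A' (T : List ℕ → ℕ) {p : ℝ} (h0 : 0 ≤ p) (h1 : p ≤ 1) :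
    Tendsto (fun n => A p n T) atTop (𝓝 (quenched T p)) :=
  tendsto_A ⟨p, h0, h1⟩ T

lemma quenched_mono (T : List ℕ → ℕ) {p q : ℝ} (hp0 : 0 ≤ p) (hpq : p ≤ q) (hq1 : q ≤ 1) :
    quenched T p ≤ quenched T q :=
  le_of_tendsto_of_tendsto' (tendsto_A' T hp0 (hpq.trans hq1)) (tendsto_A' T (hp0.trans hpq) hq1)
    fun n => A_mono hp0 hpq hq1 n T

lemma measurable_AR (a p : ℝ) (n : ℕ) : Measurable (AR a p n) := by
  induction n with
  | zero => exact measurable_const
  | succ n ih =>
    have h1 : Measurable (fun T : List ℕ → ℕ => 1 - p * AR a p n T) :=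
      measurable_const.sub (measurable_const.mul ih)
    exact measurable_const.sub (measurable_PP h1)

/-- the mean of the iteration -/
lemma Good.mean_AR (h : EM μ R) (g : Good μ R p₀ ρ θ x₁ a) {p : ℝ} (hp : |p - p₀| < ρ)
    (hp1 : 1 / p ≤ psi μ 1) (hp2 : p < 1) (n : ℕ) :
    ∫ T, AR (annealed μ p) p n T ∂(gw μ) = annealed μ p := by
  have hmem : (p : ℂ) ∈ Metric.ball (p₀ : ℂ) ρ := by
    rw [Metric.mem_ball, dist_eq_norm, ← Complex.ofReal_sub, Complex.norm_real,
      Real.norm_eq_abs]
    exact hp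
  have hc := g.cond hmem
  have hreal := g.real p hp hp1 hp2
  have hm := mom_YY h hc n
  have h1 := hm.mean
  have hYint := integrable_of_sq hm.meas hm.sq
  have hpne : (p : ℂ) ≠ 0 := hc.p_ne
  have e : ∀ T, YY (a p) p n T = ((1 - p * AR (annealed μ p) p n T : ℝ) : ℂ) := by
    intro T
    unfold YY
    rw [hreal, AR_ofReal]
    push_cast
    ring
  simp_rw [e] at h1
  have e' : YY (a p) p n = fun T => ((1 - p * AR (annealed μ p) p n T : ℝ) : ℂ) := funext e
  rw [e'] at hYint
  rw [integral_complex_ofReal, hreal] at h1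
  have h2 : ∫ T, (1 - p * AR (annealed μ p) p n T) ∂(gw μ) = 1 - p * annealed μ p := by
    exact_mod_cast h1
  have hint : Integrable (fun T => 1 - p * AR (annealed μ p) p n T) (gw μ) := by
    have := hYint.re
    simpa using this
  have hpR : p ≠ 0 := by exact_mod_cast hpne
  have hint2 : Integrable (fun T => AR (annealed μ p) p n T) (gw μ) := by
    have h3 := ((integrable_const (1 : ℝ)).sub hint).const_mul p⁻¹
    refine h3.congr (Eventually.of_forall fun T => ?_)
    simp only [Pi.sub_apply]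
    field_simp
    ring
  rw [integral_sub (integrable_const _) (hint2.const_mul p), integral_const_mul] at h2
  simp only [integral_const, probReal_univ, one_smul] at h2
  have h3 : p * ∫ T, AR (annealed μ p) p n T ∂(gw μ) = p * annealed μ p := by linarith
  exact mul_left_cancel₀ hpR h3

lemma Good.pos (g : Good μ R p₀ ρ θ x₁ a) {p : ℝ} (hp : |p - p₀| < ρ) : 0 < p := by
  have := g.rho_lt
  rw [abs_lt] at hp
  linarith

/-- **Identification at one point.** -/
lemma Good.ident (h : EM μ R) (g : Good μ R p₀ ρ θ x₁ a) {p : ℝ} (hp : |p - p₀| < ρ)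
    (hp1 : 1 / p ≤ psi μ 1) (hp2 : p < 1) :
    ∀ᵐ T ∂(gw μ), ∀ l : ℂ, Tendsto (fun n => XX (a p) p n T) atTop (𝓝 l) →
      l = (quenched T p : ℂ) := by
  have hp0 : 0 < p := g.pos hp
  have hmem := annealed_mem μ hp0.le hp2.le
  have hreal := g.real p hp hp1 hp2
  set b : ℝ := annealed μ p with hb
  set d : ℕ → (List ℕ → ℕ) → ℝ := fun n T => A p n T - AR b p n T with hd
  have hd0 : ∀ n T, 0 ≤ d n T := fun n T =>
    sub_nonneg.2 (AR_mem hmem.1 hmem.2 hp0.le hp2.le n T).2
  have hintA : ∀ n, Integrable (A p n) (gw μ) := fun n =>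
    integrable_of_mem (measurable_A p n) (b := 1) fun T => by
      rw [abs_le]
      have := A_mem hp0.le hp2.le n T
      constructor <;> linarith
  have hintR : ∀ n, Integrable (AR b p n) (gw μ) := fun n =>
    integrable_of_mem (measurable_AR b p n) (b := 1) fun T => by
      rw [abs_le]
      have h1 := AR_mem hmem.1 hmem.2 hp0.le hp2.le n T
      have h2 := A_mem hp0.le hp2.le n T
      constructor <;> linarith
  have hdm : ∀ n, Measurable (d n) := fun n => (measurable_A p n).sub (measurable_AR b p n)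
  have hdint : ∀ n, ∫ T, d n T ∂(gw μ) = th μ p n - b := by
    intro n
    simp only [hd]
    rw [integral_sub (hintA n) (hintR n), g.mean_AR h hp hp1 hp2 n]
    rfl
  have hlin : ∀ n, ∫⁻ T, ENNReal.ofReal (d n T) ∂(gw μ) = ENNReal.ofReal (th μ p n - b) := by
    intro n
    have hdi : Integrable (d n) (gw μ) := (hintA n).sub (hintR n)
    rw [← hdint n, ofReal_integral_eq_lintegral_ofReal hdi (Eventually.of_forall fun T => hd0 n T)]
  have hlim : Tendsto (fun n => ENNReal.ofReal (th μ p n - b)) atTop (𝓝 0) := by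
    have h1 := (tendsto_th' μ hp0.le hp2.le).sub_const b
    rw [← hb, sub_self] at h1
    have h2 := (ENNReal.continuous_ofReal.tendsto 0).comp h1
    rw [ENNReal.ofReal_zero] at h2
    exact h2
  have hfatou : ∫⁻ T, liminf (fun n => ENNReal.ofReal (d n T)) atTop ∂(gw μ) = 0 := by
    have h1 : ∫⁻ T, liminf (fun n => ENNReal.ofReal (d n T)) atTop ∂(gw μ) ≤
        liminf (fun n => ∫⁻ T, ENNReal.ofReal (d n T) ∂(gw μ)) atTop :=
      lintegral_liminf_le fun n => (hdm n).ennreal_ofReal
    simp only [hlin] at h1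
    rw [hlim.liminf_eq] at h1
    exact le_antisymm h1 bot_le
  have hm : Measurable (fun T => liminf (fun n => ENNReal.ofReal (d n T)) atTop) :=
    Measurable.liminf fun n => (hdm n).ennreal_ofReal
  rw [lintegral_eq_zero_iff hm] at hfatou
  filter_upwards [hfatou] with T hT l hl
  have e : (fun n => XX (a p) p n T) = fun n => ((AR b p n T : ℝ) : ℂ) := by
    funext n
    rw [hreal, AR_ofReal]
  rw [e] at hl
  -- the limit is real
  have hre : Tendsto (fun n => AR b p n T) atTop (𝓝 l.re) := by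
    have := (Complex.continuous_re.tendsto l).comp hl
    exact this
  have him : l.im = 0 := by
    have h1 := (Complex.continuous_im.tendsto l).comp hl
    have h2 : (Complex.im ∘ fun n => ((AR b p n T : ℝ) : ℂ)) = fun _ => (0 : ℝ) := by
      funext n
      simp
    rw [h2] at h1
    exact (tendsto_nhds_unique tendsto_const_nhds h1).symm
  have hq := tendsto_A' T hp0.le hp2.le
  have hdlim : Tendsto (fun n => d n T) atTop (𝓝 (quenched T p - l.re)) := hq.sub hre
  have hdlim2 : Tendsto (fun n => ENNReal.ofReal (d n T)) atTop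
      (𝓝 (ENNReal.ofReal (quenched T p - l.re))) :=
    (ENNReal.continuous_ofReal.tendsto _).comp hdlim
  have h1 : ENNReal.ofReal (quenched T p - l.re) = 0 := by
    rw [← hdlim2.liminf_eq]
    exact hT
  have h2 : quenched T p - l.re ≤ 0 := ENNReal.ofReal_eq_zero.1 h1
  have h3 : 0 ≤ quenched T p - l.re := ge_of_tendsto' hdlim fun n => hd0 n T
  have h4 : l.re = quenched T p := by linarith
  apply Complex.ext
  · rw [Complex.ofReal_re]; exact h4
  · rw [Complex.ofReal_im]; exact him

/-- **Almost surely, the quenched survival function has an analytic continuation around `p₀`.** -/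
theorem Good.ae_ident (h : EM μ R) (g : Good μ R p₀ ρ θ x₁ a) :
    ∀ᵐ T ∂(gw μ), ∃ G : ℂ → ℂ, DifferentiableOn ℂ G (Metric.ball (p₀ : ℂ) (ρ / 4)) ∧
      ∀ p : ℝ, |p - p₀| < ρ / 4 → 1 / p ≤ psi μ 1 → p < 1 → G p = (quenched T p : ℂ) := by
  have hρ := g.rho_pos
  have hq : ∀ᵐ T ∂(gw μ), ∀ q : ℚ, |(q : ℝ) - p₀| < ρ → 1 / (q : ℝ) ≤ psi μ 1 → (q : ℝ) < 1 →
      ∀ l : ℂ, Tendsto (fun n => XX (a (q : ℝ)) ((q : ℝ) : ℂ) n T) atTop (𝓝 l) →
      l = (quenched T (q : ℝ) : ℂ) := by
    rw [ae_all_iff]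
    intro q
    by_cases h1 : |(q : ℝ) - p₀| < ρ
    · by_cases h2 : 1 / (q : ℝ) ≤ psi μ 1
      · by_cases h3 : (q : ℝ) < 1
        · filter_upwards [g.ident h h1 h2 h3] with T hT _ _ _
          exact hT
        · exact Eventually.of_forall fun T _ _ h => absurd h h3
      · exact Eventually.of_forall fun T _ h => absurd h h2
    · exact Eventually.of_forall fun T h => absurd h h1
  filter_upwards [g.ae_conv h, hq] with T ⟨G, hG1, hG2⟩ hT
  refine ⟨G, hG1, fun p hp hp1 hp2 => ?_⟩
  have hpρ : |p - p₀| < ρ := by linarith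
  have hp0 : 0 < p := g.pos hpρ
  have hball : ∀ q : ℝ, |q - p₀| < ρ / 4 → (q : ℂ) ∈ Metric.ball (p₀ : ℂ) (ρ / 4) := by
    intro q hq
    rw [Metric.mem_ball, dist_eq_norm, ← Complex.ofReal_sub, Complex.norm_real,
      Real.norm_eq_abs]
    exact hq
  have hreal := g.real p hpρ hp1 hp2
  have hmem := annealed_mem μ hp0.le hp2.le
  have hl := hG2 p (hball p hp)
  have e : (fun n => XX (a p) p n T) = fun n => ((AR (annealed μ p) p n T : ℝ) : ℂ) := by
    funext n
    rw [hreal, AR_ofReal]
  rw [e] at hl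
  have hre : Tendsto (fun n => AR (annealed μ p) p n T) atTop (𝓝 (G p).re) := by
    have := (Complex.continuous_re.tendsto (G p)).comp hl
    exact this
  have him : (G p).im = 0 := by
    have h1 := (Complex.continuous_im.tendsto (G p)).comp hl
    have h2 : (Complex.im ∘ fun n => ((AR (annealed μ p) p n T : ℝ) : ℂ)) = fun _ => (0 : ℝ) := by
      funext n
      simp
    rw [h2] at h1
    exact (tendsto_nhds_unique tendsto_const_nhds h1).symm
  have hle : (G p).re ≤ quenched T p :=
    le_of_tendsto_of_tendsto' hre (tendsto_A' T hp0.le hp2.le)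
      fun n => (AR_mem hmem.1 hmem.2 hp0.le hp2.le n T).2
  have hge : quenched T p ≤ (G p).re := by
    by_contra hlt
    rw [not_le] at hlt
    have hcont : ContinuousAt (fun q : ℝ => (G (q : ℂ)).re) p := by
      have h1 : ContinuousAt G (p : ℂ) :=
        hG1.continuousOn.continuousAt (Metric.isOpen_ball.mem_nhds (hball p hp))
      exact Complex.continuous_re.continuousAt.comp (ContinuousAt.comp (f := fun q : ℝ => (q : ℂ))
        h1 Complex.continuous_ofReal.continuousAt)
    have h1 : ∀ᶠ q : ℝ in 𝓝 p, (G (q : ℂ)).re < quenched T p := hcont.eventually (gt_mem_nhds hlt)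
    have h2 : ∀ᶠ q : ℝ in 𝓝 p, |q - p₀| < ρ / 4 := by
      have : ContinuousAt (fun q : ℝ => |q - p₀|) p := by fun_prop
      exact this.eventually (gt_mem_nhds hp)
    have h3 : ∀ᶠ q : ℝ in 𝓝 p, q < 1 := gt_mem_nhds hp2
    obtain ⟨ε, hε, hball2⟩ := Metric.eventually_nhds_iff_ball.1 (h1.and (h2.and h3))
    obtain ⟨q, hpq, hqε⟩ := exists_rat_btwn (show p < p + ε by linarith)
    have hqb : (q : ℝ) ∈ Metric.ball p ε := by
      rw [Metric.mem_ball, Real.dist_eq, abs_of_pos (by linarith)]
      linarith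
    obtain ⟨k1, k2, k3⟩ := hball2 q hqb
    have hq1 : 1 / (q : ℝ) ≤ psi μ 1 :=
      (one_div_le_one_div_of_le hp0 hpq.le).trans hp1
    have k4 := hT q (by linarith) hq1 k3 (G (q : ℝ)) (hG2 (q : ℝ) (hball q k2))
    have k5 := quenched_mono T hp0.le hpq.le k3.le
    have k6 : (G ((q : ℝ) : ℂ)).re = quenched T q := by rw [k4, Complex.ofReal_re]
    linarith
  apply Complex.ext
  · rw [Complex.ofReal_re]; exact le_antisymm hle hge
  · rw [Complex.ofReal_im]; exact him

end Pool.Agent.R953.Surv
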