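import Mathlib

/-!
Counting the spanning forests and the connected spanning subgraphs of a small graph by a verified
union-find recursion.
-/

set_option autoImplicit false
set_option linter.unusedSectionVars false
set_option linter.unusedSimpArgs false
set_option linter.unusedVariables false

namespace Pool.Agent.R953.UF

open SimpleGraph

/-- label of the vertex `i` -/
def lab (l : List ℕ) (i : ℕ) : ℕ := l.getD i 0

/-- merge the classes of `a` and `b` -/
def mrg (l : List ℕ) (a b : ℕ) : List ℕ :=
  l.map (fun x => cond (Nat.beq x (lab l a)) (lab l b) x)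

/-- evaluation of a list of numbers before its use; this is `k l` -/
def forceL {α : Type} : List ℕ → (List ℕ → α) → α
  | [], k => k []
  | x :: xs, k => match x with
    | 0 => forceL xs (fun ys => k (0 :: ys))
    | m + 1 => forceL xs (fun ys => k ((m + 1) :: ys))

lemma forceL_eq {α : Type} (l : List ℕ) : ∀ k : List ℕ → α, forceL l k = k l := by
  induction l with
  | nil => intro k; rfl
  | cons x xs ih =>
    intro k
    cases x with
    | zero => exact ih _
    | succ m => exact ih _

/-- the graph with the edges of a list -/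
def gr {n : ℕ} (es : List (Fin n × Fin n)) : SimpleGraph (Fin n) :=
  es.foldr (fun e G => G ⊔ edge e.1 e.2) ⊥

/-- number of ways to extend a forest with labels `l` and `c` components, by edges of the list, to a
forest with exactly `k` components -/
def cntF {n : ℕ} (k : ℕ) : List (Fin n × Fin n) → List ℕ → ℕ → ℕ
  | [], _, c => cond (Nat.beq c k) 1 0
  | e :: es, l, c => cntF k es l c +
      cond (Nat.beq (lab l e.1) (lab l e.2)) 0 (cntF k es (mrg l e.1 e.2) (c - 1))

/-- number of ways to extend a graph with labels `l` and `c` components, by exactly `j` edges of the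
list, to a connected graph -/
def cntC {n : ℕ} : List (Fin n × Fin n) → List ℕ → ℕ → ℕ → ℕ
  | [], _, c, j => cond (Nat.beq c 1) (cond (Nat.beq j 0) 1 0) 0
  | _ :: _, _, c, 0 => cond (Nat.beq c 1) 1 0
  | e :: es, l, c, j + 1 => cond (Nat.ble c (j + 2)) (cntC es l c (j + 1) +
      cond (Nat.beq (lab l e.1) (lab l e.2)) (cntC es l c j)
        (forceL (mrg l e.1 e.2) (fun l' => cntC es l' (c - 1) j))) 0

lemma cntF_cons {n : ℕ} (k : ℕ) (e : Fin n × Fin n) (es : List (Fin n × Fin n)) (l : List ℕ)
    (c : ℕ) : cntF k (e :: es) l c = cntF k es l c +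
      cond (Nat.beq (lab l e.1) (lab l e.2)) 0 (cntF k es (mrg l e.1 e.2) (c - 1)) := rfl

lemma cntC_cons {n : ℕ} (e : Fin n × Fin n) (es : List (Fin n × Fin n)) (l : List ℕ)
    (c j : ℕ) : cntC (e :: es) l c (j + 1) = cond (Nat.ble c (j + 2)) (cntC es l c (j + 1) +
      cond (Nat.beq (lab l e.1) (lab l e.2)) (cntC es l c j)
        (cntC es (mrg l e.1 e.2) (c - 1) j)) 0 := by
  rw [← forceL_eq (mrg l e.1 e.2) (fun l' => cntC es l' (c - 1) j)]
  rfl

/-- the labels `l` describe the components of `K`, and `c` is their number -/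
structure Rep {n : ℕ} (K : SimpleGraph (Fin n)) (l : List ℕ) (c : ℕ) : Prop where
  len : l.length = n
  reach : ∀ u v : Fin n, K.Reachable u v ↔ lab l u = lab l v
  comps : Nat.card K.ConnectedComponent = c

lemma lab_mrg {n : ℕ} (l : List ℕ) (hl : l.length = n) (a b : ℕ) (u : Fin n) :
    lab (mrg l a b) u = if lab l u = lab l a then lab l b else lab l u := by
  have hu : (u : ℕ) < l.length := by rw [hl]; exact u.2
  unfold lab mrg
  rw [List.getD_eq_getElem _ _ (by simpa using hu), List.getElem_map,
    List.getD_eq_getElem _ _ hu]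
  by_cases h : l[(u : ℕ)] = lab l a
  · simp [h, lab]
  · have : Nat.beq l[(u : ℕ)] (lab l a) = false := by
      rw [← Bool.not_eq_true, Nat.beq_eq]; exact h
    rw [this]
    simp only [cond_false]
    rw [if_neg]
    exact h

lemma reachable_sup_edge {V : Type*} (G : SimpleGraph V) (a b u v : V) :
    (G ⊔ edge a b).Reachable u v ↔ G.Reachable u v ∨ (G.Reachable u a ∧ G.Reachable b v) ∨
      (G.Reachable u b ∧ G.Reachable a v) := by
  constructor
  · rintro ⟨p⟩
    induction p with
    | nil => exact Or.inl (Reachable.refl _)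
    | cons h p ih =>
      rename_i x y z
      rw [sup_adj, edge_adj] at h
      rcases h with h | ⟨h1, h2⟩
      · have hxy : G.Reachable x y := h.reachable
        rcases ih with h | ⟨h1, h2⟩ | ⟨h1, h2⟩
        · exact Or.inl (hxy.trans h)
        · exact Or.inr (Or.inl ⟨hxy.trans h1, h2⟩)
        · exact Or.inr (Or.inr ⟨hxy.trans h1, h2⟩)
      · rcases h1 with ⟨rfl, rfl⟩ | ⟨rfl, rfl⟩
        · rcases ih with h | ⟨h1, h2⟩ | ⟨h1, h2⟩
          · exact Or.inr (Or.inl ⟨Reachable.refl _, h⟩)
          · exact Or.inr (Or.inl ⟨Reachable.refl _, h2⟩)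
          · exact Or.inl h2
        · rcases ih with h | ⟨h1, h2⟩ | ⟨h1, h2⟩
          · exact Or.inr (Or.inr ⟨Reachable.refl _, h⟩)
          · exact Or.inl h2
          · exact Or.inr (Or.inr ⟨Reachable.refl _, h2⟩)
  · have hle : G ≤ G ⊔ edge a b := le_sup_left
    have hab : (G ⊔ edge a b).Reachable a b := by
      by_cases h : a = b
      · subst h; exact Reachable.refl _
      · apply Adj.reachable
        rw [sup_adj, edge_adj]
        exact Or.inr ⟨Or.inl ⟨rfl, rfl⟩, h⟩
    rintro (h | ⟨h1, h2⟩ | ⟨h1, h2⟩)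
    · exact h.mono hle
    · exact (h1.mono hle).trans (hab.trans (h2.mono hle))
    · exact (h1.mono hle).trans (hab.symm.trans (h2.mono hle))

/-- number of components after adding an edge between different components -/
lemma card_comp_sup_edge {V : Type*} [Finite V] (G : SimpleGraph V) (a b : V)
    (h : ¬ G.Reachable a b) :
    Nat.card (G ⊔ edge a b).ConnectedComponent + 1 = Nat.card G.ConnectedComponent := by
  classical
  have := Fintype.ofFinite V
  have hle : G ≤ G ⊔ edge a b := le_sup_left
  let f : {C : G.ConnectedComponent // C ≠ G.connectedComponentMk b} →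
      (G ⊔ edge a b).ConnectedComponent := fun C => C.1.map (Hom.ofLE hle)
  have hab : (G ⊔ edge a b).Reachable a b := (reachable_sup_edge G a b a b).2
    (Or.inr (Or.inl ⟨Reachable.refl _, Reachable.refl _⟩))
  have hf : Function.Bijective f := by
    constructor
    · rintro ⟨C, hC⟩ ⟨D, hD⟩ hCD
      induction C using ConnectedComponent.ind with | _ u => ?_
      induction D using ConnectedComponent.ind with | _ v => ?_
      simp only [f, ConnectedComponent.map_mk, Hom.coe_ofLE, id_eq, ConnectedComponent.eq] at hCD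
      rw [Ne, ConnectedComponent.eq] at hC hD
      rw [Subtype.mk.injEq, ConnectedComponent.eq]
      rcases (reachable_sup_edge G a b u v).1 hCD with h1 | ⟨h1, h2⟩ | ⟨h1, h2⟩
      · exact h1
      · exact absurd h2.symm hD
      · exact absurd h1 hC
    · intro D
      induction D using ConnectedComponent.ind with | _ v => ?_
      by_cases hv : G.Reachable v b
      · refine ⟨⟨G.connectedComponentMk a, ?_⟩, ?_⟩
        · rw [Ne, ConnectedComponent.eq]; exact h
        · simp only [f, ConnectedComponent.map_mk, Hom.coe_ofLE, id_eq, ConnectedComponent.eq]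
          exact hab.trans (hv.symm.mono hle)
      · refine ⟨⟨G.connectedComponentMk v, ?_⟩, ?_⟩
        · rw [Ne, ConnectedComponent.eq]; exact hv
        · simp [f]
  rw [← Nat.card_congr (Equiv.ofBijective f hf)]
  rw [Nat.card_eq_fintype_card, Nat.card_eq_fintype_card, Fintype.card_subtype_compl]
  simp only [Fintype.card_unique]
  have : 0 < Fintype.card G.ConnectedComponent :=
    Fintype.card_pos_iff.2 ⟨G.connectedComponentMk b⟩
  omega

lemma Rep.skip {n : ℕ} {K : SimpleGraph (Fin n)} {l : List ℕ} {c : ℕ} (h : Rep K l c)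
    (a b : Fin n) (hab : lab l a = lab l b) : Rep (K ⊔ edge a b) l c := by
  have hr : K.Reachable a b := (h.reach a b).2 hab
  have h1 : ∀ u v, (K ⊔ edge a b).Reachable u v ↔ K.Reachable u v := by
    intro u v
    rw [reachable_sup_edge]
    constructor
    · rintro (h | ⟨h1, h2⟩ | ⟨h1, h2⟩)
      · exact h
      · exact h1.trans (hr.trans h2)
      · exact h1.trans (hr.symm.trans h2)
    · exact Or.inl
  refine ⟨h.len, fun u v => (h1 u v).trans (h.reach u v), ?_⟩
  rw [← h.comps]
  apply Nat.card_congr
  refine Quot.congrRight fun u v => h1 u v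

lemma Rep.take {n : ℕ} {K : SimpleGraph (Fin n)} {l : List ℕ} {c : ℕ} (h : Rep K l c)
    (a b : Fin n) (hab : lab l a ≠ lab l b) : Rep (K ⊔ edge a b) (mrg l a b) (c - 1) := by
  have hr : ¬ K.Reachable a b := fun hr => hab ((h.reach a b).1 hr)
  refine ⟨by simp [mrg, h.len], fun u v => ?_, ?_⟩
  · rw [reachable_sup_edge, lab_mrg l h.len, lab_mrg l h.len]
    simp only [h.reach]
    by_cases hu : lab l u = lab l a
    · by_cases hv : lab l v = lab l a
      · simp [hu, hv]
      · rw [if_pos hu, if_neg hv]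
        constructor
        · rintro (h1 | ⟨h1, h2⟩ | ⟨h1, h2⟩)
          · exact absurd (h1.symm.trans hu) hv
          · exact h2
          · exact absurd h2.symm hv
        · intro h1
          exact Or.inr (Or.inl ⟨hu, h1⟩)
    · by_cases hv : lab l v = lab l a
      · rw [if_neg hu, if_pos hv]
        constructor
        · rintro (h1 | ⟨h1, h2⟩ | ⟨h1, h2⟩)
          · exact absurd (h1.trans hv) hu
          · exact absurd h1 hu
          · exact h1
        · intro h1
          exact Or.inr (Or.inr ⟨h1, hv.symm⟩)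
      · rw [if_neg hu, if_neg hv]
        constructor
        · rintro (h1 | ⟨h1, h2⟩ | ⟨h1, h2⟩)
          · exact h1
          · exact absurd h1 hu
          · exact absurd h2.symm hv
        · exact Or.inl
  · have := card_comp_sup_edge K a b hr
    rw [h.comps] at this
    omega

lemma Rep.bot (n : ℕ) : Rep (⊥ : SimpleGraph (Fin n)) (List.range n) n := by
  have hr : ∀ u v : Fin n, (⊥ : SimpleGraph (Fin n)).Reachable u v ↔ u = v := by
    intro u v
    rw [reachable_bot]
  refine ⟨by simp, fun u v => ?_, ?_⟩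
  · rw [hr]
    unfold lab
    rw [List.getD_eq_getElem _ _ (by simp), List.getD_eq_getElem _ _ (by simp)]
    simp only [List.getElem_range]
    exact Fin.ext_iff
  · have : Nat.card (⊥ : SimpleGraph (Fin n)).ConnectedComponent = Nat.card (Fin n) := by
      apply Nat.card_congr
      refine (Equiv.ofBijective (fun v => (⊥ : SimpleGraph (Fin n)).connectedComponentMk v)
        ⟨fun u v h => ?_, fun C => ?_⟩).symm
      · exact (hr u v).1 (ConnectedComponent.eq.1 h)
      · induction C using ConnectedComponent.ind with | _ v => exact ⟨v, rfl⟩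
    rw [this, Nat.card_fin]

/-- the list consists of distinct pairs of different vertices, none of them an edge of `K` -/
def Ok {n : ℕ} (K : SimpleGraph (Fin n)) : List (Fin n × Fin n) → Prop
  | [] => True
  | e :: es => e.1 ≠ e.2 ∧ ¬ K.Adj e.1 e.2 ∧ (∀ f ∈ es, s(f.1, f.2) ≠ s(e.1, e.2)) ∧ Ok K es

lemma gr_adj {n : ℕ} (es : List (Fin n × Fin n)) (u v : Fin n) :
    (gr es).Adj u v ↔ ∃ f ∈ es, s(f.1, f.2) = s(u, v) ∧ f.1 ≠ f.2 := by
  induction es with
  | nil => simp [gr]
  | cons e es ih =>
    have : gr (e :: es) = gr es ⊔ edge e.1 e.2 := rfl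
    rw [this, sup_adj, ih, edge_adj]
    simp only [List.mem_cons, exists_eq_or_imp, Sym2.eq_iff]
    constructor
    · rintro (h | ⟨h1, h2⟩)
      · exact Or.inr h
      · left
        rcases h1 with ⟨rfl, rfl⟩ | ⟨rfl, rfl⟩
        · exact ⟨Or.inl ⟨rfl, rfl⟩, h2⟩
        · exact ⟨Or.inr ⟨rfl, rfl⟩, Ne.symm h2⟩
    · rintro (⟨h1, h2⟩ | h)
      · right
        rcases h1 with ⟨rfl, rfl⟩ | ⟨rfl, rfl⟩
        · exact ⟨Or.inl ⟨rfl, rfl⟩, h2⟩
        · exact ⟨Or.inr ⟨rfl, rfl⟩, Ne.symm h2⟩
      · exact Or.inl h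

lemma Ok.sup {n : ℕ} {K : SimpleGraph (Fin n)} {e : Fin n × Fin n} {es : List (Fin n × Fin n)}
    (he : ∀ f ∈ es, s(f.1, f.2) ≠ s(e.1, e.2)) (h : Ok K es) : Ok (K ⊔ edge e.1 e.2) es := by
  induction es with
  | nil => trivial
  | cons f fs ih =>
    obtain ⟨h1, h2, h3, h4⟩ := h
    refine ⟨h1, ?_, h3, ih (fun g hg => he g (List.mem_cons_of_mem _ hg)) h4⟩
    rw [sup_adj, edge_adj]
    rintro (h | ⟨h, -⟩)
    · exact h2 h
    · apply he f List.mem_cons_self
      rw [Sym2.eq_iff]
      rcases h with ⟨h, h'⟩ | ⟨h, h'⟩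
      · exact Or.inl ⟨h, h'⟩
      · exact Or.inr ⟨h, h'⟩

/-- the graphs between `K` and `K ⊔ gr es` -/
def Btw {n : ℕ} (K : SimpleGraph (Fin n)) (es : List (Fin n × Fin n)) :
    Set (SimpleGraph (Fin n)) := {H | K ≤ H ∧ H ≤ K ⊔ gr es}

lemma edge_le_iff' {V : Type*} (H : SimpleGraph V) (a b : V) (hab : a ≠ b) :
    edge a b ≤ H ↔ H.Adj a b := by
  constructor
  · intro h
    apply h
    rw [edge_adj]
    exact ⟨Or.inl ⟨rfl, rfl⟩, hab⟩
  · intro h u v huv
    rw [edge_adj] at huv
    rcases huv with ⟨⟨rfl, rfl⟩ | ⟨rfl, rfl⟩, -⟩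
    · exact h
    · exact h.symm

lemma btw_cons {n : ℕ} {K : SimpleGraph (Fin n)} {e : Fin n × Fin n}
    {es : List (Fin n × Fin n)} (h : Ok K (e :: es)) :
    Btw K (e :: es) = Btw K es ∪ Btw (K ⊔ edge e.1 e.2) es := by
  obtain ⟨h1, h2, h3, h4⟩ := h
  have hgr : gr (e :: es) = gr es ⊔ edge e.1 e.2 := rfl
  ext H
  simp only [Btw, Set.mem_union, Set.mem_ofPred_eq, hgr]
  constructor
  · rintro ⟨hK, hH⟩
    by_cases he : H.Adj e.1 e.2
    · right
      refine ⟨sup_le hK ((edge_le_iff' H _ _ h1).2 he), ?_⟩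
      calc H ≤ K ⊔ (gr es ⊔ edge e.1 e.2) := hH
        _ = K ⊔ edge e.1 e.2 ⊔ gr es := by rw [sup_comm (gr es), sup_assoc]
    · left
      refine ⟨hK, fun u v huv => ?_⟩
      have := hH huv
      rw [sup_adj, sup_adj, edge_adj] at this
      rw [sup_adj]
      rcases this with h | h | ⟨h, -⟩
      · exact Or.inl h
      · exact Or.inr h
      · exfalso
        apply he
        rcases h with ⟨rfl, rfl⟩ | ⟨rfl, rfl⟩
        · exact huv
        · exact huv.symm
  · rintro (⟨hK, hH⟩ | ⟨hK, hH⟩)
    · exact ⟨hK, hH.trans (sup_le_sup_left le_sup_left K)⟩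
    · refine ⟨le_sup_left.trans hK, hH.trans ?_⟩
      rw [sup_comm (gr es), sup_assoc]

lemma btw_disj {n : ℕ} {K : SimpleGraph (Fin n)} {e : Fin n × Fin n}
    {es : List (Fin n × Fin n)} (h : Ok K (e :: es)) :
    Disjoint (Btw K es) (Btw (K ⊔ edge e.1 e.2) es) := by
  obtain ⟨h1, h2, h3, h4⟩ := h
  rw [Set.disjoint_left]
  rintro H ⟨hK, hH⟩ ⟨hK', hH'⟩
  have hadj : H.Adj e.1 e.2 := hK' (by
    rw [sup_adj, edge_adj]; exact Or.inr ⟨Or.inl ⟨rfl, rfl⟩, h1⟩)
  have := hH hadj
  rw [sup_adj, gr_adj] at this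
  rcases this with h | ⟨f, hf, hfe, -⟩
  · exact h2 h
  · exact h3 f hf hfe

lemma ncard_cons {n : ℕ} {K : SimpleGraph (Fin n)} {e : Fin n × Fin n}
    {es : List (Fin n × Fin n)} (h : Ok K (e :: es)) (P : SimpleGraph (Fin n) → Prop) :
    {H | H ∈ Btw K (e :: es) ∧ P H}.ncard =
      {H | H ∈ Btw K es ∧ P H}.ncard + {H | H ∈ Btw (K ⊔ edge e.1 e.2) es ∧ P H}.ncard := by
  rw [← Set.ncard_union_eq _ (Set.toFinite _) (Set.toFinite _)]
  · congr 1
    ext H
    rw [btw_cons h]
    simp only [Set.mem_union, Set.mem_ofPred_eq]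
    tauto
  · have := btw_disj h
    rw [Set.disjoint_left] at this ⊢
    rintro H ⟨h1, -⟩ ⟨h2, -⟩
    exact this h1 h2

lemma btw_nil {n : ℕ} (K : SimpleGraph (Fin n)) : Btw K [] = {K} := by
  ext H
  simp only [Btw, gr, List.foldr_nil, Set.mem_ofPred_eq, Set.mem_singleton_iff, sup_bot_eq]
  exact ⟨fun h => le_antisymm h.2 h.1, fun h => by subst h; exact ⟨le_rfl, le_rfl⟩⟩

/-- `H` is a forest with exactly `k` components -/
def ForP {n : ℕ} (k : ℕ) (H : SimpleGraph (Fin n)) : Prop :=
  H.IsAcyclic ∧ Nat.card H.ConnectedComponent = k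

theorem cntF_spec {n : ℕ} (k : ℕ) (es : List (Fin n × Fin n)) :
    ∀ (K : SimpleGraph (Fin n)) (l : List ℕ) (c : ℕ), Ok K es → Rep K l c → K.IsAcyclic →
      {H | H ∈ Btw K es ∧ ForP k H}.ncard = cntF k es l c := by
  induction es with
  | nil =>
    intro K l c _ hR hK
    rw [btw_nil]
    by_cases h : c = k
    · have : {H | H ∈ ({K} : Set (SimpleGraph (Fin n))) ∧ ForP k H} = {K} := by
        ext H
        simp only [Set.mem_singleton_iff, Set.mem_ofPred_eq]
        constructor
        · exact fun h => h.1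
        · rintro rfl
          exact ⟨rfl, hK, hR.comps.trans h⟩
      rw [this, Set.ncard_singleton]
      simp [cntF, h]
    · have : {H | H ∈ ({K} : Set (SimpleGraph (Fin n))) ∧ ForP k H} = ∅ := by
        ext H
        simp only [Set.mem_singleton_iff, Set.mem_ofPred_eq, Set.mem_empty_iff_false, iff_false]
        rintro ⟨rfl, -, h2⟩
        exact h (hR.comps.symm.trans h2)
      rw [this, Set.ncard_empty]
      have h' : Nat.beq c k = false := by
        rw [← Bool.not_eq_true, Nat.beq_eq]; exact h
      simp [cntF, h']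
  | cons e es ih =>
    intro K l c hOk hR hK
    rw [ncard_cons hOk]
    obtain ⟨h1, h2, h3, h4⟩ := hOk
    rw [ih K l c h4 hR hK, cntF_cons]
    congr 1
    by_cases hl : lab l e.1 = lab l e.2
    · have hb : Nat.beq (lab l e.1) (lab l e.2) = true := by rw [Nat.beq_eq]; exact hl
      rw [hb]
      simp only [cond_true]
      have hcyc : ¬ (K ⊔ edge e.1 e.2).IsAcyclic := by
        rw [isAcyclic_sup_fromEdgeSet_iff]
        rintro ⟨-, h⟩
        rcases h ((hR.reach _ _).2 hl) with h | h
        · exact h1 h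
        · exact h2 h
      have : {H | H ∈ Btw (K ⊔ edge e.1 e.2) es ∧ ForP k H} = ∅ := by
        ext H
        simp only [Set.mem_ofPred_eq, Set.mem_empty_iff_false, iff_false]
        rintro ⟨⟨h5, -⟩, h6, -⟩
        exact hcyc (h6.anti h5)
      rw [this, Set.ncard_empty]
    · have hb : Nat.beq (lab l e.1) (lab l e.2) = false := by
        rw [← Bool.not_eq_true, Nat.beq_eq]; exact hl
      rw [hb]
      simp only [cond_false]
      apply ih _ _ _ (h4.sup h3) (hR.take _ _ hl)
      rw [isAcyclic_sup_fromEdgeSet_iff]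
      exact ⟨hK, fun h => absurd ((hR.reach _ _).1 h) hl⟩

/-- `H` is connected and has exactly `j` edges -/
def ConP {n : ℕ} (j : ℕ) (H : SimpleGraph (Fin n)) : Prop :=
  H.Connected ∧ H.edgeSet.ncard = j

lemma connected_iff_card {n : ℕ} (H : SimpleGraph (Fin n)) :
    H.Connected ↔ Nat.card H.ConnectedComponent = 1 := by
  rw [Nat.card_eq_one_iff_unique]
  constructor
  · intro h
    exact ⟨h.preconnected.subsingleton_connectedComponent,
      ⟨H.connectedComponentMk h.nonempty.some⟩⟩
  · rintro ⟨h1, ⟨h2⟩⟩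
    have : Nonempty (Fin n) := by
      induction h2 using ConnectedComponent.ind with | _ v => exact ⟨v⟩
    exact ⟨fun u v => ConnectedComponent.eq.1 (Subsingleton.elim _ _)⟩

lemma ncard_edge_sup {n : ℕ} (K : SimpleGraph (Fin n)) (a b : Fin n) (hab : a ≠ b)
    (h : ¬ K.Adj a b) : (K ⊔ edge a b).edgeSet.ncard = K.edgeSet.ncard + 1 := by
  have h1 : (K ⊔ edge a b).edgeSet = insert s(a, b) K.edgeSet := by
    ext x
    induction x using Sym2.ind with | _ u v => ?_
    rw [mem_edgeSet, sup_adj, edge_adj, Set.mem_insert_iff, mem_edgeSet, Sym2.eq_iff]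
    constructor
    · rintro (h | ⟨h, -⟩)
      · exact Or.inr h
      · left
        rcases h with ⟨h, h'⟩ | ⟨h, h'⟩
        · exact Or.inl ⟨h, h'⟩
        · exact Or.inr ⟨h, h'⟩
    · rintro (h | h)
      · right
        rcases h with ⟨rfl, rfl⟩ | ⟨rfl, rfl⟩
        · exact ⟨Or.inl ⟨rfl, rfl⟩, hab⟩
        · exact ⟨Or.inr ⟨rfl, rfl⟩, hab.symm⟩
      · exact Or.inl h
  rw [h1, Set.ncard_insert_of_notMem _ (Set.toFinite _)]
  exact h

lemma card_comp_le {V : Type*} [Finite V] (G H : SimpleGraph V) (h : G ≤ H) :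
    Nat.card H.ConnectedComponent ≤ Nat.card G.ConnectedComponent :=
  ConnectedComponent.card_le_card_of_le h

/-- too few edges left: no connected extension -/
lemma no_conn {n : ℕ} (es : List (Fin n × Fin n)) :
    ∀ (K : SimpleGraph (Fin n)) (j : ℕ), Ok K es →
      j + 1 < Nat.card K.ConnectedComponent →
      {H | H ∈ Btw K es ∧ ConP (K.edgeSet.ncard + j) H} = ∅ := by
  induction es with
  | nil =>
    intro K j _ hc
    rw [btw_nil]
    ext H
    simp only [Set.mem_singleton_iff, Set.mem_ofPred_eq, Set.mem_empty_iff_false, iff_false]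
    rintro ⟨rfl, h1, h2⟩
    rw [connected_iff_card] at h1
    omega
  | cons e es ih =>
    intro K j hOk hc
    have hcons := btw_cons hOk
    obtain ⟨h1, h2, h3, h4⟩ := hOk
    ext H
    simp only [Set.mem_ofPred_eq, Set.mem_empty_iff_false, iff_false]
    rw [hcons]
    rintro ⟨hH | hH, hP⟩
    · have := ih K j h4 hc
      have h5 : H ∈ {H | H ∈ Btw K es ∧ ConP (K.edgeSet.ncard + j) H} := ⟨hH, hP⟩
      rw [this] at h5
      exact h5
    · cases j with
      | zero =>
        have h5 := ncard_edge_sup K e.1 e.2 h1 h2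
        have h6 : (K ⊔ edge e.1 e.2).edgeSet.ncard ≤ H.edgeSet.ncard :=
          Set.ncard_le_ncard (edgeSet_mono hH.1) (Set.toFinite _)
        have := hP.2
        omega
      | succ j =>
        have h5 := ncard_edge_sup K e.1 e.2 h1 h2
        have h7 : Nat.card K.ConnectedComponent ≤
            Nat.card (K ⊔ edge e.1 e.2).ConnectedComponent + 1 := by
          by_cases hr : K.Reachable e.1 e.2
          · have h8 : Nat.card (K ⊔ edge e.1 e.2).ConnectedComponent =
                Nat.card K.ConnectedComponent := by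
              apply Nat.card_congr
              refine Quot.congrRight fun u v => ?_
              rw [reachable_sup_edge]
              constructor
              · rintro (h | ⟨h1, h2⟩ | ⟨h1, h2⟩)
                · exact h
                · exact h1.trans (hr.trans h2)
                · exact h1.trans (hr.symm.trans h2)
              · exact Or.inl
            omega
          · have := card_comp_sup_edge K e.1 e.2 hr
            omega
        have := ih (K ⊔ edge e.1 e.2) j (h4.sup h3) (by omega)
        have h6 : H ∈ {H | H ∈ Btw (K ⊔ edge e.1 e.2) es ∧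
            ConP ((K ⊔ edge e.1 e.2).edgeSet.ncard + j) H} := by
          refine ⟨hH, ?_⟩
          rw [h5, show K.edgeSet.ncard + 1 + j = K.edgeSet.ncard + (j + 1) by omega]
          exact hP
        rw [this] at h6
        exact h6

theorem cntC_spec {n : ℕ} (es : List (Fin n × Fin n)) :
    ∀ (K : SimpleGraph (Fin n)) (l : List ℕ) (c j : ℕ), Ok K es → Rep K l c →
      {H | H ∈ Btw K es ∧ ConP (K.edgeSet.ncard + j) H}.ncard = cntC es l c j := by
  induction es with
  | nil =>
    intro K l c j _ hR
    rw [btw_nil]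
    have hcon := connected_iff_card K
    rw [hR.comps] at hcon
    by_cases hc : c = 1
    · by_cases hj : j = 0
      · subst hc hj
        have : {H | H ∈ ({K} : Set (SimpleGraph (Fin n))) ∧ ConP (K.edgeSet.ncard + 0) H}
            = {K} := by
          ext H
          simp only [Set.mem_singleton_iff, Set.mem_ofPred_eq]
          constructor
          · exact fun h => h.1
          · rintro rfl
            exact ⟨rfl, hcon.2 rfl, rfl⟩
        rw [this, Set.ncard_singleton]
        rfl
      · have : {H | H ∈ ({K} : Set (SimpleGraph (Fin n))) ∧ ConP (K.edgeSet.ncard + j) H}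
            = ∅ := by
          ext H
          simp only [Set.mem_singleton_iff, Set.mem_ofPred_eq, Set.mem_empty_iff_false, iff_false]
          rintro ⟨rfl, -, h2⟩
          omega
        rw [this, Set.ncard_empty]
        have h' : Nat.beq j 0 = false := by
          rw [← Bool.not_eq_true, Nat.beq_eq]; exact hj
        simp [cntC, h']
    · have : {H | H ∈ ({K} : Set (SimpleGraph (Fin n))) ∧ ConP (K.edgeSet.ncard + j) H}
          = ∅ := by
        ext H
        simp only [Set.mem_singleton_iff, Set.mem_ofPred_eq, Set.mem_empty_iff_false, iff_false]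
        rintro ⟨rfl, h1, -⟩
        exact hc (hcon.1 h1)
      rw [this, Set.ncard_empty]
      have h' : Nat.beq c 1 = false := by
        rw [← Bool.not_eq_true, Nat.beq_eq]; exact hc
      simp [cntC, h']
  | cons e es ih =>
    intro K l c j hOk hR
    have hcon := connected_iff_card K
    rw [hR.comps] at hcon
    cases j with
    | zero =>
      have key : {H | H ∈ Btw K (e :: es) ∧ ConP (K.edgeSet.ncard + 0) H} =
          {H | H = K ∧ K.Connected} := by
        ext H
        simp only [Set.mem_ofPred_eq]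
        constructor
        · rintro ⟨⟨h1, h2⟩, h3, h4⟩
          have : K.edgeSet = H.edgeSet :=
            Set.eq_of_subset_of_ncard_le (edgeSet_mono h1) (by omega) (Set.toFinite _)
          have : K = H := edgeSet_inj.1 this
          subst this
          exact ⟨rfl, h3⟩
        · rintro ⟨rfl, h⟩
          exact ⟨⟨le_rfl, le_sup_left⟩, h, rfl⟩
      rw [key]
      by_cases hc : c = 1
      · have : {H | H = K ∧ K.Connected} = {K} := by
          ext H
          simp [hcon.2 hc]
        rw [this, Set.ncard_singleton]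
        simp [cntC, hc]
      · have : {H | H = K ∧ K.Connected} = ∅ := by
          ext H
          have : ¬ K.Connected := fun h => hc (hcon.1 h)
          simp [this]
        rw [this, Set.ncard_empty]
        have h' : Nat.beq c 1 = false := by
          rw [← Bool.not_eq_true, Nat.beq_eq]; exact hc
        simp [cntC, h']
    | succ j =>
      rw [cntC_cons]
      by_cases hcj : c ≤ j + 2
      · have hb : Nat.ble c (j + 2) = true := by rw [Nat.ble_eq]; exact hcj
        rw [hb]
        simp only [cond_true]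
        rw [ncard_cons hOk]
        obtain ⟨h1, h2, h3, h4⟩ := hOk
        rw [ih K l c (j + 1) h4 hR]
        congr 1
        have h5 := ncard_edge_sup K e.1 e.2 h1 h2
        rw [show K.edgeSet.ncard + (j + 1) = (K ⊔ edge e.1 e.2).edgeSet.ncard + j by
          rw [h5]; omega]
        by_cases hl : lab l e.1 = lab l e.2
        · have hb : Nat.beq (lab l e.1) (lab l e.2) = true := by rw [Nat.beq_eq]; exact hl
          rw [hb]
          simp only [cond_true]
          exact ih _ _ _ _ (h4.sup h3) (hR.skip _ _ hl)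
        · have hb : Nat.beq (lab l e.1) (lab l e.2) = false := by
            rw [← Bool.not_eq_true, Nat.beq_eq]; exact hl
          rw [hb]
          simp only [cond_false]
          exact ih _ _ _ _ (h4.sup h3) (hR.take _ _ hl)
      · have hb : Nat.ble c (j + 2) = false := by
          rw [← Bool.not_eq_true, Nat.ble_eq]; exact hcj
        rw [hb]
        simp only [cond_false]
        rw [no_conn (e :: es) K (j + 1) hOk (by rw [hR.comps]; omega), Set.ncard_empty]

lemma ok_bot {n : ℕ} (es : List (Fin n × Fin n)) (h1 : ∀ e ∈ es, e.1 ≠ e.2)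
    (h2 : es.Pairwise (fun e f => s(f.1, f.2) ≠ s(e.1, e.2))) : Ok ⊥ es := by
  induction es with
  | nil => trivial
  | cons e es ih =>
    rw [List.pairwise_cons] at h2
    exact ⟨h1 e List.mem_cons_self, by simp, h2.1,
      ih (fun f hf => h1 f (List.mem_cons_of_mem _ hf)) h2.2⟩

lemma le_gr_iff {n : ℕ} (es : List (Fin n × Fin n)) (H : SimpleGraph (Fin n)) :
    H ≤ gr es ↔ H ∈ Btw ⊥ es := by
  simp [Btw]

lemma mem_edge_iff {n : ℕ} {e : Fin n × Fin n} {es : List (Fin n × Fin n)}
    (h : Ok ⊥ (e :: es)) (H : SimpleGraph (Fin n)) :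
    (H ≤ gr (e :: es) ∧ s(e.1, e.2) ∈ H.edgeSet) ↔ H ∈ Btw (⊥ ⊔ edge e.1 e.2) es := by
  rw [le_gr_iff, btw_cons h]
  have hd := btw_disj h
  obtain ⟨h1, h2, h3, h4⟩ := h
  constructor
  · rintro ⟨h5 | h5, h6⟩
    · exfalso
      have h7 := h5.2 h6
      rw [sup_adj, gr_adj] at h7
      rcases h7 with h7 | ⟨f, hf, hfe, -⟩
      · exact h2 h7
      · exact h3 f hf hfe
    · exact h5
  · intro h5
    refine ⟨Or.inr h5, ?_⟩
    rw [mem_edgeSet]
    apply h5.1
    rw [sup_adj, edge_adj]
    exact Or.inr ⟨Or.inl ⟨rfl, rfl⟩, h1⟩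

/-- labels after the first edge -/
lemma rep_edge {n : ℕ} (e : Fin n × Fin n) (he : e.1 ≠ e.2) :
    Rep (⊥ ⊔ edge e.1 e.2) (mrg (List.range n) e.1 e.2) (n - 1) := by
  apply (Rep.bot n).take
  intro h
  have := ((Rep.bot n).reach e.1 e.2).2 h
  rw [reachable_bot] at this
  exact he this

end Pool.Agent.R953.UF
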